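import Mathlib

/-!
# Definitions for the square matrix theorem over group rings of RFRS groups

* `OrdTower N Λ`: subgroups `k i ≤ n i` of `N`, `n i` normal of finite index decreasing, `k i` normal in `N`
  decreasing with trivial intersection, `n i / k i` abelian, and heights `H i : N → Λ` with values in an ordered
  abelian group, injective on `N / k i`, such that the order of `N / k i` induced by `H i` is invariant under
  left multiplication by `N`, the differences of heights are invariant under right multiplication by `n i`,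
  and `H i` is a monotone image of `H (i + 1)`.
* A kernel is a function `T : N → N → K`, `T z y` the coefficient from `y` to `z`.
* `GoodRel 𝒯 i ρ`: `ρ` is right invariant under `n i`, its columns have finite fibres over `N / k i` and its
  set of degrees `H i z - H i y` is partially well ordered.
* `Ker 𝒯 K`: the kernels whose support is good for some `i`.
* `kmul`: the product of kernels, `lamf x`: the kernel of the left multiplication by `x`.
* `psum 𝒯 j T`: the column sums over the cosets of `k j`.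
* `Cen 𝒯 j d`: `d` is supported in `n j` and central modulo `k j`.
* `Lead 𝒯 j T p`: the column of `T` at `y` has the unique lowest element `p y` for the height `H j`.
-/

open Finset

namespace Pool.Agent.MelS

/-- Order data. -/
structure OrdTower (N Λ : Type) [Group N] [AddCommGroup Λ] [LinearOrder Λ] [IsOrderedAddMonoid Λ] where
  n : ℕ → Subgroup N
  k : ℕ → Subgroup N
  H : ℕ → N → Λ
  n_normal : ∀ i, (n i).Normal
  n_fin : ∀ i, (n i).FiniteIndex
  n_anti : ∀ i, n (i + 1) ≤ n i
  k_normal : ∀ i, (k i).Normal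
  k_le : ∀ i, k i ≤ n i
  k_anti : ∀ i, k (i + 1) ≤ k i
  comm : ∀ i, ∀ a ∈ n i, ∀ b ∈ n i, a * b * a⁻¹ * b⁻¹ ∈ k i
  inf : ∀ g, (∀ i, g ∈ k i) → g = 1
  H_eq : ∀ i y z, H i y = H i z ↔ y⁻¹ * z ∈ k i
  H_mul : ∀ i y z, ∀ h ∈ n i, H i (z * h) - H i (y * h) = H i z - H i y
  H_left : ∀ i g y z, H i y < H i z → H i (g * y) < H i (g * z)
  H_mono : ∀ i, ∃ t : Λ → Λ, Monotone t ∧ (∀ a b, t (a - b) = t a - t b) ∧ ∀ y, H i y = t (H (i + 1) y)

attribute [instance] OrdTower.n_normal OrdTower.n_fin OrdTower.k_normal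

/-- The same tower with the opposite heights. -/
def OrdTower.op {N Λ : Type} [Group N] [AddCommGroup Λ] [LinearOrder Λ] [IsOrderedAddMonoid Λ]
    (𝒯 : OrdTower N Λ) : OrdTower N Λ where
  n := 𝒯.n
  k := 𝒯.k
  H i y := - 𝒯.H i y
  n_normal := 𝒯.n_normal
  n_fin := 𝒯.n_fin
  n_anti := 𝒯.n_anti
  k_normal := 𝒯.k_normal
  k_le := 𝒯.k_le
  k_anti := 𝒯.k_anti
  comm := 𝒯.comm
  inf := 𝒯.inf
  H_eq i y z := by rw [neg_inj]; exact 𝒯.H_eq i y z
  H_mul i y z h hh := by
    have h1 := 𝒯.H_mul i y z h hh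
    have h2 : - 𝒯.H i (z * h) - - 𝒯.H i (y * h) = - (𝒯.H i (z * h) - 𝒯.H i (y * h)) := by abel
    rw [h2, h1]; abel
  H_left i g y z h := by
    have h1 := 𝒯.H_left i g z y (neg_lt_neg_iff.mp h)
    exact neg_lt_neg h1
  H_mono i := by
    obtain ⟨t, h1, h2, h3⟩ := 𝒯.H_mono i
    have h0 : t 0 = 0 := by
      have := h2 0 0
      rw [sub_self, sub_self] at this
      exact this
    have hn : ∀ a, t (-a) = - t a := by
      intro a
      have := h2 0 a
      rw [zero_sub, h0, zero_sub] at this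
      exact this
    exact ⟨t, h1, h2, fun y => by rw [hn, h3]⟩

section

variable {N Λ : Type} [Group N] [AddCommGroup Λ] [LinearOrder Λ] [IsOrderedAddMonoid Λ]
variable (𝒯 : OrdTower N Λ) {K : Type} [Field K]

/-- Good relations of level `i`. -/
def GoodRel (i : ℕ) (ρ : N → N → Prop) : Prop :=
  (∀ h ∈ 𝒯.n i, ∀ z y, ρ z y → ρ (z * h) (y * h)) ∧
  (∀ z y, {z' | ρ z' y ∧ z⁻¹ * z' ∈ 𝒯.k i}.Finite) ∧
  {a | ∃ z y, ρ z y ∧ a = 𝒯.H i z - 𝒯.H i y}.IsPWO

/-- Good kernels of level `i`. -/
def Good (i : ℕ) (T : N → N → K) : Prop :=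
  (∀ h ∈ 𝒯.n i, ∀ z y, T (z * h) (y * h) = T z y) ∧ GoodRel 𝒯 i (fun z y => T z y ≠ 0)

/-- The product of kernels. -/
noncomputable def kmul (T S : N → N → K) : N → N → K := fun z y => ∑ᶠ w, T z w * S w y

open Classical in
/-- The unit kernel. -/
noncomputable def kone : N → N → K := fun z y => if z = y then 1 else 0

/-- The kernel of the left multiplication by `x`. -/
def lamf (x : MonoidAlgebra K N) : N → N → K := fun z y => x.coeff (z * y⁻¹)

/-- The column sums over the cosets of `k j`. -/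
noncomputable def psum (j : ℕ) (T : N → N → K) : N → N → K := fun z y => ∑ᶠ κ : 𝒯.k j, T (z * κ) y

/-- The kernels which are good for some level. -/
def Ker (K : Type) [Field K] : Type := {T : N → N → K // ∃ i, Good 𝒯 i T}

/-- `p y` is the unique lowest element of the column of `T` at `y`, for the height `H j`. -/
def Lead (j : ℕ) (T : N → N → K) (p : N → N) : Prop :=
  ∀ y, T (p y) y ≠ 0 ∧ ∀ z, T z y ≠ 0 → z ≠ p y → 𝒯.H j (p y) < 𝒯.H j z

end

section

variable {N : Type} [Group N]

/-- The map of group rings induced by the projection to a quotient group. -/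
noncomputable def mapQ (K : Type) [Semiring K] (M : Subgroup N) [M.Normal] :
    MonoidAlgebra K N →+* MonoidAlgebra K (N ⧸ M) :=
  MonoidAlgebra.mapDomainRingHom K (QuotientGroup.mk' M)

/-- The map from the integral group ring to the group ring of a quotient group modulo `p`. -/
noncomputable def red (p : ℕ) (M : Subgroup N) [M.Normal] :
    MonoidAlgebra ℤ N →+* MonoidAlgebra (ZMod p) (N ⧸ M) :=
  (MonoidAlgebra.mapRingHom (N ⧸ M) (Int.castRingHom (ZMod p))).comp (mapQ ℤ M)

/-- `J` becomes invertible over `𝔽_p[N/M]` for all primes `p` and all normal subgroups `M` of finite index. -/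
def FinInv {ι : Type} [Fintype ι] [DecidableEq ι] (J : Matrix ι ι (MonoidAlgebra ℤ N)) : Prop :=
  ∀ (M : Subgroup N) (_ : M.Normal), M.FiniteIndex → ∀ p : ℕ, p.Prime → IsUnit (J.map (red p M))

/-- Residually finite rationally solvable groups. -/
def IsRFRS (N : Type) [Group N] : Prop :=
  ∃ c : ℕ → Subgroup N, c 0 = ⊤ ∧ (∀ i, (c i).Normal) ∧ (∀ i, (c i).FiniteIndex) ∧
    (∀ i, c (i + 1) ≤ c i) ∧
    (∀ i, ∀ g ∈ c i, ∀ m : ℕ, 0 < m → g ^ m ∈ ⁅c i, c i⁆ → g ∈ c (i + 1)) ∧
    ∀ g, (∀ i, g ∈ c i) → g = 1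

variable {Λ : Type} [AddCommGroup Λ] [LinearOrder Λ] [IsOrderedAddMonoid Λ]

/-- `d` is supported in `n j` and central modulo `k j`. -/
def Cen (𝒯 : OrdTower N Λ) {K : Type} [Field K] (j : ℕ) (d : MonoidAlgebra K N) : Prop :=
  (∀ h ∈ d.coeff.support, h ∈ 𝒯.n j) ∧
    ∀ g : N, mapQ K (𝒯.k j) (MonoidAlgebra.single g 1 * d) = mapQ K (𝒯.k j) (d * MonoidAlgebra.single g 1)

end

end Pool.Agent.MelS
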