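import Pool.Agent.MelS.Onto2

/-!
# Dense subgroups of finite index subgroups (helper14)

`G` a finitely presented group with `k` generators and `m` relators, virtually RFRS, `U` a subgroup of index `s`.
* `pres`: `U` has a presentation with `k s` generators and `m s + (s - 1)` relators (Reidemeister, with the
  transversal made trivial by `s - 1` relators).
* `dense_fi`: a subgroup `T ≤ U` generated by `n` elements, which is dense in `U` in the profinite topology of `G`,
  has `n ≥ 1 + (k - m - 1) s`; in case of equality `T = U` is free on the `n` elements.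
-/

open Finset

namespace Pool.Agent.MelS

namespace DenseFree

theorem fi_comap {N H : Type*} [Group N] [Group H] (f : H →* N) (K : Subgroup N) [K.FiniteIndex] :
    (K.comap f).FiniteIndex :=
  ⟨by rw [Subgroup.index_comap]; exact (Subgroup.instFiniteIndex_subgroupOf K f.range).index_ne_zero⟩

/-- RFRS passes to subgroups. -/
theorem rfrs_comap {N H : Type} [Group N] [Group H] (f : H →* N) (hf : Function.Injective f) (h : IsRFRS N) :
    IsRFRS H := by
  obtain ⟨c, h0, hn, hi, ha, ht, hb⟩ := h
  refine ⟨fun i => (c i).comap f, ?_, fun i => ?_, fun i => ?_, fun i => ?_, ?_, ?_⟩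
  · show (c 0).comap f = ⊤
    rw [h0, Subgroup.comap_top]
  · have := hn i
    exact inferInstanceAs ((c i).comap f).Normal
  · have := hi i
    exact fi_comap f (c i)
  · exact Subgroup.comap_mono (ha i)
  · intro i g hg m hm hgm
    refine ht i (f g) hg m hm ?_
    rw [← map_pow]
    have h1 : (⁅(c i).comap f, (c i).comap f⁆).map f ≤ ⁅c i, c i⁆ := by
      rw [Subgroup.map_commutator]
      exact Subgroup.commutator_mono (Subgroup.map_comap_le _ _) (Subgroup.map_comap_le _ _)
    exact h1 ⟨_, hgm, rfl⟩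
  · intro g hg
    apply hf
    rw [map_one]
    exact hb (f g) hg

/-- `dense_free` for a group given by a homomorphism from a free group. -/
theorem dense_free_hom {d m : ℕ} {H : Type} [Group H] (r : Fin m → FreeGroup (Fin (d + m)))
    (π : FreeGroup (Fin (d + m)) →* H) (hπ : Function.Surjective π)
    (hk : π.ker = Subgroup.normalClosure (Set.range r))
    (ψ : FreeGroup (Fin d) →* H)
    (hD : ∀ V : Subgroup H, V.FiniteIndex → (∀ x, ψ x ∈ V) → V = ⊤)
    (N : Subgroup H) (hN : N.Normal) (hNf : N.FiniteIndex) (hR : IsRFRS N) : Function.Bijective ψ := by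
  let e : PresentedGroup (Set.range r) ≃* H :=
    (QuotientGroup.quotientMulEquivOfEq hk.symm).trans (QuotientGroup.quotientKerEquivOfSurjective π hπ)
  have he : ∀ x, e (PresentedGroup.mk (Set.range r) x) = π x := fun _ => rfl
  obtain ⟨s, hs⟩ : ∃ s : H → FreeGroup (Fin (d + m)), ∀ x, π (s x) = x :=
    ⟨Function.surjInv hπ, Function.surjInv_eq hπ⟩
  let φ : FreeGroup (Fin d) →* FreeGroup (Fin (d + m)) := FreeGroup.lift fun i => s (ψ (FreeGroup.of i))
  have hφ : ∀ x, e (PresentedGroup.mk (Set.range r) (φ x)) = ψ x := by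
    intro x
    have h1 : π.comp φ = ψ := by
      ext i
      show π (φ (FreeGroup.of i)) = _
      rw [FreeGroup.lift_apply_of, hs]
    rw [he]
    exact DFunLike.congr_fun h1 x
  have h2 := dense_free r φ (fun U hU hx => by
    have h3 : (U.map e.toMonoidHom) = ⊤ := by
      refine hD _ ?_ fun x => ?_
      · have h4 : U.map e.toMonoidHom = U.comap e.symm.toMonoidHom :=
          Subgroup.map_equiv_eq_comap_symm e U
        rw [h4]
        exact fi_comap _ U
      · rw [← hφ]
        exact ⟨_, hx x, rfl⟩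
    rw [Subgroup.eq_top_iff']
    intro g
    have h4 : e g ∈ U.map e.toMonoidHom := by
      rw [h3]
      exact Subgroup.mem_top _
    obtain ⟨g', hg', h5⟩ := h4
    rw [← e.injective h5]
    exact hg') (N.comap e.toMonoidHom) inferInstance (fi_comap _ N)
    (rfrs_comap (e.toMonoidHom.subgroupComap N) (fun a b hab => by
      apply Subtype.ext
      apply e.injective
      exact congrArg Subtype.val hab) hR)
  have h3 : (fun x => e (PresentedGroup.mk (Set.range r) (φ x))) = ψ := funext hφ
  rw [← h3]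
  exact e.bijective.comp h2

section pres

variable {α : Type} {κ P : Type} [Group P] (A : FreeGroup α →* Equiv.Perm κ) (X : α → κ → P)

/-- The action on the product with a group. -/
def gen (j : α) : Equiv.Perm (κ × P) where
  toFun x := (A (FreeGroup.of j) x.1, X j x.1 * x.2)
  invFun x := ((A (FreeGroup.of j)).symm x.1, (X j ((A (FreeGroup.of j)).symm x.1))⁻¹ * x.2)
  left_inv x := by
    ext
    · simp
    · simp
  right_inv x := by
    ext
    · simp
    · simp

/-- The action of the free group. -/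
def Wr : FreeGroup α →* Equiv.Perm (κ × P) := FreeGroup.lift (gen A X)

/-- The cocycle. -/
def cc (w : FreeGroup α) (a : κ) : P := (Wr A X w (a, 1)).2

theorem Wr_apply (w : FreeGroup α) (a : κ) (p : P) : Wr A X w (a, p) = (A w a, cc A X w a * p) := by
  induction w using FreeGroup.induction_on generalizing a p with
  | C1 =>
    unfold cc
    rw [map_one, map_one]
    simp
  | of j =>
    unfold cc Wr
    rw [FreeGroup.lift_apply_of]
    show (A (FreeGroup.of j) a, X j a * p) = (A (FreeGroup.of j) a, X j a * 1 * p)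
    rw [mul_one]
  | inv_of j _ =>
    unfold cc Wr
    rw [map_inv, map_inv, FreeGroup.lift_apply_of]
    show ((A (FreeGroup.of j)).symm a, (X j ((A (FreeGroup.of j)).symm a))⁻¹ * p) =
      ((A (FreeGroup.of j)).symm a, (X j ((A (FreeGroup.of j)).symm a))⁻¹ * 1 * p)
    rw [mul_one]
  | mul x y hx hy =>
    have h1 : cc A X (x * y) a = cc A X x (A y a) * cc A X y a := by
      unfold cc
      rw [map_mul, Equiv.Perm.mul_apply, hy, mul_one, hx]
      rfl
    rw [map_mul, Equiv.Perm.mul_apply, hy, hx, map_mul, Equiv.Perm.mul_apply, h1, mul_assoc]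

theorem cc_mul (x y : FreeGroup α) (a : κ) : cc A X (x * y) a = cc A X x (A y a) * cc A X y a := by
  have h1 : Wr A X (x * y) (a, 1) = (A x (A y a), cc A X x (A y a) * (cc A X y a * 1)) := by
    rw [map_mul, Equiv.Perm.mul_apply, Wr_apply A X y, Wr_apply A X x]
  show (Wr A X (x * y) (a, 1)).2 = _
  rw [h1, mul_one]

theorem cc_of (j : α) (a : κ) : cc A X (FreeGroup.of j) a = X j a := by
  unfold cc Wr
  rw [FreeGroup.lift_apply_of]
  show X j a * 1 = _
  rw [mul_one]

theorem cc_one (a : κ) : cc A X 1 a = 1 := by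
  unfold cc
  rw [map_one]
  rfl

/-- A cocycle is determined by its values on the generators. -/
theorem cc_unique (u : FreeGroup α → κ → P) (h1 : ∀ x y a, u (x * y) a = u x (A y a) * u y a)
    (h2 : ∀ j a, u (FreeGroup.of j) a = X j a) (w : FreeGroup α) (a : κ) : u w a = cc A X w a := by
  have h0 : ∀ a, u 1 a = 1 := by
    intro a
    have := h1 1 1 a
    rw [mul_one, map_one, Equiv.Perm.one_apply] at this
    exact mul_eq_left.mp this.symm |>.trans rfl
  induction w using FreeGroup.induction_on generalizing a with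
  | C1 => rw [h0, cc_one]
  | of j => rw [h2, cc_of]
  | inv_of j _ =>
    have h3 := h1 (FreeGroup.of j) (FreeGroup.of j)⁻¹ a
    have h4 := cc_mul A X (FreeGroup.of j) (FreeGroup.of j)⁻¹ a
    rw [mul_inv_cancel, h0, h2] at h3
    rw [mul_inv_cancel, cc_one, cc_of] at h4
    exact mul_left_cancel (h3.symm.trans h4)
  | mul x y hx hy => rw [h1, cc_mul, hx, hy]

theorem map_cc {Q : Type} [Group Q] (f : P →* Q) (w : FreeGroup α) (a : κ) :
    f (cc A X w a) = cc A (fun j a => f (X j a)) w a := by
  refine cc_unique A (fun j a => f (X j a)) (fun w a => f (cc A X w a)) ?_ ?_ w a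
  · intro x y a
    show f _ = f _ * f _
    rw [cc_mul, map_mul]
  · intro j a
    show f _ = _
    rw [cc_of]

/-- **The presentation of a subgroup.** -/
theorem pres_sub {α β G : Type} [Group G] (π : FreeGroup α →* G) (hπ : Function.Surjective π)
    (r : β → FreeGroup α) (hk : π.ker = Subgroup.normalClosure (Set.range r)) (U : Subgroup G) :
    ∃ (r' : (β × (G ⧸ U)) ⊕ {a : G ⧸ U // a ≠ ((1 : G) : G ⧸ U)} → FreeGroup (α × (G ⧸ U)))
      (Φ : FreeGroup (α × (G ⧸ U)) →* U), Function.Surjective Φ ∧
      Φ.ker = Subgroup.normalClosure (Set.range r') := by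
  classical
  let κ := G ⧸ U
  let a₀ : κ := ((1 : G) : G ⧸ U)
  let A : FreeGroup α →* Equiv.Perm κ := (MulAction.toPermHom G (G ⧸ U)).comp π
  have hA : ∀ w (g : G), A w ((g : G) : G ⧸ U) = ((π w * g : G) : G ⧸ U) := fun _ _ => rfl
  obtain ⟨t, ht0, ht⟩ : ∃ t : κ → FreeGroup α, t a₀ = 1 ∧ ∀ a, ((π (t a) : G) : G ⧸ U) = a := by
    have h1 : ∀ a : κ, ∃ w, ((π w : G) : G ⧸ U) = a := by
      intro a
      obtain ⟨g, rfl⟩ := QuotientGroup.mk_surjective a
      obtain ⟨w, rfl⟩ := hπ g
      exact ⟨w, rfl⟩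
    choose t ht using h1
    refine ⟨fun a => if a = a₀ then 1 else t a, if_pos rfl, fun a => ?_⟩
    by_cases h : a = a₀
    · simp only [if_pos h, map_one]
      exact h.symm
    · simp only [if_neg h]
      exact ht a
  have hA0 : ∀ w, A w a₀ = ((π w : G) : G ⧸ U) := by
    intro w
    rw [hA, mul_one]
  have hAt : ∀ a, A (t a) a₀ = a := fun a => by rw [hA0, ht]
  have hA1 : ∀ w, π w ∈ U → A w a₀ = a₀ := by
    intro w hw
    rw [hA0]
    exact ((QuotientGroup.eq (s := U)).mpr (by rw [inv_one, one_mul]; exact hw)).symm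
  have hu : ∀ w a, (π (t (A w a)))⁻¹ * π w * π (t a) ∈ U := by
    intro w a
    rw [mul_assoc, ← QuotientGroup.eq (s := U), ht, ← hA, ht]
  let u : FreeGroup α → κ → U := fun w a => ⟨_, hu w a⟩
  let Xf : α → κ → FreeGroup (α × κ) := fun j a => FreeGroup.of (j, a)
  let r' : (β × κ) ⊕ {a : κ // a ≠ a₀} → FreeGroup (α × κ) :=
    Sum.elim (fun x => cc A Xf (r x.1) x.2) (fun a => cc A Xf (t a.1) a₀)
  let Φ : FreeGroup (α × κ) →* U := FreeGroup.lift fun x => u (FreeGroup.of x.1) x.2
  have hΦX : ∀ j a, Φ (Xf j a) = u (FreeGroup.of j) a := by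
    intro j a
    show FreeGroup.lift _ _ = _
    rw [FreeGroup.lift_apply_of]
  have hΦ : ∀ w a, Φ (cc A Xf w a) = u w a := by
    intro w a
    rw [map_cc]
    symm
    refine cc_unique A _ u ?_ (fun j a => (hΦX j a).symm) w a
    intro x y a
    apply Subtype.ext
    show (π (t (A (x * y) a)))⁻¹ * π (x * y) * π (t a) =
      (π (t (A x (A y a))))⁻¹ * π x * π (t (A y a)) * ((π (t (A y a)))⁻¹ * π y * π (t a))
    rw [map_mul A, Equiv.Perm.mul_apply, map_mul]
    group
  have hr : ∀ l, π (r l) = 1 := by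
    intro l
    rw [← MonoidHom.mem_ker, hk]
    exact Subgroup.subset_normalClosure ⟨l, rfl⟩
  have hA' : ∀ w, π w = 1 → A w = 1 := by
    intro w hw
    show MulAction.toPermHom G (G ⧸ U) (π w) = 1
    rw [hw, map_one]
  let mkP : FreeGroup (α × κ) →* FreeGroup (α × κ) ⧸ Subgroup.normalClosure (Set.range r') := QuotientGroup.mk' _
  have hmk : ∀ x, mkP (r' x) = 1 := by
    intro x
    show (QuotientGroup.mk (r' x) : FreeGroup (α × κ) ⧸ Subgroup.normalClosure (Set.range r')) = 1
    rw [QuotientGroup.eq_one_iff]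
    exact Subgroup.subset_normalClosure ⟨x, rfl⟩
  let c : FreeGroup α → κ → FreeGroup (α × κ) ⧸ Subgroup.normalClosure (Set.range r') :=
    fun w a => cc A (fun j a => mkP (Xf j a)) w a
  have hc : ∀ w a, mkP (cc A Xf w a) = c w a := fun w a => map_cc A Xf mkP w a
  have hcm : ∀ x y a, c (x * y) a = c x (A y a) * c y a := fun x y a => cc_mul A _ x y a
  have hc1 : ∀ a, c 1 a = 1 := fun a => cc_one A _ a
  have hker : π.ker ≤ (Wr A fun j a => mkP (Xf j a)).ker := by
    rw [hk]
    refine Subgroup.normalClosure_le_normal ?_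
    rintro _ ⟨l, rfl⟩
    show Wr A (fun j a => mkP (Xf j a)) (r l) = 1
    apply Equiv.ext
    rintro ⟨a, p⟩
    rw [Wr_apply, hA' _ (hr l)]
    have h1 : cc A (fun j a => mkP (Xf j a)) (r l) a = 1 := by
      show c (r l) a = 1
      rw [← hc]
      exact hmk (Sum.inl (l, a))
    rw [h1, one_mul]
    rfl
  have hceq : ∀ x y a, π x = π y → c x a = c y a := by
    intro x y a hxy
    have h1 : x * y⁻¹ ∈ π.ker := by
      rw [MonoidHom.mem_ker, map_mul, map_inv, hxy, mul_inv_cancel]
    have h2 := hker h1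
    rw [MonoidHom.mem_ker, map_mul, map_inv, mul_inv_eq_one] at h2
    show (Wr A (fun j a => mkP (Xf j a)) x (a, 1)).2 = (Wr A (fun j a => mkP (Xf j a)) y (a, 1)).2
    rw [h2]
  have hct : ∀ a, c (t a) a₀ = 1 := by
    intro a
    by_cases h : a = a₀
    · rw [h, ht0, hc1]
    · rw [← hc]
      exact hmk (Sum.inr ⟨a, h⟩)
  have hcti : ∀ a, c (t a)⁻¹ a = 1 := by
    intro a
    have h1 := hcm (t a)⁻¹ (t a) a₀
    rw [inv_mul_cancel, hc1, hAt, hct, mul_one] at h1
    exact h1.symm
  have hQ : ∀ z w, π w = (Φ z : G) → mkP z = c w a₀ := by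
    intro z
    induction z using FreeGroup.induction_on with
    | C1 =>
      intro w hw
      rw [map_one, hceq w 1 a₀ (by rw [hw, map_one, map_one]; rfl), hc1]
    | of x =>
      obtain ⟨j, a⟩ := x
      intro w hw
      have h1 : π w = π ((t (A (FreeGroup.of j) a))⁻¹ * (FreeGroup.of j * t a)) := by
        rw [hw, show Φ (FreeGroup.of (j, a)) = u (FreeGroup.of j) a from hΦX j a, map_mul, map_inv, map_mul,
          ← mul_assoc]
      rw [hceq w _ a₀ h1, hcm, hcm, hct, mul_one, hAt]
      have h2 : A (FreeGroup.of j * t a) a₀ = A (FreeGroup.of j) a := by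
        rw [map_mul, Equiv.Perm.mul_apply, hAt]
      rw [h2, hcti, one_mul]
      exact (cc_of A (fun j a => mkP (Xf j a)) j a).symm
    | inv_of x ih =>
      intro w hw
      have h1 : π w⁻¹ = (Φ (FreeGroup.of x) : G) := by
        rw [map_inv, hw, map_inv]
        show ((Φ (FreeGroup.of x) : G)⁻¹)⁻¹ = _
        rw [inv_inv]
      have h2 := ih w⁻¹ h1
      have h3 := hcm w⁻¹ w a₀
      have h4 : A w a₀ = a₀ := hA1 w (by rw [hw]; exact Subtype.mem _)
      rw [inv_mul_cancel, hc1, h4, ← h2] at h3
      rw [map_inv]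
      exact inv_eq_of_mul_eq_one_right h3.symm
    | mul x y hx hy =>
      intro w hw
      obtain ⟨v, hv⟩ := hπ (Φ y : G)
      have h1 : π (w * v⁻¹) = (Φ x : G) := by
        rw [map_mul, map_inv, hw, hv, map_mul]
        exact mul_inv_cancel_right _ _
      have h3 := hcm (w * v⁻¹) v a₀
      have h4 : A v a₀ = a₀ := hA1 v (by rw [hv]; exact Subtype.mem _)
      rw [inv_mul_cancel_right, h4, ← hx _ h1, ← hy _ hv] at h3
      rw [map_mul, h3]
  refine ⟨r', Φ, ?_, ?_⟩
  · rintro ⟨g, hg⟩
    obtain ⟨w, rfl⟩ := hπ g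
    refine ⟨cc A Xf w a₀, ?_⟩
    rw [hΦ]
    apply Subtype.ext
    show (π (t (A w a₀)))⁻¹ * π w * π (t a₀) = π w
    rw [hA1 w hg, ht0, map_one, inv_one, one_mul, mul_one]
  · apply le_antisymm
    · intro z hz
      have h1 := hQ z 1 (by rw [MonoidHom.mem_ker.mp hz, map_one]; rfl)
      rw [hc1] at h1
      exact (QuotientGroup.eq_one_iff z).mp h1
    · refine Subgroup.normalClosure_le_normal ?_
      rintro _ ⟨x, rfl⟩
      rcases x with ⟨l, a⟩ | ⟨a, ha⟩
      · show Φ (cc A Xf (r l) a) = 1
        rw [hΦ]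
        apply Subtype.ext
        show (π (t (A (r l) a)))⁻¹ * π (r l) * π (t a) = 1
        rw [hr, hA' _ (hr l), Equiv.Perm.one_apply, mul_one, inv_mul_cancel]
      · show Φ (cc A Xf (t a) a₀) = 1
        rw [hΦ]
        apply Subtype.ext
        show (π (t (A (t a) a₀)))⁻¹ * π (t a) * π (t a₀) = 1
        rw [hAt, ht0, map_one, mul_one, inv_mul_cancel]

end pres

/-- `dense_free_hom` for arbitrary index types. -/
theorem dense_free_type {α β : Type} [Fintype α] [Fintype β] {d : ℕ} {H : Type} [Group H]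
    (hc : Fintype.card α = d + Fintype.card β) (r : β → FreeGroup α)
    (π : FreeGroup α →* H) (hπ : Function.Surjective π) (hk : π.ker = Subgroup.normalClosure (Set.range r))
    (ψ : FreeGroup (Fin d) →* H)
    (hD : ∀ V : Subgroup H, V.FiniteIndex → (∀ x, ψ x ∈ V) → V = ⊤)
    (N : Subgroup H) (hN : N.Normal) (hNf : N.FiniteIndex) (hR : IsRFRS N) : Function.Bijective ψ := by
  let eα : α ≃ Fin (d + Fintype.card β) := Fintype.equivFinOfCardEq hc
  let eβ : β ≃ Fin (Fintype.card β) := Fintype.equivFin β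
  let E : FreeGroup α ≃* FreeGroup (Fin (d + Fintype.card β)) := FreeGroup.freeGroupCongr eα
  refine dense_free_hom (fun l => E (r (eβ.symm l))) (π.comp E.symm.toMonoidHom) (hπ.comp E.symm.surjective) ?_
    ψ hD N hN hNf hR
  have h1 : (π.comp E.symm.toMonoidHom).ker = π.ker.map E.toMonoidHom := by
    rw [← MonoidHom.comap_ker]
    exact (Subgroup.map_equiv_eq_comap_symm E π.ker).symm
  have h2 : (Subgroup.normalClosure (Set.range r)).map E.toMonoidHom =
      Subgroup.normalClosure (E.toMonoidHom '' Set.range r) :=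
    Subgroup.map_normalClosure _ E.toMonoidHom E.surjective
  rw [h1, hk, h2, ← Set.range_comp]
  congr 1
  exact ((eβ.symm.surjective.range_comp (fun b => E (r b)))).symm

end DenseFree

open DenseFree

/-- **Dense subgroups of subgroups of finite index.**  `G` has `k` generators and `m` relators and is virtually RFRS, `U`
is a subgroup of finite index and the image of `ψ : F_n → G` is a subgroup of `U`, dense in `U` in the profinite topology
of `G`.  Then `n ≥ 1 + (k - m - 1) [G : U]`, and if equality holds, then `ψ` is an isomorphism of `F_n` onto `U`. -/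
theorem dense_fi {k m n : ℕ} (r : Fin m → FreeGroup (Fin k)) (N : Subgroup (PresentedGroup (Set.range r)))
    (hN : N.Normal) (hNf : N.FiniteIndex) (hR : IsRFRS N) (U : Subgroup (PresentedGroup (Set.range r)))
    (hU : U.FiniteIndex) (ψ : FreeGroup (Fin n) →* PresentedGroup (Set.range r)) (hψ : ∀ x, ψ x ∈ U)
    (hD : ∀ V : Subgroup (PresentedGroup (Set.range r)), V.FiniteIndex → (∀ x, ψ x ∈ V) → U ≤ V) :
    k * U.index + 1 ≤ n + (m + 1) * U.index ∧
      (k * U.index + 1 = n + (m + 1) * U.index → Function.Injective ψ ∧ ψ.range = U) := by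
  classical
  set G := PresentedGroup (Set.range r) with hG
  have hs : 0 < U.index := Nat.pos_of_ne_zero hU.index_ne_zero
  rcases Nat.lt_or_ge (k * U.index) (m * U.index + (U.index - 1)) with hlt | hle
  · have h1 : (m + 1) * U.index = m * U.index + U.index := by ring
    constructor
    · omega
    · intro h
      omega
  obtain ⟨r', Φ, hΦ, hk⟩ := pres_sub (PresentedGroup.mk (Set.range r)) (PresentedGroup.mk_surjective _) r
    (QuotientGroup.ker_mk' _) U
  have hfin : Finite (G ⧸ U) := inferInstance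
  have : Fintype (G ⧸ U) := Fintype.ofFinite _
  have hcard : Fintype.card (G ⧸ U) = U.index := by
    rw [Subgroup.index, Nat.card_eq_fintype_card]
  have hcα : Fintype.card (Fin k × (G ⧸ U)) = k * U.index := by
    rw [Fintype.card_prod, Fintype.card_fin, hcard]
  have hcβ : Fintype.card ((Fin m × (G ⧸ U)) ⊕ {a : G ⧸ U // a ≠ ((1 : G) : G ⧸ U)}) =
      m * U.index + (U.index - 1) := by
    rw [Fintype.card_sum, Fintype.card_prod, Fintype.card_fin, hcard, Fintype.card_subtype_compl,
      Fintype.card_subtype_eq, hcard]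
  obtain ⟨d, hd⟩ : ∃ d, k * U.index = d + (m * U.index + (U.index - 1)) := ⟨_, (Nat.sub_add_cancel hle).symm⟩
  have key : ∀ h : n ≤ d, n = d ∧ (Function.Injective ψ ∧ ψ.range = U) := by
    intro h
    let ψ' : FreeGroup (Fin d) →* U :=
      FreeGroup.lift fun i => if h : (i : ℕ) < n then ⟨ψ (FreeGroup.of ⟨i, h⟩), hψ _⟩ else 1
    have h1 : ∀ i : Fin n, ψ' (FreeGroup.of (Fin.castLE h i)) = ⟨ψ (FreeGroup.of i), hψ _⟩ := by
      intro i
      show FreeGroup.lift _ _ = _
      rw [FreeGroup.lift_apply_of, dif_pos (show ((Fin.castLE h i : Fin d) : ℕ) < n from i.2)]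
      rfl
    have hb : Function.Bijective ψ' := by
      refine dense_free_type (d := d) (by rw [hcα, hcβ, hd]) r' Φ hΦ hk ψ' (fun V hV hx => ?_)
        (N.subgroupOf U) inferInstance inferInstance
        (rfrs_comap (U.subtype.subgroupComap N) (fun a b hab => Subtype.ext (Subtype.ext
          (congrArg (fun x : N => (x : G)) hab))) hR)
      have h2 : U ≤ V.map U.subtype := by
        refine hD _ ?_ fun x => ?_
        · refine ⟨?_⟩
          rw [Subgroup.index_map_subtype]
          exact mul_ne_zero hV.index_ne_zero hU.index_ne_zero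
        · induction x using FreeGroup.induction_on with
          | C1 => rw [map_one]; exact Subgroup.one_mem _
          | of i =>
            have h3 := hx (FreeGroup.of (Fin.castLE h i))
            rw [h1] at h3
            exact ⟨_, h3, rfl⟩
          | inv_of i hi => rw [map_inv]; exact Subgroup.inv_mem _ hi
          | mul a b ha hb => rw [map_mul]; exact Subgroup.mul_mem _ ha hb
      rw [Subgroup.eq_top_iff']
      rintro ⟨g, hg⟩
      obtain ⟨v, hv, h3⟩ := h2 hg
      have h4 : v = ⟨g, hg⟩ := Subtype.ext h3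
      rw [← h4]
      exact hv
    have hnd : n = d := by
      by_contra hne
      have hlt : n < d := lt_of_le_of_ne h hne
      have h2 : ψ' (FreeGroup.of ⟨n, hlt⟩) = 1 := by
        show FreeGroup.lift _ _ = _
        rw [FreeGroup.lift_apply_of, dif_neg (lt_irrefl n)]
      rw [← map_one ψ'] at h2
      exact FreeGroup.of_ne_one _ (hb.1 h2)
    refine ⟨hnd, ?_⟩
    subst hnd
    have h2 : ∀ x, (ψ' x : G) = ψ x := by
      intro x
      have h3 : U.subtype.comp ψ' = ψ := by
        ext i
        have h4 := h1 i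
        exact congrArg Subtype.val h4
      exact DFunLike.congr_fun h3 x
    refine ⟨fun a b hab => hb.1 (Subtype.ext (by rw [h2, h2, hab])), le_antisymm ?_ ?_⟩
    · rintro _ ⟨x, rfl⟩
      exact hψ x
    · intro g hg
      obtain ⟨x, hx⟩ := hb.2 ⟨g, hg⟩
      exact ⟨x, by rw [← h2, hx]⟩
  have hm : (m + 1) * U.index = m * U.index + U.index := by ring
  rcases Nat.lt_or_ge d n with h | h
  · constructor
    · omega
    · intro h'
      omega
  · obtain ⟨h1, h2⟩ := key h
    exact ⟨by omega, fun _ => h2⟩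

end Pool.Agent.MelS
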