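import Pool.Agent.MelS.Push

/-!
# Leading terms (module W6)

`exists_lead`: `T` good of level `i`, all columns non zero.  For `y` let `F y` be the set of the `z` with
`T z y ≠ 0` and `H i z` minimal: the degrees of column `y` form a non empty well founded set (PWO), and the
elements with minimal height are one fibre (`H_eq`), so `F y` is finite and non empty.  Choose representatives
`s` of the finite set `N / n i`.  As the `k j` decrease to `1` there is `j ≥ i, j₀` such that for all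
representatives `s` and all `z ≠ z'` in `F s`: `z⁻¹ z' ∉ k j`, i.e. `H j z ≠ H j z'`.  Let `y = s h`, `h ∈ n i`:
`F y = (F s) h` (`T (z h) (s h) = T z s` and `H_mul i`), and distinct elements of it have distinct `H j`
(`k j` is normal: `(z h)⁻¹ (z' h) = h⁻¹ (z⁻¹ z') h`).  Let `p y` be the element of `F y` with the smallest `H j`.
If `T z y ≠ 0`, `z ≠ p y`: if `z ∈ F y` then `H j (p y) < H j z`; otherwise `H i (p y) < H i z`, and `H i` is a monotone
image of `H j` (iterate `H_mono`), so `H j (p y) < H j z`.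

`lead_bij`: `T` good of level `i ≤ j`, `Lead 𝒯 j T p`, `d` central modulo `k j` and non zero modulo `k j`,
`T (lamf d) ≡ lamf x` (equal column sums of level `j`).  Write `f z = psum 𝒯 j T z y` (`y` fixed).
(a) `f z ≠ 0 → H j (p y) ≤ H j z`, and `f (p y) = T (p y) y ≠ 0` (another `κ ∈ k j`, `κ ≠ 1` with
  `T (p y κ) y ≠ 0` would give `H j (p y) < H j (p y κ) = H j (p y)`).
(b) Let `d'` be the image of `d` in `K[N / k j]`; choose `h₀` in the support of `d` with `d' [h₀] ≠ 0` and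
  `H j h₀` minimal among those `h` with `d' [h] ≠ 0`.  `F z = ∑ h, d h * f (z h⁻¹)` (`psum_cen`)
  `= ∑_{[h]} d' [h] f (z h⁻¹)` (as `f` is constant on cosets of `k j`).  At `z₀ = p y h₀` only `[h₀]`
  contributes: if `d' [h] ≠ 0` and `f (z₀ h⁻¹) ≠ 0` then `H j (p y) ≤ H j (p y h₀ h⁻¹)`, so
  `H j (p y h) ≤ H j (p y h₀)` (`H_mul`, `h ∈ n j`), so `H j h ≤ H j h₀` (`H_left`), so `[h] = [h₀]`.
  Hence `F z₀ ≠ 0`.  And if `F z ≠ 0` there is `h` with `d' [h] ≠ 0`, `f (z h⁻¹) ≠ 0`, so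
  `H j (p y) ≤ H j (z h⁻¹)`, `H j z₀ = H j (p y h₀) ≤ H j (p y h) ≤ H j z`.
(c) `F z = psum 𝒯 j (lamf x) z y = x' [z y⁻¹]` (`psum_lamf`), `x'` the image of `x`.  So `z₀ = z₀(y)` has
  `x' [z₀ y⁻¹] ≠ 0` and `H j z₀ ≤ H j z` for all `z` with `x' [z y⁻¹] ≠ 0`: i.e. `H j (z₀ y) ≤ H j (g y)` for all
  `g` with `x' [g] ≠ 0`, and `z₀(y) = g₀ y` modulo `k j` for such a `g₀`.
(d) `p` is injective modulo `n j`: let `p y` and `p y'` be in the same coset of `n j`; then so are `z₀(y)`, `z₀(y')`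
  (`n j` normal): `z₀(y') = z₀(y) h`, `h ∈ n j`.  Claim `H j y' = H j (y h)`.  If `H j (y h) < H j y'`: write
  `z₀(y') ≡ g' y'`; `H j (g' y h) < H j (g' y') = H j (z₀(y) h)`, so `H j (g' y) < H j (z₀ (y))` (`H_mul`),
  contradicting (c).  Symmetrically for `H j y' < H j (y h)` (write `z₀(y) ≡ g y`, so
  `z₀(y') = z₀(y) h ≡ g y h` and `H j (g y') < H j (g y h) = H j (z₀(y'))`).  So `y' ∈ y h k j`, in the same
  coset of `n j` as `y`.
(e) `p (y h) = p y h` for `h ∈ n j` (uniqueness of the lowest element).  So `p` induces an injective map on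
  the finite set `N / n j`, hence surjective; with equivariance `p` is surjective, and injective:
  `p y = p y'` gives `y' = y h`, `p y' = p y h`, `h = 1`.

`psum_cancel`: fix `y`, `f z = psum 𝒯 j T z y`.  If `f ≠ 0` take `z₁` with `f z₁ ≠ 0` and `H j z₁` minimal (the degrees
`H j z - H j y` with `f z ≠ 0` are among the degrees of `T`, a PWO set); the computation of (b) with `z₁` in place
of `p y` gives `F (z₁ h₀) = d' [h₀] f z₁ ≠ 0`, contradiction.  [It is best to prove (a), (b) once for a function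
`f` which is constant on the cosets of `k j` and an element `z₁` with `f z₁ ≠ 0`,
`f z ≠ 0 → H j z₁ ≤ H j z`.]
-/

set_option linter.unusedSectionVars false

open Finset

namespace Pool.Agent.MelS

variable {N Λ : Type} [Group N] [AddCommGroup Λ] [LinearOrder Λ] [IsOrderedAddMonoid Λ]
variable {𝒯 : OrdTower N Λ} {K : Type} [Field K]

/-! ### the order -/

theorem H_mul_lt {j : ℕ} {h : N} (hh : h ∈ 𝒯.n j) {y z : N} : 𝒯.H j (y * h) < 𝒯.H j (z * h) ↔ 𝒯.H j y < 𝒯.H j z := by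
  rw [← sub_pos, 𝒯.H_mul j y z h hh, sub_pos]

theorem H_mul_le {j : ℕ} {h : N} (hh : h ∈ 𝒯.n j) {y z : N} : 𝒯.H j (y * h) ≤ 𝒯.H j (z * h) ↔ 𝒯.H j y ≤ 𝒯.H j z := by
  rw [← not_lt, ← not_lt, H_mul_lt hh]

theorem H_left_lt {j : ℕ} (g : N) {y z : N} : 𝒯.H j (g * y) < 𝒯.H j (g * z) ↔ 𝒯.H j y < 𝒯.H j z := by
  refine ⟨fun h => ?_, fun h => 𝒯.H_left j g y z h⟩
  have h1 := 𝒯.H_left j g⁻¹ _ _ h
  rwa [inv_mul_cancel_left, inv_mul_cancel_left] at h1

theorem H_left_le {j : ℕ} (g : N) {y z : N} : 𝒯.H j (g * y) ≤ 𝒯.H j (g * z) ↔ 𝒯.H j y ≤ 𝒯.H j z := by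
  rw [← not_lt, ← not_lt, H_left_lt]

theorem H_k {j : ℕ} (z : N) {κ : N} (hκ : κ ∈ 𝒯.k j) : 𝒯.H j (z * κ) = 𝒯.H j z :=
  ((𝒯.H_eq j z (z * κ)).2 (by rwa [inv_mul_cancel_left])).symm

theorem H_up {i j : ℕ} (hij : i ≤ j) {y z : N} (h : 𝒯.H i y < 𝒯.H i z) : 𝒯.H j y < 𝒯.H j z := by
  induction j, hij using Nat.le_induction with
  | base => exact h
  | succ j _ ih =>
    obtain ⟨t, h1, -, h3⟩ := 𝒯.H_mono j
    by_contra hcon
    have h4 := h1 (not_lt.1 hcon)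
    rw [← h3, ← h3] at h4
    exact absurd ih (not_lt.2 h4)

/-- A set of elements with degrees in a partially well ordered set has a lowest element. -/
theorem exists_low {j : ℕ} {D : Set Λ} (hD : D.IsPWO) (y : N) {A : Set N} (hA : A.Nonempty)
    (h : ∀ z ∈ A, 𝒯.H j z - 𝒯.H j y ∈ D) : ∃ z ∈ A, ∀ z' ∈ A, 𝒯.H j z ≤ 𝒯.H j z' := by
  set B : Set Λ := (fun z => 𝒯.H j z - 𝒯.H j y) '' A with hB
  have hBw : B.IsWF := (hD.mono (by rintro _ ⟨z, hz, rfl⟩; exact h z hz)).isWF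
  have hBn : B.Nonempty := hA.image _
  obtain ⟨z, hz, hz'⟩ := hBw.min_mem hBn
  refine ⟨z, hz, fun z' hz1 => ?_⟩
  have h1 := hBw.min_le hBn (⟨z', hz1, rfl⟩ : 𝒯.H j z' - 𝒯.H j y ∈ B)
  rw [← hz'] at h1
  exact (sub_le_sub_iff_right _).1 h1

/-! ### leading terms exist -/

theorem exists_lead {i : ℕ} {T : N → N → K} (hT : Good 𝒯 i T) (hc : ∀ y, ∃ z, T z y ≠ 0) (j₀ : ℕ) :
    ∃ j, i ≤ j ∧ j₀ ≤ j ∧ ∃ p : N → N, Lead 𝒯 j T p := by
  classical
  set F : N → Set N := fun y => {z | T z y ≠ 0 ∧ ∀ z', T z' y ≠ 0 → 𝒯.H i z ≤ 𝒯.H i z'} with hF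
  have hFn : ∀ y, (F y).Nonempty := by
    intro y
    obtain ⟨z, h1, h2⟩ := exists_low (𝒯 := 𝒯) (j := i) hT.2.2.2 y (A := {z | T z y ≠ 0}) (hc y)
      fun z hz => ⟨z, y, hz, rfl⟩
    exact ⟨z, h1, h2⟩
  have hFf : ∀ y, (F y).Finite := by
    intro y
    obtain ⟨z, h1, h2⟩ := hFn y
    refine (hT.2.2.1 z y).subset fun z' hz' => ⟨hz'.1, ?_⟩
    exact (𝒯.H_eq i z z').1 (le_antisymm (h2 z' hz'.1) (hz'.2 z h1))
  have hFh : ∀ y h, h ∈ 𝒯.n i → ∀ z, z ∈ F (y * h) → z * h⁻¹ ∈ F y := by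
    intro y h hh z hz
    have hh' : h⁻¹ ∈ 𝒯.n i := (𝒯.n i).inv_mem hh
    refine ⟨?_, fun z' hz' => ?_⟩
    · have h1 := hT.1 h hh (z * h⁻¹) y
      rw [inv_mul_cancel_right] at h1
      rw [← h1]
      exact hz.1
    · have h1 := hz.2 (z' * h) (by rw [hT.1 h hh]; exact hz')
      have h2 := (H_mul_le (𝒯 := 𝒯) hh').2 h1
      rwa [mul_inv_cancel_right] at h2
  have hsep : ∀ z z' : N, ∃ j, z⁻¹ * z' ∈ 𝒯.k j → z' = z := by
    intro z z'
    by_contra hcon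
    push Not at hcon
    have h1 := 𝒯.inf (z⁻¹ * z') fun j => (hcon j).1
    exact (hcon 0).2 (inv_mul_eq_one.1 h1).symm
  choose J hJ using hsep
  have : Finite (N ⧸ 𝒯.n i) := Subgroup.finite_quotient_of_finiteIndex
  let _ : Fintype (N ⧸ 𝒯.n i) := Fintype.ofFinite _
  set j := max (max i j₀) (univ.sup fun c : N ⧸ 𝒯.n i => ((hFf c.out).toFinset ×ˢ (hFf c.out).toFinset).sup
    fun q => J q.1 q.2) with hj
  have hij : i ≤ j := (le_max_left _ _).trans (le_max_left _ _)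
  refine ⟨j, hij, (le_max_right _ _).trans (le_max_left _ _), ?_⟩
  have hsj : ∀ y z z', z ∈ F y → z' ∈ F y → z⁻¹ * z' ∈ 𝒯.k j → z' = z := by
    intro y z z' hz hz' hk
    set c : N ⧸ 𝒯.n i := QuotientGroup.mk y with hcd
    set h := c.out⁻¹ * y with hh
    have hhn : h ∈ 𝒯.n i := by
      rw [hh, ← QuotientGroup.eq, QuotientGroup.out_eq']
    have hy : y = c.out * h := by rw [hh, mul_inv_cancel_left]
    rw [hy] at hz hz'
    have h1 := hFh _ h hhn z hz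
    have h2 := hFh _ h hhn z' hz'
    have h3 : J (z * h⁻¹) (z' * h⁻¹) ≤ j := by
      refine le_trans ?_ (le_max_right _ _)
      refine le_trans ?_ (Finset.le_sup (f := fun c : N ⧸ 𝒯.n i => ((hFf c.out).toFinset ×ˢ (hFf c.out).toFinset).sup
        fun q => J q.1 q.2) (mem_univ c))
      exact Finset.le_sup (f := fun q : N × N => J q.1 q.2) (b := (z * h⁻¹, z' * h⁻¹)) (Finset.mem_product.2
        ⟨(Set.Finite.mem_toFinset _).2 h1, (Set.Finite.mem_toFinset _).2 h2⟩)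
    have h4 : (z * h⁻¹)⁻¹ * (z' * h⁻¹) ∈ 𝒯.k j := by
      have e : (z * h⁻¹)⁻¹ * (z' * h⁻¹) = h * (z⁻¹ * z') * h⁻¹ := by group
      rw [e]
      exact (𝒯.k_normal j).conj_mem _ hk h
    exact mul_right_cancel (hJ _ _ (k_le_of 𝒯 h3 h4))
  have hp : ∀ y, ∃ z ∈ F y, ∀ z' ∈ F y, 𝒯.H j z ≤ 𝒯.H j z' := fun y =>
    Set.exists_min_image (F y) (𝒯.H j) (hFf y) (hFn y)
  choose p hp1 hp2 using hp
  refine ⟨p, fun y => ⟨(hp1 y).1, fun z hz hne => ?_⟩⟩
  by_cases hzF : z ∈ F y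
  · refine lt_of_le_of_ne (hp2 y z hzF) fun e => hne ?_
    exact hsj y (p y) z (hp1 y) hzF ((𝒯.H_eq j (p y) z).1 e)
  · have h1 : ∃ z', T z' y ≠ 0 ∧ 𝒯.H i z' < 𝒯.H i z := by
      by_contra hcon
      push Not at hcon
      exact hzF ⟨hz, hcon⟩
    obtain ⟨z', h2, h3⟩ := h1
    exact H_up hij (((hp1 y).2 z' h2).trans_lt h3)

/-! ### lowest terms of products -/

theorem fnl_mapQ {M : Subgroup N} [M.Normal] (φ : N ⧸ M → K) (d : MonoidAlgebra K N) :
    fnl φ (mapQ K M d) = ∑ g ∈ d.coeff.support, d.coeff g * φ (QuotientGroup.mk g) := by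
  have h := fnl_right φ d 1
  rw [← MonoidAlgebra.one_def, mul_one] at h
  simp only [mul_one] at h
  exact h

/-- Cosets in the support of the image of `d` have representatives in the support of `d`. -/
theorem mapQ_supp {M : Subgroup N} [M.Normal] {d : MonoidAlgebra K N} {c : N ⧸ M}
    (hc : (mapQ K M d).coeff c ≠ 0) : ∃ g ∈ d.coeff.support, QuotientGroup.mk g = c := by
  classical
  by_contra hcon
  push Not at hcon
  refine hc ?_
  have h1 := fnl_mapQ (K := K) (fun c' : N ⧸ M => if c' = c then (1 : K) else 0) d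
  have h2 : fnl (fun c' : N ⧸ M => if c' = c then (1 : K) else 0) (mapQ K M d) = (mapQ K M d).coeff c := by
    unfold fnl
    rw [Finsupp.sum, Finset.sum_eq_single c]
    · show (mapQ K M d).coeff c * (if c = c then (1 : K) else 0) = (mapQ K M d).coeff c
      rw [if_pos rfl, mul_one]
    · intro c' _ hne
      show (mapQ K M d).coeff c' * (if c' = c then (1 : K) else 0) = 0
      rw [if_neg hne, mul_zero]
    · intro hn
      rw [Finsupp.notMem_support_iff.1 hn, zero_mul]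
  rw [← h2, h1]
  refine Finset.sum_eq_zero fun g hg => ?_
  rw [if_neg (hcon g hg), mul_zero]

/-- **The lowest term of the product with a central element.** -/
theorem low_mul {j : ℕ} {f : N → K} (hf : ∀ z, ∀ κ ∈ 𝒯.k j, f (z * κ) = f z) {z₁ : N} (h1 : f z₁ ≠ 0)
    (h2 : ∀ z, f z ≠ 0 → 𝒯.H j z₁ ≤ 𝒯.H j z) {d : MonoidAlgebra K N} (hd : Cen 𝒯 j d)
    (hd0 : mapQ K (𝒯.k j) d ≠ 0) :
    ∃ h₀ ∈ 𝒯.n j, ∑ h ∈ d.coeff.support, d.coeff h * f (z₁ * h₀ * h⁻¹) ≠ 0 ∧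
      ∀ z, ∑ h ∈ d.coeff.support, d.coeff h * f (z * h⁻¹) ≠ 0 → 𝒯.H j (z₁ * h₀) ≤ 𝒯.H j z := by
  classical
  have hout : ∀ c : N ⧸ 𝒯.k j, (mapQ K (𝒯.k j) d).coeff c ≠ 0 → c.out ∈ 𝒯.n j := by
    intro c hc
    obtain ⟨g, hg, hgc⟩ := mapQ_supp hc
    have h3 : g⁻¹ * c.out ∈ 𝒯.k j := by
      rw [← QuotientGroup.eq, QuotientGroup.out_eq', hgc]
    have h4 := (𝒯.n j).mul_mem (hd.1 g hg) (𝒯.k_le j h3)
    rwa [mul_inv_cancel_left] at h4
  have hF : ∀ z, ∑ h ∈ d.coeff.support, d.coeff h * f (z * h⁻¹) =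
      ∑ c ∈ (mapQ K (𝒯.k j) d).coeff.support, (mapQ K (𝒯.k j) d).coeff c * f (z * c.out⁻¹) := by
    intro z
    have h3 := fnl_mapQ (K := K) (fun c : N ⧸ 𝒯.k j => f (z * c.out⁻¹)) d
    have h4 : fnl (fun c : N ⧸ 𝒯.k j => f (z * c.out⁻¹)) (mapQ K (𝒯.k j) d) =
        ∑ c ∈ (mapQ K (𝒯.k j) d).coeff.support, (mapQ K (𝒯.k j) d).coeff c * f (z * c.out⁻¹) := rfl
    rw [← h4, h3]
    refine Finset.sum_congr rfl fun h _ => ?_
    congr 1
    set κ := h⁻¹ * (QuotientGroup.mk h : N ⧸ 𝒯.k j).out with hκ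
    have hκk : κ ∈ 𝒯.k j := by
      rw [hκ, ← QuotientGroup.eq, QuotientGroup.out_eq']
    have h5 : (QuotientGroup.mk h : N ⧸ 𝒯.k j).out = h * κ := by rw [hκ, mul_inv_cancel_left]
    show f (z * h⁻¹) = f (z * (QuotientGroup.mk h : N ⧸ 𝒯.k j).out⁻¹)
    rw [h5, show z * (h * κ)⁻¹ = z * h⁻¹ * (h * κ⁻¹ * h⁻¹) by group]
    exact (hf _ _ ((𝒯.k_normal j).conj_mem _ ((𝒯.k j).inv_mem hκk) h)).symm
  have hne : (mapQ K (𝒯.k j) d).coeff.support.Nonempty := by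
    rw [Finsupp.support_nonempty_iff]
    exact fun e => hd0 (MonoidAlgebra.ext e)
  obtain ⟨c₀, hc0, hmin⟩ := Finset.exists_min_image (mapQ K (𝒯.k j) d).coeff.support
    (fun c : N ⧸ 𝒯.k j => 𝒯.H j c.out) hne
  have hc0' := Finsupp.mem_support_iff.1 hc0
  refine ⟨c₀.out, hout c₀ hc0', ?_, fun z hz => ?_⟩
  · rw [hF, Finset.sum_eq_single c₀]
    · rw [mul_inv_cancel_right]
      exact mul_ne_zero hc0' h1
    · intro c hc hcne
      by_contra hcon
      have h3 := h2 _ (right_ne_zero_of_mul hcon)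
      have h4 := hout c (Finsupp.mem_support_iff.1 hc)
      have h5 := (H_mul_le (𝒯 := 𝒯) h4).2 h3
      rw [inv_mul_cancel_right, H_left_le] at h5
      have h6 : 𝒯.H j c₀.out = 𝒯.H j c.out := le_antisymm (hmin c hc) h5
      have h7 := (𝒯.H_eq j c₀.out c.out).1 h6
      refine hcne ?_
      have h8 := QuotientGroup.eq.2 h7
      rw [QuotientGroup.out_eq', QuotientGroup.out_eq'] at h8
      exact h8.symm
    · exact fun hn => absurd hc0 hn
  · rw [hF] at hz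
    obtain ⟨c, hc, hcne⟩ := Finset.exists_ne_zero_of_sum_ne_zero hz
    have h3 := h2 _ (right_ne_zero_of_mul hcne)
    have h4 := hout c (Finsupp.mem_support_iff.1 hc)
    have h5 := (H_mul_le (𝒯 := 𝒯) h4).2 h3
    rw [inv_mul_cancel_right] at h5
    exact (H_left_le z₁).2 (hmin c hc) |>.trans h5

/-- Equivariance of the leading map. -/
theorem lead_mul {i j : ℕ} (hij : i ≤ j) {T : N → N → K} (hT : Good 𝒯 i T) {p : N → N} (hl : Lead 𝒯 j T p)
    (y : N) {h : N} (hh : h ∈ 𝒯.n j) : p (y * h) = p y * h := by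
  have hhi : h ∈ 𝒯.n i := n_le 𝒯 hij hh
  by_contra hne
  have h1 : T (p y * h) (y * h) ≠ 0 := by
    rw [hT.1 h hhi]
    exact (hl y).1
  have h2 := (hl (y * h)).2 _ h1 (Ne.symm hne)
  have h3 : T (p (y * h) * h⁻¹) y ≠ 0 := by
    have e := hT.1 h hhi (p (y * h) * h⁻¹) y
    rw [inv_mul_cancel_right] at e
    rw [← e]
    exact (hl (y * h)).1
  have h4 := (hl y).2 _ h3 fun e => hne (by rw [← e, inv_mul_cancel_right])
  have h5 := (H_mul_lt (𝒯 := 𝒯) hh).2 h4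
  rw [inv_mul_cancel_right] at h5
  exact lt_asymm h2 h5

theorem lead_bij {i j : ℕ} (hij : i ≤ j) {T : N → N → K} (hT : Good 𝒯 i T) (p : N → N)
    (hl : Lead 𝒯 j T p) (d x : MonoidAlgebra K N) (hd : Cen 𝒯 j d) (hd0 : mapQ K (𝒯.k j) d ≠ 0)
    (h : ∀ z y, psum 𝒯 j (kmul T (lamf d)) z y = psum 𝒯 j (lamf x) z y) : Function.Bijective p := by
  classical
  have hq : ∀ y, ∃ h₀ ∈ 𝒯.n j, (mapQ K (𝒯.k j) x).coeff (QuotientGroup.mk (p y * h₀ * y⁻¹)) ≠ 0 ∧
      ∀ z, (mapQ K (𝒯.k j) x).coeff (QuotientGroup.mk (z * y⁻¹)) ≠ 0 → 𝒯.H j (p y * h₀) ≤ 𝒯.H j z := by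
    intro y
    have h1 : psum 𝒯 j T (p y) y ≠ 0 := by
      unfold psum
      rw [finsum_eq_single _ (1 : 𝒯.k j)]
      · show T (p y * 1) y ≠ 0
        rw [mul_one]
        exact (hl y).1
      · intro κ hκ
        by_contra hne
        have h2 := (hl y).2 _ hne fun e => hκ (Subtype.ext (mul_eq_left.1 e))
        rw [H_k (𝒯 := 𝒯) (p y) κ.2] at h2
        exact lt_irrefl _ h2
    have h2 : ∀ z, psum 𝒯 j T z y ≠ 0 → 𝒯.H j (p y) ≤ 𝒯.H j z := by
      intro z hz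
      obtain ⟨κ, hκ⟩ := psum_ne hz
      rw [← H_k (𝒯 := 𝒯) z κ.2]
      by_cases e : z * κ = p y
      · rw [e]
      · exact ((hl y).2 _ hκ e).le
    obtain ⟨h₀, h3, h4, h5⟩ := low_mul (𝒯 := 𝒯) (j := j) (f := fun z => psum 𝒯 j T z y)
      (fun z κ hκ => psum_shift j T z y κ hκ) h1 h2 hd hd0
    have h6 : ∀ z, ∑ h ∈ d.coeff.support, d.coeff h * psum 𝒯 j T (z * h⁻¹) y =
        (mapQ K (𝒯.k j) x).coeff (QuotientGroup.mk (z * y⁻¹)) := fun z => by
      rw [← psum_lamf, ← h, psum_cen hij hT d hd]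
    refine ⟨h₀, h3, ?_, fun z hz => h5 z ?_⟩
    · rw [← h6]
      exact h4
    · rw [← h6] at hz
      exact hz
  choose q hq1 hq2 hq3 using hq
  have key : ∀ y y', (p y)⁻¹ * p y' ∈ 𝒯.n j → y⁻¹ * y' ∈ 𝒯.n j := by
    intro y y' hg
    set a := (q y)⁻¹ * ((p y)⁻¹ * p y') * q y' with ha
    have han : a ∈ 𝒯.n j := (𝒯.n j).mul_mem ((𝒯.n j).mul_mem ((𝒯.n j).inv_mem (hq1 y)) hg) (hq1 y')
    have hz : p y' * q y' = p y * q y * a := by rw [ha]; group
    have hH : 𝒯.H j y' = 𝒯.H j (y * a) := by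
      rcases lt_trichotomy (𝒯.H j y') (𝒯.H j (y * a)) with hlt | heq | hgt
      · exfalso
        set g := p y * q y * y⁻¹ with hgd
        have h1 := 𝒯.H_left j g _ _ hlt
        have e1 : g * (y * a) = p y' * q y' := by rw [hz, hgd]; group
        rw [e1] at h1
        refine absurd (hq3 y' (g * y') ?_) (not_le.2 h1)
        rw [mul_inv_cancel_right]
        exact hq2 y
      · exact heq
      · exfalso
        set g := p y' * q y' * y'⁻¹ with hgd
        have h1 := 𝒯.H_left j g _ _ hgt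
        have e1 : g * y' = p y * q y * a := by rw [← hz, hgd]; group
        rw [e1, ← mul_assoc, H_mul_lt han] at h1
        refine absurd (hq3 y (g * y) ?_) (not_le.2 h1)
        rw [mul_inv_cancel_right]
        exact hq2 y'
    have h2 := (𝒯.H_eq j y' (y * a)).1 hH
    have h3 := (𝒯.n j).mul_mem han ((𝒯.n j).inv_mem (𝒯.k_le j h2))
    have e2 : a * (y'⁻¹ * (y * a))⁻¹ = y⁻¹ * y' := by group
    rwa [e2] at h3
  constructor
  · intro y y' hy
    have h1 := key y y' (by rw [hy, inv_mul_cancel]; exact (𝒯.n j).one_mem)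
    have h2 := lead_mul hij hT hl y h1
    rw [mul_inv_cancel_left, ← hy] at h2
    have h3 : y⁻¹ * y' = 1 := mul_eq_left.1 h2.symm
    exact inv_mul_eq_one.1 h3
  · intro w
    have : Finite (N ⧸ 𝒯.n j) := Subgroup.finite_quotient_of_finiteIndex
    have hinj : Function.Injective (fun c : N ⧸ 𝒯.n j => (QuotientGroup.mk (p c.out) : N ⧸ 𝒯.n j)) := by
      intro c c' hcc
      have h1 := key _ _ (QuotientGroup.eq.1 hcc)
      have h2 := QuotientGroup.eq.2 h1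
      rwa [QuotientGroup.out_eq', QuotientGroup.out_eq'] at h2
    obtain ⟨c, hc⟩ := (Finite.injective_iff_surjective.1 hinj) (QuotientGroup.mk w)
    have h1 : (p c.out)⁻¹ * w ∈ 𝒯.n j := QuotientGroup.eq.1 hc
    exact ⟨c.out * ((p c.out)⁻¹ * w), by rw [lead_mul hij hT hl _ h1, mul_inv_cancel_left]⟩

/-- If the product with a non zero central element has vanishing column sums, so has `T`. -/
theorem psum_cancel {i j : ℕ} (hij : i ≤ j) {T : N → N → K} (hT : Good 𝒯 i T)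
    (d : MonoidAlgebra K N) (hd : Cen 𝒯 j d) (hd0 : mapQ K (𝒯.k j) d ≠ 0)
    (h : ∀ z y, psum 𝒯 j (kmul T (lamf d)) z y = 0) (z y : N) : psum 𝒯 j T z y = 0 := by
  by_contra hne
  obtain ⟨z₁, h1, h2⟩ := exists_low (𝒯 := 𝒯) (j := j) (hT.mono hij).2.2.2 y (A := {z | psum 𝒯 j T z y ≠ 0}) ⟨z, hne⟩
    (fun z hz => by
      obtain ⟨κ, hκ⟩ := psum_ne hz
      exact ⟨z * κ, y, hκ, by rw [H_k (𝒯 := 𝒯) z κ.2]⟩)
  obtain ⟨h₀, -, h4, -⟩ := low_mul (𝒯 := 𝒯) (j := j) (f := fun z => psum 𝒯 j T z y)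
    (fun z κ hκ => psum_shift j T z y κ hκ) h1 h2 hd hd0
  exact h4 (by rw [← psum_cen hij hT d hd, h])

end Pool.Agent.MelS
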