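import Pool.Agent.MelS.Def

/-!
# Order towers of RFRS groups (module W1)

`c i` the subgroups of `IsRFRS`, `n i = c i`, `k i = {g ∈ c i : ∃ m > 0, g ^ m ∈ ⁅c i, c i⁆}` (the preimage of the torsion
subgroup of the abelianization of `c i`).  `c i / k i` is finitely generated, abelian and torsion free: coordinates
in a basis give a homomorphism `ψ i : c i → Lex (ℕ → ℤ)` with kernel `k i`.  The heights are lexicographic
sequences of the `u l y = ψ l ((τ_l y)⁻¹ y)`, `τ_l y` the representative of `y c_l`.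
-/

open Finset

namespace Pool.Agent.MelS

/-- Coordinates on the maximal torsion free abelian quotient. -/
private theorem exists_psi (C : Type) [Group C] [Group.FG C] :
    ∃ ψ : C → Lex (ℕ → ℤ), (∀ g h, ψ (g * h) = ψ g + ψ h) ∧
      ∀ g, ψ g = 0 ↔ ∃ m : ℕ, 0 < m ∧ g ^ m ∈ commutator C := by
  classical
  have hfg : Group.FG (Abelianization C) := QuotientGroup.fg (commutator C)
  have hfg2 : AddGroup.FG (Additive (Abelianization C)) := AddGroup.fg_iff_mul_fg.2 hfg
  have hfin : Module.Finite ℤ (Additive (Abelianization C)) := Module.Finite.iff_addGroup_fg.2 hfg2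
  obtain ⟨T, hT⟩ : ∃ T, T = Submodule.torsion ℤ (Additive (Abelianization C)) := ⟨_, rfl⟩
  have htf : Module.IsTorsionFree ℤ (Additive (Abelianization C) ⧸ T) := by
    rw [hT]
    exact Submodule.QuotientTorsion.instIsTorsionFree
  have hfree : Module.Free ℤ (Additive (Abelianization C) ⧸ T) :=
    Module.free_of_finite_type_torsion_free'
  let b := Module.finBasis ℤ (Additive (Abelianization C) ⧸ T)
  obtain ⟨φ, hφ⟩ : ∃ φ : C → (Additive (Abelianization C) ⧸ T), φ = fun g =>
    Submodule.Quotient.mk (Additive.ofMul (Abelianization.of g)) := ⟨_, rfl⟩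
  have φm : ∀ g h, φ (g * h) = φ g + φ h := by
    intro g h
    rw [hφ]
    simp only [map_mul, ofMul_mul]
    rfl
  have φz : ∀ g, φ g = 0 ↔ ∃ m : ℕ, 0 < m ∧ g ^ m ∈ commutator C := by
    intro g
    have key : ∀ m : ℕ, m • (Additive.ofMul (Abelianization.of g)) = 0 ↔
        g ^ m ∈ commutator C := by
      intro m
      rw [← ofMul_pow, ← map_pow, ofMul_eq_zero]
      exact QuotientGroup.eq_one_iff (g ^ m)
    rw [hφ]
    simp only
    rw [Submodule.Quotient.mk_eq_zero, hT, Submodule.mem_torsion_iff]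
    constructor
    · rintro ⟨a, ha⟩
      have ha0 : (a : ℤ) ≠ 0 := nonZeroDivisors.ne_zero a.2
      refine ⟨(a : ℤ).natAbs, Int.natAbs_pos.2 ha0, (key _).1 ?_⟩
      have ha' : (a : ℤ) • (Additive.ofMul (Abelianization.of g)) = 0 := ha
      rcases Int.natAbs_eq (a : ℤ) with h | h
      · rw [h] at ha'
        rw [← natCast_zsmul]
        exact ha'
      · rw [h, neg_smul, neg_eq_zero] at ha'
        rw [← natCast_zsmul]
        exact ha'
    · rintro ⟨m, hm, hg⟩
      refine ⟨⟨(m : ℤ), mem_nonZeroDivisors_of_ne_zero (by exact_mod_cast hm.ne')⟩, ?_⟩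
      change (m : ℤ) • (Additive.ofMul (Abelianization.of g)) = 0
      rw [natCast_zsmul]
      exact (key m).2 hg
  refine ⟨fun g => toLex fun n => if h : n < Module.finrank ℤ (Additive (Abelianization C) ⧸ T) then
    b.repr (φ g) ⟨n, h⟩ else 0, ?_, ?_⟩
  · intro g h
    funext n
    change (if h' : n < _ then b.repr (φ (g * h)) ⟨n, h'⟩ else 0) =
      (if h' : n < _ then b.repr (φ g) ⟨n, h'⟩ else 0) + (if h' : n < _ then b.repr (φ h) ⟨n, h'⟩ else 0)
    by_cases hn : n < Module.finrank ℤ (Additive (Abelianization C) ⧸ T)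
    · rw [dif_pos hn, dif_pos hn, dif_pos hn, φm, map_add, Finsupp.add_apply]
    · rw [dif_neg hn, dif_neg hn, dif_neg hn, add_zero]
  · intro g
    rw [← φz]
    constructor
    · intro h
      have h1 : b.repr (φ g) = 0 := by
        ext n
        have h2 := congrFun h (n : ℕ)
        have h3 : (if h' : (n : ℕ) < _ then b.repr (φ g) ⟨n, h'⟩ else 0) = (0 : ℤ) := h2
        rw [dif_pos n.2] at h3
        exact h3
      exact b.repr.map_eq_zero_iff.1 h1
    · intro h
      funext n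
      change (if h' : n < _ then b.repr (φ g) ⟨n, h'⟩ else 0) = (0 : ℤ)
      by_cases hn : n < Module.finrank ℤ (Additive (Abelianization C) ⧸ T)
      · rw [dif_pos hn, h, map_zero, Finsupp.zero_apply]
      · rw [dif_neg hn]

section

variable {E : Type} [AddCommGroup E] [LinearOrder E] [IsOrderedAddMonoid E]

/-- Truncation of a sequence after the index `i`. -/
private def trc (i : ℕ) (f : Lex (ℕ → E)) : Lex (ℕ → E) := toLex fun l => if l ≤ i then f l else 0

omit [LinearOrder E] [IsOrderedAddMonoid E] in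
private theorem trc_apply (i : ℕ) (f : Lex (ℕ → E)) (l : ℕ) : trc i f l = if l ≤ i then f l else 0 :=
  rfl

private theorem trc_mono (i : ℕ) : Monotone (trc (E := E) i) := by
  intro f g hfg
  rcases hfg.lt_or_eq with h | h
  · obtain ⟨l, h1, h2⟩ := h
    by_cases hl : l ≤ i
    · refine le_of_lt ⟨l, fun j hj => ?_, ?_⟩
      · change trc i f j = trc i g j
        have h3 : f j = g j := h1 j hj
        rw [trc_apply, trc_apply, h3]
      · change trc i f l < trc i g l
        rw [trc_apply, trc_apply, if_pos hl, if_pos hl]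
        exact h2
    · refine le_of_eq ?_
      funext j
      rw [trc_apply, trc_apply]
      by_cases hj : j ≤ i
      · have h3 : f j = g j := h1 j (by omega)
        rw [h3]
      · rw [if_neg hj, if_neg hj]
  · rw [h]

omit [LinearOrder E] [IsOrderedAddMonoid E] in
private theorem trc_sub (i : ℕ) (f g : Lex (ℕ → E)) : trc i (f - g) = trc i f - trc i g := by
  funext j
  change (if j ≤ i then f j - g j else 0) = (if j ≤ i then f j else 0) - (if j ≤ i then g j else 0)
  by_cases hj : j ≤ i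
  · rw [if_pos hj, if_pos hj, if_pos hj]
  · rw [if_neg hj, if_neg hj, if_neg hj, sub_zero]

omit [LinearOrder E] [IsOrderedAddMonoid E] in
private theorem trc_trc (i : ℕ) (f : Lex (ℕ → E)) : trc i (trc (i + 1) f) = trc i f := by
  funext j
  rw [trc_apply, trc_apply, trc_apply]
  by_cases hj : j ≤ i
  · rw [if_pos hj, if_pos hj, if_pos (by omega)]
  · rw [if_neg hj, if_neg hj]

end

theorem exists_tower (N : Type) [Group N] [Group.FG N] (h : IsRFRS N) :
    ∃ (Λ : Type) (_ : AddCommGroup Λ) (_ : LinearOrder Λ) (_ : IsOrderedAddMonoid Λ), Nonempty (OrdTower N Λ) := by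
  classical
  obtain ⟨c, hc0, hcn, hcf, hca, hcr, hci⟩ := h
  have hfg : ∀ i, Group.FG (c i) := fun i => by
    haveI := hcf i
    infer_instance
  choose ψ ψm ψz using fun i => (haveI := hfg i; exists_psi (c i))
  have hca' : ∀ i l, l ≤ i → c i ≤ c l := by
    intro i l hl
    induction i, hl using Nat.le_induction with
    | base => exact le_refl _
    | succ i _ ih => exact (hca i).trans ih
  obtain ⟨Ψ, hΨ⟩ : ∃ Ψ : ℕ → N → Lex (ℕ → ℤ), Ψ = fun i g =>
      if hg : g ∈ c i then ψ i ⟨g, hg⟩ else 0 := ⟨_, rfl⟩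
  have Ψe : ∀ i g (hg : g ∈ c i), Ψ i g = ψ i ⟨g, hg⟩ := by
    intro i g hg
    rw [hΨ]
    exact dif_pos hg
  have Ψm : ∀ i, ∀ g ∈ c i, ∀ h ∈ c i, Ψ i (g * h) = Ψ i g + Ψ i h := by
    intro i g hg h hh
    rw [Ψe i g hg, Ψe i h hh, Ψe i (g * h) ((c i).mul_mem hg hh)]
    exact ψm i ⟨g, hg⟩ ⟨h, hh⟩
  have Ψ1 : ∀ i, Ψ i 1 = 0 := by
    intro i
    have h1 := Ψm i 1 (c i).one_mem 1 (c i).one_mem
    rw [mul_one] at h1
    exact left_eq_add.1 h1
  have Ψz : ∀ i, ∀ g ∈ c i, (Ψ i g = 0 ↔ ∃ m : ℕ, 0 < m ∧ g ^ m ∈ ⁅c i, c i⁆) := by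
    intro i g hg
    rw [Ψe i g hg, ψz i ⟨g, hg⟩]
    have key : ∀ m : ℕ, ((⟨g, hg⟩ : c i) ^ m ∈ commutator (c i) ↔ g ^ m ∈ ⁅c i, c i⁆) := by
      intro m
      rw [← Subgroup.map_subtype_commutator, Subgroup.mem_map]
      constructor
      · intro h1
        exact ⟨_, h1, rfl⟩
      · rintro ⟨x, hx, hxe⟩
        have h2 : x = (⟨g, hg⟩ : c i) ^ m := Subtype.ext hxe
        rw [← h2]
        exact hx
    simp only [key]
  -- the subgroups `k i`
  obtain ⟨k, hk⟩ : ∃ k : ℕ → Subgroup N, ∀ i g, g ∈ k i ↔ g ∈ c i ∧ Ψ i g = 0 := by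
    refine ⟨fun i => { carrier := {g | g ∈ c i ∧ Ψ i g = 0}, mul_mem' := ?_, one_mem' := ?_, inv_mem' := ?_ },
      fun i g => Iff.rfl⟩
    · rintro a b ⟨ha, ha'⟩ ⟨hb, hb'⟩
      refine ⟨(c i).mul_mem ha hb, ?_⟩
      rw [Ψm i a ha b hb, ha', hb', add_zero]
    · exact ⟨(c i).one_mem, Ψ1 i⟩
    · rintro a ⟨ha, ha'⟩
      refine ⟨(c i).inv_mem ha, ?_⟩
      have h1 := Ψm i a ha a⁻¹ ((c i).inv_mem ha)
      rw [mul_inv_cancel, Ψ1, ha', zero_add] at h1
      exact h1.symm
  have hkc : ∀ i, k i ≤ c (i + 1) := by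
    intro i g hg
    obtain ⟨h1, h2⟩ := (hk i g).1 hg
    obtain ⟨m, hm, hgm⟩ := (Ψz i g h1).1 h2
    exact hcr i g h1 m hm hgm
  have hka : ∀ i, k (i + 1) ≤ k i := by
    intro i g hg
    obtain ⟨h1, h2⟩ := (hk (i + 1) g).1 hg
    obtain ⟨m, hm, hgm⟩ := (Ψz (i + 1) g h1).1 h2
    refine (hk i g).2 ⟨hca i h1, (Ψz i g (hca i h1)).2 ⟨m, hm, ?_⟩⟩
    exact Subgroup.commutator_mono (hca i) (hca i) hgm
  have hka' : ∀ i l, l ≤ i → k i ≤ k l := by
    intro i l hl
    induction i, hl using Nat.le_induction with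
    | base => exact le_refl _
    | succ i _ ih => exact (hka i).trans ih
  -- the heights
  obtain ⟨τ, hτ1, hτ2⟩ : ∃ τ : ℕ → N → N, (∀ l y, (τ l y)⁻¹ * y ∈ c l) ∧
      ∀ l y, ∀ h ∈ c l, τ l (y * h) = τ l y := by
    refine ⟨fun l y => Quotient.out (QuotientGroup.mk y : N ⧸ c l), fun l y => ?_, fun l y h hh => ?_⟩
    · rw [← QuotientGroup.eq]
      exact QuotientGroup.out_eq' _
    · change Quotient.out (QuotientGroup.mk (y * h) : N ⧸ c l) = Quotient.out (QuotientGroup.mk y : N ⧸ c l)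
      rw [QuotientGroup.mk_mul_of_mem y hh]
  obtain ⟨u, hu⟩ : ∃ u : ℕ → N → Lex (ℕ → ℤ), ∀ l y, ∀ h ∈ c l, u l (y * h) = u l y + Ψ l h := by
    refine ⟨fun l y => Ψ l ((τ l y)⁻¹ * y), fun l y h hh => ?_⟩
    simp only [hτ2 l y h hh]
    rw [← mul_assoc, Ψm l _ (hτ1 l y) h hh]
  have hu' : ∀ l y z, y⁻¹ * z ∈ c l → u l z = u l y + Ψ l (y⁻¹ * z) := by
    intro l y z hz
    rw [← hu l y _ hz, mul_inv_cancel_left]
  obtain ⟨H, hH⟩ : ∃ H : ℕ → N → Lex (ℕ → Lex (ℕ → ℤ)), ∀ i y, H i y = trc i (toLex fun l => u l y) :=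
    ⟨fun i y => trc i (toLex fun l => u l y), fun i y => rfl⟩
  have hHa : ∀ i y l, H i y l = if l ≤ i then u l y else 0 := by
    intro i y l
    rw [hH]
    rfl
  have H_iff : ∀ i y z, H i y = H i z ↔ ∀ l ≤ i, u l y = u l z := by
    intro i y z
    constructor
    · intro h1 l hl
      have h2 := congrFun h1 l
      rw [hHa, hHa, if_pos hl, if_pos hl] at h2
      exact h2
    · intro h1
      funext l
      rw [hHa, hHa]
      by_cases hl : l ≤ i
      · rw [if_pos hl, if_pos hl, h1 l hl]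
      · rw [if_neg hl, if_neg hl]
  have u_iff : ∀ i y z, (∀ l ≤ i, u l y = u l z) ↔ y⁻¹ * z ∈ k i := by
    intro i y z
    constructor
    · induction i with
      | zero =>
        intro h1
        have h2 : y⁻¹ * z ∈ c 0 := by rw [hc0]; exact Subgroup.mem_top _
        refine (hk 0 _).2 ⟨h2, ?_⟩
        have h3 := hu' 0 y z h2
        rw [h1 0 (le_refl 0)] at h3
        exact left_eq_add.1 h3
      | succ i ih =>
        intro h1
        have h2 : y⁻¹ * z ∈ c (i + 1) := hkc i (ih fun l hl => h1 l (by omega))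
        refine (hk (i + 1) _).2 ⟨h2, ?_⟩
        have h3 := hu' (i + 1) y z h2
        rw [h1 (i + 1) (le_refl _)] at h3
        exact left_eq_add.1 h3
    · intro h1 l hl
      obtain ⟨h2, h3⟩ := (hk l _).1 (hka' i l hl h1)
      rw [hu' l y z h2, h3, add_zero]
  refine ⟨Lex (ℕ → Lex (ℕ → ℤ)), inferInstance, inferInstance, inferInstance, ⟨
    { n := c
      k := k
      H := H
      n_normal := hcn
      n_fin := hcf
      n_anti := hca
      k_normal := ?_
      k_le := ?_
      k_anti := hka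
      comm := ?_
      inf := ?_
      H_eq := ?_
      H_mul := ?_
      H_left := ?_
      H_mono := ?_ }⟩⟩
  · intro i
    refine ⟨fun g hg x => ?_⟩
    obtain ⟨h1, h2⟩ := (hk i g).1 hg
    obtain ⟨m, hm, hgm⟩ := (Ψz i g h1).1 h2
    haveI := hcn i
    have h3 : x * g * x⁻¹ ∈ c i := (hcn i).conj_mem g h1 x
    refine (hk i _).2 ⟨h3, (Ψz i _ h3).2 ⟨m, hm, ?_⟩⟩
    rw [conj_pow]
    exact (Subgroup.commutator_normal (c i) (c i)).conj_mem _ hgm x
  · intro i
    exact (hkc i).trans (hca i)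
  · intro i a ha b hb
    have h1 : a * b * a⁻¹ * b⁻¹ ∈ ⁅c i, c i⁆ := Subgroup.commutator_mem_commutator ha hb
    have h2 : a * b * a⁻¹ * b⁻¹ ∈ c i :=
      (c i).mul_mem ((c i).mul_mem ((c i).mul_mem ha hb) ((c i).inv_mem ha)) ((c i).inv_mem hb)
    exact (hk i _).2 ⟨h2, (Ψz i _ h2).2 ⟨1, one_pos, by rwa [pow_one]⟩⟩
  · intro g hg
    exact hci g fun i => hca i (hkc i (hg i))
  · intro i y z
    rw [H_iff, u_iff]
  · intro i y z h hh
    funext l
    change H i (z * h) l - H i (y * h) l = H i z l - H i y l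
    rw [hHa, hHa, hHa, hHa]
    by_cases hl : l ≤ i
    · rw [if_pos hl, if_pos hl, if_pos hl, if_pos hl, hu l z h (hca' i l hl hh), hu l y h (hca' i l hl hh)]
      abel
    · rw [if_neg hl, if_neg hl, if_neg hl, if_neg hl]
  · intro i g y z hlt
    obtain ⟨l, h1, h2⟩ := hlt
    have h1' : ∀ j, j < l → H i y j = H i z j := h1
    have h2' : H i y l < H i z l := h2
    have hl : l ≤ i := by
      by_contra hcon
      rw [hHa, hHa, if_neg hcon, if_neg hcon] at h2'
      exact lt_irrefl _ h2'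
    rw [hHa, hHa, if_pos hl, if_pos hl] at h2'
    have h1'' : ∀ j, j < l → u j y = u j z := by
      intro j hj
      have h3 := h1' j hj
      rw [hHa, hHa, if_pos (by omega), if_pos (by omega)] at h3
      exact h3
    have hq : (g * y)⁻¹ * (g * z) = y⁻¹ * z := by group
    have hc : y⁻¹ * z ∈ c l := by
      rcases l with _ | l
      · rw [hc0]; exact Subgroup.mem_top _
      · exact hkc l ((u_iff l y z).1 fun j hj => h1'' j (by omega))
    have hpos : 0 < Ψ l (y⁻¹ * z) := by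
      rw [hu' l y z hc] at h2'
      exact (lt_add_iff_pos_right _).1 h2'
    refine ⟨l, fun j hj => ?_, ?_⟩
    · change H i (g * y) j = H i (g * z) j
      rw [hHa, hHa, if_pos (by omega), if_pos (by omega)]
      have h3 : y⁻¹ * z ∈ k j := (u_iff j y z).1 fun j' hj' => h1'' j' (by omega)
      rw [← hq] at h3
      exact (u_iff j _ _).2 h3 j (le_refl j)
    · change H i (g * y) l < H i (g * z) l
      rw [hHa, hHa, if_pos hl, if_pos hl, hu' l (g * y) (g * z) (by rw [hq]; exact hc), hq]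
      exact (lt_add_iff_pos_right _).2 hpos
  · intro i
    refine ⟨trc i, trc_mono i, trc_sub i, fun y => ?_⟩
    rw [hH, hH, trc_trc]

end Pool.Agent.MelS
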