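import Pool.Agent.MelS.Ker

/-!
# Column sums over the cosets of `k j` (module W4)

Throughout `T` is good of level `i ≤ j`.  `psum 𝒯 j T z y = ∑ᶠ κ : k j, T (z κ) y`: a finite sum, as the elements
`z κ` with `T (z κ) y ≠ 0` lie in one fibre (`Good.mono`, part 2 of `GoodRel`).

* `psum_z`: substitution in `k j`.  `psum_y`: for `κ' ∈ k j ≤ n j ≤ n i`: `T (z κ) (y κ') = T (z κ κ'⁻¹) y`.
  `psum_eqv`: for `h ∈ n j`: `T (z h κ) (y h) = T (z (h κ h⁻¹)) y`, and `k j` is normal.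
* `psum_kmul`: `psum (kmul T S) z y = ∑ᶠ w, psum T z w * S w y`: interchange of two finite sums: the pairs
  `(κ, w)` with `T (z κ) w ≠ 0` and `S w y ≠ 0` are finite in number (for `z κ` in the fibre of `z` for the
  composition: finitely many `κ` by part 2 of `GoodRel.comp`; for each of them `GoodRel.fin_mid`), so both
  sides are the double sum over a product of finite sets.
* `psum_kmul_left`: immediate from `psum_kmul`.
* `psum_kmul_right`: in `∑ᶠ w, psum T z w * S w y` the function `w ↦ psum T z w` is constant on the cosets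
  `w k j` (`psum_y`), so grouping the (finite) sum by cosets gives `∑ psum T z w * psum S w y = 0`.
* `psum_lamf`: `∑ᶠ κ, x (z κ y⁻¹)`, and `z κ y⁻¹ = (z y⁻¹) (y κ y⁻¹)` runs through the coset of `z y⁻¹`; the
  coefficient of the image of `x` at a coset is the sum of the coefficients (`Finsupp.mapDomain`).
* `sep`: fix `z, y`.  The fibre `{z' : T z' y ≠ 0, z⁻¹ z' ∈ k i}` is finite; as the `k j` decrease to `1`
  (`inf`, `k_anti`) there is `j ≥ i` such that no `z' ≠ z` of it has `z⁻¹ z' ∈ k j`; so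
  `psum 𝒯 j T z y = T z y`.  This is `exists_psum_eq`, in the form for finitely many kernels it is used for
  two kernels (take the maximum of the two levels, `exists_psum_eq` holds for all large `j`).
* `psum_cen`: `kmul T (lamf d) z y = ∑ g, d g * T z (g y)` (finite sum over the support of `d`), so by
  `psum` of a finite sum: `psum (kmul T (lamf d)) z y = ∑ g, d g * psum T z (g y)`.  The function
  `w ↦ psum T z w` factors through `N / k j`, so this sum is `Φ (image of d * y)` for the linear functional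
  `Φ` on `K[N / k j]` with `Φ [w] = psum T z w`; by centrality `d y` and `y d` have the same image, so it is
  `∑ h, d h * psum T z (y h) = ∑ h, d h * psum T (z h⁻¹) y` by `psum_eqv`, `h ∈ n j`.
* `psum_comm`: similarly `psum (kmul (lamf d) T) z y = ∑ g, d g * psum T (g⁻¹ z) y`
  (`kmul (lamf d) T z y = ∑ g, d g * T (g⁻¹ z) y`), and `z⁻¹ d` and `d z⁻¹` have the same image; apply the
  functional `[u] ↦ psum T u⁻¹ y`: `∑ d g psum T (g⁻¹ z) y = ∑ d g psum T (z g⁻¹) y`.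
-/

set_option linter.unusedSectionVars false

open Finset

namespace Pool.Agent.MelS

variable {N Λ : Type} [Group N] [AddCommGroup Λ] [LinearOrder Λ] [IsOrderedAddMonoid Λ]
variable {𝒯 : OrdTower N Λ} {K : Type} [Field K]

theorem k_le_of (𝒯 : OrdTower N Λ) {i j : ℕ} (hij : i ≤ j) : 𝒯.k j ≤ 𝒯.k i := by
  induction j, hij using Nat.le_induction with
  | base => exact le_rfl
  | succ j _ ih => exact (𝒯.k_anti j).trans ih

/-- The elements of a column in a coset are finite in number, from the fibres. -/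
theorem rel_fin {j : ℕ} {ρ : N → N → Prop} (h : GoodRel 𝒯 j ρ) (z y : N) :
    {κ : 𝒯.k j | ρ (z * κ) y}.Finite := by
  refine Set.Finite.of_finite_image ((h.2.1 z y).subset ?_) (f := fun κ : 𝒯.k j => z * (κ : N))
    fun a _ b _ hab => Subtype.ext (mul_left_cancel hab)
  rintro _ ⟨κ, hκ, rfl⟩
  refine ⟨hκ, ?_⟩
  rw [inv_mul_cancel_left]
  exact κ.2

theorem psum_fin {i j : ℕ} (hij : i ≤ j) {T : N → N → K} (h : Good 𝒯 i T) (z y : N) :
    {κ : 𝒯.k j | T (z * κ) y ≠ 0}.Finite := rel_fin (h.mono hij).2 z y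

/-- Substitution in a coset, no finiteness needed. -/
theorem psum_shift (j : ℕ) (T : N → N → K) (z y κ : N) (hκ : κ ∈ 𝒯.k j) :
    psum 𝒯 j T (z * κ) y = psum 𝒯 j T z y := by
  unfold psum
  rw [← finsum_comp_equiv (Equiv.mulLeft (⟨κ, hκ⟩ : 𝒯.k j)) (f := fun κ' : 𝒯.k j => T (z * κ') y)]
  refine finsum_congr fun κ' => ?_
  show T (z * κ * κ') y = T (z * (κ * κ')) y
  rw [mul_assoc]

theorem psum_z {i j : ℕ} (_hij : i ≤ j) {T : N → N → K} (_h : Good 𝒯 i T) (z y κ : N) (hκ : κ ∈ 𝒯.k j) :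
    psum 𝒯 j T (z * κ) y = psum 𝒯 j T z y := psum_shift j T z y κ hκ

/-- Substitution by conjugation. -/
theorem finsum_conj (j : ℕ) (g : N) (f : N → K) : ∑ᶠ κ : 𝒯.k j, f (g * κ * g⁻¹) = ∑ᶠ κ : 𝒯.k j, f κ := by
  rw [← finsum_comp_equiv (MulAut.conjNormal g : MulAut (𝒯.k j)).toEquiv (f := fun κ : 𝒯.k j => f κ)]
  refine finsum_congr fun κ => ?_
  show f (g * κ * g⁻¹) = f ((MulAut.conjNormal g : MulAut (𝒯.k j)) κ : N)
  rw [MulAut.conjNormal_apply]

theorem psum_eqv {i j : ℕ} (hij : i ≤ j) {T : N → N → K} (h : Good 𝒯 i T) (z y g : N) (hg : g ∈ 𝒯.n j) :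
    psum 𝒯 j T (z * g) (y * g) = psum 𝒯 j T z y := by
  unfold psum
  rw [← finsum_conj j g (fun κ => T (z * κ) y)]
  refine finsum_congr fun κ => ?_
  rw [← h.1 g (n_le 𝒯 hij hg) (z * (g * κ * g⁻¹)) y]
  congr 1
  group

theorem psum_y {i j : ℕ} (hij : i ≤ j) {T : N → N → K} (h : Good 𝒯 i T) (z y κ : N) (hκ : κ ∈ 𝒯.k j) :
    psum 𝒯 j T z (y * κ) = psum 𝒯 j T z y := by
  have h1 := psum_eqv hij h (z * κ⁻¹) y κ (𝒯.k_le j hκ)
  rw [inv_mul_cancel_right] at h1
  rw [h1]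
  exact psum_shift j T z y κ⁻¹ ((𝒯.k j).inv_mem hκ)

theorem psum_add {i j : ℕ} (hij : i ≤ j) {T S : N → N → K} (h : Good 𝒯 i T) (h' : Good 𝒯 i S) (z y : N) :
    psum 𝒯 j (fun z y => T z y + S z y) z y = psum 𝒯 j T z y + psum 𝒯 j S z y :=
  finsum_add_distrib (psum_fin hij h z y) (psum_fin hij h' z y)

theorem psum_neg {j : ℕ} {T : N → N → K} (z y : N) :
    psum 𝒯 j (fun z y => - T z y) z y = - psum 𝒯 j T z y := by
  unfold psum
  exact finsum_neg_distrib _

theorem psum_ne {j : ℕ} {T : N → N → K} {z y : N} (h : psum 𝒯 j T z y ≠ 0) : ∃ κ : 𝒯.k j, T (z * κ) y ≠ 0 := by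
  by_contra hcon
  push Not at hcon
  exact h ((finsum_congr hcon).trans finsum_zero)

/-- The middle elements with a nonzero column sum are finite in number. -/
theorem mid_fin {i j : ℕ} (hij : i ≤ j) {T S : N → N → K} (hT : Good 𝒯 i T) (hS : Good 𝒯 i S) (z y : N) :
    {w | (∃ κ : 𝒯.k j, T (z * κ) w ≠ 0) ∧ S w y ≠ 0}.Finite := by
  have hA : {κ : 𝒯.k j | ∃ w, T (z * κ) w ≠ 0 ∧ S w y ≠ 0}.Finite :=
    rel_fin ((hT.mono hij).2.comp (hS.mono hij).2) z y
  refine (hA.biUnion fun κ _ => hT.2.fin_mid hS.2 (z * κ) y).subset ?_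
  rintro w ⟨⟨κ, h1⟩, h2⟩
  exact Set.mem_biUnion (show κ ∈ {κ : 𝒯.k j | ∃ w, T (z * κ) w ≠ 0 ∧ S w y ≠ 0} from ⟨w, h1, h2⟩) ⟨h1, h2⟩

theorem psum_kmul {i j : ℕ} (hij : i ≤ j) {T S : N → N → K} (hT : Good 𝒯 i T) (hS : Good 𝒯 i S) (z y : N) :
    psum 𝒯 j (kmul T S) z y = ∑ᶠ w, psum 𝒯 j T z w * S w y := by
  classical
  have hA : {κ : 𝒯.k j | ∃ w, T (z * κ) w ≠ 0 ∧ S w y ≠ 0}.Finite :=
    rel_fin ((hT.mono hij).2.comp (hS.mono hij).2) z y
  have hB := mid_fin hij hT hS z y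
  set A := hA.toFinset with hAd
  set B := hB.toFinset with hBd
  have memA : ∀ {κ : 𝒯.k j} {w}, T (z * κ) w ≠ 0 → S w y ≠ 0 → κ ∈ A := fun {κ w} h1 h2 =>
    (Set.Finite.mem_toFinset _).2 ⟨w, h1, h2⟩
  have memB : ∀ {κ : 𝒯.k j} {w}, T (z * κ) w ≠ 0 → S w y ≠ 0 → w ∈ B := fun {κ w} h1 h2 =>
    (Set.Finite.mem_toFinset _).2 ⟨⟨κ, h1⟩, h2⟩
  have h1 : psum 𝒯 j (kmul T S) z y = ∑ κ ∈ A, ∑ w ∈ B, T (z * κ) w * S w y := by
    have e1 : psum 𝒯 j (kmul T S) z y = ∑ κ ∈ A, kmul T S (z * κ) y := by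
      refine finsum_eq_sum_of_support_subset _ fun κ hκ => ?_
      have hκ' : kmul T S (z * κ) y ≠ 0 := hκ
      obtain ⟨w, h3, h4⟩ := kmul_ne hκ'
      exact memA h3 h4
    rw [e1]
    refine Finset.sum_congr rfl fun κ _ => ?_
    refine finsum_eq_sum_of_support_subset _ fun w hw => ?_
    have hw' : T (z * κ) w * S w y ≠ 0 := hw
    exact memB (left_ne_zero_of_mul hw') (right_ne_zero_of_mul hw')
  have h2 : ∑ᶠ w, psum 𝒯 j T z w * S w y = ∑ w ∈ B, ∑ κ ∈ A, T (z * κ) w * S w y := by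
    have e1 : ∑ᶠ w, psum 𝒯 j T z w * S w y = ∑ w ∈ B, psum 𝒯 j T z w * S w y := by
      refine finsum_eq_sum_of_support_subset _ fun w hw => ?_
      have hw' : psum 𝒯 j T z w * S w y ≠ 0 := hw
      obtain ⟨κ, h3⟩ := psum_ne (left_ne_zero_of_mul hw')
      exact memB h3 (right_ne_zero_of_mul hw')
    rw [e1]
    refine Finset.sum_congr rfl fun w hw => ?_
    have hSw : S w y ≠ 0 := ((Set.Finite.mem_toFinset _).1 hw).2
    have e2 : psum 𝒯 j T z w = ∑ κ ∈ A, T (z * κ) w := by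
      refine finsum_eq_sum_of_support_subset _ fun κ hκ => ?_
      have hκ' : T (z * κ) w ≠ 0 := hκ
      exact memA hκ' hSw
    rw [e2, Finset.sum_mul]
  rw [h1, h2, Finset.sum_comm]

theorem psum_kmul_left {i j : ℕ} (hij : i ≤ j) {T S : N → N → K} (hT : Good 𝒯 i T) (hS : Good 𝒯 i S)
    (h : ∀ z y, psum 𝒯 j T z y = 0) (z y : N) : psum 𝒯 j (kmul T S) z y = 0 := by
  rw [psum_kmul hij hT hS]
  exact (finsum_congr fun w => by rw [h, zero_mul]).trans finsum_zero

/-- Elements as pairs of a coset and an element of `k j`. -/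
noncomputable def cosEquiv (𝒯 : OrdTower N Λ) (j : ℕ) : (N ⧸ 𝒯.k j) × 𝒯.k j ≃ N :=
  Equiv.ofBijective (fun p => p.1.out * p.2) (by
    constructor
    · rintro ⟨c, κ⟩ ⟨c', κ'⟩ h
      have h0 : c.out * (κ : N) = c'.out * κ' := h
      have h1 : c = c' := by
        have e1 : (QuotientGroup.mk (c.out * (κ : N)) : N ⧸ 𝒯.k j) = c := by
          rw [QuotientGroup.mk_mul_of_mem _ κ.2, QuotientGroup.out_eq']
        have e2 : (QuotientGroup.mk (c'.out * (κ' : N)) : N ⧸ 𝒯.k j) = c' := by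
          rw [QuotientGroup.mk_mul_of_mem _ κ'.2, QuotientGroup.out_eq']
        rw [← e1, ← e2, h0]
      subst h1
      exact Prod.ext rfl (Subtype.ext (mul_left_cancel h0))
    · intro w
      refine ⟨(QuotientGroup.mk w, ⟨(QuotientGroup.mk w : N ⧸ 𝒯.k j).out⁻¹ * w, ?_⟩), ?_⟩
      · rw [← QuotientGroup.eq, QuotientGroup.out_eq']
      · show (QuotientGroup.mk w : N ⧸ 𝒯.k j).out * ((QuotientGroup.mk w : N ⧸ 𝒯.k j).out⁻¹ * w) = w
        rw [mul_inv_cancel_left])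

theorem cosEquiv_apply (j : ℕ) (c : N ⧸ 𝒯.k j) (κ : 𝒯.k j) : cosEquiv 𝒯 j (c, κ) = c.out * κ := rfl

/-- A finite sum over the group by cosets of `k j`. -/
theorem finsum_cos (j : ℕ) {f : N → K} (hf : {w | f w ≠ 0}.Finite) :
    ∑ᶠ w, f w = ∑ᶠ c : N ⧸ 𝒯.k j, ∑ᶠ κ : 𝒯.k j, f (c.out * κ) := by
  rw [← finsum_comp_equiv (cosEquiv 𝒯 j) (f := f),
    finsum_curry (fun p : (N ⧸ 𝒯.k j) × 𝒯.k j => f (cosEquiv 𝒯 j p)) (hf.preimage (cosEquiv 𝒯 j).injective.injOn)]
  rfl

theorem psum_kmul_right {i j : ℕ} (hij : i ≤ j) {T S : N → N → K} (hT : Good 𝒯 i T) (hS : Good 𝒯 i S)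
    (h : ∀ z y, psum 𝒯 j S z y = 0) (z y : N) : psum 𝒯 j (kmul T S) z y = 0 := by
  rw [psum_kmul hij hT hS, finsum_cos (𝒯 := 𝒯) j ((mid_fin hij hT hS z y).subset fun w hw =>
    ⟨psum_ne (left_ne_zero_of_mul hw), right_ne_zero_of_mul hw⟩)]
  refine (finsum_congr fun c => ?_).trans finsum_zero
  have h1 : ∀ κ : 𝒯.k j, psum 𝒯 j T z (c.out * κ) * S (c.out * κ) y = psum 𝒯 j T z c.out * S (c.out * κ) y :=
    fun κ => by rw [psum_y hij hT z c.out κ κ.2]
  rw [finsum_congr h1, ← mul_finsum]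
  have h2 : ∑ᶠ κ : 𝒯.k j, S (c.out * κ) y = 0 := h c.out y
  rw [h2, mul_zero]

/-- The linear functional on the group ring given by a function on the quotient group. -/
noncomputable def fnl {M : Subgroup N} [M.Normal] (φ : N ⧸ M → K) (x : MonoidAlgebra K (N ⧸ M)) : K :=
  x.coeff.sum fun c r => r * φ c

theorem fnl_zero {M : Subgroup N} [M.Normal] (φ : N ⧸ M → K) : fnl φ 0 = 0 := by
  unfold fnl
  simp

theorem fnl_add {M : Subgroup N} [M.Normal] (φ : N ⧸ M → K) (x x' : MonoidAlgebra K (N ⧸ M)) :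
    fnl φ (x + x') = fnl φ x + fnl φ x' := by
  classical
  unfold fnl
  rw [MonoidAlgebra.coeff_add]
  exact Finsupp.sum_add_index' (fun c => zero_mul _) fun c a b => add_mul _ _ _

theorem fnl_single {M : Subgroup N} [M.Normal] (φ : N ⧸ M → K) (c : N ⧸ M) (r : K) :
    fnl φ (MonoidAlgebra.single c r) = r * φ c := by
  unfold fnl
  rw [MonoidAlgebra.coeff_single]
  exact Finsupp.sum_single_index (zero_mul _)

theorem mapQ_single (M : Subgroup N) [M.Normal] (g : N) (r : K) :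
    mapQ K M (MonoidAlgebra.single g r) = MonoidAlgebra.single (QuotientGroup.mk g) r := by
  unfold mapQ
  exact MonoidAlgebra.mapDomain_single

/-- Right translates. -/
theorem fnl_right {M : Subgroup N} [M.Normal] (φ : N ⧸ M → K) (d : MonoidAlgebra K N) (y : N) :
    fnl φ (mapQ K M (d * MonoidAlgebra.single y 1)) =
      ∑ g ∈ d.coeff.support, d.coeff g * φ (QuotientGroup.mk (g * y)) := by
  classical
  have key : ∀ d : MonoidAlgebra K N, fnl φ (mapQ K M (d * MonoidAlgebra.single y 1)) =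
      d.coeff.sum fun g r => r * φ (QuotientGroup.mk (g * y)) := by
    intro d
    induction d using MonoidAlgebra.induction_linear with
    | zero => rw [zero_mul, map_zero, fnl_zero]; simp
    | add x x' h h' =>
      rw [add_mul, map_add, fnl_add, h, h', MonoidAlgebra.coeff_add]
      exact (Finsupp.sum_add_index' (fun c => zero_mul _) fun c a b => add_mul _ _ _).symm
    | single g r =>
      rw [MonoidAlgebra.single_mul_single, mul_one, mapQ_single, fnl_single, MonoidAlgebra.coeff_single]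
      exact (Finsupp.sum_single_index (h := fun g r => r * φ (QuotientGroup.mk (g * y))) (zero_mul _)).symm
  rw [key d]
  rfl

/-- Left translates. -/
theorem fnl_left {M : Subgroup N} [M.Normal] (φ : N ⧸ M → K) (d : MonoidAlgebra K N) (y : N) :
    fnl φ (mapQ K M (MonoidAlgebra.single y 1 * d)) =
      ∑ g ∈ d.coeff.support, d.coeff g * φ (QuotientGroup.mk (y * g)) := by
  classical
  have key : ∀ d : MonoidAlgebra K N, fnl φ (mapQ K M (MonoidAlgebra.single y 1 * d)) =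
      d.coeff.sum fun g r => r * φ (QuotientGroup.mk (y * g)) := by
    intro d
    induction d using MonoidAlgebra.induction_linear with
    | zero => rw [mul_zero, map_zero, fnl_zero]; simp
    | add x x' h h' =>
      rw [mul_add, map_add, fnl_add, h, h', MonoidAlgebra.coeff_add]
      exact (Finsupp.sum_add_index' (fun c => zero_mul _) fun c a b => add_mul _ _ _).symm
    | single g r =>
      rw [MonoidAlgebra.single_mul_single, one_mul, mapQ_single, fnl_single, MonoidAlgebra.coeff_single]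
      exact (Finsupp.sum_single_index (h := fun g r => r * φ (QuotientGroup.mk (y * g))) (zero_mul _)).symm
  rw [key d]
  rfl

/-- Central elements commute under every functional. -/
theorem cen_sum {j : ℕ} {d : MonoidAlgebra K N} (hd : Cen 𝒯 j d) (φ : N ⧸ 𝒯.k j → K) (y : N) :
    ∑ g ∈ d.coeff.support, d.coeff g * φ (QuotientGroup.mk (g * y)) =
      ∑ g ∈ d.coeff.support, d.coeff g * φ (QuotientGroup.mk (y * g)) := by
  rw [← fnl_right, ← fnl_left, hd.2 y]

theorem psum_lamf (j : ℕ) (x : MonoidAlgebra K N) (z y : N) :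
    psum 𝒯 j (lamf x) z y = (mapQ K (𝒯.k j) x).coeff (QuotientGroup.mk (z * y⁻¹)) := by
  classical
  have h0 : ∀ x : MonoidAlgebra K N, psum 𝒯 j (lamf x) z y = ∑ᶠ κ : 𝒯.k j, x.coeff (z * y⁻¹ * κ) := by
    intro x
    unfold psum
    rw [← finsum_conj j y (fun κ => x.coeff (z * y⁻¹ * κ))]
    refine finsum_congr fun κ => ?_
    unfold lamf
    congr 1
    group
  have hfin : ∀ x : MonoidAlgebra K N, (Function.support fun κ : 𝒯.k j => x.coeff (z * y⁻¹ * κ)).Finite := by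
    intro x
    refine Set.Finite.of_finite_image (x.coeff.support.finite_toSet.subset ?_) (f := fun κ : 𝒯.k j => z * y⁻¹ * (κ : N))
      fun a _ b _ hab => Subtype.ext (mul_left_cancel hab)
    rintro _ ⟨κ, hκ, rfl⟩
    exact Finsupp.mem_support_iff.2 hκ
  rw [h0]
  induction x using MonoidAlgebra.induction_linear with
  | zero =>
    rw [map_zero]
    exact (finsum_congr fun κ => rfl).trans finsum_zero
  | add x x' h h' =>
    have e : (mapQ K (𝒯.k j) (x + x')).coeff (QuotientGroup.mk (z * y⁻¹)) =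
        (mapQ K (𝒯.k j) x).coeff (QuotientGroup.mk (z * y⁻¹)) + (mapQ K (𝒯.k j) x').coeff (QuotientGroup.mk (z * y⁻¹)) := by
      rw [map_add, MonoidAlgebra.coeff_add, Finsupp.add_apply]
    rw [e, ← h, ← h', ← finsum_add_distrib (hfin x) (hfin x')]
    refine finsum_congr fun κ => ?_
    rw [MonoidAlgebra.coeff_add, Finsupp.add_apply]
  | single g r =>
    have e : (mapQ K (𝒯.k j) (MonoidAlgebra.single g r)).coeff (QuotientGroup.mk (z * y⁻¹)) =
        if (QuotientGroup.mk g : N ⧸ 𝒯.k j) = QuotientGroup.mk (z * y⁻¹) then r else 0 := by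
      rw [mapQ_single, MonoidAlgebra.coeff_single, Finsupp.single_apply]
    rw [e]
    by_cases hg : (QuotientGroup.mk g : N ⧸ 𝒯.k j) = QuotientGroup.mk (z * y⁻¹)
    · rw [if_pos hg]
      have h1 : (z * y⁻¹)⁻¹ * g ∈ 𝒯.k j := QuotientGroup.eq.1 hg.symm
      rw [finsum_eq_single _ (⟨(z * y⁻¹)⁻¹ * g, h1⟩ : 𝒯.k j)]
      · show (MonoidAlgebra.single g r).coeff (z * y⁻¹ * ((z * y⁻¹)⁻¹ * g)) = r
        rw [mul_inv_cancel_left, MonoidAlgebra.coeff_single, Finsupp.single_eq_same]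
      · intro κ hκ
        rw [MonoidAlgebra.coeff_single, Finsupp.single_apply, if_neg]
        intro e
        refine hκ (Subtype.ext ?_)
        show (κ : N) = (z * y⁻¹)⁻¹ * g
        rw [e, inv_mul_cancel_left]
    · rw [if_neg hg]
      refine (finsum_congr fun κ => ?_).trans finsum_zero
      rw [MonoidAlgebra.coeff_single, Finsupp.single_apply, if_neg]
      intro e
      refine hg ?_
      rw [e, QuotientGroup.mk_mul_of_mem _ κ.2]

/-- For all large levels the column sum is the coefficient. -/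
theorem exists_psum_eq {i : ℕ} {T : N → N → K} (h : Good 𝒯 i T) (z y : N) :
    ∃ j₀, ∀ j, j₀ ≤ j → psum 𝒯 j T z y = T z y := by
  classical
  have hF := h.2.2.1 z y
  have hex : ∀ z' : N, ∃ j, z⁻¹ * z' ∈ 𝒯.k j → z' = z := by
    intro z'
    by_contra hcon
    push Not at hcon
    have h1 := 𝒯.inf (z⁻¹ * z') fun j => (hcon j).1
    exact (hcon 0).2 (inv_mul_eq_one.1 h1).symm
  choose J hJ using hex
  refine ⟨max i (hF.toFinset.sup J), fun j hj => ?_⟩
  have hij : i ≤ j := (le_max_left _ _).trans hj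
  unfold psum
  rw [finsum_eq_single _ (1 : 𝒯.k j)]
  · show T (z * 1) y = T z y
    rw [mul_one]
  · intro κ hκ
    by_contra hne
    have h1 : (z * (κ : N)) ∈ hF.toFinset := by
      refine (Set.Finite.mem_toFinset _).2 ⟨hne, ?_⟩
      rw [inv_mul_cancel_left]
      exact k_le_of 𝒯 hij κ.2
    have h2 : J (z * κ) ≤ j := (Finset.le_sup (f := J) h1).trans ((le_max_right _ _).trans hj)
    have h3 := hJ (z * κ) (by
      rw [inv_mul_cancel_left]
      exact k_le_of 𝒯 h2 κ.2)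
    exact hκ (Subtype.ext (mul_eq_left.1 h3))

/-- A column sum as a sum over the group. -/
theorem psum_group (j : ℕ) (T : N → N → K) (z y : N) :
    psum 𝒯 j T z y = ∑ᶠ w, Set.indicator {w | z⁻¹ * w ∈ 𝒯.k j} (fun w => T w y) w := by
  have h1 : psum 𝒯 j T z y = ∑ᶠ κ ∈ (𝒯.k j : Set N), T (z * κ) y :=
    finsum_set_coe_eq_finsum_mem (𝒯.k j : Set N) (f := fun κ => T (z * κ) y)
  rw [h1, finsum_mem_def, ← finsum_comp_equiv (Equiv.mulLeft z)
    (f := fun w => Set.indicator {w | z⁻¹ * w ∈ 𝒯.k j} (fun w => T w y) w)]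
  refine finsum_congr fun κ => ?_
  show Set.indicator (𝒯.k j : Set N) (fun κ => T (z * κ) y) κ =
    Set.indicator {w | z⁻¹ * w ∈ 𝒯.k j} (fun w => T w y) (z * κ)
  by_cases hκ : κ ∈ 𝒯.k j
  · rw [Set.indicator_of_mem (show κ ∈ (𝒯.k j : Set N) from hκ), Set.indicator_of_mem]
    show z⁻¹ * (z * κ) ∈ 𝒯.k j
    rwa [inv_mul_cancel_left]
  · rw [Set.indicator_of_notMem (show κ ∉ (𝒯.k j : Set N) from hκ), Set.indicator_of_notMem]
    show ¬ z⁻¹ * (z * κ) ∈ 𝒯.k j
    rwa [inv_mul_cancel_left]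

/-- If the column sums vanish at one level, they vanish at all lower levels. -/
theorem psum_down {i j j' : ℕ} (hij : i ≤ j) (hj : j ≤ j') {T : N → N → K} (h : Good 𝒯 i T)
    (h0 : ∀ z y, psum 𝒯 j' T z y = 0) (z y : N) : psum 𝒯 j T z y = 0 := by
  rw [psum_group, finsum_cos (𝒯 := 𝒯) j' (((h.mono hij).2.2.1 z y).subset fun w hw => ?_)]
  · refine (finsum_congr fun c => ?_).trans finsum_zero
    by_cases hc : z⁻¹ * c.out ∈ 𝒯.k j
    · rw [← h0 c.out y]
      refine finsum_congr fun κ => Set.indicator_of_mem ?_ _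
      show z⁻¹ * (c.out * κ) ∈ 𝒯.k j
      rw [← mul_assoc]
      exact (𝒯.k j).mul_mem hc (k_le_of 𝒯 hj κ.2)
    · refine (finsum_congr fun κ => Set.indicator_of_notMem ?_ _).trans finsum_zero
      show ¬ z⁻¹ * (c.out * κ) ∈ 𝒯.k j
      rw [← mul_assoc]
      intro hh
      exact hc (((𝒯.k j).mul_mem_cancel_right (k_le_of 𝒯 hj κ.2)).1 hh)
  · have hw' : Set.indicator {w | z⁻¹ * w ∈ 𝒯.k j} (fun w => T w y) w ≠ 0 := hw
    have h1 : w ∈ {w | z⁻¹ * w ∈ 𝒯.k j} := Set.mem_of_indicator_ne_zero hw'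
    rw [Set.indicator_of_mem h1] at hw'
    exact ⟨hw', h1⟩

/-- Column sums of a finite sum. -/
theorem psum_finsum {i j : ℕ} (hij : i ≤ j) {T : N → N → K} (hT : Good 𝒯 i T) {ι : Type} (s : Finset ι) (c : ι → K)
    (a b : ι → N) (z : N) :
    ∑ᶠ κ : 𝒯.k j, ∑ g ∈ s, c g * T (a g * (z * κ)) (b g) = ∑ g ∈ s, c g * psum 𝒯 j T (a g * z) (b g) := by
  have hfin : ∀ g ∈ s, (Function.support fun κ : 𝒯.k j => c g * T (a g * (z * κ)) (b g)).Finite := by
    intro g _
    refine (psum_fin hij hT (a g * z) (b g)).subset fun κ hκ => ?_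
    have hκ' : c g * T (a g * (z * κ)) (b g) ≠ 0 := hκ
    show T (a g * z * κ) (b g) ≠ 0
    rw [mul_assoc]
    exact right_ne_zero_of_mul hκ'
  rw [finsum_sum_comm s (fun (κ : 𝒯.k j) g => c g * T (a g * (z * κ)) (b g)) hfin]
  refine Finset.sum_congr rfl fun g _ => ?_
  rw [← mul_finsum]
  unfold psum
  congr 1
  exact finsum_congr fun κ => by rw [mul_assoc]

/-- Multiplication by an element which is central modulo `k j`. -/
theorem psum_cen {i j : ℕ} (hij : i ≤ j) {T : N → N → K} (hT : Good 𝒯 i T) (d : MonoidAlgebra K N)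
    (hd : Cen 𝒯 j d) (z y : N) :
    psum 𝒯 j (kmul T (lamf d)) z y = ∑ h ∈ d.coeff.support, d.coeff h * psum 𝒯 j T (z * h⁻¹) y := by
  classical
  have h1 : psum 𝒯 j (kmul T (lamf d)) z y = ∑ g ∈ d.coeff.support, d.coeff g * psum 𝒯 j T z (g * y) := by
    have e := psum_finsum hij hT d.coeff.support (fun g => d.coeff g) (fun _ => 1) (fun g => g * y) z
    simp only [one_mul] at e
    rw [← e]
    unfold psum
    exact finsum_congr fun κ => kmul_lamf_apply d T (z * κ) y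
  set φ : N ⧸ 𝒯.k j → K := fun c => psum 𝒯 j T z c.out with hφ
  have hφ' : ∀ w : N, psum 𝒯 j T z w = φ (QuotientGroup.mk w) := by
    intro w
    show psum 𝒯 j T z w = psum 𝒯 j T z (QuotientGroup.mk w : N ⧸ 𝒯.k j).out
    have h2 : w⁻¹ * (QuotientGroup.mk w : N ⧸ 𝒯.k j).out ∈ 𝒯.k j := by
      rw [← QuotientGroup.eq, QuotientGroup.out_eq']
    rw [← psum_y hij hT z w _ h2, mul_inv_cancel_left]
  rw [h1]
  simp only [hφ']
  rw [cen_sum hd φ y]
  refine Finset.sum_congr rfl fun h hh => ?_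
  rw [← hφ', ← psum_eqv hij hT (z * h⁻¹) y h (hd.1 h hh), inv_mul_cancel_right]

theorem psum_comm {i j : ℕ} (hij : i ≤ j) {T : N → N → K} (hT : Good 𝒯 i T) (d : MonoidAlgebra K N)
    (hd : Cen 𝒯 j d) (z y : N) : psum 𝒯 j (kmul T (lamf d)) z y = psum 𝒯 j (kmul (lamf d) T) z y := by
  classical
  rw [psum_cen hij hT d hd]
  have h1 : psum 𝒯 j (kmul (lamf d) T) z y = ∑ g ∈ d.coeff.support, d.coeff g * psum 𝒯 j T (g⁻¹ * z) y := by
    rw [← psum_finsum hij hT d.coeff.support (fun g => d.coeff g) (fun g => g⁻¹) (fun _ => y) z]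
    unfold psum
    exact finsum_congr fun κ => lamf_kmul_apply d T (z * κ) y
  set φ : N ⧸ 𝒯.k j → K := fun c => psum 𝒯 j T c.out⁻¹ y with hφ
  have hφ' : ∀ w : N, psum 𝒯 j T w⁻¹ y = φ (QuotientGroup.mk w) := by
    intro w
    show psum 𝒯 j T w⁻¹ y = psum 𝒯 j T (QuotientGroup.mk w : N ⧸ 𝒯.k j).out⁻¹ y
    have h2 : w⁻¹ * (QuotientGroup.mk w : N ⧸ 𝒯.k j).out ∈ 𝒯.k j := by
      rw [← QuotientGroup.eq, QuotientGroup.out_eq']
    set κ := w⁻¹ * (QuotientGroup.mk w : N ⧸ 𝒯.k j).out with hκ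
    have h3 : (QuotientGroup.mk w : N ⧸ 𝒯.k j).out = w * κ := by rw [hκ, mul_inv_cancel_left]
    have h4 : (w * κ)⁻¹ = w⁻¹ * (w * κ⁻¹ * w⁻¹) := by group
    rw [h3, h4]
    exact (psum_shift j T w⁻¹ y _ ((𝒯.k_normal j).conj_mem _ ((𝒯.k j).inv_mem h2) w)).symm
  rw [h1]
  have h5 : ∀ g : N, psum 𝒯 j T (g⁻¹ * z) y = φ (QuotientGroup.mk (z⁻¹ * g)) := fun g => by
    rw [← hφ']
    congr 1
    group
  have h6 : ∀ g : N, psum 𝒯 j T (z * g⁻¹) y = φ (QuotientGroup.mk (g * z⁻¹)) := fun g => by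
    rw [← hφ']
    congr 1
    group
  simp only [h5, h6]
  exact cen_sum hd φ z⁻¹

end Pool.Agent.MelS
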