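import Pool.Agent.MelS.Def

/-!
# The group rings of the quotients `N / k j` (module W7)

`Γ = N / k j`, `A` = image of `n j` in `Γ`: abelian (`comm`), normal, of finite index.
-/

open Finset

namespace Pool.Agent.MelS

/-- In a ring without zero divisors which is a finite right module over a commutative ring, every
nonzero element is a left divisor of a nonzero element of the commutative ring. -/
private theorem exists_delta {S R : Type} [CommRing S] [Ring R] [NoZeroDivisors R] (φ : S →+* R)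
    (hfin : ∃ T : Finset R, ∀ r : R, ∃ s : R → S, r = ∑ t ∈ T, t * φ (s t))
    (x : R) (hx : x ≠ 0) : ∃ c : S, c ≠ 0 ∧ ∃ w : R, x * w = φ c := by
  classical
  letI : Module S R := Module.compHom R (φ.toOpposite fun a b => by
    change φ a * φ b = φ b * φ a
    rw [← map_mul, ← map_mul, mul_comm])
  have hsmul : ∀ (s : S) (r : R), s • r = r * φ s := fun s r => rfl
  haveI : Module.Finite S R := by
    obtain ⟨T, hT⟩ := hfin
    refine ⟨⟨T, ?_⟩⟩
    rw [eq_top_iff]
    intro r _
    obtain ⟨s, hs⟩ := hT r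
    rw [hs]
    refine Submodule.sum_mem _ fun t ht => ?_
    rw [← hsmul]
    exact Submodule.smul_mem _ _ (Submodule.subset_span ht)
  obtain ⟨f, hf⟩ : ∃ f : R →ₗ[S] R, ∀ r, f r = x * r :=
    ⟨{ toFun := fun r => x * r
       map_add' := mul_add x
       map_smul' := fun s r => by
        simp only [hsmul, RingHom.id_apply, mul_assoc] }, fun r => rfl⟩
  obtain ⟨q, hq, hq0⟩ := LinearMap.exists_monic_and_aeval_eq_zero S f
  haveI : Nontrivial R := ⟨⟨x, 0, hx⟩⟩
  haveI : Nontrivial S := φ.domain_nontrivial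
  have key : ∀ n : ℕ, ∀ q : Polynomial S, q.natDegree < n → q ≠ 0 → Polynomial.aeval f q (1 : R) = 0 →
      ∃ c : S, c ≠ 0 ∧ ∃ w : R, x * w = φ c := by
    intro n
    induction n with
    | zero => intro q h; omega
    | succ n ih =>
      intro q hn hq hz
      have e1 := Polynomial.X_mul_divX_add q
      have e2 : Polynomial.aeval f q (1 : R) =
          x * Polynomial.aeval f q.divX (1 : R) + φ (q.coeff 0) := by
        conv_lhs => rw [← e1]
        rw [map_add, map_mul, Polynomial.aeval_X, Polynomial.aeval_C, LinearMap.add_apply,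
          Module.End.mul_apply, hf, Module.algebraMap_end_apply, hsmul, one_mul]
      rw [e2] at hz
      by_cases h0 : q.coeff 0 = 0
      · rw [h0, map_zero, add_zero] at hz
        have h1 := (mul_eq_zero.1 hz).resolve_left hx
        have hd : q.natDegree ≠ 0 := by
          intro hd
          rw [Polynomial.eq_C_of_natDegree_eq_zero hd, h0, map_zero] at hq
          exact hq rfl
        refine ih q.divX ?_ ?_ h1
        · rw [Polynomial.natDegree_divX_eq_natDegree_tsub_one]
          omega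
        · intro h2
          rw [h2, h0, mul_zero, map_zero, zero_add] at e1
          exact hq e1.symm
      · refine ⟨q.coeff 0, h0, -Polynomial.aeval f q.divX (1 : R), ?_⟩
        rw [mul_neg]
        exact neg_eq_of_add_eq_zero_right hz
  exact key (q.natDegree + 1) q (Nat.lt_succ_self _) hq.ne_zero (by rw [hq0]; rfl)

/-- Every nonzero element is a left divisor of a nonzero central element supported in the abelian
normal subgroup of finite index. -/
private theorem central_mult {Γ A K : Type} [Group Γ] [CommGroup A] [Field K]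
    [NoZeroDivisors (MonoidAlgebra K Γ)] (ι : A →* Γ) (hι : Function.Injective ι)
    (hn : ι.range.Normal) (hf : ι.range.FiniteIndex) (x : MonoidAlgebra K Γ) (hx : x ≠ 0) :
    ∃ (c : MonoidAlgebra K A) (w : MonoidAlgebra K Γ), c ≠ 0 ∧
      x * w = MonoidAlgebra.mapDomainRingHom K ι c ∧
      ∀ g : Γ, MonoidAlgebra.single g (1 : K) * MonoidAlgebra.mapDomainRingHom K ι c =
        MonoidAlgebra.mapDomainRingHom K ι c * MonoidAlgebra.single g 1 := by
  classical
  obtain ⟨φ, hφ⟩ : ∃ φ : MonoidAlgebra K A →+* MonoidAlgebra K Γ,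
    φ = MonoidAlgebra.mapDomainRingHom K ι := ⟨_, rfl⟩
  rw [← hφ]
  have φs : ∀ a (r : K), φ (MonoidAlgebra.single a r) = MonoidAlgebra.single (ι a) r := by
    intro a r
    rw [hφ]
    exact MonoidAlgebra.mapDomain_single
  have φi : Function.Injective φ := by
    rw [hφ]
    exact MonoidAlgebra.mapDomain_injective hι
  have hout : ∀ g : Γ, ∃ a : A, ι a = (Quotient.out (QuotientGroup.mk g : Γ ⧸ ι.range))⁻¹ * g := by
    intro g
    have h1 : (Quotient.out (QuotientGroup.mk g : Γ ⧸ ι.range))⁻¹ * g ∈ ι.range := by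
      rw [← QuotientGroup.eq]
      exact QuotientGroup.out_eq' _
    exact h1
  haveI : Finite (Γ ⧸ ι.range) := Subgroup.finite_quotient_of_finiteIndex
  letI : Fintype (Γ ⧸ ι.range) := Fintype.ofFinite _
  have hfin : ∃ T : Finset (MonoidAlgebra K Γ), ∀ r : MonoidAlgebra K Γ,
      ∃ s : MonoidAlgebra K Γ → MonoidAlgebra K A, r = ∑ t ∈ T, t * φ (s t) := by
    refine ⟨Finset.univ.image fun q : Γ ⧸ ι.range => MonoidAlgebra.single (Quotient.out q) 1,
      fun r => ?_⟩
    induction r using MonoidAlgebra.induction_linear with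
    | zero => exact ⟨0, by simp⟩
    | add r1 r2 h1 h2 =>
      obtain ⟨s1, hs1⟩ := h1
      obtain ⟨s2, hs2⟩ := h2
      refine ⟨s1 + s2, ?_⟩
      rw [hs1, hs2, ← Finset.sum_add_distrib]
      refine Finset.sum_congr rfl fun t _ => ?_
      rw [← mul_add, ← map_add]
      rfl
    | single g a =>
      obtain ⟨b, hb⟩ := hout g
      refine ⟨fun t => if t = MonoidAlgebra.single (Quotient.out (QuotientGroup.mk g : Γ ⧸ ι.range)) 1
        then MonoidAlgebra.single b a else 0, ?_⟩
      rw [Finset.sum_eq_single (MonoidAlgebra.single (Quotient.out (QuotientGroup.mk g : Γ ⧸ ι.range)) 1)]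
      · beta_reduce
        rw [if_pos rfl, φs, MonoidAlgebra.single_mul_single, hb, one_mul, mul_inv_cancel_left]
      · intro t _ ht
        beta_reduce
        rw [if_neg ht, map_zero, mul_zero]
      · intro h
        exact absurd (Finset.mem_image_of_mem _ (Finset.mem_univ _)) h
  obtain ⟨c, hc, w, hw⟩ := exists_delta φ hfin x hx
  -- conjugation
  have hcj : ∀ (g : Γ) (s : MonoidAlgebra K A), ∃ s' : MonoidAlgebra K A,
      φ s' = MonoidAlgebra.single g 1 * φ s * MonoidAlgebra.single g⁻¹ 1 := by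
    intro g s
    induction s using MonoidAlgebra.induction_linear with
    | zero => exact ⟨0, by simp⟩
    | add s1 s2 h1 h2 =>
      obtain ⟨t1, ht1⟩ := h1
      obtain ⟨t2, ht2⟩ := h2
      exact ⟨t1 + t2, by rw [map_add, map_add, ht1, ht2, mul_add, add_mul]⟩
    | single a r =>
      obtain ⟨b, hb⟩ := hn.conj_mem (ι a) ⟨a, rfl⟩ g
      refine ⟨MonoidAlgebra.single b r, ?_⟩
      rw [φs, φs, MonoidAlgebra.single_mul_single, MonoidAlgebra.single_mul_single, hb, one_mul,
        mul_one]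
  choose σ0 hσ0 using hcj
  have hgg : ∀ g : Γ, (MonoidAlgebra.single g⁻¹ 1 * MonoidAlgebra.single g 1 : MonoidAlgebra K Γ) = 1 := by
    intro g
    rw [MonoidAlgebra.single_mul_single, inv_mul_cancel, one_mul]
    rfl
  have hgg' : ∀ g : Γ, (MonoidAlgebra.single g 1 * MonoidAlgebra.single g⁻¹ 1 : MonoidAlgebra K Γ) = 1 := by
    intro g
    rw [MonoidAlgebra.single_mul_single, mul_inv_cancel, one_mul]
    rfl
  obtain ⟨σ, hσ⟩ : ∃ σ : Γ → (MonoidAlgebra K A →+* MonoidAlgebra K A), ∀ g s,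
      φ (σ g s) = MonoidAlgebra.single g 1 * φ s * MonoidAlgebra.single g⁻¹ 1 := by
    refine ⟨fun g => { toFun := σ0 g, map_one' := ?_, map_mul' := ?_, map_zero' := ?_, map_add' := ?_ },
      fun g s => hσ0 g s⟩
    · apply φi
      rw [hσ0, map_one, mul_one, hgg']
    · intro s t
      apply φi
      rw [map_mul, hσ0, hσ0, hσ0, map_mul]
      calc MonoidAlgebra.single g 1 * (φ s * φ t) * MonoidAlgebra.single g⁻¹ 1 =
          MonoidAlgebra.single g 1 * φ s * 1 * φ t * MonoidAlgebra.single g⁻¹ 1 := by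
            rw [mul_one]; simp only [mul_assoc]
        _ = _ := by rw [← hgg g]; simp only [mul_assoc]
    · apply φi
      rw [hσ0, map_zero, mul_zero, zero_mul]
    · intro s t
      apply φi
      rw [map_add, hσ0, hσ0, hσ0, map_add, mul_add, add_mul]
  have σσ : ∀ g h s, σ g (σ h s) = σ (g * h) s := by
    intro g h s
    apply φi
    rw [hσ, hσ, hσ, mul_inv_rev]
    have e1 : (MonoidAlgebra.single (g * h) 1 : MonoidAlgebra K Γ) =
        MonoidAlgebra.single g 1 * MonoidAlgebra.single h 1 := by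
      rw [MonoidAlgebra.single_mul_single, one_mul]
    have e2 : (MonoidAlgebra.single (h⁻¹ * g⁻¹) 1 : MonoidAlgebra K Γ) =
        MonoidAlgebra.single h⁻¹ 1 * MonoidAlgebra.single g⁻¹ 1 := by
      rw [MonoidAlgebra.single_mul_single, one_mul]
    rw [e1, e2]
    simp only [mul_assoc]
  have σa : ∀ a s, σ (ι a) s = s := by
    intro a s
    apply φi
    rw [hσ, ← φs, ← map_mul, mul_comm, map_mul, φs, mul_assoc, hgg', mul_one]
  have σi : ∀ g s, σ g s = 0 → s = 0 := by
    intro g s h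
    have h1 : σ g⁻¹ (σ g s) = s := by
      rw [σσ, inv_mul_cancel, ← map_one ι, σa]
    rw [← h1, h, map_zero]
  have σq : ∀ g h : Γ, (QuotientGroup.mk g : Γ ⧸ ι.range) = QuotientGroup.mk h → ∀ s, σ g s = σ h s := by
    intro g h hgh s
    obtain ⟨a, ha⟩ := QuotientGroup.eq.1 hgh
    have h1 : h = g * ι a := by rw [ha, mul_inv_cancel_left]
    rw [h1, ← σσ, σa]
  haveI : NoZeroDivisors (MonoidAlgebra K A) :=
    Function.Injective.noZeroDivisors φ φi (map_zero φ) (map_mul φ)
  obtain ⟨c', hc'⟩ : ∃ c' : MonoidAlgebra K A, c' = ∏ q : Γ ⧸ ι.range, σ (Quotient.out q) c := ⟨_, rfl⟩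
  have hσc : ∀ g, σ g c' = c' := by
    intro g
    rw [hc', map_prod]
    refine Fintype.prod_equiv (MulAction.toPerm g) _ _ fun q => ?_
    rw [σσ]
    apply σq
    change QuotientGroup.mk (g * Quotient.out q) = QuotientGroup.mk (Quotient.out (g • q))
    have h1 : (QuotientGroup.mk (Quotient.out (g • q)) : Γ ⧸ ι.range) = g • q :=
      QuotientGroup.out_eq' _
    have h2 : (QuotientGroup.mk (Quotient.out q) : Γ ⧸ ι.range) = q := QuotientGroup.out_eq' _
    rw [h1]
    conv_rhs => rw [← h2]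
    rfl
  obtain ⟨w', hw'⟩ : ∃ w' : MonoidAlgebra K A, c' = c * w' := by
    rw [hc', ← Finset.mul_prod_erase _ _ (Finset.mem_univ (QuotientGroup.mk (1 : Γ) : Γ ⧸ ι.range))]
    refine ⟨_, congrArg (· * _) ?_⟩
    have h1 := σq (Quotient.out (QuotientGroup.mk (1 : Γ) : Γ ⧸ ι.range)) 1 (QuotientGroup.out_eq' _) c
    rw [h1, ← map_one ι, σa]
  refine ⟨c', w * φ w', ?_, ?_, ?_⟩
  · rw [hc']
    rw [Finset.prod_ne_zero_iff]
    intro q _ h
    exact hc (σi _ _ h)
  · rw [← mul_assoc, hw, ← map_mul, ← hw']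
  · intro g
    have h1 := hσ g c'
    rw [hσc] at h1
    calc MonoidAlgebra.single g 1 * φ c' = MonoidAlgebra.single g 1 * φ c' *
          (MonoidAlgebra.single g⁻¹ 1 * MonoidAlgebra.single g 1) := by rw [hgg, mul_one]
      _ = (MonoidAlgebra.single g 1 * φ c' * MonoidAlgebra.single g⁻¹ 1) * MonoidAlgebra.single g 1 := by
          simp only [mul_assoc]
      _ = _ := by rw [← h1]

variable {N Λ : Type} [Group N] [AddCommGroup Λ] [LinearOrder Λ] [IsOrderedAddMonoid Λ]
variable (𝒯 : OrdTower N Λ) {K : Type} [Field K]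

private theorem mapQ_single {N : Type} [Group N] (K : Type) [Semiring K] (M : Subgroup N) [M.Normal]
    (g : N) (r : K) : mapQ K M (MonoidAlgebra.single g r) = MonoidAlgebra.single (QuotientGroup.mk g) r :=
  MonoidAlgebra.mapDomain_single

theorem mapQ_surjective {N : Type} [Group N] (K : Type) [Semiring K] (M : Subgroup N) [M.Normal] :
    Function.Surjective (mapQ K M) := by
  intro y
  induction y using MonoidAlgebra.induction_linear with
  | zero => exact ⟨0, map_zero _⟩
  | add y1 y2 h1 h2 =>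
    obtain ⟨x1, hx1⟩ := h1
    obtain ⟨x2, hx2⟩ := h2
    exact ⟨x1 + x2, by rw [map_add, hx1, hx2]⟩
  | single g r =>
    obtain ⟨g', rfl⟩ := QuotientGroup.mk_surjective g
    exact ⟨MonoidAlgebra.single g' r, mapQ_single K M g' r⟩

/-- The group algebra of `N / k j` has no zero divisors. -/
theorem noZeroDivisors_quot (j : ℕ) : NoZeroDivisors (MonoidAlgebra K (N ⧸ 𝒯.k j)) := by
  obtain ⟨Hb, hHb⟩ : ∃ Hb : N ⧸ 𝒯.k j → Λ, ∀ y, Hb (QuotientGroup.mk y) = 𝒯.H j y := by
    refine ⟨Quotient.lift (𝒯.H j) fun a b hab => ?_, fun y => rfl⟩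
    rw [𝒯.H_eq]
    exact QuotientGroup.leftRel_apply.1 hab
  have hinj : Function.Injective Hb := by
    intro a b hab
    obtain ⟨y, rfl⟩ := QuotientGroup.mk_surjective a
    obtain ⟨z, rfl⟩ := QuotientGroup.mk_surjective b
    rw [hHb, hHb, 𝒯.H_eq] at hab
    exact QuotientGroup.eq.2 hab
  letI : LinearOrder (N ⧸ 𝒯.k j) := LinearOrder.lift' Hb hinj
  haveI : MulLeftStrictMono (N ⧸ 𝒯.k j) := by
    refine ⟨fun a b c hbc => ?_⟩
    obtain ⟨g, rfl⟩ := QuotientGroup.mk_surjective a
    obtain ⟨y, rfl⟩ := QuotientGroup.mk_surjective b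
    obtain ⟨z, rfl⟩ := QuotientGroup.mk_surjective c
    have h1 : Hb (QuotientGroup.mk y) < Hb (QuotientGroup.mk z) := hbc
    rw [hHb, hHb] at h1
    have h2 := 𝒯.H_left j g y z h1
    rw [← hHb, ← hHb] at h2
    exact h2
  infer_instance

theorem dom (j : ℕ) (x y : MonoidAlgebra K N) (h : mapQ K (𝒯.k j) (x * y) = 0) :
    mapQ K (𝒯.k j) x = 0 ∨ mapQ K (𝒯.k j) y = 0 := by
  haveI := noZeroDivisors_quot 𝒯 (K := K) j
  rw [map_mul] at h
  exact mul_eq_zero.1 h

theorem exists_cen (j : ℕ) (x : MonoidAlgebra K N) (hx : mapQ K (𝒯.k j) x ≠ 0) :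
    ∃ x' d : MonoidAlgebra K N, Cen 𝒯 j d ∧ mapQ K (𝒯.k j) d ≠ 0 ∧
      mapQ K (𝒯.k j) (x * x') = mapQ K (𝒯.k j) d := by
  classical
  haveI := noZeroDivisors_quot 𝒯 (K := K) j
  obtain ⟨A, hA⟩ : ∃ A : Subgroup (N ⧸ 𝒯.k j), A = (𝒯.n j).map (QuotientGroup.mk' (𝒯.k j)) := ⟨_, rfl⟩
  have hAc : ∀ a b : A, a * b = b * a := by
    rintro ⟨a, ha⟩ ⟨b, hb⟩
    rw [hA] at ha hb
    obtain ⟨a', ha', rfl⟩ := ha
    obtain ⟨b', hb', rfl⟩ := hb
    apply Subtype.ext
    change QuotientGroup.mk' (𝒯.k j) a' * QuotientGroup.mk' (𝒯.k j) b' =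
      QuotientGroup.mk' (𝒯.k j) b' * QuotientGroup.mk' (𝒯.k j) a'
    rw [← map_mul, ← map_mul]
    have h1 := 𝒯.comm j b'⁻¹ ((𝒯.n j).inv_mem hb') a'⁻¹ ((𝒯.n j).inv_mem ha')
    rw [inv_inv, inv_inv] at h1
    refine QuotientGroup.eq.2 ?_
    rw [mul_inv_rev, ← mul_assoc]
    exact h1
  letI : CommGroup A := { (inferInstance : Group A) with mul_comm := hAc }
  have hn : A.subtype.range.Normal := by
    rw [Subgroup.range_subtype, hA]
    exact (𝒯.n_normal j).map _ (QuotientGroup.mk'_surjective _)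
  have hf : A.subtype.range.FiniteIndex := by
    rw [Subgroup.range_subtype, hA]
    refine ⟨?_⟩
    rw [Subgroup.index_map_eq _ (QuotientGroup.mk'_surjective _) (by
      rw [QuotientGroup.ker_mk']
      exact 𝒯.k_le j)]
    exact (𝒯.n_fin j).index_ne_zero
  obtain ⟨c, w, hc, hw, hcen⟩ := central_mult (K := K) A.subtype A.subtype_injective hn hf _ hx
  have hlift : ∀ c : MonoidAlgebra K A, ∃ d : MonoidAlgebra K N, (∀ h ∈ d.coeff.support, h ∈ 𝒯.n j) ∧
      mapQ K (𝒯.k j) d = MonoidAlgebra.mapDomainRingHom K A.subtype c := by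
    intro c
    induction c using MonoidAlgebra.induction_linear with
    | zero => exact ⟨0, by simp, by rw [map_zero, map_zero]⟩
    | add c1 c2 h1 h2 =>
      obtain ⟨d1, h1, h1'⟩ := h1
      obtain ⟨d2, h2, h2'⟩ := h2
      refine ⟨d1 + d2, fun g hg => ?_, by rw [map_add, map_add, h1', h2']⟩
      rw [MonoidAlgebra.coeff_add] at hg
      rcases Finset.mem_union.1 (Finsupp.support_add hg) with h | h
      · exact h1 g h
      · exact h2 g h
    | single a r =>
      obtain ⟨a', ha', hae⟩ : ∃ a' ∈ 𝒯.n j, QuotientGroup.mk' (𝒯.k j) a' = a := by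
        have h1 : ∀ b : N ⧸ 𝒯.k j, b ∈ A → ∃ a' ∈ 𝒯.n j, QuotientGroup.mk' (𝒯.k j) a' = b := by
          intro b hb
          rw [hA] at hb
          exact hb
        exact h1 a a.2
      refine ⟨MonoidAlgebra.single a' r, fun g hg => ?_, ?_⟩
      · rw [MonoidAlgebra.coeff_single] at hg
        have h2 := Finsupp.support_single_subset hg
        rw [Finset.mem_singleton] at h2
        rw [h2]
        exact ha'
      · rw [mapQ_single]
        refine Eq.trans ?_ (MonoidAlgebra.mapDomain_single (f := A.subtype)).symm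
        exact congrArg (fun t => MonoidAlgebra.single t r) hae
  obtain ⟨d, hd, hd'⟩ := hlift c
  obtain ⟨x', hx'⟩ := mapQ_surjective K (𝒯.k j) w
  refine ⟨x', d, ⟨hd, fun g => ?_⟩, ?_, ?_⟩
  · rw [map_mul, map_mul, mapQ_single, hd']
    exact hcen _
  · rw [hd']
    intro h0
    apply hc
    refine MonoidAlgebra.mapDomain_injective (R := K) A.subtype_injective ?_
    refine Eq.trans h0 ?_
    exact (map_zero (MonoidAlgebra.mapDomainRingHom K A.subtype)).symm
  · rw [map_mul, hx', hd']
    exact hw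

/-- Products of central elements are central. -/
theorem Cen.mul {j : ℕ} {d d' : MonoidAlgebra K N} (h : Cen 𝒯 j d) (h' : Cen 𝒯 j d') : Cen 𝒯 j (d * d') := by
  classical
  refine ⟨fun g hg => ?_, fun g => ?_⟩
  · have h1 := MonoidAlgebra.support_coeff_mul_subset d d' hg
    rw [Finset.mem_mul] at h1
    obtain ⟨a, ha, b, hb, rfl⟩ := h1
    exact (𝒯.n j).mul_mem (h.1 a ha) (h'.1 b hb)
  · rw [← mul_assoc, map_mul, h.2 g, ← map_mul, mul_assoc, map_mul, h'.2 g, ← map_mul, mul_assoc]

end Pool.Agent.MelS
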