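import Pool.Agent.MelS.Def

/-!
# General coefficient rings

`redR f M : R[N] → κ[N/M]` for a ring homomorphism `f : R → κ`; `FinInvR J`: `J` becomes invertible over `κ[N/M]`
for all normal subgroups `M` of finite index and all surjective homomorphisms from `R` to finite fields.
-/

namespace Pool.Agent.MelS

variable {N : Type} [Group N]

/-- The map of group rings given by a homomorphism of the coefficients and a quotient group. -/
noncomputable def redR {R κ : Type} [CommRing R] [CommRing κ] (f : R →+* κ) (M : Subgroup N) [M.Normal] :
    MonoidAlgebra R N →+* MonoidAlgebra κ (N ⧸ M) :=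
  (MonoidAlgebra.mapRingHom (N ⧸ M) f).comp (mapQ R M)

/-- `J` becomes invertible over `κ[N/M]` for all finite quotients `N/M` and all finite quotient fields `κ` of `R`. -/
def FinInvR {R : Type} [CommRing R] {ι : Type} [Fintype ι] [DecidableEq ι]
    (J : Matrix ι ι (MonoidAlgebra R N)) : Prop :=
  ∀ (M : Subgroup N) (_ : M.Normal), M.FiniteIndex → ∀ (κ : Type) [Field κ] [Finite κ] (f : R →+* κ),
    Function.Surjective f → IsUnit (J.map (redR f M))

theorem red_eq (p : ℕ) (M : Subgroup N) [M.Normal] : red p M = redR (Int.castRingHom (ZMod p)) M := rfl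

end Pool.Agent.MelS
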