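import Pool.Agent.MelS.Divi2

/-!
# The square matrix theorem for a tower (module W8c, helper95)

`B` a left inverse of `J` over the division ring of a tower: `B ≡ C_j` modulo `k j` for all high levels, `C_j` the
inverse of `J` over the group ring of `N / k j`.  So the left inverses for the tower and for the opposite tower are
the same functions: their supports are finite.
-/

open Finset

namespace Pool.Agent.MelS

variable {N Λ : Type} [Group N] [AddCommGroup Λ] [LinearOrder Λ] [IsOrderedAddMonoid Λ]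

/-- A set which is partially well ordered for both orders is finite. -/
theorem finite_of_two (S : Set Λ) (h1 : S.IsPWO) (h2 : (Neg.neg '' S).IsPWO) : S.Finite := by
  by_contra hS
  have hinf : S.Infinite := hS
  let f : ℕ → Λ := fun n => (hinf.natEmbedding S n : Λ)
  have hf : Function.Injective f := fun a b h => (hinf.natEmbedding S).injective (Subtype.ext h)
  have hfS : ∀ n, f n ∈ S := fun n => (hinf.natEmbedding S n).2
  obtain ⟨g, hg⟩ := h1.exists_monotone_subseq hfS
  obtain ⟨m, n, hmn, hle⟩ := h2.exists_lt (f := fun n => - f (g n)) (fun n => ⟨f (g n), hfS _, rfl⟩)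
  have h3 : f (g n) ≤ f (g m) := neg_le_neg_iff.mp hle
  have h4 : f (g m) ≤ f (g n) := hg hmn.le
  have h5 := hf (le_antisymm h4 h3)
  exact absurd (g.injective h5) hmn.ne

variable {𝒯 : OrdTower N Λ} {K : Type} [Field K]

/-- The column sums of the left inverse. -/
theorem left_inv_psum {ι : Type} [Fintype ι] [DecidableEq ι] (J : Matrix ι ι (MonoidAlgebra K N))
    (B : ι → ι → Ker 𝒯 K) (hB : ∀ a m, ∑ l, B a l * lam 𝒯 (J l m) = if a = m then 1 else 0) (i j : ℕ)
    (hi : ∀ a l, Good 𝒯 i (B a l).1) (hij : i ≤ j) (C : Matrix ι ι (MonoidAlgebra K N))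
    (hC : J.map (mapQ K (𝒯.k j)) * C.map (mapQ K (𝒯.k j)) = 1) (a l : ι) (z y : N) :
    psum 𝒯 j (B a l).1 z y = psum 𝒯 j (lamf (C a l)) z y := by
  have h1 := row_eq J C hC (fun l => B a l) (fun m => if a = m then 1 else 0)
    (fun l => (hi a l).mono hij) (hB a) l
  have h2 : ∑ m, (if a = m then (1 : Ker 𝒯 K) else 0) * lam 𝒯 (C m l) = lam 𝒯 (C a l) := by
    rw [Finset.sum_eq_single a]
    · rw [if_pos rfl, one_mul]
    · intro b _ hb
      rw [if_neg (fun h => hb h.symm), zero_mul]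
    · intro h
      exact absurd (Finset.mem_univ a) h
  rw [h2] at h1
  exact h1.2.2 z y

/-- The comparison of the two orders. -/
theorem descent (𝒯 : OrdTower N Λ) {ι : Type} [Fintype ι] [DecidableEq ι] (J : Matrix ι ι (MonoidAlgebra K N))
    (hJ : ∀ j, IsUnit (J.map (mapQ K (𝒯.k j)))) :
    ∃ (i : ℕ) (b : Matrix ι ι (MonoidAlgebra K N)), ∀ j, i ≤ j →
      J.map (mapQ K (𝒯.k j)) * b.map (mapQ K (𝒯.k j)) = 1 ∧
      b.map (mapQ K (𝒯.k j)) * J.map (mapQ K (𝒯.k j)) = 1 := by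
  classical
  obtain ⟨B, hB⟩ := exists_left_inv (𝒯 := 𝒯) J hJ
  obtain ⟨B', hB'⟩ := exists_left_inv (𝒯 := 𝒯.op) J hJ
  obtain ⟨i₁, hi₁⟩ := common_level (fun q : ι × ι => B q.1 q.2)
  obtain ⟨i₂, hi₂⟩ := common_level (fun q : ι × ι => B' q.1 q.2)
  let i := max i₁ i₂
  have hi : ∀ a l, Good 𝒯 i (B a l).1 := fun a l => (hi₁ (a, l)).mono (le_max_left _ _)
  have hi' : ∀ a l, Good 𝒯.op i (B' a l).1 := fun a l => (hi₂ (a, l)).mono (le_max_right _ _)
  have key : ∀ j, i ≤ j → ∃ C : Matrix ι ι (MonoidAlgebra K N),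
      J.map (mapQ K (𝒯.k j)) * C.map (mapQ K (𝒯.k j)) = 1 ∧
      C.map (mapQ K (𝒯.k j)) * J.map (mapQ K (𝒯.k j)) = 1 ∧
      (∀ a l z y, psum 𝒯 j (B a l).1 z y = psum 𝒯 j (lamf (C a l)) z y) ∧
      (∀ a l z y, psum 𝒯 j (B' a l).1 z y = psum 𝒯 j (lamf (C a l)) z y) := by
    intro j hj
    obtain ⟨C, hC, hC'⟩ := exists_lift J (𝒯.k j) (hJ j)
    exact ⟨C, hC, hC', fun a l z y => left_inv_psum J B hB i j hi hj C hC a l z y,
      fun a l z y => left_inv_psum (𝒯 := 𝒯.op) J B' hB' i j hi' hj C hC a l z y⟩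
  have hBB : ∀ a l z y, (B a l).1 z y = (B' a l).1 z y := by
    intro a l z y
    obtain ⟨j₁, h1⟩ := exists_psum_eq (hi a l) z y
    obtain ⟨j₂, h2⟩ := exists_psum_eq (hi' a l) z y
    let j := max i (max j₁ j₂)
    obtain ⟨C, _, _, h3, h4⟩ := key j (le_max_left _ _)
    have e1 := h1 j (le_trans (le_max_left _ _) (le_max_right _ _))
    have e2 : psum 𝒯 j (B' a l).1 z y = (B' a l).1 z y :=
      h2 j (le_trans (le_max_right _ _) (le_max_right _ _))
    rw [← e1, ← e2, h3, h4]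
  have hfin : ∀ a l, {z | (B a l).1 z 1 ≠ 0}.Finite := by
    intro a l
    have h1 : {c | ∃ z y, (B a l).1 z y ≠ 0 ∧ c = 𝒯.H i z - 𝒯.H i y}.IsPWO := (hi a l).2.2.2
    have h2 : {c | ∃ z y, (B' a l).1 z y ≠ 0 ∧ c = - 𝒯.H i z - - 𝒯.H i y}.IsPWO := (hi' a l).2.2.2
    have h3 : ({c | ∃ z, (B a l).1 z 1 ≠ 0 ∧ c = 𝒯.H i z - 𝒯.H i 1} : Set Λ).Finite := by
      apply finite_of_two
      · refine h1.mono ?_
        rintro c ⟨z, hz, rfl⟩
        exact ⟨z, 1, hz, rfl⟩
      · refine h2.mono ?_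
        rintro _ ⟨c, ⟨z, hz, rfl⟩, rfl⟩
        refine ⟨z, 1, ?_, by abel⟩
        rw [← hBB]
        exact hz
    refine (h3.biUnion fun c _ => (hi a l).2.fin_deg 1 c).subset ?_
    intro z hz
    rw [Set.mem_iUnion₂]
    exact ⟨_, ⟨z, hz, rfl⟩, hz, rfl⟩
  let b : Matrix ι ι (MonoidAlgebra K N) := Matrix.of fun a l =>
    MonoidAlgebra.ofCoeff (Finsupp.ofSupportFinite (fun z => (B a l).1 z 1) (hfin a l))
  have hb : ∀ a l z, (b a l).coeff z = (B a l).1 z 1 := fun a l z => rfl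
  refine ⟨i, b, fun j hj => ?_⟩
  obtain ⟨C, hC, hC', h3, _⟩ := key j hj
  have hbC : b.map (mapQ K (𝒯.k j)) = C.map (mapQ K (𝒯.k j)) := by
    ext1 a l
    rw [Matrix.map_apply, Matrix.map_apply]
    apply MonoidAlgebra.ext
    apply Finsupp.ext
    intro g
    obtain ⟨z, rfl⟩ := QuotientGroup.mk_surjective g
    have e1 := psum_lamf (𝒯 := 𝒯) j (b a l) z 1
    have e2 := psum_lamf (𝒯 := 𝒯) j (C a l) z 1
    rw [inv_one, mul_one] at e1 e2
    rw [← e1, ← e2, ← h3]
    unfold psum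
    refine finsum_congr fun κ => ?_
    show (b a l).coeff (z * κ * 1⁻¹) = _
    rw [inv_one, mul_one, hb]
  rw [hbC]
  exact ⟨hC, hC'⟩

/-- Compatibility of the quotient maps with the change of coefficients. -/
theorem mapQ_comm {R S : Type} [CommRing R] [CommRing S] (f : R →+* S) (M : Subgroup N) [M.Normal]
    (x : MonoidAlgebra R N) :
    mapQ S M (MonoidAlgebra.mapRingHom N f x) = MonoidAlgebra.mapRingHom (N ⧸ M) f (mapQ R M x) := by
  unfold mapQ
  induction x using MonoidAlgebra.induction_linear with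
  | zero => simp only [map_zero]
  | add x y hx hy => simp only [map_add, hx, hy]
  | single g c =>
    have h1 : ∀ (G : Type) [Group G] (g : G) (c : R), MonoidAlgebra.mapRingHom G f (MonoidAlgebra.single g c) =
        MonoidAlgebra.single g (f c) := fun G _ g c => by simp
    rw [h1, MonoidAlgebra.mapDomainRingHom_apply, MonoidAlgebra.mapDomain_single,
      MonoidAlgebra.mapDomainRingHom_apply, MonoidAlgebra.mapDomain_single, h1]

theorem cast_injective {R : Type} [CommRing R] (f : R →+* K) (hf : Function.Injective f) (G : Type) [Group G] :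
    Function.Injective (MonoidAlgebra.mapRingHom G f) := by
  intro x y h
  exact MonoidAlgebra.map_injective (f : R →+ K) hf h

/-- The group ring embeds into the product of the group rings of the quotients. -/
theorem sepR {R : Type} [CommRing R] (f : R →+* K) (hf : Function.Injective f) (𝒯 : OrdTower N Λ) (i : ℕ)
    (x : MonoidAlgebra R N) (h : ∀ j, i ≤ j → mapQ R (𝒯.k j) x = 0) : x = 0 := by
  apply cast_injective f hf N
  rw [map_zero]
  apply MonoidAlgebra.ext
  apply Finsupp.ext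
  intro z
  have h0 : Good 𝒯 0 (lamf (MonoidAlgebra.mapRingHom N f x)) := Good.lam 0 _
  obtain ⟨j₀, hj⟩ := exists_psum_eq h0 z 1
  have h1 := hj (max i j₀) (le_max_right _ _)
  rw [psum_lamf, mapQ_comm, h _ (le_max_left _ _), map_zero] at h1
  unfold lamf at h1
  rw [inv_one, mul_one] at h1
  exact h1.symm

theorem tower_unitR {R : Type} [CommRing R] (f : R →+* K) (hf : Function.Injective f) (𝒯 : OrdTower N Λ)
    {ι : Type} [Fintype ι] [DecidableEq ι]
    (J : Matrix ι ι (MonoidAlgebra R N)) (hJ : ∀ j, IsUnit (J.map (mapQ R (𝒯.k j)))) : IsUnit J := by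
  classical
  let c : MonoidAlgebra R N →+* MonoidAlgebra K N := MonoidAlgebra.mapRingHom N f
  let cj : ∀ j, MonoidAlgebra R (N ⧸ 𝒯.k j) →+* MonoidAlgebra K (N ⧸ 𝒯.k j) := fun j =>
    MonoidAlgebra.mapRingHom (N ⧸ 𝒯.k j) f
  have hmm : ∀ (X : Matrix ι ι (MonoidAlgebra R N)) (j : ℕ),
      (X.map c).map (mapQ K (𝒯.k j)) = (X.map (mapQ R (𝒯.k j))).map (cj j) := by
    intro X j
    ext1 a b
    exact mapQ_comm _ _ _
  have hJQ : ∀ j, IsUnit ((J.map c).map (mapQ K (𝒯.k j))) := by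
    intro j
    rw [hmm]
    exact (hJ j).map (RingHom.mapMatrix (cj j))
  obtain ⟨i, b, hb⟩ := descent 𝒯 (J.map c) hJQ
  -- the inverses over the small ring
  have hC : ∀ j, ∃ C : Matrix ι ι (MonoidAlgebra R (N ⧸ 𝒯.k j)),
      J.map (mapQ R (𝒯.k j)) * C = 1 ∧ C * J.map (mapQ R (𝒯.k j)) = 1 := by
    intro j
    obtain ⟨u, hu⟩ := hJ j
    exact ⟨↑u⁻¹, by rw [← hu, Units.mul_inv], by rw [← hu, Units.inv_mul]⟩
  choose C hC1 hC2 using hC
  have hbC : ∀ j, i ≤ j → b.map (mapQ K (𝒯.k j)) = (C j).map (cj j) := by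
    intro j hj
    have h1 := (hb j hj).1
    rw [hmm] at h1
    have h2 : (C j).map (cj j) * (J.map (mapQ R (𝒯.k j))).map (cj j) = 1 := by
      rw [← Matrix.map_mul, hC2 j]
      exact Matrix.map_one _ (map_zero _) (map_one _)
    calc b.map (mapQ K (𝒯.k j)) = ((C j).map (cj j) * (J.map (mapQ R (𝒯.k j))).map (cj j)) *
          b.map (mapQ K (𝒯.k j)) := by rw [h2, one_mul]
      _ = (C j).map (cj j) := by rw [mul_assoc, h1, mul_one]
  -- integrality
  have hint : ∀ a l z, ∃ n : R, (b a l).coeff z = f n := by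
    intro a l z
    have h0 : Good 𝒯 0 (lamf (b a l)) := Good.lam 0 _
    obtain ⟨j₀, hj⟩ := exists_psum_eq h0 z 1
    have h1 := hj (max i j₀) (le_max_right _ _)
    rw [psum_lamf] at h1
    unfold lamf at h1
    rw [inv_one, mul_one] at h1
    have h2 := congrFun (congrFun (hbC (max i j₀) (le_max_left _ _)) a) l
    rw [Matrix.map_apply, Matrix.map_apply] at h2
    rw [h2] at h1
    refine ⟨(C (max i j₀) a l).coeff (QuotientGroup.mk z), ?_⟩
    rw [← h1]
    rfl
  choose n hn using hint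
  have hfin : ∀ a l, {z | n a l z ≠ 0}.Finite := by
    intro a l
    refine ((b a l).coeff.support.finite_toSet).subset ?_
    intro z hz
    rw [Finset.mem_coe, Finsupp.mem_support_iff, hn]
    intro h0
    exact hz (hf (h0.trans (map_zero f).symm))
  let bZ : Matrix ι ι (MonoidAlgebra R N) := Matrix.of fun a l =>
    MonoidAlgebra.ofCoeff (Finsupp.ofSupportFinite (n a l) (hfin a l))
  have hbZ : bZ.map c = b := by
    ext1 a l
    apply MonoidAlgebra.ext
    apply Finsupp.ext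
    intro z
    rw [hn]
    rfl
  have key : ∀ X : Matrix ι ι (MonoidAlgebra R N),
      (∀ j, i ≤ j → ((X.map c).map (mapQ K (𝒯.k j))) = 1) → X = 1 := by
    intro X hX
    rw [← sub_eq_zero]
    ext1 a l
    refine sepR f hf 𝒯 i _ fun j hj => ?_
    apply cast_injective f hf (N ⧸ 𝒯.k j)
    rw [map_zero, ← mapQ_comm, Matrix.sub_apply, map_sub, map_sub, sub_eq_zero]
    have h1 := congrFun (congrFun (hX j hj) a) l
    rw [Matrix.map_apply, Matrix.map_apply] at h1
    rw [show MonoidAlgebra.mapRingHom N f (X a l) = c (X a l) from rfl, h1,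
      Matrix.one_apply, Matrix.one_apply]
    split_ifs
    · rw [map_one, map_one]
    · rw [map_zero, map_zero]
  have h1 : J * bZ = 1 := by
    apply key
    intro j hj
    rw [Matrix.map_mul, hbZ, Matrix.map_mul]
    exact (hb j hj).1
  have h2 : bZ * J = 1 := by
    apply key
    intro j hj
    rw [Matrix.map_mul, hbZ, Matrix.map_mul]
    exact (hb j hj).2
  exact ⟨⟨J, bZ, h1, h2⟩, rfl⟩

end Pool.Agent.MelS
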