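import Pool.Agent.MelD.Dens
import Pool.Agent.MelS.Def

/-!
# The matrix of second Fox derivatives (module W10a)

`F` free on `x_1, ..., x_k`, `φ : F → Γ`, values in `K[Γ]`.  `D_j = fox _ j r` the Fox derivatives:
`D_j (g h) = D_j g + φ g D_j h`.  `dl i w = bar (D_i (w⁻¹))`, `bar` the inversion of group elements:
`dl i (g h) = dl i g * φ h + dl i h`, `dl i (x_j⁻¹) = δ_ij`, and
`φ w - 1 = ∑ i, (φ (x_i)⁻¹ - 1) * dl i w`
(apply `bar`, an anti-automorphism, to `fundamental` for `w⁻¹`).
`Dl i` is the additive extension of `dl i` to `ℤ[F]`: `Dl i (x y) = Dl i x * φ y + aug x • Dl i y`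
(check on group elements; `aug` the augmentation, `φ` extended to `ℤ[F] → K[Γ]`), and
`φ x - aug x = ∑ i, (φ (x_i)⁻¹ - 1) * Dl i x`.
`Jm i j = Dl i (D_j r)`, `D_j r ∈ ℤ[F]`.
* `XJ`: for `r ∈ [F, F]`: `aug (D_j r)` is the exponent sum of `x_j` in `r` (`w ↦ aug (D_j w)` is a homomorphism
  to `ℤ`, so vanishes on `[F, F]`), so `∑ i, (φ (x_i)⁻¹ - 1) * Jm i j = D_j r` in `K[Γ]` (`map_fox` for the map
  `ℤ[F] → K[Γ]`).
* `JX`: apply `Dl i` to `r - 1 = ∑ j, D_j r * (x_j - 1)` in `ℤ[F]`: `Dl i r = ∑ j, Jm i j * (φ x_j - 1)`, as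
  `aug (D_j r) = 0`; and `Dl i 1 = 0`.
* `dl_rel`: if `φ r = 1`: `D_i (r⁻¹) = - φ (r⁻¹) D_i r = - D_i r`.
* `Jm_map`: compatibility with a ring homomorphism `K[Γ] → K'[Γ']` induced by `Γ → Γ'` and `K → K'`; here for
  `red p M`.
-/

open Finset

namespace Pool.Agent.MelS

open Pool.Agent.MelD (fox OR fundamental map_fox coc_unique)

section

variable {Γ : Type} [Group Γ] {k : ℕ}

/-- Inversion of the group elements. -/
noncomputable def bar {K : Type} [CommRing K] (x : MonoidAlgebra K Γ) : MonoidAlgebra K Γ :=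
  MonoidAlgebra.mapDomain (fun g => g⁻¹) x

theorem bar_add {K : Type} [CommRing K] (x y : MonoidAlgebra K Γ) : bar (x + y) = bar x + bar y :=
  MonoidAlgebra.mapDomain_add _ _ _

theorem bar_zero {K : Type} [CommRing K] : bar (0 : MonoidAlgebra K Γ) = 0 :=
  MonoidAlgebra.mapDomain_zero _

theorem bar_single {K : Type} [CommRing K] (g : Γ) (c : K) :
    bar (MonoidAlgebra.single g c) = MonoidAlgebra.single g⁻¹ c :=
  MonoidAlgebra.mapDomain_single

theorem bar_one {K : Type} [CommRing K] : bar (1 : MonoidAlgebra K Γ) = 1 := by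
  rw [MonoidAlgebra.one_def, bar_single, inv_one]

theorem bar_mul {K : Type} [CommRing K] (x y : MonoidAlgebra K Γ) : bar (x * y) = bar y * bar x := by
  induction x using MonoidAlgebra.induction_linear with
  | zero => rw [zero_mul, bar_zero, mul_zero]
  | add x x' hx hx' => rw [add_mul, bar_add, bar_add, mul_add, hx, hx']
  | single g c =>
    induction y using MonoidAlgebra.induction_linear with
    | zero => rw [mul_zero, bar_zero, zero_mul]
    | add y y' hy hy' => rw [mul_add, bar_add, bar_add, add_mul, hy, hy']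
    | single h d =>
      rw [MonoidAlgebra.single_mul_single, bar_single, bar_single, bar_single,
        MonoidAlgebra.single_mul_single, mul_inv_rev, mul_comm c d]

theorem bar_bar {K : Type} [CommRing K] (x : MonoidAlgebra K Γ) : bar (bar x) = x := by
  induction x using MonoidAlgebra.induction_linear with
  | zero => rw [bar_zero, bar_zero]
  | add x x' hx hx' => rw [bar_add, bar_add, hx, hx']
  | single g c => rw [bar_single, bar_single, inv_inv]

/-- The additive map `bar`. -/
noncomputable def barHom {K : Type} [CommRing K] : MonoidAlgebra K Γ →+ MonoidAlgebra K Γ where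
  toFun := bar
  map_zero' := bar_zero
  map_add' := bar_add

theorem bar_neg {K : Type} [CommRing K] (x : MonoidAlgebra K Γ) : bar (-x) = - bar x :=
  map_neg (barHom (K := K) (Γ := Γ)) x

theorem bar_sub {K : Type} [CommRing K] (x y : MonoidAlgebra K Γ) : bar (x - y) = bar x - bar y :=
  map_sub (barHom (K := K) (Γ := Γ)) x y

theorem bar_sum {K : Type} [CommRing K] {ι : Type} (s : Finset ι) (f : ι → MonoidAlgebra K Γ) :
    bar (∑ i ∈ s, f i) = ∑ i ∈ s, bar (f i) :=
  map_sum (barHom (K := K) (Γ := Γ)) f s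

/-- The free group in the group ring. -/
noncomputable def fr (K : Type) [CommRing K] (φ : FreeGroup (Fin k) →* Γ) :
    FreeGroup (Fin k) →* MonoidAlgebra K Γ := (MonoidAlgebra.of K Γ).comp φ

/-- The right handed Fox derivatives. -/
noncomputable def dl (K : Type) [CommRing K] (φ : FreeGroup (Fin k) →* Γ) (i : Fin k)
    (w : FreeGroup (Fin k)) : MonoidAlgebra K Γ := bar (fox (fr K φ) i w⁻¹)

/-- Their additive extensions. -/
noncomputable def Dl (K : Type) [CommRing K] (φ : FreeGroup (Fin k) →* Γ) (i : Fin k)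
    (x : MonoidAlgebra ℤ (FreeGroup (Fin k))) : MonoidAlgebra K Γ :=
  x.coeff.sum (fun w c => c • dl K φ i w)

/-- The matrix of second Fox derivatives. -/
noncomputable def Jm (K : Type) [CommRing K] (φ : FreeGroup (Fin k) →* Γ) (r : FreeGroup (Fin k)) :
    Matrix (Fin k) (Fin k) (MonoidAlgebra K Γ) :=
  fun i j => Dl K φ i (fox (fr ℤ (MonoidHom.id _)) j r)

/-- The map `ℤ[F] → K[Γ]`. -/
noncomputable def ext (K : Type) [CommRing K] (φ : FreeGroup (Fin k) →* Γ) :
    MonoidAlgebra ℤ (FreeGroup (Fin k)) →+* MonoidAlgebra K Γ :=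
  (MonoidAlgebra.mapRingHom Γ (Int.castRingHom K)).comp (MonoidAlgebra.mapDomainRingHom ℤ φ)

/-- The augmentation. -/
noncomputable def aug {G : Type} [Group G] (x : MonoidAlgebra ℤ G) : ℤ := x.coeff.sum fun _ c => c

theorem aug_single {G : Type} [Group G] (g : G) (c : ℤ) : aug (MonoidAlgebra.single g c) = c := by
  unfold aug
  rw [MonoidAlgebra.coeff_single, Finsupp.sum_single_index rfl]

theorem aug_zero {G : Type} [Group G] : aug (0 : MonoidAlgebra ℤ G) = 0 := by
  unfold aug
  rw [MonoidAlgebra.coeff_zero, Finsupp.sum_zero_index]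

theorem aug_add {G : Type} [Group G] (x y : MonoidAlgebra ℤ G) : aug (x + y) = aug x + aug y := by
  unfold aug
  rw [MonoidAlgebra.coeff_add, Finsupp.sum_add_index' (fun _ => rfl) (fun _ _ _ => rfl)]

theorem aug_mul {G : Type} [Group G] (x y : MonoidAlgebra ℤ G) : aug (x * y) = aug x * aug y := by
  induction x using MonoidAlgebra.induction_linear with
  | zero => rw [zero_mul, aug_zero, zero_mul]
  | add x x' hx hx' => rw [add_mul, aug_add, aug_add, add_mul, hx, hx']
  | single g c =>
    induction y using MonoidAlgebra.induction_linear with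
    | zero => rw [mul_zero, aug_zero, mul_zero]
    | add y y' hy hy' => rw [mul_add, aug_add, aug_add, mul_add, hy, hy']
    | single h d => rw [MonoidAlgebra.single_mul_single, aug_single, aug_single, aug_single]

variable (K : Type) [CommRing K] (φ : FreeGroup (Fin k) →* Γ)

theorem fr_apply (w : FreeGroup (Fin k)) : fr K φ w = MonoidAlgebra.single (φ w) 1 := rfl

theorem bar_fr (w : FreeGroup (Fin k)) : bar (fr K φ w) = fr K φ w⁻¹ := by
  rw [fr_apply, fr_apply, bar_single, map_inv]

theorem ext_single (w : FreeGroup (Fin k)) (c : ℤ) :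
    ext K φ (MonoidAlgebra.single w c) = c • fr K φ w := by
  unfold ext
  rw [fr_apply, RingHom.comp_apply]
  simp [MonoidAlgebra.mapDomainRingHom_apply]

theorem dl_mul (i : Fin k) (g h : FreeGroup (Fin k)) : dl K φ i (g * h) = dl K φ i g * fr K φ h + dl K φ i h := by
  unfold dl
  rw [mul_inv_rev, Pool.Agent.MelD.fox_mul, bar_add, bar_mul, bar_fr, inv_inv, add_comm]

theorem dl_one (i : Fin k) : dl K φ i 1 = 0 := by
  unfold dl
  rw [inv_one]
  unfold fox
  rw [Pool.Agent.MelD.coc_one, bar_zero]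

theorem dl_inv_of (i j : Fin k) : dl K φ i (FreeGroup.of j)⁻¹ = if j = i then 1 else 0 := by
  unfold dl
  rw [inv_inv, Pool.Agent.MelD.fox_of]
  split_ifs
  · exact bar_one
  · exact bar_zero

theorem dl_fund (w : FreeGroup (Fin k)) :
    fr K φ w - 1 = ∑ i, (fr K φ (FreeGroup.of i)⁻¹ - 1) * dl K φ i w := by
  have h := fundamental (fr K φ) w⁻¹
  have h2 := congrArg bar h
  rw [bar_sub, bar_fr, inv_inv, bar_one, bar_sum] at h2
  rw [h2]
  refine sum_congr rfl fun i _ => ?_
  rw [bar_mul, bar_sub, bar_fr, bar_one]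
  rfl

theorem Dl_single (i : Fin k) (w : FreeGroup (Fin k)) (c : ℤ) :
    Dl K φ i (MonoidAlgebra.single w c) = c • dl K φ i w := by
  unfold Dl
  rw [MonoidAlgebra.coeff_single]
  exact Finsupp.sum_single_index (zero_smul ℤ (dl K φ i w))

theorem Dl_add (i : Fin k) (x y : MonoidAlgebra ℤ (FreeGroup (Fin k))) :
    Dl K φ i (x + y) = Dl K φ i x + Dl K φ i y := by
  unfold Dl
  rw [MonoidAlgebra.coeff_add]
  exact Finsupp.sum_add_index' (fun w => zero_smul ℤ (dl K φ i w))
    (fun w a b => add_smul a b (dl K φ i w))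

theorem Dl_zero (i : Fin k) : Dl K φ i 0 = 0 := by
  unfold Dl
  rw [MonoidAlgebra.coeff_zero, Finsupp.sum_zero_index]

/-- The additive map `Dl`. -/
noncomputable def DlHom (i : Fin k) : MonoidAlgebra ℤ (FreeGroup (Fin k)) →+ MonoidAlgebra K Γ where
  toFun := Dl K φ i
  map_zero' := Dl_zero K φ i
  map_add' := Dl_add K φ i

theorem Dl_sub (i : Fin k) (x y : MonoidAlgebra ℤ (FreeGroup (Fin k))) :
    Dl K φ i (x - y) = Dl K φ i x - Dl K φ i y := map_sub (DlHom K φ i) x y

theorem Dl_sum (i : Fin k) {ι : Type} (s : Finset ι) (f : ι → MonoidAlgebra ℤ (FreeGroup (Fin k))) :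
    Dl K φ i (∑ j ∈ s, f j) = ∑ j ∈ s, Dl K φ i (f j) := map_sum (DlHom K φ i) f s

theorem Dl_mul (i : Fin k) (x y : MonoidAlgebra ℤ (FreeGroup (Fin k))) :
    Dl K φ i (x * y) = Dl K φ i x * ext K φ y + aug x • Dl K φ i y := by
  induction x using MonoidAlgebra.induction_linear with
  | zero => rw [zero_mul, Dl_zero, aug_zero, zero_mul, zero_smul, add_zero]
  | add x x' hx hx' =>
    rw [add_mul, Dl_add, Dl_add, aug_add, hx, hx', add_mul, add_smul]
    abel
  | single g c =>
    induction y using MonoidAlgebra.induction_linear with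
    | zero => rw [mul_zero, Dl_zero, map_zero, mul_zero, smul_zero, add_zero]
    | add y y' hy hy' =>
      rw [mul_add, Dl_add, Dl_add, hy, hy', map_add, mul_add, smul_add]
      abel
    | single h d =>
      rw [MonoidAlgebra.single_mul_single, Dl_single, Dl_single, Dl_single, aug_single, ext_single,
        dl_mul, smul_add, smul_mul_smul_comm, smul_smul]

theorem Dl_fund (x : MonoidAlgebra ℤ (FreeGroup (Fin k))) :
    ext K φ x - (aug x : MonoidAlgebra K Γ) = ∑ i, (fr K φ (FreeGroup.of i)⁻¹ - 1) * Dl K φ i x := by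
  induction x using MonoidAlgebra.induction_linear with
  | zero => simp only [map_zero, aug_zero, Int.cast_zero, sub_zero, Dl_zero, mul_zero, sum_const_zero]
  | add x x' hx hx' =>
    simp only [map_add, aug_add, Int.cast_add, Dl_add, mul_add, sum_add_distrib]
    rw [← hx, ← hx']
    abel
  | single w c =>
    simp only [ext_single, aug_single, Dl_single, mul_smul_comm]
    rw [← smul_sum, ← dl_fund, smul_sub, zsmul_one]

theorem aug_fox (r : FreeGroup (Fin k)) (hr : r ∈ commutator (FreeGroup (Fin k))) (j : Fin k) :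
    aug (fox (fr ℤ (MonoidHom.id (FreeGroup (Fin k)))) j r) = 0 := by
  have hm : ∀ g h, aug (fox (fr ℤ (MonoidHom.id (FreeGroup (Fin k)))) j (g * h)) =
      aug (fox (fr ℤ (MonoidHom.id (FreeGroup (Fin k)))) j g) +
        aug (fox (fr ℤ (MonoidHom.id (FreeGroup (Fin k)))) j h) := by
    intro g h
    rw [Pool.Agent.MelD.fox_mul, aug_add, aug_mul, fr_apply, aug_single, one_mul]
  let f : FreeGroup (Fin k) →* Multiplicative ℤ := MonoidHom.mk' (fun w => Multiplicative.ofAdd
    (aug (fox (fr ℤ (MonoidHom.id (FreeGroup (Fin k)))) j w))) (fun g h => by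
      rw [hm, ofAdd_add])
  have h1 : r ∈ f.ker := Abelianization.commutator_subset_ker f hr
  have h2 : f r = 1 := h1
  exact Multiplicative.ofAdd.injective h2

theorem ext_fox (r : FreeGroup (Fin k)) (j : Fin k) :
    ext K φ (fox (fr ℤ (MonoidHom.id (FreeGroup (Fin k)))) j r) = fox (fr K φ) j r := by
  rw [map_fox]
  congr 1
  ext i : 1
  show ext K φ (fr ℤ (MonoidHom.id (FreeGroup (Fin k))) (FreeGroup.of i)) = fr K φ (FreeGroup.of i)
  rw [fr_apply, ext_single, one_smul]
  rfl

theorem XJ (r : FreeGroup (Fin k)) (hr : r ∈ commutator (FreeGroup (Fin k))) (j : Fin k) :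
    ∑ i, (fr K φ (FreeGroup.of i)⁻¹ - 1) * Jm K φ r i j = fox (fr K φ) j r := by
  have h := Dl_fund K φ (fox (fr ℤ (MonoidHom.id (FreeGroup (Fin k)))) j r)
  rw [aug_fox r hr, ext_fox, Int.cast_zero, sub_zero] at h
  exact h.symm

theorem JX (r : FreeGroup (Fin k)) (hr : r ∈ commutator (FreeGroup (Fin k))) (i : Fin k) :
    ∑ j, Jm K φ r i j * (fr K φ (FreeGroup.of j) - 1) = dl K φ i r := by
  have h := congrArg (Dl K φ i) (fundamental (fr ℤ (MonoidHom.id (FreeGroup (Fin k)))) r)
  rw [Dl_sub, Dl_sum, fr_apply, MonoidAlgebra.one_def, Dl_single, Dl_single, one_smul, one_smul, dl_one,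
    sub_zero] at h
  have h0 : (MonoidHom.id (FreeGroup (Fin k))) r = r := rfl
  rw [h0] at h
  rw [h]
  refine sum_congr rfl fun j _ => ?_
  rw [Dl_mul, aug_fox r hr, zero_smul, add_zero, map_sub]
  unfold Jm
  congr 2
  · rw [fr_apply, fr_apply, ext_single, one_smul]; rfl
  · rw [← MonoidAlgebra.one_def, map_one]

theorem dl_rel (r : FreeGroup (Fin k)) (hr : φ r = 1) (i : Fin k) : dl K φ i r = - bar (fox (fr K φ) i r) := by
  have h : fox (fr K φ) i r⁻¹ = - fox (fr K φ) i r := by
    unfold fox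
    rw [Pool.Agent.MelD.coc_inv, fr_apply, map_inv, hr, inv_one, ← MonoidAlgebra.one_def, one_smul]
  unfold dl
  rw [h, bar_neg]

theorem red_bar (p : ℕ) (M : Subgroup Γ) [M.Normal] (x : MonoidAlgebra ℤ Γ) :
    red p M (bar x) = bar (red p M x) := by
  have hs : ∀ (g : Γ) (c : ℤ), red p M (MonoidAlgebra.single g c) =
      MonoidAlgebra.single (QuotientGroup.mk' M g) (c : ZMod p) := by
    intro g c
    unfold red mapQ
    rw [RingHom.comp_apply]
    simp [MonoidAlgebra.mapDomainRingHom_apply]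
  induction x using MonoidAlgebra.induction_linear with
  | zero => rw [bar_zero, map_zero, bar_zero]
  | add x x' hx hx' => rw [bar_add, map_add, map_add, bar_add, hx, hx']
  | single g c => rw [bar_single, hs, hs, bar_single, map_inv]

theorem red_dl (p : ℕ) (M : Subgroup Γ) [M.Normal] (i : Fin k) (w : FreeGroup (Fin k)) :
    red p M (dl ℤ φ i w) = dl (ZMod p) ((QuotientGroup.mk' M).comp φ) i w := by
  unfold dl
  rw [red_bar, map_fox]
  congr 2
  ext i : 1
  show red p M (fr ℤ φ (FreeGroup.of i)) = fr (ZMod p) _ (FreeGroup.of i)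
  rw [fr_apply, fr_apply]
  unfold red mapQ
  rw [RingHom.comp_apply]
  simp [MonoidAlgebra.mapDomainRingHom_apply]

theorem Jm_map (r : FreeGroup (Fin k)) (φ : FreeGroup (Fin k) →* Γ) (p : ℕ) (M : Subgroup Γ) [M.Normal] :
    (Jm ℤ φ r).map (red p M) = Jm (ZMod p) ((QuotientGroup.mk' M).comp φ) r := by
  ext1 i j
  rw [Matrix.map_apply]
  unfold Jm
  generalize fox (fr ℤ (MonoidHom.id (FreeGroup (Fin k)))) j r = x
  induction x using MonoidAlgebra.induction_linear with
  | zero => rw [Dl_zero, Dl_zero, map_zero]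
  | add x x' hx hx' => rw [Dl_add, Dl_add, map_add, hx, hx']
  | single g c => rw [Dl_single, Dl_single, map_zsmul, red_dl]

end

end Pool.Agent.MelS
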