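import Pool.Agent.MelS.DefR

/-!
# From a normal subgroup of finite index to the group (module W11)

`R` a commutative ring, `N` normal of finite index in `G`, `κ = G ⧸ N` (finite), `s : κ → G` a section.  For
`x ∈ R[G]` and `a, b ∈ κ` let `Φ x a b ∈ R[N]` be the element with coefficient `x (s a * n * (s b)⁻¹)` at
`n ∈ N`, i.e. `x * s b = ∑ a, s a * Φ x a b`.  `Φ : R[G] →+* Matrix κ κ R[N]` is an (injective) ring homomorphism.
[Best seen as: `R[G]` is a free right `R[N]`-module with basis `s a`, `Φ x` the matrix of the left multiplication by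
`x`.]
`J' : Matrix (ι × κ) (ι × κ) R[N]`, `J' (i, a) (l, b) = Φ (J i l) a b`.

(i) `IsUnit J' → IsUnit J`.  Let `e : (ι × κ → R[N]) ≃ (ι → R[G])`, `(e c) l = ∑ b, s b * c (l, b)` (bijective),
 `J *ᵥ e c = e (J' *ᵥ c)`.  So `v ↦ J *ᵥ v` is bijective on `ι → R[G]`; columns `u_l` with
 `J *ᵥ u_l = e_l` give `U` with `J U = 1`, and `J (U J - 1) = 0` with injectivity `U J = 1`.

(ii) `FinInvR J → FinInvR J'`.  Let `M'` be normal of finite index in `N`, `f : R → F` onto a finite field.  Let `M` be
 the normal core in `G` of the image of `M'` in `G`: normal of finite index, `M ≤ M' ≤ N`.  As `J` is invertible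
 modulo `ker (redR f M)` and `redR f M` is surjective there is `U : Matrix ι ι R[G]` with `J U ≡ 1`, `U J ≡ 1` modulo
 `ker (redR f M)` entrywise.  It suffices: `redR f M x = 0` implies that all entries of `Φ x` are in
 `ker (redR f M')`: then the images of `Φ(J)`, `Φ(U)` are inverse to each other.  Indeed the coefficient of
 `Φ x a b` at a coset `n M'` is `∑_{μ ∈ M'} x (s a n μ (s b)⁻¹)`; split `M'` into cosets of `M`; each partial sum
 is the coefficient of the image of `x` in `F[G/M]` at `s a n μ₀ (s b)⁻¹ M` (`M` normal in `G`), so `0` under `f`.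
 [Alternatively: `ker (redR f M)` is generated as an additive group by the `c g`, `c ∈ ker f`, and the `g (μ - 1)`,
 `g ∈ G`, `μ ∈ M`; `Φ (g (μ - 1)) = Φ(g) Φ(μ - 1)` and `Φ(μ)` is the diagonal matrix with entries
 `(s b)⁻¹ μ (s b) ∈ M ≤ M'`: maps to `1`.  This is the shortest way.]
-/

open Finset

namespace Pool.Agent.MelS

namespace Indu

variable (R : Type) [CommRing R] {G : Type} [Group G] (N : Subgroup G)

/-- The section of the projection. -/
noncomputable def sec (a : G ⧸ N) : G := Quotient.out a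

theorem mk_sec (a : G ⧸ N) : (QuotientGroup.mk (sec N a) : G ⧸ N) = a := QuotientGroup.out_eq' a

open Classical in
/-- The element of the group ring of `N` given by an element of `G`. -/
noncomputable def El (x : G) : MonoidAlgebra R N := if h : x ∈ N then MonoidAlgebra.single ⟨x, h⟩ 1 else 0

variable {R N}

theorem El_mem {x : G} (h : x ∈ N) : El R N x = MonoidAlgebra.single ⟨x, h⟩ 1 := by
  unfold El
  rw [dif_pos h]

theorem El_not {x : G} (h : x ∉ N) : El R N x = 0 := by
  unfold El
  rw [dif_neg h]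

theorem El_one : El R N 1 = 1 := by
  rw [El_mem N.one_mem, MonoidAlgebra.one_def]
  rfl

theorem El_mul {x y : G} (h : y ∈ N) : El R N x * El R N y = El R N (x * y) := by
  by_cases hx : x ∈ N
  · rw [El_mem hx, El_mem h, El_mem (N.mul_mem hx h), MonoidAlgebra.single_mul_single, one_mul]
    rfl
  · rw [El_not hx, El_not (fun h2 => hx ((N.mul_mem_cancel_right h).1 h2)), zero_mul]

theorem El_coeff (x : G) (n : N) [Decidable (x = n)] : (El R N x).coeff n = if x = n then 1 else 0 := by
  classical
  by_cases hx : x ∈ N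
  · rw [El_mem hx, MonoidAlgebra.coeff_single, Finsupp.single_apply]
    congr 1
    exact propext Subtype.ext_iff
  · rw [El_not hx, if_neg]
    · rfl
    · rintro rfl
      exact hx n.2

theorem sec_mem {x : G} {a : G ⧸ N} : (sec N a)⁻¹ * x ∈ N ↔ a = QuotientGroup.mk x := by
  rw [← QuotientGroup.eq, mk_sec]

set_option linter.unusedSectionVars false

variable [Fintype (G ⧸ N)] [DecidableEq (G ⧸ N)]

variable (R N)

/-- The monomial representation. -/
noncomputable def rho : G →* Matrix (G ⧸ N) (G ⧸ N) (MonoidAlgebra R N) where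
  toFun g := Matrix.of fun a b => El R N ((sec N a)⁻¹ * (g * sec N b))
  map_one' := by
    ext1 a b
    rw [Matrix.of_apply, one_mul, Matrix.one_apply]
    split_ifs with h
    · rw [h, inv_mul_cancel, El_one]
    · refine El_not fun h2 => h ?_
      rw [sec_mem, mk_sec] at h2
      exact h2
  map_mul' g h := by
    ext1 a b
    rw [Matrix.mul_apply]
    simp only [Matrix.of_apply]
    rw [Finset.sum_eq_single (QuotientGroup.mk (h * sec N b) : G ⧸ N)]
    · rw [El_mul (sec_mem.2 rfl)]
      congr 1
      group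
    · intro c _ hc
      rw [El_not (fun h2 => hc (sec_mem.1 h2)), mul_zero]
    · intro h2
      exact absurd (Finset.mem_univ _) h2

variable {R N}

theorem rho_apply (g : G) (a b : G ⧸ N) :
    rho R N g a b = El R N ((sec N a)⁻¹ * (g * sec N b)) := rfl

variable (R N)

/-- Left multiplication as a matrix over the group ring of `N`. -/
noncomputable def Phi :
    MonoidAlgebra R G →ₐ[R] Matrix (G ⧸ N) (G ⧸ N) (MonoidAlgebra R N) :=
  MonoidAlgebra.lift R _ G (rho R N)

variable {R N}

theorem Phi_single (g : G) (c : R) : Phi R N (MonoidAlgebra.single g c) = c • rho R N g := by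
  exact MonoidAlgebra.lift_single _ _ _

theorem Phi_coeff (x : MonoidAlgebra R G) (a b : G ⧸ N) (n : N) :
    (Phi R N x a b).coeff n = x.coeff (sec N a * n * (sec N b)⁻¹) := by
  classical
  induction x using MonoidAlgebra.induction_linear with
  | zero => rw [map_zero]; rfl
  | add x y hx hy =>
    rw [map_add, Matrix.add_apply, MonoidAlgebra.coeff_add, Finsupp.add_apply, hx, hy,
      MonoidAlgebra.coeff_add, Finsupp.add_apply]
  | single g c =>
    rw [Phi_single, Matrix.smul_apply, rho_apply, MonoidAlgebra.coeff_smul, Finsupp.smul_apply, El_coeff,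
      MonoidAlgebra.coeff_single, Finsupp.single_apply]
    have h1 : ((sec N a)⁻¹ * (g * sec N b) = n) ↔ (g = sec N a * n * (sec N b)⁻¹) := by
      constructor
      · intro h
        rw [← h]; group
      · intro h
        rw [h]; group
    by_cases h : g = sec N a * n * (sec N b)⁻¹
    · rw [if_pos (h1.2 h), if_pos h, smul_eq_mul, mul_one]
    · rw [if_neg (fun h2 => h (h1.1 h2)), if_neg h, smul_zero]

/-- A column of the matrix. -/
noncomputable def col (x : MonoidAlgebra R G) : G ⧸ N → MonoidAlgebra R N :=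
  fun a => Phi R N x a (QuotientGroup.mk 1)

theorem col_inj {x y : MonoidAlgebra R G} (h : col (N := N) x = col y) : x = y := by
  ext g
  set b : G ⧸ N := QuotientGroup.mk 1
  have h1 : (sec N (QuotientGroup.mk (g * sec N b)))⁻¹ * (g * sec N b) ∈ N := sec_mem.2 rfl
  have h2 := Phi_coeff x (QuotientGroup.mk (g * sec N b)) b ⟨_, h1⟩
  have h3 := Phi_coeff y (QuotientGroup.mk (g * sec N b)) b ⟨_, h1⟩
  have h4 : sec N (QuotientGroup.mk (g * sec N b)) *
      ((sec N (QuotientGroup.mk (g * sec N b)))⁻¹ * (g * sec N b)) * (sec N b)⁻¹ = g := by group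
  have h5 := congrFun h (QuotientGroup.mk (g * sec N b))
  unfold col at h5
  rw [h4] at h2 h3
  rw [← h2, ← h3, h5]

theorem col_add (x y : MonoidAlgebra R G) : col (N := N) (x + y) = col x + col y := by
  ext1 a
  show Phi R N (x + y) a _ = _
  rw [map_add]
  rfl

theorem col_zero : col (N := N) (0 : MonoidAlgebra R G) = 0 := by
  ext1 a
  show Phi R N 0 a _ = _
  rw [map_zero]
  rfl

theorem col_surj (c : G ⧸ N → MonoidAlgebra R N) : ∃ x : MonoidAlgebra R G, col x = c := by
  classical
  let P : AddSubgroup (G ⧸ N → MonoidAlgebra R N) :=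
    { carrier := {c | ∃ x : MonoidAlgebra R G, col x = c}
      zero_mem' := ⟨0, col_zero⟩
      add_mem' := by
        rintro _ _ ⟨x, rfl⟩ ⟨y, rfl⟩
        exact ⟨x + y, col_add x y⟩
      neg_mem' := by
        rintro _ ⟨x, rfl⟩
        refine ⟨-x, ?_⟩
        rw [eq_neg_iff_add_eq_zero, ← col_add, neg_add_cancel, col_zero] }
  have h1 : ∀ (b : G ⧸ N) (y : MonoidAlgebra R N), Pi.single b y ∈ P := by
    intro b y
    induction y using MonoidAlgebra.induction_linear with
    | zero => rw [Pi.single_zero]; exact P.zero_mem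
    | add x y hx hy => rw [Pi.single_add]; exact P.add_mem hx hy
    | single n r =>
      refine ⟨MonoidAlgebra.single (sec N b * n * (sec N (QuotientGroup.mk 1))⁻¹) r, ?_⟩
      ext1 a
      show Phi R N _ a _ = _
      rw [Phi_single, Matrix.smul_apply, rho_apply]
      have h2 : (sec N a)⁻¹ * (sec N b * n * (sec N (QuotientGroup.mk 1))⁻¹ * sec N (QuotientGroup.mk 1))
        = (sec N a)⁻¹ * (sec N b * n) := by group
      rw [h2]
      by_cases hab : a = b
      · subst hab
        rw [Pi.single_eq_same, inv_mul_cancel_left, El_mem n.2, MonoidAlgebra.smul_single, smul_eq_mul, mul_one]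
      · rw [Pi.single_eq_of_ne hab, El_not, smul_zero]
        intro h3
        rw [sec_mem] at h3
        apply hab
        rw [h3, ← mk_sec N b, QuotientGroup.eq, mk_sec, mul_inv_rev, inv_mul_cancel_right]
        exact N.inv_mem n.2
  have h2 : c ∈ P := by
    rw [← Finset.univ_sum_single c]
    exact P.sum_mem fun b _ => h1 b _
  exact h2

section

variable {ι : Type} [Fintype ι] [DecidableEq ι]

/-- The matrix over the group ring of `N`. -/
noncomputable def Jp (J : Matrix ι ι (MonoidAlgebra R G)) :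
    Matrix (ι × (G ⧸ N)) (ι × (G ⧸ N)) (MonoidAlgebra R N) :=
  Matrix.compRingEquiv ι (G ⧸ N) (MonoidAlgebra R N) (J.map (Phi R N))

/-- The column vector over the group ring of `N`. -/
noncomputable def colv (v : ι → MonoidAlgebra R G) : ι × (G ⧸ N) → MonoidAlgebra R N :=
  fun p => col (v p.1) p.2

theorem colv_inj {v w : ι → MonoidAlgebra R G} (h : colv (N := N) v = colv w) : v = w := by
  ext1 i
  refine col_inj (N := N) ?_
  ext1 a
  exact congrFun h (i, a)

theorem colv_surj (c : ι × (G ⧸ N) → MonoidAlgebra R N) :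
    ∃ v : ι → MonoidAlgebra R G, colv v = c := by
  choose v hv using fun i : ι => col_surj (fun a => c (i, a))
  refine ⟨v, ?_⟩
  ext1 p
  exact congrFun (hv p.1) p.2

theorem colv_mul (J : Matrix ι ι (MonoidAlgebra R G)) (v : ι → MonoidAlgebra R G) :
    colv (N := N) (J.mulVec v) = (Jp J).mulVec (colv v) := by
  ext1 p
  obtain ⟨i, a⟩ := p
  show Phi R N (∑ l, J i l * v l) a _ = ∑ q : ι × (G ⧸ N), Phi R N (J i q.1) a q.2 * Phi R N (v q.1) q.2 _
  rw [map_sum, Matrix.sum_apply, Fintype.sum_prod_type]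
  refine Finset.sum_congr rfl fun l _ => ?_
  rw [map_mul, Matrix.mul_apply]

theorem redR_single {F : Type} [CommRing F] (f : R →+* F) {H : Type} [Group H] (M : Subgroup H) [M.Normal]
    (g : H) (c : R) :
    redR f M (MonoidAlgebra.single g c) = MonoidAlgebra.single (QuotientGroup.mk g : H ⧸ M) (f c) := by
  unfold redR mapQ
  rw [RingHom.comp_apply]
  show MonoidAlgebra.mapRingHom _ f (MonoidAlgebra.mapDomain _ (MonoidAlgebra.single g c)) = _
  rw [MonoidAlgebra.mapDomain_single, MonoidAlgebra.mapRingHom_single]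
  rfl

theorem isUnit_of (J : Matrix ι ι (MonoidAlgebra R G))
    (h : IsUnit (Jp (N := N) J)) : IsUnit J := by
  obtain ⟨⟨A, B, hAB, hBA⟩, rfl⟩ := h
  have hs : ∀ w : ι → MonoidAlgebra R G, ∃ v, J.mulVec v = w := by
    intro w
    obtain ⟨v, hv⟩ := colv_surj (B.mulVec (colv w))
    refine ⟨v, colv_inj (N := N) ?_⟩
    rw [colv_mul, hv, Matrix.mulVec_mulVec, hAB, Matrix.one_mulVec]
  have hi : ∀ v w : ι → MonoidAlgebra R G, J.mulVec v = J.mulVec w → v = w := by
    intro v w h
    refine colv_inj (N := N) ?_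
    have h1 : B.mulVec (colv (J.mulVec v)) = B.mulVec (colv (J.mulVec w)) := by rw [h]
    rwa [colv_mul, colv_mul, Matrix.mulVec_mulVec, Matrix.mulVec_mulVec, hBA, Matrix.one_mulVec,
      Matrix.one_mulVec] at h1
  choose u hu using fun l : ι => hs (Pi.single l 1)
  let U : Matrix ι ι (MonoidAlgebra R G) := Matrix.of fun i l => u l i
  have h1 : J * U = 1 := by
    ext1 i l
    show (J.mulVec (u l)) i = _
    rw [hu, Matrix.one_apply, Pi.single_apply]
  have h2 : U * J = 1 := by
    have h3 : J * (U * J) = J * 1 := by rw [← Matrix.mul_assoc, h1, one_mul, mul_one]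
    ext1 i l
    have h4 := hi (fun i => (U * J) i l) (fun i => (1 : Matrix ι ι (MonoidAlgebra R G)) i l) (by
      ext1 a
      exact congrFun (congrFun h3 a) l)
    exact congrFun h4 i
  exact ⟨⟨J, U, h1, h2⟩, rfl⟩

theorem finInv_of [N.Normal] [N.FiniteIndex]
    (J : Matrix ι ι (MonoidAlgebra R G)) (hJ : FinInvR J) : FinInvR (Jp (N := N) J) := by
  intro M' hM' hMf F _ _ f hf
  let M : Subgroup G := (M'.map N.subtype).normalCore
  have hM0 : (M'.map N.subtype).FiniteIndex := by
    refine ⟨?_⟩
    rw [Subgroup.index_map_subtype]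
    exact mul_ne_zero hMf.index_ne_zero (Subgroup.FiniteIndex.index_ne_zero (H := N))
  have hM1 : M.FiniteIndex := inferInstance
  have hMle : ∀ μ ∈ M, ∀ g : G, ∃ h : g⁻¹ * (μ * g) ∈ N, (⟨_, h⟩ : N) ∈ M' := by
    intro μ hμ g
    have h1 : g⁻¹ * μ * g⁻¹⁻¹ ∈ M := (inferInstance : M.Normal).conj_mem μ hμ g⁻¹
    have h2 := Subgroup.normalCore_le _ h1
    rw [inv_inv, mul_assoc] at h2
    obtain ⟨n, hn, h3⟩ := h2
    have h4 : g⁻¹ * (μ * g) ∈ N := h3 ▸ n.2
    refine ⟨h4, ?_⟩
    have h5 : (⟨_, h4⟩ : N) = n := Subtype.ext h3.symm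
    rw [h5]
    exact hn
  let ρ' : G →* Matrix (G ⧸ N) (G ⧸ N) (MonoidAlgebra F (N ⧸ M')) :=
    ((redR f M').mapMatrix : Matrix (G ⧸ N) (G ⧸ N) (MonoidAlgebra R N) →+* _).toMonoidHom.comp (rho R N)
  have hρ0 : ∀ g a b, ρ' g a b = redR f M' (El R N ((sec N a)⁻¹ * (g * sec N b))) := by
    intro g a b
    show ((rho R N g).map (redR f M')) a b = _
    rw [Matrix.map_apply, rho_apply]
  have hρ : ∀ μ ∈ M, ρ' μ = 1 := by
    intro μ hμ
    ext1 a b
    rw [hρ0, Matrix.one_apply]
    obtain ⟨h1, h2⟩ := hMle μ hμ (sec N b)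
    split_ifs with h
    · subst h
      rw [El_mem h1, redR_single, map_one, (QuotientGroup.eq_one_iff _).2 h2]
      rfl
    · rw [El_not, map_zero]
      intro h3
      apply h
      rw [sec_mem] at h3
      rw [h3, ← mk_sec N b, QuotientGroup.eq, mk_sec, mul_inv_rev, mul_assoc, ← N.inv_mem_iff]
      have h4 : ((sec N b)⁻¹ * (μ⁻¹ * sec N b))⁻¹ = (sec N b)⁻¹ * (μ * sec N b) := by group
      rw [h4]
      exact h1
  let Ψ : MonoidAlgebra F (G ⧸ M) →ₐ[F] Matrix (G ⧸ N) (G ⧸ N) (MonoidAlgebra F (N ⧸ M')) :=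
    MonoidAlgebra.lift F _ (G ⧸ M) (QuotientGroup.lift M ρ' hρ)
  have hsq : ∀ x, Ψ (redR f M x) = (Phi R N x).map (redR f M') := by
    intro x
    induction x using MonoidAlgebra.induction_linear with
    | zero =>
      rw [map_zero, map_zero, map_zero]
      ext1 a b
      exact (map_zero (redR f M')).symm
    | add x y hx hy =>
      rw [map_add, map_add, map_add, hx, hy]
      ext1 a b
      exact (map_add (redR f M') _ _).symm
    | single g c =>
      rw [redR_single, Phi_single]
      show MonoidAlgebra.lift F _ (G ⧸ M) (QuotientGroup.lift M ρ' hρ) _ = _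
      rw [MonoidAlgebra.lift_single]
      ext1 a b
      show f c • ρ' g a b = redR f M' (c • rho R N g a b)
      rw [hρ0, rho_apply]
      by_cases h : (sec N a)⁻¹ * (g * sec N b) ∈ N
      · rw [El_mem h, MonoidAlgebra.smul_single, redR_single, redR_single, MonoidAlgebra.smul_single, map_one,
          smul_eq_mul, smul_eq_mul, map_mul, map_one]
      · rw [El_not h, smul_zero, map_zero, smul_zero]
  have h1 := hJ M inferInstance hM1 F f hf
  have h2 : IsUnit ((J.map (redR f M)).map Ψ) :=
    h1.map (RingHom.mapMatrix (m := ι) Ψ.toRingHom)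
  have h3 : (J.map (redR f M)).map Ψ = (J.map (Phi R N)).map (fun m => m.map (redR f M')) := by
    ext1 i l
    exact hsq (J i l)
  rw [h3] at h2
  exact h2.map (Matrix.compRingEquiv ι (G ⧸ N) (MonoidAlgebra F (N ⧸ M')))

end

end Indu

/-- Induction from a normal subgroup of finite index. -/
theorem induR {R : Type} [CommRing R] {G : Type} [Group G] (N : Subgroup G) [N.Normal] [N.FiniteIndex] {ι : Type}
    [Fintype ι] [DecidableEq ι] (J : Matrix ι ι (MonoidAlgebra R G)) :
    ∃ (ι' : Type) (_ : Fintype ι') (_ : DecidableEq ι') (J' : Matrix ι' ι' (MonoidAlgebra R N)),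
      (IsUnit J' → IsUnit J) ∧ (FinInvR J → FinInvR J') := by
  classical
  have : Fintype (G ⧸ N) := Fintype.ofFinite _
  exact ⟨ι × (G ⧸ N), inferInstance, inferInstance, Indu.Jp J, Indu.isUnit_of J, Indu.finInv_of J⟩

end Pool.Agent.MelS
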