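import Pool.Agent.MelS.DefR

/-!
# Square matrices over the group ring of a virtually abelian group (module W9)

`R` a commutative ring of finite type over `ℤ` (for the applications `ℤ` and `ℤ[1/d]`), `T = R[Γ]`, `A` a normal
abelian finitely generated subgroup of finite index, `S = R[A]`: a commutative ring of finite type over `ℤ`,
noetherian; `T` is a finite module over `S` (right multiplication; generated by representatives of `Γ / A`).  Let
`V = ι → T` (columns), a finite `S`-module by right multiplication of the entries, `C = V / J V`, `J V` the range of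
`v ↦ J *ᵥ v` (`S`-linear, even right `T`-linear).

Claim `C = 0`.  Otherwise there is a maximal `S`-submodule `C' < C` (finite module: coatomic), `C / C'` is simple,
so isomorphic to `S / 𝔪`, `𝔪` a maximal ideal of `S`.  The field `S / 𝔪` is of finite type over `ℤ`, so finite
(`ℤ` is a Jacobson ring: `finite_of_finite_type_of_isJacobsonRing` or similar: it is a finite `ℤ`-module; a
field which is a finite `ℤ`-module is finite: the characteristic is not `0` as `ℤ` is not a field).  Let `κ` be the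
image of `R` in `S / 𝔪` (a finite domain, so a finite field), `𝔭` the kernel of `R → κ`, `m = |S/𝔪| - 1 > 0`.
Then `𝔭 C ⊆ C'` and `C (a^m - 1) ⊆ C'` for all `a ∈ A` (images of elements of `A` are units of the field).  Let `M` be
the subgroup of the `a^m`, `a ∈ A` (a subgroup as `A` is abelian; normal in `Γ` as `A` is; of finite index in `A`:
`A / M` is a finitely generated abelian group of finite exponent; so of finite index in `Γ`).  By hypothesis `J` is
invertible over `κ[Γ / M]`; so for every `v ∈ V` there is `w ∈ V` with `v - J w` in the kernel of `redR f M`,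
which is `𝔭 T + ∑_{μ ∈ M} T (μ - 1)` (two sided ideal, as `M` is normal; written with `μ - 1` on the RIGHT).  So
`C = 𝔭 C + ∑ C (μ - 1) ⊆ C'`, contradiction.

Hence `v ↦ J v` is a surjective `S`-linear endomorphism of the noetherian `S`-module `V`, so injective
(`IsNoetherian.injective_of_surjective_endomorphism`; or `OrzechProperty`).  Columns `u_l` with `J u_l = e_l` give
`B` with `J B = 1`; `J (B J - 1) = 0` and injectivity give `B J = 1`.

(You may of course choose another proof, e.g. work with left modules and rows.)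
-/

open Finset

namespace Pool.Agent.MelS

private theorem vmapQ_single {N : Type} [Group N] (K : Type) [Semiring K] (M : Subgroup N) [M.Normal]
    (g : N) (r : K) : mapQ K M (MonoidAlgebra.single g r) = MonoidAlgebra.single (QuotientGroup.mk g) r :=
  MonoidAlgebra.mapDomain_single

private theorem redR_single {N : Type} [Group N] {R κ : Type} [CommRing R] [CommRing κ] (f : R →+* κ) (M : Subgroup N)
    [M.Normal] (g : N) (r : R) :
    redR f M (MonoidAlgebra.single g r) = MonoidAlgebra.single (QuotientGroup.mk g) (f r) := by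
  unfold redR
  rw [RingHom.comp_apply, vmapQ_single]
  exact MonoidAlgebra.mapRingHom_single f _ _

/-- The hypothesis passes to quotient groups. -/
theorem FinInvR.quot {R : Type} [CommRing R] {N : Type} [Group N] {ι : Type} [Fintype ι] [DecidableEq ι]
    (J : Matrix ι ι (MonoidAlgebra R N)) (hJ : FinInvR J) (k : Subgroup N) [k.Normal] :
    FinInvR (J.map (mapQ R k)) := by
  intro M hM hMf κ _ _ f hf
  have hn : (M.comap (QuotientGroup.mk' k)).Normal := hM.comap _
  have hfi : (M.comap (QuotientGroup.mk' k)).FiniteIndex := by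
    refine ⟨?_⟩
    rw [Subgroup.index_comap_of_surjective M (QuotientGroup.mk'_surjective k)]
    exact hMf.index_ne_zero
  have h1 := hJ (M.comap (QuotientGroup.mk' k)) hn hfi κ f hf
  obtain ⟨ψ, hψ⟩ : ∃ ψ : N ⧸ (M.comap (QuotientGroup.mk' k)) →* (N ⧸ k) ⧸ M, ∀ g : N,
      ψ (QuotientGroup.mk g) = QuotientGroup.mk (QuotientGroup.mk g) :=
    ⟨QuotientGroup.map _ M (QuotientGroup.mk' k) (le_refl _), fun g => rfl⟩
  have h2 : (redR f M).comp (mapQ R k) =
      (MonoidAlgebra.mapDomainRingHom κ ψ).comp (redR f (M.comap (QuotientGroup.mk' k))) := by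
    have key : ∀ (g : N) (r : R), ((redR f M).comp (mapQ R k)) (MonoidAlgebra.single g r) =
        ((MonoidAlgebra.mapDomainRingHom κ ψ).comp (redR f (M.comap (QuotientGroup.mk' k))))
          (MonoidAlgebra.single g r) := by
      intro g r
      change redR f M (mapQ R k (MonoidAlgebra.single g r)) =
        MonoidAlgebra.mapDomainRingHom κ ψ (redR f (M.comap (QuotientGroup.mk' k)) (MonoidAlgebra.single g r))
      rw [redR_single, vmapQ_single, redR_single]
      refine Eq.trans ?_ (MonoidAlgebra.mapDomain_single (f := ψ)).symm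
      rw [hψ]
    exact MonoidAlgebra.ringHom_ext (fun r => key 1 r) (fun g => key g 1)
  have h3 : (J.map (mapQ R k)).map (redR f M) =
      (MonoidAlgebra.mapDomainRingHom κ ψ).mapMatrix (J.map (redR f (M.comap (QuotientGroup.mk' k)))) := by
    refine Matrix.ext fun i l => ?_
    exact congrArg (fun F : MonoidAlgebra R N →+* MonoidAlgebra κ ((N ⧸ k) ⧸ M) => F (J i l)) h2
  rw [h3]
  exact h1.map _

private theorem vab_jac : IsJacobsonRing ℤ := by
  rw [isJacobsonRing_iff_prime_eq]
  intro P hP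
  by_cases h0 : P = ⊥
  · subst h0
    refine le_antisymm ?_ bot_le
    intro x hx
    rw [Ideal.mem_bot]
    have h1 := (Ideal.mem_jacobson_bot.1 hx) 3
    rcases Int.isUnit_iff.1 h1 with h | h <;> omega
  · have hmax : P.IsMaximal := hP.isMaximal h0
    exact Ideal.jacobson_eq_self_of_isMaximal

/-- A field of finite type over the integers is finite. -/
private theorem finite_of_ft (K : Type) [Field K] [ia : Algebra ℤ K] [Algebra.FiniteType ℤ K] : Finite K := by
  obtain rfl : ia = Ring.toIntAlgebra K := Subsingleton.elim _ _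
  have h0 := vab_jac
  have h1 : Module.Finite ℤ K := finite_of_finite_type_of_isJacobsonRing ℤ K
  have hint : Algebra.IsIntegral ℤ K := Algebra.IsIntegral.of_finite ℤ K
  have h2 : ¬ Function.Injective (algebraMap ℤ K) := by
    intro hinj
    have h3 : IsField ℤ := isField_of_isIntegral_of_isField hinj (Field.toIsField K)
    exact Int.not_isField h3
  obtain ⟨p, hp⟩ := CharP.exists K
  have hp0 : p ≠ 0 := by
    rintro rfl
    apply h2
    haveI : CharZero K := CharP.charP_to_charZero K
    exact Int.cast_injective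
  refine Module.finite_of_fg_torsion K ?_
  intro x
  refine ⟨⟨(p : ℤ), mem_nonZeroDivisors_of_ne_zero (by exact_mod_cast hp0)⟩, ?_⟩
  change (p : ℤ) • x = 0
  rw [zsmul_eq_mul, Int.cast_natCast, CharP.cast_eq_zero, zero_mul]

/-- The `m`-th powers have finite index in a finitely generated abelian group. -/
private theorem pow_finiteIndex (A : Type) [CommGroup A] [Group.FG A] {m : ℕ} (hm : 0 < m) :
    (powMonoidHom m : A →* A).range.FiniteIndex := by
  rw [Subgroup.finiteIndex_iff_finite_quotient]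
  haveI : Group.FG (A ⧸ (powMonoidHom m : A →* A).range) := QuotientGroup.fg _
  refine CommGroup.finite_of_fg_isMulTorsion _ ?_
  intro x
  obtain ⟨a, rfl⟩ := QuotientGroup.mk_surjective x
  rw [isOfFinOrder_iff_pow_eq_one]
  refine ⟨m, hm, ?_⟩
  rw [← QuotientGroup.mk_pow]
  exact (QuotientGroup.eq_one_iff _).2 ⟨a, rfl⟩

section

variable {R : Type} [CommRing R] {Γ A : Type} [Group Γ] [CommGroup A]

private theorem gen_fin (φ : A →* Γ) (hf : φ.range.FiniteIndex) :
    ∃ T : Finset (MonoidAlgebra R Γ), ∀ r : MonoidAlgebra R Γ,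
      ∃ s : MonoidAlgebra R Γ → MonoidAlgebra R A,
        r = ∑ t ∈ T, t * MonoidAlgebra.mapDomainRingHom R φ (s t) := by
  classical
  obtain ⟨Φ, hΦ⟩ : ∃ Φ : MonoidAlgebra R A →+* MonoidAlgebra R Γ,
    Φ = MonoidAlgebra.mapDomainRingHom R φ := ⟨_, rfl⟩
  rw [← hΦ]
  have Φs : ∀ a (r : R), Φ (MonoidAlgebra.single a r) = MonoidAlgebra.single (φ a) r := by
    intro a r
    rw [hΦ]
    exact MonoidAlgebra.mapDomain_single
  have hout : ∀ g : Γ, ∃ a : A, φ a = (Quotient.out (QuotientGroup.mk g : Γ ⧸ φ.range))⁻¹ * g := by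
    intro g
    have h1 : (Quotient.out (QuotientGroup.mk g : Γ ⧸ φ.range))⁻¹ * g ∈ φ.range := by
      rw [← QuotientGroup.eq]
      exact QuotientGroup.out_eq' _
    exact h1
  haveI : Finite (Γ ⧸ φ.range) := Subgroup.finite_quotient_of_finiteIndex
  letI : Fintype (Γ ⧸ φ.range) := Fintype.ofFinite _
  rcases subsingleton_or_nontrivial R with hR | hR
  · refine ⟨∅, fun r => ⟨0, ?_⟩⟩
    exact Subsingleton.elim _ _
  refine ⟨Finset.univ.image fun q : Γ ⧸ φ.range => MonoidAlgebra.single (Quotient.out q) 1,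
    fun r => ?_⟩
  induction r using MonoidAlgebra.induction_linear with
  | zero => exact ⟨0, by simp⟩
  | add r1 r2 h1 h2 =>
    obtain ⟨s1, hs1⟩ := h1
    obtain ⟨s2, hs2⟩ := h2
    refine ⟨s1 + s2, ?_⟩
    rw [hs1, hs2, ← Finset.sum_add_distrib]
    refine Finset.sum_congr rfl fun t _ => ?_
    rw [← mul_add, ← map_add]
    rfl
  | single g a =>
    obtain ⟨b, hb⟩ := hout g
    refine ⟨fun t => if t = MonoidAlgebra.single (Quotient.out (QuotientGroup.mk g : Γ ⧸ φ.range)) 1
      then MonoidAlgebra.single b a else 0, ?_⟩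
    rw [Finset.sum_eq_single (MonoidAlgebra.single (Quotient.out (QuotientGroup.mk g : Γ ⧸ φ.range)) 1)]
    · beta_reduce
      rw [if_pos rfl, Φs, MonoidAlgebra.single_mul_single, hb, one_mul, mul_inv_cancel_left]
    · intro t _ ht
      beta_reduce
      rw [if_neg ht, map_zero, mul_zero]
    · intro h
      exact absurd (Finset.mem_image_of_mem _ (Finset.mem_univ _)) h

private theorem vab_core [Algebra.FiniteType ℤ R] [Group.FG A]
    (φ : A →* Γ) (hn : φ.range.Normal) (hf : φ.range.FiniteIndex)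
    (Φ : MonoidAlgebra R A →+* MonoidAlgebra R Γ)
    (Φs : ∀ a (r : R), Φ (MonoidAlgebra.single a r) = MonoidAlgebra.single (φ a) r)
    {ι : Type} [Fintype ι] [DecidableEq ι] [Module (MonoidAlgebra R A) (ι → MonoidAlgebra R Γ)]
    (hsm : ∀ (s : MonoidAlgebra R A) (v : ι → MonoidAlgebra R Γ) (i : ι), (s • v) i = v i * Φ s)
    (J : Matrix ι ι (MonoidAlgebra R Γ)) (hJ : FinInvR J)
    (C : Submodule (MonoidAlgebra R A) (ι → MonoidAlgebra R Γ)) (𝔪 : Ideal (MonoidAlgebra R A)) [𝔪.IsMaximal]
    (e : ((ι → MonoidAlgebra R Γ) ⧸ C) ≃ₗ[MonoidAlgebra R A] (MonoidAlgebra R A ⧸ 𝔪))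
    (hC : ∀ v, J.mulVec v ∈ C) : C = ⊤ := by
  classical
  letI : Field (MonoidAlgebra R A ⧸ 𝔪) := Ideal.Quotient.field 𝔪
  haveI : Algebra.FiniteType ℤ (MonoidAlgebra R A) := Algebra.FiniteType.trans (S := R) inferInstance inferInstance
  haveI : Algebra.FiniteType ℤ (MonoidAlgebra R A ⧸ 𝔪) :=
    Algebra.FiniteType.of_surjective (Ideal.Quotient.mkₐ ℤ 𝔪) (Ideal.Quotient.mkₐ_surjective ℤ 𝔪)
  haveI : Finite (MonoidAlgebra R A ⧸ 𝔪) := finite_of_ft _
  obtain ⟨mk, hmk⟩ : ∃ mk : MonoidAlgebra R A →+* (MonoidAlgebra R A ⧸ 𝔪), mk = Ideal.Quotient.mk 𝔪 :=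
    ⟨_, rfl⟩
  obtain ⟨h, hh⟩ : ∃ h : ι → MonoidAlgebra R Γ →+ (MonoidAlgebra R A ⧸ 𝔪), ∀ i x,
      h i x = e (C.mkQ (Pi.single i x)) := by
    refine ⟨fun i => { toFun := fun x => e (C.mkQ (Pi.single i x)), map_zero' := ?_, map_add' := ?_ },
      fun i x => rfl⟩
    · rw [Pi.single_zero, map_zero, map_zero]
    · intro x y
      rw [Pi.single_add, map_add, map_add]
  have hhs : ∀ i x s, h i (x * Φ s) = mk s * h i x := by
    intro i x s
    rw [hh, hh]
    have h1 : (Pi.single i (x * Φ s) : ι → MonoidAlgebra R Γ) = s • Pi.single i x := by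
      funext j
      rw [hsm]
      by_cases hj : j = i
      · subst hj
        rw [Pi.single_eq_same, Pi.single_eq_same]
      · rw [Pi.single_eq_of_ne hj, Pi.single_eq_of_ne hj, zero_mul]
    rw [h1, map_smul, map_smul, hmk, Algebra.smul_def]
    rfl
  have hh0 : ∀ i x, h i x = 0 → Pi.single i x ∈ C := by
    intro i x h0
    rw [hh, e.map_eq_zero_iff] at h0
    rwa [Submodule.mkQ_apply, Submodule.Quotient.mk_eq_zero] at h0
  -- the exponent
  obtain ⟨m, hm, hpow⟩ : ∃ m : ℕ, 0 < m ∧ ∀ a : A, mk (MonoidAlgebra.single (a ^ m) 1) = 1 := by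
    refine ⟨Nat.card (MonoidAlgebra R A ⧸ 𝔪)ˣ, Nat.card_pos, fun a => ?_⟩
    have h1 : (MonoidAlgebra.single a 1 * MonoidAlgebra.single a⁻¹ 1 : MonoidAlgebra R A) = 1 := by
      rw [MonoidAlgebra.single_mul_single, mul_inv_cancel, one_mul]
      rfl
    obtain ⟨u, hu⟩ : ∃ u : (MonoidAlgebra R A ⧸ 𝔪)ˣ, (u : MonoidAlgebra R A ⧸ 𝔪) =
        mk (MonoidAlgebra.single a 1) :=
      ⟨⟨mk (MonoidAlgebra.single a 1), mk (MonoidAlgebra.single a⁻¹ 1), by rw [← map_mul, h1, map_one],
        by rw [mul_comm, ← map_mul, h1, map_one]⟩, rfl⟩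
    have h2 : u ^ Nat.card (MonoidAlgebra R A ⧸ 𝔪)ˣ = 1 := pow_card_eq_one'
    have h3 := congrArg (fun x : (MonoidAlgebra R A ⧸ 𝔪)ˣ => (x : MonoidAlgebra R A ⧸ 𝔪)) h2
    simp only [Units.val_pow_eq_pow_val, Units.val_one, hu] at h3
    rw [← map_pow, MonoidAlgebra.single_pow, one_pow] at h3
    exact h3
  obtain ⟨g, hg⟩ : ∃ g : R →+* (MonoidAlgebra R A ⧸ 𝔪), ∀ r, g r = mk (MonoidAlgebra.single 1 r) :=
    ⟨mk.comp MonoidAlgebra.singleOneRingHom, fun r => rfl⟩
  have hgs : ∀ (a : A) (r : R), mk (MonoidAlgebra.single (a ^ m) r) = g r := by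
    intro a r
    have h1 : (MonoidAlgebra.single (a ^ m) r : MonoidAlgebra R A) =
        MonoidAlgebra.single 1 r * MonoidAlgebra.single (a ^ m) 1 := by
      rw [MonoidAlgebra.single_mul_single, one_mul, mul_one]
    rw [h1, map_mul, hpow, mul_one, hg]
  -- the subgroup `M`
  obtain ⟨M, hM⟩ : ∃ M : Subgroup Γ, M = (φ.comp (powMonoidHom m)).range := ⟨_, rfl⟩
  have hMn : M.Normal := by
    rw [hM]
    refine ⟨?_⟩
    rintro _ ⟨a, rfl⟩ γ
    obtain ⟨b, hb⟩ := hn.conj_mem (φ a) ⟨a, rfl⟩ γ
    refine ⟨b, ?_⟩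
    change φ (b ^ m) = γ * φ (a ^ m) * γ⁻¹
    rw [map_pow, map_pow, hb, conj_pow]
  have hMf : M.FiniteIndex := by
    rw [hM, MonoidHom.range_comp]
    haveI := pow_finiteIndex A hm
    haveI := hf
    refine ⟨?_⟩
    rw [Subgroup.index_map]
    refine mul_ne_zero ?_ hf.index_ne_zero
    exact (Subgroup.finiteIndex_of_le (H := (powMonoidHom m : A →* A).range) le_sup_left).index_ne_zero
  -- the coefficient field
  haveI hp : (RingHom.ker g).IsPrime := RingHom.ker_isPrime g
  have hker : Function.Injective g.kerLift := RingHom.kerLift_injective g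
  haveI : Finite (R ⧸ RingHom.ker g) := Finite.of_injective _ hker
  haveI : (RingHom.ker g).IsMaximal :=
    Ideal.Quotient.maximal_of_isField _ (Finite.isField_of_domain (R ⧸ RingHom.ker g))
  letI : Field (R ⧸ RingHom.ker g) := Ideal.Quotient.field _
  have hunit := hJ M hMn hMf (R ⧸ RingHom.ker g) (Ideal.Quotient.mk (RingHom.ker g))
    Ideal.Quotient.mk_surjective
  obtain ⟨f, hfdef⟩ : ∃ f : R →+* R ⧸ RingHom.ker g, f = Ideal.Quotient.mk (RingHom.ker g) := ⟨_, rfl⟩
  rw [← hfdef] at hunit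
  have hfk : ∀ r, g.kerLift (f r) = g r := by
    intro r
    rw [hfdef]
    exact RingHom.kerLift_mk g r
  have hfs : Function.Surjective f := by
    rw [hfdef]
    exact Ideal.Quotient.mk_surjective
  -- `h` factors through the reduction
  have hred : ∀ i x, redR f M x = 0 → h i x = 0 := by
    intro i
    obtain ⟨L, hL⟩ : ∃ L : MonoidAlgebra (R ⧸ RingHom.ker g) (Γ ⧸ M) →+ (MonoidAlgebra R A ⧸ 𝔪),
        ∀ q c, L (MonoidAlgebra.single q c) = g.kerLift c * h i (MonoidAlgebra.single (Quotient.out q) 1) := by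
      refine ⟨(Finsupp.liftAddHom (fun q : Γ ⧸ M =>
        (AddMonoidHom.mulRight (h i (MonoidAlgebra.single (Quotient.out q) 1))).comp
          (g.kerLift : (R ⧸ RingHom.ker g) →+ (MonoidAlgebra R A ⧸ 𝔪)))).comp
          (MonoidAlgebra.coeffAddEquiv : _ ≃+ _).toAddMonoidHom, fun q c => ?_⟩
      change Finsupp.liftAddHom _ (MonoidAlgebra.single q c).coeff = _
      rw [MonoidAlgebra.coeff_single, Finsupp.liftAddHom_apply_single]
      rfl
    have hfac : ∀ x, h i x = L (redR f M x) := by
      intro x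
      induction x using MonoidAlgebra.induction_linear with
      | zero => rw [map_zero, map_zero, map_zero]
      | add x y hx hy => rw [map_add, map_add, map_add, hx, hy]
      | single γ r =>
        rw [redR_single, hL, hfk]
        obtain ⟨a, ha⟩ : ∃ a : A, φ (a ^ m) = (Quotient.out (QuotientGroup.mk γ : Γ ⧸ M))⁻¹ * γ := by
          have h1 : (Quotient.out (QuotientGroup.mk γ : Γ ⧸ M))⁻¹ * γ ∈ M := by
            rw [← QuotientGroup.eq]
            exact QuotientGroup.out_eq' _
          rw [hM] at h1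
          obtain ⟨a, ha⟩ := h1
          rw [← hM] at ha
          exact ⟨a, ha⟩
        have h2 : (MonoidAlgebra.single γ r : MonoidAlgebra R Γ) =
            MonoidAlgebra.single (Quotient.out (QuotientGroup.mk γ : Γ ⧸ M)) 1 *
              Φ (MonoidAlgebra.single (a ^ m) r) := by
          rw [Φs, MonoidAlgebra.single_mul_single, one_mul, ha, mul_inv_cancel_left]
        rw [h2, hhs, hgs]
    intro x hx
    rw [hfac, hx, map_zero]
  -- conclusion
  obtain ⟨U, hU⟩ := hunit
  rw [eq_top_iff]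
  intro v _
  have hrs : Function.Surjective (redR f M) := by
    intro y
    induction y using MonoidAlgebra.induction_linear with
    | zero => exact ⟨0, map_zero _⟩
    | add y1 y2 h1 h2 =>
      obtain ⟨x1, hx1⟩ := h1
      obtain ⟨x2, hx2⟩ := h2
      exact ⟨x1 + x2, by rw [map_add, hx1, hx2]⟩
    | single q c =>
      obtain ⟨γ, rfl⟩ := QuotientGroup.mk_surjective q
      obtain ⟨r, rfl⟩ := hfs c
      exact ⟨MonoidAlgebra.single γ r, redR_single f M γ r⟩
  choose lft hlft using hrs
  obtain ⟨w, hw⟩ : ∃ w : ι → MonoidAlgebra R Γ, ∀ i, redR f M (w i) =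
      ((U⁻¹ : (Matrix ι ι (MonoidAlgebra (R ⧸ RingHom.ker g) (Γ ⧸ M)))ˣ) : Matrix ι ι _).mulVec
        (fun l => redR f M (v l)) i := ⟨fun i => lft _, fun i => hlft _⟩
  have hw2 : ∀ i, redR f M ((v - J.mulVec w) i) = 0 := by
    intro i
    rw [Pi.sub_apply, map_sub, sub_eq_zero]
    have h1 : redR f M (J.mulVec w i) = (J.map (redR f M)).mulVec (fun l => redR f M (w l)) i := by
      rw [Matrix.mulVec, Matrix.mulVec, dotProduct, dotProduct, map_sum]
      refine Finset.sum_congr rfl fun l _ => ?_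
      rw [map_mul]
      rfl
    have h2 : (fun l => redR f M (w l)) =
        ((U⁻¹ : (Matrix ι ι (MonoidAlgebra (R ⧸ RingHom.ker g) (Γ ⧸ M)))ˣ) : Matrix ι ι _).mulVec
        (fun l => redR f M (v l)) := funext hw
    rw [h1, h2, ← hU, Matrix.mulVec_mulVec, Units.mul_inv, Matrix.one_mulVec]
  have hw3 : v - J.mulVec w ∈ C := by
    have h1 : v - J.mulVec w = ∑ i, Pi.single i ((v - J.mulVec w) i) := (Finset.univ_sum_single _).symm
    rw [h1]
    exact Submodule.sum_mem _ fun i _ => hh0 i _ (hred i _ (hw2 i))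
  have h4 := C.add_mem hw3 (hC w)
  rwa [sub_add_cancel] at h4

private theorem vab_aux [Algebra.FiniteType ℤ R] [Group.FG A]
    (φ : A →* Γ) (hφ : Function.Injective φ) (hn : φ.range.Normal) (hf : φ.range.FiniteIndex)
    {ι : Type} [Fintype ι] [DecidableEq ι] (J : Matrix ι ι (MonoidAlgebra R Γ)) (hJ : FinInvR J) :
    IsUnit J := by
  classical
  obtain ⟨Φ, hΦ⟩ : ∃ Φ : MonoidAlgebra R A →+* MonoidAlgebra R Γ,
    Φ = MonoidAlgebra.mapDomainRingHom R φ := ⟨_, rfl⟩
  have Φs : ∀ a (r : R), Φ (MonoidAlgebra.single a r) = MonoidAlgebra.single (φ a) r := by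
    intro a r
    rw [hΦ]
    exact MonoidAlgebra.mapDomain_single
  letI : Module (MonoidAlgebra R A) (MonoidAlgebra R Γ) :=
    Module.compHom (MonoidAlgebra R Γ) (Φ.toOpposite fun a b => by
      change Φ a * Φ b = Φ b * Φ a
      rw [← map_mul, ← map_mul, mul_comm])
  have hsmul : ∀ (s : MonoidAlgebra R A) (r : MonoidAlgebra R Γ), s • r = r * Φ s := fun s r => rfl
  haveI : Module.Finite (MonoidAlgebra R A) (MonoidAlgebra R Γ) := by
    obtain ⟨T, hT⟩ := gen_fin (R := R) φ hf
    refine ⟨⟨T, ?_⟩⟩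
    rw [eq_top_iff]
    intro r _
    obtain ⟨s, hs⟩ := hT r
    rw [hs]
    refine Submodule.sum_mem _ fun t ht => ?_
    rw [← hΦ, ← hsmul]
    exact Submodule.smul_mem _ _ (Submodule.subset_span ht)
  haveI : Algebra.FiniteType ℤ (MonoidAlgebra R A) := Algebra.FiniteType.trans (S := R) inferInstance inferInstance
  haveI : IsNoetherianRing (MonoidAlgebra R A) := Algebra.FiniteType.isNoetherianRing ℤ _
  obtain ⟨F, hF⟩ : ∃ F : (ι → MonoidAlgebra R Γ) →ₗ[MonoidAlgebra R A] (ι → MonoidAlgebra R Γ),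
      ∀ v, F v = J.mulVec v := by
    refine ⟨{ toFun := fun v => J.mulVec v, map_add' := fun v w => Matrix.mulVec_add J v w,
              map_smul' := fun s v => ?_ }, fun v => rfl⟩
    funext i
    change ∑ l, J i l * (v l * Φ s) = (∑ l, J i l * v l) * Φ s
    rw [Finset.sum_mul]
    exact Finset.sum_congr rfl fun l _ => (mul_assoc _ _ _).symm
  have hsurj : Function.Surjective F := by
    rw [← LinearMap.range_eq_top]
    by_contra hne
    obtain ⟨C, hC, hle⟩ := (IsCoatomic.eq_top_or_exists_le_coatom (LinearMap.range F)).resolve_left hne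
    haveI hsim : IsSimpleModule (MonoidAlgebra R A) ((ι → MonoidAlgebra R Γ) ⧸ C) :=
      isSimpleModule_iff_isCoatom.2 hC
    obtain ⟨𝔪, hm, ⟨e⟩⟩ := isSimpleModule_iff_quot_maximal.1 hsim
    exact hC.1 (vab_core φ hn hf Φ Φs (fun s v i => rfl) J hJ C 𝔪 e (fun v => by
      rw [← hF]; exact hle ⟨v, rfl⟩))
  have hinj : Function.Injective F := IsNoetherian.injective_of_surjective_endomorphism F hsurj
  choose u hu using hsurj
  have hu' : ∀ l, J.mulVec (u (Pi.single l 1)) = Pi.single l 1 := fun l => by rw [← hF, hu]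
  obtain ⟨B, hB⟩ : ∃ B : Matrix ι ι (MonoidAlgebra R Γ), ∀ i l, B i l = u (Pi.single l 1) i :=
    ⟨Matrix.of fun i l => u (Pi.single l 1) i, fun i l => rfl⟩
  have hJB : J * B = 1 := by
    refine Matrix.ext fun i l => ?_
    rw [Matrix.mul_apply]
    have h1 := congrFun (hu' l) i
    simp only [hB]
    refine Eq.trans h1 ?_
    rw [Matrix.one_apply]
    by_cases h : i = l
    · subst h
      rw [Pi.single_eq_same, if_pos rfl]
    · rw [Pi.single_eq_of_ne h, if_neg h]
  have hBJ : B * J = 1 := by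
    refine Matrix.ext fun i l => ?_
    have h1 : J * (B * J) = J * 1 := by rw [← mul_assoc, hJB, one_mul, mul_one]
    have h2 : F (fun i => (B * J) i l) = F (fun i => (1 : Matrix ι ι (MonoidAlgebra R Γ)) i l) := by
      rw [hF, hF]
      funext i'
      have h3 := congrFun (congrFun h1 i') l
      rw [Matrix.mul_apply, Matrix.mul_apply] at h3
      exact h3
    exact congrFun (hinj h2) i
  exact ⟨⟨J, B, hJB, hBJ⟩, rfl⟩

end

theorem vabR {R : Type} [CommRing R] [Algebra.FiniteType ℤ R] {Γ : Type} [Group Γ] (A : Subgroup Γ) [A.Normal]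
    [A.FiniteIndex] (hA : A.FG) (hab : ∀ a ∈ A, ∀ b ∈ A, a * b = b * a) {ι : Type} [Fintype ι] [DecidableEq ι]
    (J : Matrix ι ι (MonoidAlgebra R Γ)) (hJ : FinInvR J) : IsUnit J := by
  haveI hfg : Group.FG A := (Group.fg_iff_subgroup_fg A).2 hA
  letI : CommGroup A := { (inferInstance : Group A) with
    mul_comm := fun a b => Subtype.ext (hab a a.2 b b.2) }
  refine vab_aux A.subtype A.subtype_injective ?_ ?_ J hJ
  · rw [Subgroup.range_subtype]
    infer_instance
  · rw [Subgroup.range_subtype]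
    infer_instance

/-- The two conditions are the same for the ring of integers: the finite quotient fields are the `ZMod p`. -/
theorem finInv_iff {N : Type} [Group N] {ι : Type} [Fintype ι] [DecidableEq ι]
    (J : Matrix ι ι (MonoidAlgebra ℤ N)) : FinInv J ↔ FinInvR J := by
  constructor
  · intro h M hM hMf κ _ _ f hf
    obtain ⟨p, hp⟩ := CharP.exists κ
    haveI := hp
    haveI : Fact p.Prime := ⟨CharP.char_is_prime κ p⟩
    have h1 := h M hM hMf p Fact.out
    have h2 : f = (ZMod.castHom (dvd_refl p) κ).comp (Int.castRingHom (ZMod p)) := RingHom.ext_int _ _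
    have h3 : J.map (redR f M) =
        (MonoidAlgebra.mapRingHom (N ⧸ M) (ZMod.castHom (dvd_refl p) κ)).mapMatrix (J.map (red p M)) := by
      refine Matrix.ext fun i l => ?_
      change redR f M (J i l) = MonoidAlgebra.mapRingHom (N ⧸ M) (ZMod.castHom (dvd_refl p) κ) (red p M (J i l))
      have h5 : ∀ x : MonoidAlgebra ℤ (N ⧸ M), MonoidAlgebra.mapRingHom (N ⧸ M) f x =
          MonoidAlgebra.mapRingHom (N ⧸ M) (ZMod.castHom (dvd_refl p) κ)
            (MonoidAlgebra.mapRingHom (N ⧸ M) (Int.castRingHom (ZMod p)) x) := by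
        intro x
        rw [← RingHom.comp_apply, ← MonoidAlgebra.mapRingHom_comp, ← h2]
      exact h5 (mapQ ℤ M (J i l))
    rw [h3]
    exact h1.map _
  · intro h M hM hMf p hp
    haveI : Fact p.Prime := ⟨hp⟩
    exact h M hM hMf (ZMod p) (Int.castRingHom (ZMod p)) (ZMod.intCast_surjective)

end Pool.Agent.MelS
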