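import Pool.Agent.MelD.Retr2
import Pool.Agent.MelS.Divi
import Pool.Agent.MelS.Vab
import Pool.Agent.MelS.Indu
import Pool.Agent.MelS.Heights
import Pool.Agent.MelS.FoxJ

/-!
# The final theorems (module W12)
-/

open Finset

namespace Pool.Agent.MelS

open Pool.Agent.MelD (fox OR)
open Pool.Agent.MelG (HasRel)

theorem fg_of_fi {G : Type} [Group G] [Group.FG G] (A : Subgroup G) (hA : A.FiniteIndex) : Group.FG A :=
  Subgroup.fg_of_index_ne_zero A

/-- A square matrix over the group ring of a finitely generated RFRS group, coefficients in a domain `R` of finite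
type over `ℤ`, which is invertible over all `κ[Q]`, `Q` a finite quotient, `κ` a finite quotient field of `R`, is
invertible. -/
theorem tsquareR {R : Type} [CommRing R] [IsDomain R] [Algebra.FiniteType ℤ R] {N : Type} [Group N] [Group.FG N]
    (h : IsRFRS N) {ι : Type} [Fintype ι] [DecidableEq ι]
    (J : Matrix ι ι (MonoidAlgebra R N)) (hJ : FinInvR J) : IsUnit J := by
  obtain ⟨Λ, i1, i2, i3, ⟨𝒯⟩⟩ := exists_tower N h
  refine tower_unitR (algebraMap R (FractionRing R)) (IsFractionRing.injective R (FractionRing R)) 𝒯 J fun j => ?_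
  let A : Subgroup (N ⧸ 𝒯.k j) := (𝒯.n j).map (QuotientGroup.mk' (𝒯.k j))
  have hA1 : A.Normal := Subgroup.Normal.map inferInstance _ (QuotientGroup.mk'_surjective _)
  have hA2 : A.FiniteIndex := by
    refine ⟨?_⟩
    have h1 := Subgroup.index_map (𝒯.n j) (QuotientGroup.mk' (𝒯.k j))
    have h2 : ((𝒯.n j) ⊔ (QuotientGroup.mk' (𝒯.k j)).ker).FiniteIndex :=
      Subgroup.finiteIndex_of_le (H := 𝒯.n j) le_sup_left
    show (Subgroup.map _ _).index ≠ 0
    rw [h1, MonoidHom.range_eq_top.mpr (QuotientGroup.mk'_surjective _), Subgroup.index_top, mul_one]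
    exact h2.index_ne_zero
  have hA3 : A.FG := (Group.fg_iff_subgroup_fg A).mp (fg_of_fi A hA2)
  refine vabR A hA3 ?_ _ (hJ.quot J (𝒯.k j))
  rintro _ ⟨a, ha, rfl⟩ _ ⟨b, hb, rfl⟩
  have h1 := 𝒯.comm j a ha b hb
  rw [← map_mul, ← map_mul, QuotientGroup.mk'_apply, QuotientGroup.mk'_apply, eq_comm, QuotientGroup.eq]
  have h2 : (b * a)⁻¹ * (a * b) = (b * a)⁻¹ * (a * b * a⁻¹ * b⁻¹) * ((b * a)⁻¹)⁻¹ := by group
  rw [h2]
  exact (𝒯.k_normal j).conj_mem _ h1 _

/-- The same for a group with a finitely generated RFRS normal subgroup of finite index. -/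
theorem vsquareR {R : Type} [CommRing R] [IsDomain R] [Algebra.FiniteType ℤ R] {G : Type} [Group G] [Group.FG G]
    (N : Subgroup G) (hN : N.Normal) (hNf : N.FiniteIndex) (h : IsRFRS N) {ι : Type} [Fintype ι] [DecidableEq ι]
    (J : Matrix ι ι (MonoidAlgebra R G)) (hJ : FinInvR J) : IsUnit J := by
  obtain ⟨ι', _, _, J', h1, h2⟩ := induR N J
  have : Group.FG N := fg_of_fi N hNf
  exact h1 (tsquareR h J' (h2 hJ))

/-- A free group with a non trivial element in the commutator subgroup has rank at least two. -/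
theorem two_le_rank {k : ℕ} (r : FreeGroup (Fin k)) (hr1 : r ≠ 1)
    (hr : r ∈ commutator (FreeGroup (Fin k))) : 2 ≤ k := by
  by_contra hk
  have hsub : Subsingleton (Fin k) := ⟨fun a b => Fin.ext (by omega)⟩
  have hcomm : ∀ a b : FreeGroup (Fin k), a * b = b * a := by
    intro a b
    have hc : ∀ (i : Fin k) (c : FreeGroup (Fin k)), Commute (FreeGroup.of i) c := by
      intro i c
      induction c using FreeGroup.induction_on with
      | C1 => exact Commute.one_right _
      | of j => rw [Subsingleton.elim j i]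
      | inv_of j h => exact h.inv_right
      | mul x y hx hy => exact hx.mul_right hy
    induction a using FreeGroup.induction_on with
    | C1 => rw [one_mul, mul_one]
    | of j => exact hc j b
    | inv_of j h => exact (hc j b).inv_left
    | mul x y hx hy => rw [mul_assoc, hy, ← mul_assoc, hx, mul_assoc]
  apply hr1
  have h1 : commutator (FreeGroup (Fin k)) = ⊥ := by
    rw [commutator_def, Subgroup.commutator_eq_bot_iff_le_centralizer]
    intro a _
    rw [Subgroup.mem_centralizer_iff]
    intro b _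
    exact hcomm b a
  rw [h1] at hr
  exact Subgroup.mem_bot.mp hr

end Pool.Agent.MelS
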