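import Pool.Agent.MelS.Orient
import Pool.Agent.MelS.Fin

/-!
# Poincaré duality in the second type

`G = OR r` infinite, virtually RFRS, all finite index normal subgroups of `G` have presentations with at most `m`
relators, and there is a dual character `χ₀` with rational values.  Then the values of `χ₀` are one and minus one
and `G` is a Poincaré duality group of dimension two over the integers.
-/

open Finset Module

namespace Pool.Agent.MelS

open Pool.Agent.MelD (fox OR Dual)
open Pool.Agent.MelG (HasRel)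

theorem pd2_all {k : ℕ} (hk : 2 ≤ k) (r : FreeGroup (Fin k)) (hr1 : r ≠ 1) (m : ℕ)
    (H : ∀ N : Subgroup (OR r), N.Normal → N.FiniteIndex → HasRel m N) [Infinite (OR r)]
    (N : Subgroup (OR r)) (hN : N.Normal) (hNf : N.FiniteIndex) (h : IsRFRS N)
    (χ₀ : FreeGroup (Fin k) →* ℚ) (h₀ : Dual r χ₀) :
    (∀ w, χ₀ w = 1 ∨ χ₀ w = -1) ∧ IsPD2 ℤ (OR r) := by
  classical
  have hfg : Group.FG (OR r) := Pool.Agent.MelD.fg_OR r
  have hval : ∀ w, χ₀ w = 1 ∨ χ₀ w = -1 := by
    let S : Finset ℚ := (univ.image fun j => χ₀ (FreeGroup.of j)) ∪ (univ.image fun j => χ₀ (FreeGroup.of j)⁻¹)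
    let A : Subalgebra ℤ ℚ := Algebra.adjoin ℤ (S : Set ℚ)
    have hA : Algebra.FiniteType ℤ A := (Subalgebra.fg_iff_finiteType A).1 (Subalgebra.fg_adjoin_finset S)
    have hmem : ∀ w, χ₀ w ∈ A := by
      intro w
      induction w using FreeGroup.induction_on with
      | C1 =>
        rw [map_one]
        exact A.one_mem
      | of j =>
        refine Algebra.subset_adjoin (Finset.mem_coe.2 (Finset.mem_union_left _ ?_))
        exact Finset.mem_image.2 ⟨j, mem_univ j, rfl⟩
      | inv_of j _ =>
        refine Algebra.subset_adjoin (Finset.mem_coe.2 (Finset.mem_union_right _ ?_))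
        exact Finset.mem_image.2 ⟨j, mem_univ j, rfl⟩
      | mul x y hx hy =>
        rw [map_mul]
        exact A.mul_mem hx hy
    let χ₁ : FreeGroup (Fin k) →* A :=
      { toFun := fun w => ⟨χ₀ w, hmem w⟩
        map_one' := Subtype.ext (map_one χ₀)
        map_mul' := fun x y => Subtype.ext (map_mul χ₀ x y) }
    have h1 : Dual r χ₁ := Dual.of_map (A.val : A →+* ℚ) Subtype.val_injective h₀
    have hJ := vsquareR N hN hNf h (Jt r χ₁) (JQR hk r hr1 m H χ₁ h1)
    exact fun w => unit_values χ₀ A χ₁ (fun w => rfl) h1 hJ w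
  refine ⟨hval, ?_⟩
  let χ : FreeGroup (Fin k) →* ℤ :=
    { toFun := fun w => (χ₀ w).num
      map_one' := by rw [map_one]; rfl
      map_mul' := fun x y => by
        rw [map_mul]
        rcases hval x with h1 | h1 <;> rcases hval y with h2 | h2 <;> rw [h1, h2] <;> norm_num }
  have hχ : Dual r χ := by
    refine Dual.of_map (Int.castRingHom ℚ) Int.cast_injective ?_
    have h1 : ((Int.castRingHom ℚ : ℤ →+* ℚ) : ℤ →* ℚ).comp χ = χ₀ := by
      refine MonoidHom.ext fun w => ?_
      show (((χ₀ w).num : ℤ) : ℚ) = χ₀ w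
      rcases hval w with h1 | h1 <;> rw [h1] <;> rfl
    rw [h1]
    exact h₀
  have hJ := vsquareR N hN hNf h (Jt r χ) (JQR hk r hr1 m H χ hχ)
  exact pd2_of_unit χ hχ hJ

end Pool.Agent.MelS
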