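import Pool.Agent.MelS.Geo
import Pool.Agent.MelS.Lead
import Pool.Agent.MelS.Alg

/-!
# The division ring of virtually Ore kernels (module W8a, helper95)

`EQ j T S`: `T` and `S` are good of level `j` and have the same column sums of level `j`: a congruence.
`InD T`: `T` is good of a level `i` and for all `j ≥ i` there are `x, d ∈ K[N]`, `d` central and non zero modulo
`k j`, with `T d ≡ x`.  The set of these `T` is a division ring.
-/

open Finset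

namespace Pool.Agent.MelS

variable {N Λ : Type} [Group N] [AddCommGroup Λ] [LinearOrder Λ] [IsOrderedAddMonoid Λ]
variable {𝒯 : OrdTower N Λ} {K : Type} [Field K]

/-- Equal column sums of level `j`. -/
def EQ (j : ℕ) (T S : Ker 𝒯 K) : Prop :=
  Good 𝒯 j T.1 ∧ Good 𝒯 j S.1 ∧ ∀ z y, psum 𝒯 j T.1 z y = psum 𝒯 j S.1 z y

theorem EQ.refl {j : ℕ} {T : Ker 𝒯 K} (h : Good 𝒯 j T.1) : EQ j T T := ⟨h, h, fun _ _ => rfl⟩

theorem EQ.symm {j : ℕ} {T S : Ker 𝒯 K} (h : EQ j T S) : EQ j S T := ⟨h.2.1, h.1, fun z y => (h.2.2 z y).symm⟩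

theorem EQ.trans {j : ℕ} {T S U : Ker 𝒯 K} (h : EQ j T S) (h' : EQ j S U) : EQ j T U :=
  ⟨h.1, h'.2.1, fun z y => (h.2.2 z y).trans (h'.2.2 z y)⟩

theorem good_lam (j : ℕ) (x : MonoidAlgebra K N) : Good 𝒯 j (lam 𝒯 x).1 := Good.lam j x

theorem good_mul {j : ℕ} {T S : Ker 𝒯 K} (h : Good 𝒯 j T.1) (h' : Good 𝒯 j S.1) : Good 𝒯 j (T * S).1 := h.mul h'

theorem good_add {j : ℕ} {T S : Ker 𝒯 K} (h : Good 𝒯 j T.1) (h' : Good 𝒯 j S.1) : Good 𝒯 j (T + S).1 := h.add h'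

theorem good_neg {j : ℕ} {T : Ker 𝒯 K} (h : Good 𝒯 j T.1) : Good 𝒯 j (-T).1 := h.neg

theorem good_zero (j : ℕ) : Good 𝒯 j (0 : Ker 𝒯 K).1 := Good.zero j

theorem good_one (j : ℕ) : Good 𝒯 j (1 : Ker 𝒯 K).1 := Good.one j

theorem EQ.add {j : ℕ} {T T' S S' : Ker 𝒯 K} (h : EQ j T T') (h' : EQ j S S') : EQ j (T + S) (T' + S') := by
  refine ⟨good_add h.1 h'.1, good_add h.2.1 h'.2.1, fun z y => ?_⟩
  have h1 := psum_add (le_refl j) h.1 h'.1 z y
  have h2 := psum_add (le_refl j) h.2.1 h'.2.1 z y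
  show psum 𝒯 j (fun z y => T.1 z y + S.1 z y) z y = psum 𝒯 j (fun z y => T'.1 z y + S'.1 z y) z y
  rw [h1, h2, h.2.2, h'.2.2]

theorem EQ.neg {j : ℕ} {T T' : Ker 𝒯 K} (h : EQ j T T') : EQ j (-T) (-T') := by
  refine ⟨good_neg h.1, good_neg h.2.1, fun z y => ?_⟩
  show psum 𝒯 j (fun z y => - T.1 z y) z y = psum 𝒯 j (fun z y => - T'.1 z y) z y
  rw [psum_neg, psum_neg, h.2.2]

theorem EQ.sub_zero {j : ℕ} {T T' : Ker 𝒯 K} (h : EQ j T T') (z y : N) : psum 𝒯 j (T - T').1 z y = 0 := by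
  have h1 := (h.add (EQ.refl (good_neg h.2.1))).2.2 z y
  rw [sub_eq_add_neg, h1]
  have h2 : T' + -T' = 0 := add_neg_cancel T'
  rw [h2]
  show psum 𝒯 j (fun _ _ => (0 : K)) z y = 0
  unfold psum
  exact finsum_zero

theorem EQ.of_sub {j : ℕ} {T T' : Ker 𝒯 K} (hT : Good 𝒯 j T.1) (hT' : Good 𝒯 j T'.1)
    (h : ∀ z y, psum 𝒯 j (T - T').1 z y = 0) : EQ j T T' := by
  have h0 : EQ j (T - T') 0 := by
    refine ⟨?_, good_zero j, fun z y => ?_⟩
    · rw [sub_eq_add_neg]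
      exact good_add hT (good_neg hT')
    · rw [h]
      show 0 = psum 𝒯 j (fun _ _ => (0 : K)) z y
      unfold psum
      exact finsum_zero.symm
  have h1 := h0.add (EQ.refl hT')
  rw [sub_add_cancel, zero_add] at h1
  exact h1

theorem EQ.mul {j : ℕ} {T T' S S' : Ker 𝒯 K} (h : EQ j T T') (h' : EQ j S S') : EQ j (T * S) (T' * S') := by
  have h1 : EQ j (T * S) (T' * S) := by
    apply EQ.of_sub (good_mul h.1 h'.1) (good_mul h.2.1 h'.1)
    rw [← sub_mul]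
    have hg : Good 𝒯 j (T - T').1 := by
      rw [sub_eq_add_neg]
      exact good_add h.1 (good_neg h.2.1)
    exact psum_kmul_left (le_refl j) hg h'.1 h.sub_zero
  have h2 : EQ j (T' * S) (T' * S') := by
    apply EQ.of_sub (good_mul h.2.1 h'.1) (good_mul h.2.1 h'.2.1)
    rw [← mul_sub]
    have hg : Good 𝒯 j (S - S').1 := by
      rw [sub_eq_add_neg]
      exact good_add h'.1 (good_neg h'.2.1)
    exact psum_kmul_right (le_refl j) h.2.1 hg h'.sub_zero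
  exact h1.trans h2

theorem EQ.lam {j : ℕ} {x y : MonoidAlgebra K N} (h : mapQ K (𝒯.k j) x = mapQ K (𝒯.k j) y) :
    EQ j (lam 𝒯 x) (lam 𝒯 y) := by
  refine ⟨good_lam j x, good_lam j y, fun z w => ?_⟩
  rw [lam_val, lam_val, psum_lamf, psum_lamf, h]

theorem EQ.comm {j : ℕ} {T : Ker 𝒯 K} (hT : Good 𝒯 j T.1) {d : MonoidAlgebra K N} (hd : Cen 𝒯 j d) :
    EQ j (T * MelS.lam 𝒯 d) (MelS.lam 𝒯 d * T) :=
  ⟨good_mul hT (good_lam j d), good_mul (good_lam j d) hT, fun z y => psum_comm (le_refl j) hT d hd z y⟩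

/-- The kernels which are right fractions at all high levels. -/
def InD (T : Ker 𝒯 K) : Prop :=
  ∃ i, Good 𝒯 i T.1 ∧ ∀ j, i ≤ j → ∃ d x : MonoidAlgebra K N, Cen 𝒯 j d ∧ mapQ K (𝒯.k j) d ≠ 0 ∧
    EQ j (T * lam 𝒯 d) (lam 𝒯 x)

theorem Cen.one' (j : ℕ) : Cen 𝒯 j (1 : MonoidAlgebra K N) := by
  classical
  refine ⟨fun h hh => ?_, fun g => by rw [mul_one, one_mul]⟩
  rw [MonoidAlgebra.one_def, MonoidAlgebra.coeff_single] at hh
  have h1 := Finsupp.support_single_subset hh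
  rw [Finset.mem_singleton] at h1
  rw [h1]
  exact one_mem _

theorem mapQ_one_ne (j : ℕ) : mapQ K (𝒯.k j) (1 : MonoidAlgebra K N) ≠ 0 := by
  rw [map_one]
  exact one_ne_zero

theorem InD.lam (x : MonoidAlgebra K N) : InD (lam 𝒯 x) :=
  ⟨0, good_lam 0 x, fun j _ => ⟨1, x, Cen.one' j, mapQ_one_ne j, by
    rw [map_one, mul_one]
    exact EQ.refl (good_lam j x)⟩⟩

theorem InD.neg {T : Ker 𝒯 K} (h : InD T) : InD (-T) := by
  obtain ⟨i, hi, h⟩ := h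
  refine ⟨i, good_neg hi, fun j hj => ?_⟩
  obtain ⟨d, x, h1, h2, h3⟩ := h j hj
  refine ⟨d, -x, h1, h2, ?_⟩
  rw [neg_mul, map_neg]
  exact h3.neg

theorem InD.add {T S : Ker 𝒯 K} (h : InD T) (h' : InD S) : InD (T + S) := by
  obtain ⟨i, hi, h⟩ := h
  obtain ⟨i', hi', h'⟩ := h'
  refine ⟨max i i', good_add (hi.mono (le_max_left _ _)) (hi'.mono (le_max_right _ _)), fun j hj => ?_⟩
  obtain ⟨d, x, h1, h2, h3⟩ := h j (le_trans (le_max_left _ _) hj)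
  obtain ⟨d', x', h1', h2', h3'⟩ := h' j (le_trans (le_max_right _ _) hj)
  refine ⟨d * d', x * d' + x' * d, Cen.mul 𝒯 h1 h1', ?_, ?_⟩
  · intro h0
    rcases dom 𝒯 j d d' h0 with h | h
    · exact h2 h
    · exact h2' h
  · have e1 : EQ j (T * MelS.lam 𝒯 (d * d')) (MelS.lam 𝒯 (x * d')) := by
      rw [map_mul, map_mul, ← mul_assoc]
      exact h3.mul (EQ.refl (good_lam j d'))
    have e2 : EQ j (S * MelS.lam 𝒯 (d * d')) (MelS.lam 𝒯 (x' * d)) := by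
      have hS : Good 𝒯 j S.1 := hi'.mono (le_trans (le_max_right _ _) hj)
      have h4 : EQ j (MelS.lam 𝒯 (d * d')) (MelS.lam 𝒯 (d' * d)) := by
        rw [map_mul, map_mul]
        exact EQ.comm (good_lam j d) h1'
      have h5 := (EQ.refl hS).mul h4
      rw [map_mul (MelS.lam 𝒯) d' d, ← mul_assoc] at h5
      have h6 := h3'.mul (EQ.refl (good_lam j d))
      rw [← map_mul] at h6
      exact h5.trans h6
    rw [add_mul, map_add]
    exact e1.add e2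

theorem InD.mul {T S : Ker 𝒯 K} (h : InD T) (h' : InD S) : InD (T * S) := by
  obtain ⟨i, hi, h⟩ := h
  obtain ⟨i', hi', h'⟩ := h'
  refine ⟨max i i', good_mul (hi.mono (le_max_left _ _)) (hi'.mono (le_max_right _ _)), fun j hj => ?_⟩
  obtain ⟨d, x, h1, h2, h3⟩ := h j (le_trans (le_max_left _ _) hj)
  obtain ⟨d', x', h1', h2', h3'⟩ := h' j (le_trans (le_max_right _ _) hj)
  have hT : Good 𝒯 j T.1 := hi.mono (le_trans (le_max_left _ _) hj)
  refine ⟨d' * d, x * x', Cen.mul 𝒯 h1' h1, ?_, ?_⟩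
  · intro h0
    rcases dom 𝒯 j d' d h0 with h | h
    · exact h2' h
    · exact h2 h
  · -- T S d' d ≡ T x' d ≡ T d x' ≡ x x'
    have e1 : EQ j (T * S * MelS.lam 𝒯 (d' * d)) (T * (MelS.lam 𝒯 x' * MelS.lam 𝒯 d)) := by
      have h4 := (EQ.refl hT).mul (h3'.mul (EQ.refl (good_lam j d)))
      rw [map_mul]
      have h5 : T * S * (MelS.lam 𝒯 d' * MelS.lam 𝒯 d) = T * (S * MelS.lam 𝒯 d' * MelS.lam 𝒯 d) := by
        simp only [mul_assoc]
      rw [h5]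
      exact h4
    have e2 : EQ j (T * (MelS.lam 𝒯 x' * MelS.lam 𝒯 d)) (T * (MelS.lam 𝒯 d * MelS.lam 𝒯 x')) :=
      (EQ.refl hT).mul (EQ.comm (good_lam j x') h1)
    have e3 : EQ j (T * (MelS.lam 𝒯 d * MelS.lam 𝒯 x')) (MelS.lam 𝒯 (x * x')) := by
      rw [← mul_assoc, map_mul]
      exact h3.mul (EQ.refl (good_lam j x'))
    exact e1.trans (e2.trans e3)

/-- Non zero elements are invertible. -/
theorem InD.inv {T : Ker 𝒯 K} (h : InD T) (h0 : T ≠ 0) : ∃ S : Ker 𝒯 K, InD S ∧ T * S = 1 ∧ S * T = 1 := by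
  obtain ⟨i, hi, h⟩ := h
  obtain ⟨z₀, y₀, hz⟩ : ∃ z y, T.1 z y ≠ 0 := by
    by_contra hcon
    push Not at hcon
    exact h0 (Subtype.ext (by funext z y; exact hcon z y))
  obtain ⟨j₀, hj₀⟩ := exists_psum_eq hi z₀ y₀
  -- at all high levels the numerator is not zero
  have hx : ∀ j, i ≤ j → j₀ ≤ j → ∀ d x : MonoidAlgebra K N, Cen 𝒯 j d → mapQ K (𝒯.k j) d ≠ 0 →
      EQ j (T * MelS.lam 𝒯 d) (MelS.lam 𝒯 x) → mapQ K (𝒯.k j) x ≠ 0 := by
    intro j hij hj d x hd hd0 he hx0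
    apply hz
    rw [← hj₀ j hj]
    refine psum_cancel hij hi d hd hd0 (fun z y => ?_) z₀ y₀
    have h1 := he.2.2 z y
    rw [lam_val, psum_lamf, hx0] at h1
    exact h1
  let j₁ := max i j₀
  have hcol : ∀ y, ∃ z, T.1 z y ≠ 0 := by
    intro y
    obtain ⟨d, x, hd, hd0, he⟩ := h j₁ (le_max_left _ _)
    have hx1 := hx j₁ (le_max_left _ _) (le_max_right _ _) d x hd hd0 he
    by_contra hcon
    push Not at hcon
    apply hx1
    apply MonoidAlgebra.ext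
    apply Finsupp.ext
    intro g
    obtain ⟨g, rfl⟩ := QuotientGroup.mk_surjective g
    have h1 := he.2.2 (g * y) y
    rw [lam_val, psum_lamf, mul_inv_cancel_right, Ker.mul_val, lam_val,
      psum_cen (le_max_left _ _) hi d hd] at h1
    show (mapQ K (𝒯.k j₁) x).coeff (QuotientGroup.mk g) = (0 : MonoidAlgebra K (N ⧸ 𝒯.k j₁)).coeff _
    rw [← h1, MonoidAlgebra.coeff_zero, Finsupp.zero_apply]
    refine Finset.sum_eq_zero fun a _ => ?_
    have h2 : psum 𝒯 j₁ T.1 (g * y * a⁻¹) y = 0 := by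
      unfold psum
      rw [← finsum_zero (α := 𝒯.k j₁)]
      exact finsum_congr fun κ => hcon _
    rw [h2, mul_zero]
  obtain ⟨j, hij, hj, p, hp⟩ := exists_lead hi hcol j₁
  obtain ⟨d, x, hd, hd0, he⟩ := h j hij
  have hpb : Function.Bijective p := lead_bij hij hi p hp d x hd hd0 (fun z y => by
    have h1 := he.2.2 z y
    exact h1)
  obtain ⟨S, hS, hTS, hST⟩ := inv_of_lead T (hi.mono hij) p hpb hp
  refine ⟨S, ⟨j, hS, fun j' hj' => ?_⟩, hTS, hST⟩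
  obtain ⟨d, x, hd, hd0, he⟩ := h j' (le_trans hij hj')
  have hx1 := hx j' (le_trans hij hj') (le_trans (le_max_right _ _) (le_trans hj hj')) d x hd hd0 he
  obtain ⟨x', d', hd', hd0', hxd⟩ := exists_cen 𝒯 j' x hx1
  refine ⟨d', d * x', hd', hd0', ?_⟩
  have hSj : Good 𝒯 j' S.1 := hS.mono hj'
  -- S d' ≡ S x x' ≡ S T d x' = d x'
  have e1 : EQ j' (S * MelS.lam 𝒯 d') (S * (MelS.lam 𝒯 x * MelS.lam 𝒯 x')) := by
    have h1 : EQ j' (MelS.lam 𝒯 d') (MelS.lam 𝒯 (x * x')) := EQ.lam hxd.symm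
    rw [map_mul] at h1
    exact (EQ.refl hSj).mul h1
  have e2 : EQ j' (S * (MelS.lam 𝒯 x * MelS.lam 𝒯 x')) (S * (T * MelS.lam 𝒯 d * MelS.lam 𝒯 x')) :=
    (EQ.refl hSj).mul (he.symm.mul (EQ.refl (good_lam j' x')))
  have e3 : S * (T * MelS.lam 𝒯 d * MelS.lam 𝒯 x') = MelS.lam 𝒯 (d * x') := by
    rw [map_mul]
    calc S * (T * MelS.lam 𝒯 d * MelS.lam 𝒯 x') = (S * T) * (MelS.lam 𝒯 d * MelS.lam 𝒯 x') := by simp only [mul_assoc]
      _ = MelS.lam 𝒯 d * MelS.lam 𝒯 x' := by rw [hST, one_mul]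
  rw [e3] at e2
  exact e1.trans e2

/-- The subring of these kernels. -/
def subD (𝒯 : OrdTower N Λ) (K : Type) [Field K] : Subring (Ker 𝒯 K) where
  carrier := {T | InD T}
  mul_mem' := fun h h' => h.mul h'
  one_mem' := by
    have h := InD.lam (𝒯 := 𝒯) (1 : MonoidAlgebra K N)
    rw [map_one] at h
    exact h
  add_mem' := fun h h' => h.add h'
  zero_mem' := by
    have h := InD.lam (𝒯 := 𝒯) (0 : MonoidAlgebra K N)
    rw [map_zero] at h
    exact h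
  neg_mem' := fun h => h.neg

theorem ker_nontrivial : (1 : Ker 𝒯 K) ≠ 0 := by
  intro h
  have h1 : (1 : Ker 𝒯 K).1 1 1 = (0 : Ker 𝒯 K).1 1 1 := by rw [h]
  rw [Ker.one_val, Ker.zero_val] at h1
  unfold kone at h1
  rw [if_pos rfl] at h1
  exact one_ne_zero h1

instance : Nontrivial (subD 𝒯 K) := ⟨⟨1, 0, fun h => ker_nontrivial (𝒯 := 𝒯) (K := K) (Subtype.ext_iff.mp h)⟩⟩

noncomputable instance : DivisionRing (subD 𝒯 K) := DivisionRing.ofIsUnitOrEqZero (by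
  intro a
  by_cases ha : a = 0
  · exact Or.inr ha
  · refine Or.inl ?_
    obtain ⟨S, hS, h1, h2⟩ := InD.inv a.2 (fun h => ha (Subtype.ext h))
    exact ⟨⟨a, ⟨S, hS⟩, Subtype.ext h1, Subtype.ext h2⟩, rfl⟩)

end Pool.Agent.MelS
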