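import Pool.Agent.MelS.Divi1

/-!
# Left inverses of square matrices over the division ring (module W8b, helper95)
-/

open Finset

namespace Pool.Agent.MelS

variable {N Λ : Type} [Group N] [AddCommGroup Λ] [LinearOrder Λ] [IsOrderedAddMonoid Λ]
variable {𝒯 : OrdTower N Λ} {K : Type} [Field K]

theorem EQ.sum {j : ℕ} {α : Type} (s : Finset α) (f g : α → Ker 𝒯 K) (h : ∀ a ∈ s, EQ j (f a) (g a)) :
    EQ j (∑ a ∈ s, f a) (∑ a ∈ s, g a) := by
  classical
  induction s using Finset.induction_on with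
  | empty =>
    rw [Finset.sum_empty, Finset.sum_empty]
    exact EQ.refl (good_zero j)
  | insert a s ha ih =>
    rw [Finset.sum_insert ha, Finset.sum_insert ha]
    exact (h a (Finset.mem_insert_self a s)).add (ih fun b hb => h b (Finset.mem_insert_of_mem hb))

/-- A preimage of the inverse modulo `k j`. -/
theorem exists_lift {ι : Type} [Fintype ι] [DecidableEq ι] (J : Matrix ι ι (MonoidAlgebra K N))
    (M : Subgroup N) [M.Normal] (hJ : IsUnit (J.map (mapQ K M))) :
    ∃ C : Matrix ι ι (MonoidAlgebra K N), J.map (mapQ K M) * C.map (mapQ K M) = 1 ∧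
      C.map (mapQ K M) * J.map (mapQ K M) = 1 := by
  obtain ⟨u, hu⟩ := hJ
  choose C hC using fun i j => mapQ_surjective K M ((↑u⁻¹ : Matrix ι ι (MonoidAlgebra K (N ⧸ M))) i j)
  have hC' : (Matrix.of C).map (mapQ K M) = (↑u⁻¹ : Matrix ι ι (MonoidAlgebra K (N ⧸ M))) := by
    ext1 i j
    exact hC i j
  refine ⟨Matrix.of C, ?_, ?_⟩
  · rw [hC', ← hu, Units.mul_inv]
  · rw [hC', ← hu, Units.inv_mul]

/-- Multiplication of a row by a matrix and by its inverse modulo `k j`. -/
theorem row_eq {ι : Type} [Fintype ι] [DecidableEq ι] {j : ℕ} (J C : Matrix ι ι (MonoidAlgebra K N))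
    (hC : J.map (mapQ K (𝒯.k j)) * C.map (mapQ K (𝒯.k j)) = 1) (v w : ι → Ker 𝒯 K)
    (hv : ∀ l, Good 𝒯 j (v l).1) (hw : ∀ m, ∑ l, v l * lam 𝒯 (J l m) = w m) (l : ι) :
    EQ j (v l) (∑ m, w m * lam 𝒯 (C m l)) := by
  have h1 : ∀ a b, EQ j (lam 𝒯 ((J * C) a b)) (if a = b then 1 else 0) := by
    intro a b
    have h2 : EQ j (lam 𝒯 ((J * C) a b)) (lam 𝒯 (if a = b then 1 else 0)) := by
      apply EQ.lam
      have h3 := congrFun (congrFun hC a) b
      rw [← Matrix.map_mul] at h3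
      rw [Matrix.map_apply] at h3
      rw [h3, Matrix.one_apply]
      split_ifs
      · rw [map_one]
      · rw [map_zero]
    split_ifs with hab
    · rw [if_pos hab, map_one] at h2
      exact h2
    · rw [if_neg hab, map_zero] at h2
      exact h2
  have h4 : ∑ m, w m * lam 𝒯 (C m l) = ∑ a, v a * lam 𝒯 ((J * C) a l) := by
    simp only [← hw, Matrix.mul_apply, map_sum, map_mul, Finset.sum_mul, Finset.mul_sum, mul_assoc]
    exact Finset.sum_comm
  rw [h4]
  have h5 : EQ j (∑ a, v a * lam 𝒯 ((J * C) a l)) (∑ a, v a * (if a = l then 1 else 0)) :=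
    EQ.sum _ _ _ fun a _ => (EQ.refl (hv a)).mul (h1 a l)
  have h6 : ∑ a, v a * (if a = l then (1 : Ker 𝒯 K) else 0) = v l := by
    rw [Finset.sum_eq_single l]
    · rw [if_pos rfl, mul_one]
    · intro b _ hb
      rw [if_neg hb, mul_zero]
    · intro h
      exact absurd (Finset.mem_univ l) h
  rw [h6] at h5
  exact h5.symm

/-- Finitely many kernels have a common level. -/
theorem common_level {α : Type} [Fintype α] (v : α → Ker 𝒯 K) : ∃ i, ∀ a, Good 𝒯 i (v a).1 := by
  choose f hf using fun a => (v a).2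
  exact ⟨Finset.univ.sup f, fun a => (hf a).mono (Finset.le_sup (Finset.mem_univ a))⟩

/-- A kernel with vanishing column sums at all high levels is zero. -/
theorem eq_zero_of_psum {i : ℕ} {T : Ker 𝒯 K} (hT : Good 𝒯 i T.1)
    (h : ∀ j, i ≤ j → ∀ z y, psum 𝒯 j T.1 z y = 0) : T = 0 := by
  apply Subtype.ext
  funext z y
  obtain ⟨j₀, hj⟩ := exists_psum_eq hT z y
  rw [← hj (max i j₀) (le_max_right _ _), h _ (le_max_left _ _)]
  rfl

/-- The left inverse over the division ring. -/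
theorem exists_left_inv {ι : Type} [Fintype ι] [DecidableEq ι] (J : Matrix ι ι (MonoidAlgebra K N))
    (hJ : ∀ j, IsUnit (J.map (mapQ K (𝒯.k j)))) :
    ∃ B : ι → ι → Ker 𝒯 K, ∀ a m, ∑ l, B a l * lam 𝒯 (J l m) = if a = m then 1 else 0 := by
  let J' : Matrix ι ι (subD 𝒯 K) := Matrix.of fun a b => ⟨lam 𝒯 (J a b), InD.lam (J a b)⟩
  have hinj : Function.Injective (Matrix.vecMulLinear J') := by
    rw [← LinearMap.ker_eq_bot, LinearMap.ker_eq_bot']
    intro v hv
    have hv' : ∀ m, ∑ l, (v l : Ker 𝒯 K) * lam 𝒯 (J l m) = 0 := by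
      intro m
      have h1 := congrFun hv m
      rw [Matrix.vecMulLinear_apply] at h1
      have h2 : (((Matrix.vecMul v J') m : subD 𝒯 K) : Ker 𝒯 K) = ((0 : ι → subD 𝒯 K) m : subD 𝒯 K) := by
        rw [h1]
      rw [Matrix.vecMul_eq_sum] at h2
      simpa [J'] using h2
    obtain ⟨i, hi⟩ := common_level (fun l => (v l : Ker 𝒯 K))
    funext l
    apply Subtype.ext
    refine eq_zero_of_psum (hi l) fun j hj z y => ?_
    obtain ⟨C, hC, _⟩ := exists_lift J (𝒯.k j) (hJ j)
    have h3 := row_eq J C hC (fun l => (v l : Ker 𝒯 K)) (fun _ => 0) (fun l => (hi l).mono hj) hv' l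
    simp only [zero_mul, Finset.sum_const_zero] at h3
    rw [h3.2.2 z y]
    show psum 𝒯 j (fun _ _ => (0 : K)) z y = 0
    unfold psum
    exact finsum_zero
  have hsur := (LinearMap.injective_iff_surjective (f := Matrix.vecMulLinear J')).mp hinj
  choose B hB using fun a => hsur (Pi.single a 1)
  refine ⟨fun a l => (B a l : Ker 𝒯 K), fun a m => ?_⟩
  have h1 := congrFun (hB a) m
  rw [Matrix.vecMulLinear_apply] at h1
  have h2 : (((Matrix.vecMul (B a) J') m : subD 𝒯 K) : Ker 𝒯 K) =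
      ((Pi.single a 1 : ι → subD 𝒯 K) m : subD 𝒯 K) := by
    rw [h1]
  rw [Matrix.vecMul_eq_sum, Pi.single_apply] at h2
  have h3 : ∑ l, (B a l : Ker 𝒯 K) * lam 𝒯 (J l m) = if m = a then 1 else 0 := by
    split_ifs at h2 ⊢ with h
    · simpa [J'] using h2
    · simpa [J'] using h2
  rw [h3]
  by_cases h : m = a
  · rw [if_pos h, if_pos h.symm]
  · rw [if_neg h, if_neg (fun h' => h h'.symm)]

end Pool.Agent.MelS
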