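import Mathlib

/-!
# Poincaré duality groups of dimension two

`IsPD2 R G`: the trivial `R[G]`-module `R` has a resolution `0 → P₂ → P₁ → P₀ → R → 0` by finitely generated
free left `R[G]`-modules, and the cohomology `H^i (G; R[G])`, that is the cohomology of the complex
`Hom_{R[G]} (P₀, R[G]) → Hom_{R[G]} (P₁, R[G]) → Hom_{R[G]} (P₂, R[G])`, is zero for `i = 0, 1` and isomorphic to
`R` for `i = 2`.

`isPD2_of`: the criterion for a complex `R[G] → R[G]^k → R[G] → R` with the maps `q ↦ (q D_j)`,
`v ↦ ∑ v_j Y_j`.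
-/

open Finset

namespace Pool.Agent.MelS

/-- The augmentation of the group ring. -/
noncomputable def augR (R G : Type) [CommRing R] [Group G] : MonoidAlgebra R G →ₐ[R] R :=
  MonoidAlgebra.lift R R G 1

/-- Poincaré duality groups of dimension two over `R`. -/
def IsPD2 (R G : Type) [CommRing R] [Group G] : Prop :=
  ∃ (P₀ P₁ P₂ : Type) (_ : AddCommGroup P₀) (_ : AddCommGroup P₁) (_ : AddCommGroup P₂)
    (_ : Module (MonoidAlgebra R G) P₀) (_ : Module (MonoidAlgebra R G) P₁)
    (_ : Module (MonoidAlgebra R G) P₂) (d₂ : P₂ →ₗ[MonoidAlgebra R G] P₁)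
    (d₁ : P₁ →ₗ[MonoidAlgebra R G] P₀) (e : P₀ →+ R),
    -- the modules are finitely generated and free
    (Module.Free (MonoidAlgebra R G) P₀ ∧ Module.Free (MonoidAlgebra R G) P₁ ∧
      Module.Free (MonoidAlgebra R G) P₂) ∧
    (Module.Finite (MonoidAlgebra R G) P₀ ∧ Module.Finite (MonoidAlgebra R G) P₁ ∧
      Module.Finite (MonoidAlgebra R G) P₂) ∧
    -- `e` is a map to the trivial module
    (∀ (g : G) (c : R) (p : P₀), e (MonoidAlgebra.single g c • p) = c * e p) ∧
    -- `0 → P₂ → P₁ → P₀ → R → 0` is exact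
    Function.Injective d₂ ∧ Function.Exact d₂ d₁ ∧ Function.Exact d₁ e ∧ Function.Surjective e ∧
    -- `H^0 (G; R[G]) = 0`
    (∀ f : P₀ →ₗ[MonoidAlgebra R G] MonoidAlgebra R G, f ∘ₗ d₁ = 0 → f = 0) ∧
    -- `H^1 (G; R[G]) = 0`
    (∀ f : P₁ →ₗ[MonoidAlgebra R G] MonoidAlgebra R G, f ∘ₗ d₂ = 0 →
      ∃ g : P₀ →ₗ[MonoidAlgebra R G] MonoidAlgebra R G, f = g ∘ₗ d₁) ∧
    -- `H^2 (G; R[G])` is isomorphic to `R`
    ∃ θ : (P₂ →ₗ[MonoidAlgebra R G] MonoidAlgebra R G) →ₗ[R] R, Function.Surjective θ ∧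
      ∀ f, θ f = 0 ↔ ∃ g : P₁ →ₗ[MonoidAlgebra R G] MonoidAlgebra R G, f = g ∘ₗ d₂

section

variable {R G : Type} [CommRing R] [Group G]

theorem augR_single (g : G) (c : R) : augR R G (MonoidAlgebra.single g c) = c := by
  unfold augR
  simp [MonoidAlgebra.lift_single]

variable {k : ℕ}

/-- A linear map is determined by its values at the standard vectors. -/
theorem lin_sum {A : Type} [Ring A] (f : (Fin k → A) →ₗ[A] A) (v : Fin k → A) :
    f v = ∑ j, v j * f (Pi.single j 1) := by
  have h : v = ∑ j, v j • (Pi.single j (1 : A) : Fin k → A) := by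
    funext i
    rw [Finset.sum_apply, sum_eq_single i]
    · rw [Pi.smul_apply, Pi.single_eq_same, smul_eq_mul, mul_one]
    · intro j _ hj
      rw [Pi.smul_apply, Pi.single_eq_of_ne hj.symm, smul_zero]
    · intro h
      exact absurd (mem_univ i) h
  conv_lhs => rw [h]
  rw [map_sum]
  refine sum_congr rfl fun j _ => ?_
  rw [map_smul, smul_eq_mul]

/-- The linear map with the values `u j` at the standard vectors. -/
def lcomb {A : Type} [Ring A] (u : Fin k → A) : (Fin k → A) →ₗ[A] A where
  toFun v := ∑ j, v j * u j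
  map_add' v w := by simp only [Pi.add_apply, add_mul, sum_add_distrib]
  map_smul' c v := by
    simp only [Pi.smul_apply, smul_eq_mul, mul_assoc, RingHom.id_apply, mul_sum]

theorem lcomb_apply {A : Type} [Ring A] (u v : Fin k → A) : lcomb u v = ∑ j, v j * u j := rfl

/-- Right multiplication. -/
def rmul {A : Type} [Ring A] (u : A) : A →ₗ[A] A where
  toFun v := v * u
  map_add' v w := add_mul v w u
  map_smul' c v := by simp only [smul_eq_mul, mul_assoc, RingHom.id_apply]

theorem rmul_apply {A : Type} [Ring A] (u v : A) : rmul u v = v * u := rfl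

/-- Right multiplication with the entries of a row. -/
def rrow {A : Type} [Ring A] (u : Fin k → A) : A →ₗ[A] (Fin k → A) where
  toFun v := fun j => v * u j
  map_add' v w := by ext j; exact add_mul v w (u j)
  map_smul' c v := by ext j; simp only [smul_eq_mul, mul_assoc, RingHom.id_apply, Pi.smul_apply]

theorem rrow_apply {A : Type} [Ring A] (u : Fin k → A) (v : A) (j : Fin k) : rrow u v j = v * u j := rfl

/-- The criterion. -/
theorem isPD2_of (Y D : Fin k → MonoidAlgebra R G)
    (L1 : ∀ q : MonoidAlgebra R G, (∀ j, q * D j = 0) → q = 0)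
    (L2 : ∀ v : Fin k → MonoidAlgebra R G, ∑ j, v j * Y j = 0 ↔ ∃ q, ∀ j, v j = q * D j)
    (L3 : ∀ w : MonoidAlgebra R G, augR R G w = 0 ↔ ∃ v : Fin k → MonoidAlgebra R G, w = ∑ j, v j * Y j)
    (R1 : ∀ q : MonoidAlgebra R G, (∀ j, Y j * q = 0) → q = 0)
    (R2 : ∀ v : Fin k → MonoidAlgebra R G, ∑ j, D j * v j = 0 → ∃ q, ∀ j, v j = Y j * q)
    (θ : MonoidAlgebra R G →ₗ[R] R) (hθ : Function.Surjective θ)
    (R3 : ∀ w : MonoidAlgebra R G, θ w = 0 ↔ ∃ v : Fin k → MonoidAlgebra R G, w = ∑ j, D j * v j) :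
    IsPD2 R G := by
  refine ⟨MonoidAlgebra R G, Fin k → MonoidAlgebra R G, MonoidAlgebra R G, inferInstance, inferInstance,
    inferInstance, inferInstance, inferInstance, inferInstance, rrow D, lcomb Y,
    (augR R G : MonoidAlgebra R G →+ R), ⟨inferInstance, inferInstance, inferInstance⟩,
    ⟨inferInstance, inferInstance, inferInstance⟩, ?_, ?_, ?_, ?_, ?_, ?_, ?_, ?_⟩
  · intro g c p
    show augR R G (MonoidAlgebra.single g c * p) = c * augR R G p
    rw [map_mul, augR_single]
  · rw [injective_iff_map_eq_zero]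
    intro q hq
    exact L1 q fun j => congrFun hq j
  · intro v
    show ∑ j, v j * Y j = 0 ↔ v ∈ Set.range (rrow D)
    rw [L2 v]
    constructor
    · rintro ⟨q, hq⟩
      exact ⟨q, funext fun j => (hq j).symm⟩
    · rintro ⟨q, rfl⟩
      exact ⟨q, fun j => rfl⟩
  · intro w
    show augR R G w = 0 ↔ w ∈ Set.range (lcomb Y)
    rw [L3 w]
    constructor
    · rintro ⟨v, rfl⟩
      exact ⟨v, rfl⟩
    · rintro ⟨v, rfl⟩
      exact ⟨v, rfl⟩
  · intro c
    exact ⟨MonoidAlgebra.single 1 c, augR_single 1 c⟩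
  · intro f hf
    have h1 : f 1 = 0 := by
      refine R1 _ fun j => ?_
      have h2 := LinearMap.congr_fun hf (Pi.single j 1)
      rw [LinearMap.comp_apply, lcomb_apply, LinearMap.zero_apply] at h2
      have h3 : ∑ i, (Pi.single j (1 : MonoidAlgebra R G) : Fin k → MonoidAlgebra R G) i * Y i = Y j := by
        rw [sum_eq_single j]
        · rw [Pi.single_eq_same, one_mul]
        · intro i _ hi
          rw [Pi.single_eq_of_ne hi, zero_mul]
        · intro h
          exact absurd (mem_univ j) h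
      rw [h3] at h2
      have h4 : f (Y j) = Y j * f 1 := by
        have := f.map_smul (Y j) 1
        rw [smul_eq_mul, mul_one, smul_eq_mul] at this
        exact this
      rw [← h4, h2]
    exact LinearMap.ext_ring h1
  · intro f hf
    have h1 : ∑ j, D j * f (Pi.single j 1) = 0 := by
      have h2 := LinearMap.congr_fun hf 1
      rw [LinearMap.comp_apply, LinearMap.zero_apply, lin_sum] at h2
      rw [← h2]
      refine sum_congr rfl fun j _ => ?_
      rw [rrow_apply, one_mul]
    obtain ⟨q, hq⟩ := R2 _ h1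
    refine ⟨rmul q, LinearMap.ext fun v => ?_⟩
    rw [LinearMap.comp_apply, lin_sum, lcomb_apply, rmul_apply, sum_mul]
    refine sum_congr rfl fun j _ => ?_
    rw [hq j, mul_assoc]
  · refine ⟨
      { toFun := fun f => θ (f 1)
        map_add' := fun f g => by rw [LinearMap.add_apply, map_add]
        map_smul' := fun c f => by rw [LinearMap.smul_apply, map_smul, RingHom.id_apply] }, ?_, ?_⟩
    · intro c
      obtain ⟨w, hw⟩ := hθ c
      refine ⟨rmul w, ?_⟩
      show θ (1 * w) = c
      rw [one_mul, hw]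
    · intro f
      show θ (f 1) = 0 ↔ _
      rw [R3]
      constructor
      · rintro ⟨v, hv⟩
        refine ⟨lcomb v, LinearMap.ext_ring ?_⟩
        rw [LinearMap.comp_apply, hv, lcomb_apply]
        refine sum_congr rfl fun j _ => ?_
        rw [rrow_apply, one_mul]
      · rintro ⟨g, rfl⟩
        refine ⟨fun j => g (Pi.single j 1), ?_⟩
        rw [LinearMap.comp_apply, lin_sum]
        refine sum_congr rfl fun j _ => ?_
        rw [rrow_apply, one_mul]

end

end Pool.Agent.MelS
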