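import Pool.Agent.MelS.TwEx
import Pool.Agent.MelS.PD

/-!
# Ends: change of coefficients for the first cohomology

`G = OR r` infinite.  `HasH1 R r`: `∑ i, D_i v_i = 0` implies `v_i = (x_i - 1) q` over `R[G]`.

* `ker_X`: `(x_i - 1) q = 0` for all `i` implies `q = 0`.
* `hasH1_of_hasH1`: `HasH1 R r` for one ring `R ≠ 0` implies `HasH1 K r` for every finite field `K` (all almost
  invariant subsets of `G` are finite or have finite complement).
* `not_unimod`: if `HasH1 K r`, the `D_i` do not generate the unit right ideal of `K[G]`.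
-/

open Finset Module

namespace Pool.Agent.MelS

open Pool.Agent.MelD (fox OR coc coc_mul coc_of coc_one coc_unique fundamental map_fox fox_mul fox_of
  coc_eq_sum Dual exists_desc aff aff_apply)

section

variable {k : ℕ} (r : FreeGroup (Fin k))

/-- Triviality of the first cohomology with coefficients in the group ring. -/
def HasH1 (R : Type) [CommRing R] {k : ℕ} (r : FreeGroup (Fin k)) : Prop :=
  ∀ v : Fin k → MonoidAlgebra R (OR r), ∑ i, fox (frR R r) i r * v i = 0 →
    ∃ q, ∀ i, v i = (frR R r (FreeGroup.of i) - 1) * q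

variable {r}

theorem frR_mul_coeff {R : Type} [CommRing R] (w : FreeGroup (Fin k)) (q : MonoidAlgebra R (OR r)) (h : OR r) :
    (frR R r w * q).coeff h = q.coeff ((PresentedGroup.mk {r} w)⁻¹ * h) := by
  rw [frR_apply, MonoidAlgebra.coeff_single_mul_apply, one_mul]

/-- A function which is invariant under the generators is constant. -/
theorem const_of_inv {α : Type} (ψ : OR r → α)
    (h : ∀ i g, ψ ((PresentedGroup.mk {r} (FreeGroup.of i))⁻¹ * g) = ψ g) (g : OR r) : ψ g = ψ 1 := by
  have h1 : ∀ w : FreeGroup (Fin k), ∀ g, ψ ((PresentedGroup.mk ({r} : Set (FreeGroup (Fin k))) w)⁻¹ * g) = ψ g := by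
    intro w
    induction w using FreeGroup.induction_on with
    | C1 => intro g; rw [map_one, inv_one, one_mul]
    | of i => exact h i
    | inv_of i _ =>
      intro g
      have h2 := h i ((PresentedGroup.mk ({r} : Set (FreeGroup (Fin k))) (FreeGroup.of i)⁻¹)⁻¹ * g)
      rw [← h2, map_inv, inv_inv, inv_mul_cancel_left]
    | mul a b ha hb =>
      intro g
      rw [map_mul, mul_inv_rev, mul_assoc, hb, ha]
  obtain ⟨w, rfl⟩ := PresentedGroup.mk_surjective _ g
  have h2 := h1 w (PresentedGroup.mk {r} w)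
  rw [inv_mul_cancel] at h2
  exact h2.symm

variable [Infinite (OR r)]

theorem ker_X {R : Type} [CommRing R] (q : MonoidAlgebra R (OR r))
    (h : ∀ i, (frR R r (FreeGroup.of i) - 1) * q = 0) : q = 0 := by
  have h1 : ∀ g, q.coeff g = q.coeff 1 := by
    refine const_of_inv (fun g => q.coeff g) fun i g => ?_
    have h2 := h i
    rw [sub_mul, one_mul, sub_eq_zero] at h2
    show q.coeff _ = q.coeff g
    rw [← frR_mul_coeff, h2]
  obtain ⟨g, hg⟩ := Infinite.exists_notMem_finset q.coeff.support
  have h2 : q.coeff 1 = 0 := by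
    rw [← h1 g]
    exact Finsupp.notMem_support_iff.1 hg
  apply MonoidAlgebra.ext
  apply Finsupp.ext
  intro g
  rw [h1, h2]
  rfl

/-- Almost invariant sets are trivial. -/
theorem trivial_ends {R : Type} [CommRing R] [Nontrivial R] (hR : HasH1 R r) (S : Set (OR r))
    (hS : ∀ g : OR r, {h | ¬ (g⁻¹ * h ∈ S ↔ h ∈ S)}.Finite) : S.Finite ∨ Sᶜ.Finite := by
  classical
  let ind : OR r → R := fun h => if h ∈ S then 1 else 0
  have hfin : ∀ g : OR r, {h | ind (g⁻¹ * h) - ind h ≠ 0}.Finite := by
    intro g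
    refine (hS g).subset fun h hh => ?_
    intro h1
    apply hh
    show (if g⁻¹ * h ∈ S then (1 : R) else 0) - (if h ∈ S then 1 else 0) = 0
    by_cases h2 : h ∈ S
    · rw [if_pos h2, if_pos (h1.2 h2), sub_self]
    · rw [if_neg h2, if_neg (fun h3 => h2 (h1.1 h3)), sub_self]
  let d : OR r → MonoidAlgebra R (OR r) := fun g =>
    MonoidAlgebra.ofCoeff (Finsupp.ofSupportFinite (fun h => ind (g⁻¹ * h) - ind h) (hfin g))
  have hd : ∀ g h, (d g).coeff h = ind (g⁻¹ * h) - ind h := fun g h => rfl
  have hdm : ∀ w w' : FreeGroup (Fin k), d (PresentedGroup.mk {r} (w * w')) =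
      d (PresentedGroup.mk {r} w) + frR R r w * d (PresentedGroup.mk {r} w') := by
    intro w w'
    apply MonoidAlgebra.ext
    apply Finsupp.ext
    intro h
    rw [MonoidAlgebra.coeff_add, Finsupp.add_apply, frR_mul_coeff, hd, hd, hd, map_mul, mul_inv_rev, mul_assoc]
    abel
  have h1 : ∑ i, fox (frR R r) i r * d (PresentedGroup.mk {r} (FreeGroup.of i)) = 0 := by
    have h2 := coc_eq_sum (frR R r) (fun i => d (PresentedGroup.mk {r} (FreeGroup.of i))) r
    simp only [smul_eq_mul] at h2
    rw [← h2, ← coc_unique (frR R r) (fun w => d (PresentedGroup.mk {r} w))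
      (coc (frR R r) (fun i => d (PresentedGroup.mk {r} (FreeGroup.of i)))) hdm (coc_mul _ _)
      (fun i => by rw [coc_of]) r]
    apply MonoidAlgebra.ext
    apply Finsupp.ext
    intro h
    show (d (PresentedGroup.mk {r} r)).coeff h = 0
    rw [hd, PresentedGroup.one_of_mem (Set.mem_singleton r), inv_one, one_mul, sub_self]
  obtain ⟨q, hq⟩ := hR _ h1
  have h3 : ∀ g, ind g - q.coeff g = ind 1 - q.coeff 1 := by
    refine const_of_inv (fun g => ind g - q.coeff g) fun i g => ?_
    have h4 := congrArg (fun x : MonoidAlgebra R (OR r) => x.coeff g) (hq i)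
    have h5 : ind ((PresentedGroup.mk {r} (FreeGroup.of i))⁻¹ * g) - ind g =
        q.coeff ((PresentedGroup.mk {r} (FreeGroup.of i))⁻¹ * g) - q.coeff g := by
      have h6 : ((frR R r (FreeGroup.of i) - 1) * q).coeff g =
          q.coeff ((PresentedGroup.mk {r} (FreeGroup.of i))⁻¹ * g) - q.coeff g := by
        rw [sub_mul, one_mul, MonoidAlgebra.coeff_sub, Finsupp.sub_apply, frR_mul_coeff]
      rw [← h6]
      exact h4
    show ind ((PresentedGroup.mk {r} (FreeGroup.of i))⁻¹ * g) -
      q.coeff ((PresentedGroup.mk {r} (FreeGroup.of i))⁻¹ * g) = ind g - q.coeff g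
    rw [sub_eq_sub_iff_add_eq_add] at h5 ⊢
    rw [h5]
    ring
  obtain ⟨c, hc⟩ : ∃ c, c = ind 1 - q.coeff 1 := ⟨_, rfl⟩
  rw [← hc] at h3
  by_cases hc0 : c = 0
  · left
    refine (q.coeff.support.finite_toSet).subset fun g hg => ?_
    rw [Finset.mem_coe, Finsupp.mem_support_iff]
    intro h4
    have h5 := h3 g
    rw [h4, hc0, sub_zero] at h5
    have h6 : ind g = 1 := if_pos hg
    rw [h6] at h5
    exact one_ne_zero h5
  · right
    refine (q.coeff.support.finite_toSet).subset fun g hg => ?_
    rw [Finset.mem_coe, Finsupp.mem_support_iff]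
    intro h4
    have h5 := h3 g
    rw [h4, sub_zero] at h5
    have h6 : ind g = 0 := if_neg hg
    rw [h6] at h5
    exact hc0 h5.symm

theorem hasH1_of_hasH1 {R : Type} [CommRing R] [Nontrivial R] (hR : HasH1 R r) (K : Type) [CommRing K]
    [Finite K] : HasH1 K r := by
  classical
  intro u hu
  -- the cocycle
  have h1 : coc (frR K r) u r = 0 := by
    rw [coc_eq_sum]
    simpa only [smul_eq_mul] using hu
  have h2 : aff (frR K r) u r = 1 := by
    apply Equiv.ext
    intro x
    rw [aff_apply, h1, frR_rel, one_smul, zero_add]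
    rfl
  obtain ⟨T, hT⟩ := exists_desc r (aff (frR K r) u) h2
  have hTw : ∀ w, T (PresentedGroup.mk {r} w) 0 = coc (frR K r) u w := by
    intro w
    have := DFunLike.congr_fun hT w
    show T (PresentedGroup.mk {r} w) 0 = aff (frR K r) u w 0
    rw [← this]
    rfl
  let c : OR r → MonoidAlgebra K (OR r) := fun g => T g 0
  have hc : ∀ w, c (PresentedGroup.mk {r} w) = coc (frR K r) u w := hTw
  have hcm : ∀ g g' h, (c (g * g')).coeff h = (c g).coeff h + (c g').coeff (g⁻¹ * h) := by
    intro g g' h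
    obtain ⟨w, rfl⟩ := PresentedGroup.mk_surjective _ g
    obtain ⟨w', rfl⟩ := PresentedGroup.mk_surjective _ g'
    rw [← map_mul, hc, hc, hc, coc_mul, smul_eq_mul, MonoidAlgebra.coeff_add, Finsupp.add_apply, frR_mul_coeff]
  let φ : OR r → K := fun h => - (c h).coeff h
  have hφ : ∀ g h, φ (g⁻¹ * h) - φ h = (c g).coeff h := by
    intro g h
    have h3 := hcm g (g⁻¹ * h) h
    rw [mul_inv_cancel_left] at h3
    show - (c (g⁻¹ * h)).coeff (g⁻¹ * h) - - (c h).coeff h = _
    rw [h3]
    abel
  have hlev : ∀ a : K, {h | φ h = a}.Finite ∨ {h | φ h = a}ᶜ.Finite := by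
    intro a
    refine trivial_ends hR _ fun g => ?_
    refine ((c g).coeff.support.finite_toSet).subset fun h hh => ?_
    rw [Finset.mem_coe, Finsupp.mem_support_iff]
    intro h4
    apply hh
    have h5 := hφ g h
    rw [h4, sub_eq_zero] at h5
    show φ (g⁻¹ * h) = a ↔ φ h = a
    rw [h5]
  obtain ⟨a, ha⟩ : ∃ a : K, ¬ {h | φ h = a}.Finite := by
    by_contra hcon
    push Not at hcon
    have h4 : (⋃ a : K, {h | φ h = a}).Finite := Set.finite_iUnion hcon
    have h5 : (⋃ a : K, {h | φ h = a}) = Set.univ := by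
      ext h
      simp
    rw [h5] at h4
    exact Set.infinite_univ h4
  have hcof : {h | φ h - a ≠ 0}.Finite := by
    refine ((hlev a).resolve_left ha).subset fun h hh => ?_
    intro h5
    apply hh
    have h6 : φ h = a := h5
    rw [h6, sub_self]
  refine ⟨MonoidAlgebra.ofCoeff (Finsupp.ofSupportFinite (fun h => φ h - a) hcof), fun i => ?_⟩
  obtain ⟨q, hq⟩ : ∃ q : MonoidAlgebra K (OR r),
    q = MonoidAlgebra.ofCoeff (Finsupp.ofSupportFinite (fun h => φ h - a) hcof) := ⟨_, rfl⟩
  rw [← hq]
  have hqc : ∀ h, q.coeff h = φ h - a := fun h => by rw [hq]; rfl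
  apply MonoidAlgebra.ext
  apply Finsupp.ext
  intro h
  rw [sub_mul, one_mul, MonoidAlgebra.coeff_sub, Finsupp.sub_apply, frR_mul_coeff, hqc, hqc,
    sub_sub_sub_cancel_right, hφ, hc, coc_of]

/-- The Fox derivatives do not generate the unit ideal. -/
theorem not_unimod {K : Type} [CommRing K] [Nontrivial K] (hK : HasH1 K r)
    (w : Fin k → MonoidAlgebra K (OR r)) (hw : ∑ i, fox (frR K r) i r * w i = 1) : False := by
  classical
  have h1 : ∀ l, ∃ q, ∀ i, (if i = l then (1 : MonoidAlgebra K (OR r)) else 0) - w i * fox (frR K r) l r =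
      (frR K r (FreeGroup.of i) - 1) * q := by
    intro l
    refine hK (fun i => (if i = l then (1 : MonoidAlgebra K (OR r)) else 0) - w i * fox (frR K r) l r) ?_
    simp only [mul_sub, sum_sub_distrib, mul_ite, mul_one, mul_zero, sum_ite_eq', mem_univ, if_true,
      ← mul_assoc, ← sum_mul]
    rw [hw, one_mul, sub_self]
  choose q hq using h1
  have h2 : ∀ i, (frR K r (FreeGroup.of i) - 1) * (1 - ∑ l, q l * (frR K r (FreeGroup.of l) - 1)) = 0 := by
    intro i
    have h3 : ∑ l, ((if i = l then (1 : MonoidAlgebra K (OR r)) else 0) - w i * fox (frR K r) l r) *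
        (frR K r (FreeGroup.of l) - 1) = (frR K r (FreeGroup.of i) - 1) := by
      simp only [sub_mul, sum_sub_distrib, ite_mul, one_mul, zero_mul, sum_ite_eq, mem_univ, if_true, mul_assoc,
        ← mul_sum]
      have h4 := fundamental (frR K r) r
      rw [frR_rel, sub_self] at h4
      rw [← h4, mul_zero]
      abel
    have h5 : ∑ l, ((if i = l then (1 : MonoidAlgebra K (OR r)) else 0) - w i * fox (frR K r) l r) *
        (frR K r (FreeGroup.of l) - 1) =
        (frR K r (FreeGroup.of i) - 1) * ∑ l, q l * (frR K r (FreeGroup.of l) - 1) := by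
      rw [mul_sum]
      refine sum_congr rfl fun l _ => ?_
      rw [hq l i, mul_assoc]
    rw [mul_sub, mul_one, ← h5, h3, sub_self]
  have h3 := ker_X _ h2
  rw [sub_eq_zero] at h3
  have h4 := congrArg (augR K (OR r)) h3
  have h5 : ∀ l, augR K (OR r) (frR K r (FreeGroup.of l) - 1) = 0 := by
    intro l
    rw [map_sub, map_one, frR_apply, augR_single, sub_self]
  rw [map_one, map_sum] at h4
  simp only [map_mul, h5, mul_zero, sum_const_zero] at h4
  exact one_ne_zero h4

end

end Pool.Agent.MelS
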