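import Pool.Agent.MelS.Ker

/-!
# Kernels with a unique lowest term in each column and bijective leading map are invertible (module W5)

Step A (`inv_one_sub`): `E` good of level `j` and positive: `E z y ≠ 0 → H j y < H j z`.  Then `1 - E` has a two
sided inverse `G`, good of level `j`.
 Proof.  `E^m` (`m`-th power in `Ker`, all good of level `j`) has its degrees in `m P`, `P` the PWO set of
 degrees of `E`, all positive.  The union of the `m P` is PWO (`Set.IsPWO.addSubmonoid_closure`) and each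
 `a` is in `m P` for finitely many `m` only.  [For the latter: e.g. `x = ∑_{a ∈ P} t^a` in
 `HahnSeries Λ ℚ`: `0 < orderTop`, and `HahnSeries.SummableFamily.powers` (here the coefficients are
 commutative) or `pow_finite_co_support`: the coefficient of `x ^ m` at `a` is non zero for all `a ∈ m P`
 (all coefficients are non negative); or a direct argument: if `a ∈ m P` for infinitely many `m`, choose
 lists `l_m` in `P` with sum `a` and length `m`; Higman's lemma
 (`Set.PartiallyWellOrderedOn.partiallyWellOrderedOn_sublistForall₂`) gives `m < m'` with `l_m` dominated by a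
 sublist of `l_m'`; as the length is strictly larger and the elements of `P` are positive, the sum of `l_m'`
 is strictly larger: contradiction.]
 Alternatively avoid the powers: define the column `G · y` by well founded recursion on the degree:
 `G z y = δ_{z y} + ∑ᶠ w, E z w * G w y`.
 With powers: `G z y = ∑ᶠ m, (E^m) z y`; invariance clear; degrees in the closure of `P`; the fibre of `z`:
 finitely many `m` (they depend only on the degree of the fibre), for each finitely many `z'`.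
 `(1 - E) G = 1`: `∑ᶠ w, E z w * ∑ᶠ m, (E^m) w y = ∑ᶠ m, (E^(m+1)) z y` (the pairs `(w, m)` with
 `E z w ≠ 0`, `(E^m) w y ≠ 0` are finite in number: `GoodRel.fin_mid` for `E` and the union of the supports of
 the `E^m`, which is a good relation).  Similarly `G (1 - E) = 1`.

Step B (`inv_of_lead`): `p (y h) = p y h` for `h ∈ n j` (uniqueness of the lowest element: `T (z h) (y h) = T z y`
and `H (z h) - H (z' h) = H z - H z'`).  Let `P z y = T z y` if `z = p y`, else `0`, and
`P' y z = (T z y)⁻¹` if `z = p y`, else `0`: both good of level `j` (`p` bijective: each column of `P'` has one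
element, `P'` has the column `z` with the element `p⁻¹ z`; degrees: finitely many by invariance, finite index),
`P P' = P' P = 1`.  `T P' = 1 - E` with `E z z' = - T z y (T (p y) y)⁻¹` for `z' = p y ≠ z`, and then
`H z' = H (p y) < H z`: `E` is positive.  So `T P' G = 1`, `G T P' = 1`, and `S = P' G`:
`S T = P' G T = P' (G T P') P = P' P = 1`.
-/

set_option linter.unusedSectionVars false

open Finset

namespace Pool.Agent.MelS

variable {N Λ : Type} [Group N] [AddCommGroup Λ] [LinearOrder Λ] [IsOrderedAddMonoid Λ]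
variable {𝒯 : OrdTower N Λ} {K : Type} [Field K]

namespace Geo

/-- Paths from `y` up to `z`. -/
def st (E : N → N → K) (z y : N) : Prop := Relation.ReflTransGen (fun a b => E b a ≠ 0) y z

theorem st_refl (E : N → N → K) (y : N) : st E y y := Relation.ReflTransGen.refl

theorem st_step {E : N → N → K} {z w y : N} (h : st E w y) (hE : E z w ≠ 0) : st E z y :=
  Relation.ReflTransGen.tail h hE

/-- The degrees of the support of `E`. -/
def degs (𝒯 : OrdTower N Λ) (j : ℕ) (E : N → N → K) : Set Λ :=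
  {a | ∃ z y, E z y ≠ 0 ∧ a = 𝒯.H j z - 𝒯.H j y}

theorem st_deg {j : ℕ} {E : N → N → K} {z y : N} (h : st E z y) :
    𝒯.H j z - 𝒯.H j y ∈ AddSubmonoid.closure (degs 𝒯 j E) := by
  induction h with
  | refl => rw [sub_self]; exact zero_mem _
  | @tail b c hb hc ih =>
    have h1 : 𝒯.H j c - 𝒯.H j y = (𝒯.H j b - 𝒯.H j y) + (𝒯.H j c - 𝒯.H j b) := by abel
    rw [h1]
    exact add_mem ih (AddSubmonoid.subset_closure ⟨c, b, hc, rfl⟩)

theorem st_inv {j : ℕ} {E : N → N → K} (hE : Good 𝒯 j E) {h : N} (hh : h ∈ 𝒯.n j) {z y : N}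
    (hs : st E z y) : st E (z * h) (y * h) := by
  induction hs with
  | refl => exact st_refl _ _
  | @tail b c hb hc ih => exact st_step ih (by rw [hE.1 h hh]; exact hc)

theorem st_inv_iff {j : ℕ} {E : N → N → K} (hE : Good 𝒯 j E) {h : N} (hh : h ∈ 𝒯.n j) {z y : N} :
    st E (z * h) (y * h) ↔ st E z y := by
  refine ⟨fun hs => ?_, st_inv hE hh⟩
  have := st_inv hE (h := h⁻¹) ((𝒯.n j).inv_mem hh) hs
  simpa using this

section

variable {j : ℕ} {E : N → N → K} (hE : Good 𝒯 j E) (hp : ∀ z y, E z y ≠ 0 → 𝒯.H j y < 𝒯.H j z)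

include hE in
theorem degs_pwo : (degs 𝒯 j E).IsPWO := hE.2.2.2

include hp in
theorem degs_pos : ∀ a ∈ degs 𝒯 j E, 0 < a := by
  rintro a ⟨z, y, h, rfl⟩
  exact sub_pos.2 (hp z y h)

include hE hp in
theorem clo_pwo : (AddSubmonoid.closure (degs 𝒯 j E) : Set Λ).IsPWO :=
  Set.IsPWO.addSubmonoid_closure (fun a ha => (degs_pos hp a ha).le) (degs_pwo hE)

include hE hp in
theorem st_fin (y : N) (a : Λ) : {z | st E z y ∧ 𝒯.H j z - 𝒯.H j y = a}.Finite := by
  have hwf := (clo_pwo hE hp).isWF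
  by_cases ha : a ∈ (AddSubmonoid.closure (degs 𝒯 j E) : Set Λ)
  swap
  · refine Set.Finite.subset Set.finite_empty ?_
    rintro z ⟨hz, rfl⟩
    exact (ha (st_deg hz)).elim
  refine Set.WellFoundedOn.induction (P := fun a => {z | st E z y ∧ 𝒯.H j z - 𝒯.H j y = a}.Finite) hwf ha ?_
  intro a ha ih
  have hfin := Set.AddAntidiagonal.finite_of_isPWO (clo_pwo hE hp) (degs_pwo hE) a
  refine Set.Finite.subset (((Set.finite_singleton y)).union (Set.Finite.biUnion hfin
    (t := fun bc => ⋃ w ∈ {w | st E w y ∧ 𝒯.H j w - 𝒯.H j y = bc.1}, {z | E z w ≠ 0 ∧ 𝒯.H j z - 𝒯.H j w = bc.2}) ?_)) ?_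
  · rintro ⟨b, c⟩ hbc
    obtain ⟨hb, hc, hbc⟩ := hbc
    refine Set.Finite.biUnion (ih b hb ?_) ?_
    · have := degs_pos hp c hc
      rw [← show b + c = a from hbc]
      exact lt_add_of_pos_right b this
    · intro w hw
      exact hE.2.fin_deg w c
  · rintro z ⟨hz, hza⟩
    rcases Relation.ReflTransGen.cases_tail hz with h | ⟨w, hw, hzw⟩
    · left; exact h
    · right
      rw [Set.mem_iUnion₂]
      refine ⟨(𝒯.H j w - 𝒯.H j y, 𝒯.H j z - 𝒯.H j w), ⟨st_deg hw, ⟨z, w, hzw, rfl⟩, ?_⟩, ?_⟩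
      · rw [← hza]
        show 𝒯.H j w - 𝒯.H j y + (𝒯.H j z - 𝒯.H j w) = _
        abel
      · rw [Set.mem_iUnion₂]
        exact ⟨w, ⟨hw, rfl⟩, hzw, rfl⟩

include hE hp in
theorem st_good : GoodRel 𝒯 j (st E) := by
  refine ⟨fun h hh z y => st_inv hE hh, fun z y => ?_, ?_⟩
  · refine Set.Finite.subset (st_fin hE hp y (𝒯.H j z - 𝒯.H j y)) ?_
    rintro z' ⟨h1, h2⟩
    refine ⟨h1, ?_⟩
    rw [((𝒯.H_eq j z z').2 h2)]
  · refine (clo_pwo hE hp).mono ?_
    rintro a ⟨z, y, h, rfl⟩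
    exact st_deg h

/-- The well founded relation of a column. -/
def rel (𝒯 : OrdTower N Λ) (j : ℕ) (E : N → N → K) (y w z : N) : Prop :=
  st E w y ∧ st E z y ∧ 𝒯.H j w < 𝒯.H j z

include hE hp in
theorem rel_wf (y : N) : WellFounded (rel 𝒯 j E y) := by
  have hwf := (clo_pwo hE hp).isWF
  refine ⟨fun z => ?_⟩
  by_cases hz : st E z y
  swap
  · exact ⟨_, fun w hw => (hz hw.2.1).elim⟩
  have key : ∀ a ∈ (AddSubmonoid.closure (degs 𝒯 j E) : Set Λ), ∀ z, st E z y →
      𝒯.H j z - 𝒯.H j y = a → Acc (rel 𝒯 j E y) z := by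
    intro a ha
    refine Set.WellFoundedOn.induction (P := fun a => ∀ z, st E z y →
      𝒯.H j z - 𝒯.H j y = a → Acc (rel 𝒯 j E y) z) hwf ha ?_
    intro a ha ih z hz hza
    refine ⟨_, fun w hw => ih _ (st_deg hw.1) ?_ w hw.1 rfl⟩
    rw [← hza]
    exact sub_lt_sub_right hw.2.2 _
  exact key _ (st_deg hz) z hz rfl

open Classical in
/-- The columns of the inverse. -/
noncomputable def col (hE : Good 𝒯 j E) (hp : ∀ z y, E z y ≠ 0 → 𝒯.H j y < 𝒯.H j z) (z y : N) : K :=
  (rel_wf hE hp y).fix (C := fun _ => K) (fun z ih => if st E z y then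
    kone z y + ∑ᶠ w, (if h : rel 𝒯 j E y w z then E z w * ih w h else 0) else 0) z

theorem col_off {z y : N} (h : ¬ st E z y) : col hE hp z y = 0 := by
  rw [col, WellFounded.fix_eq, if_neg h]

theorem col_eq (z y : N) : col hE hp z y = kone z y + ∑ᶠ w, E z w * col hE hp w y := by
  by_cases h : st E z y
  · rw [col, WellFounded.fix_eq, if_pos h]
    congr 1
    refine finsum_congr fun w => ?_
    by_cases hr : rel 𝒯 j E y w z
    · rw [dif_pos hr]; rfl
    · rw [dif_neg hr]
      by_cases hw : st E w y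
      · have hEw : E z w = 0 := by
          by_contra hne
          exact hr ⟨hw, h, hp z w hne⟩
        rw [hEw, zero_mul]
      · rw [col_off hE hp hw, mul_zero]
  · rw [col_off hE hp h]
    have h1 : (kone z y : K) = 0 := by
      rw [kone, if_neg]
      rintro rfl
      exact h (st_refl _ _)
    have h2 : ∀ w, E z w * col hE hp w y = 0 := by
      intro w
      by_cases hEw : E z w = 0
      · rw [hEw, zero_mul]
      · rw [col_off hE hp (fun hw => h (st_step hw hEw)), mul_zero]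
    rw [h1, finsum_congr h2, finsum_zero, add_zero]

theorem kone_inv (z y h : N) : (kone (z * h) (y * h) : K) = kone z y := by
  rw [kone, kone]
  by_cases hzy : z = y
  · rw [if_pos hzy, if_pos (by rw [hzy])]
  · rw [if_neg hzy, if_neg (fun h1 => hzy (mul_right_cancel h1))]

theorem col_inv {h : N} (hh : h ∈ 𝒯.n j) (z y : N) : col hE hp (z * h) (y * h) = col hE hp z y := by
  induction z using (rel_wf hE hp y).induction with
  | _ z ih =>
    by_cases hz : st E z y
    · rw [col_eq hE hp (z * h) (y * h), col_eq hE hp z y, kone_inv]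
      congr 1
      rw [← finsum_comp_equiv (Equiv.mulRight h)]
      refine finsum_congr fun w => ?_
      rw [Equiv.coe_mulRight, hE.1 h hh]
      by_cases hEw : E z w = 0
      · rw [hEw, zero_mul, zero_mul]
      · by_cases hw : st E w y
        · rw [ih w ⟨hw, hz, hp z w hEw⟩]
        · rw [col_off hE hp hw, col_off hE hp (fun h1 => hw ((st_inv_iff hE hh).1 h1))]
    · rw [col_off hE hp hz, col_off hE hp (fun h1 => hz ((st_inv_iff hE hh).1 h1))]

theorem col_good : Good 𝒯 j (col hE hp) := by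
  refine ⟨fun h hh z y => col_inv hE hp hh z y, (st_good hE hp).sub ?_ ?_⟩
  · intro z y h
    by_contra hs
    exact h (col_off hE hp hs)
  · intro h hh z y hzy
    rw [col_inv hE hp hh]
    exact hzy

end

/-- Left cancellation of `1 - E`. -/
theorem cancel {j : ℕ} (E : Ker 𝒯 K) (hp : ∀ z y, E.1 z y ≠ 0 → 𝒯.H j y < 𝒯.H j z)
    (X : Ker 𝒯 K) (hX : Good 𝒯 j X.1) (h : (1 - E) * X = 0) : X = 0 := by
  have h1 : X = E * X := by
    rw [sub_mul, one_mul, sub_eq_zero] at h
    exact h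
  have h2 : ∀ z y, X.1 z y = ∑ᶠ w, E.1 z w * X.1 w y := by
    intro z y
    have := congrArg (fun T : Ker 𝒯 K => T.1 z y) h1
    simpa [Ker.mul_val, kmul] using this
  have hwf := hX.2.2.2.isWF
  have key : ∀ a ∈ {a | ∃ z y, X.1 z y ≠ 0 ∧ a = 𝒯.H j z - 𝒯.H j y}, ∀ z y, X.1 z y ≠ 0 →
      a = 𝒯.H j z - 𝒯.H j y → False := by
    intro a ha
    refine Set.WellFoundedOn.induction (P := fun a => ∀ z y, X.1 z y ≠ 0 →
      a = 𝒯.H j z - 𝒯.H j y → False) hwf ha ?_
    rintro a ha ih z y hzy rfl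
    rw [h2] at hzy
    obtain ⟨w, hw⟩ : ∃ w, E.1 z w * X.1 w y ≠ 0 := by
      by_contra hcon
      push Not at hcon
      exact hzy (finsum_eq_zero_of_forall_eq_zero hcon)
    have hw1 := left_ne_zero_of_mul hw
    have hw2 := right_ne_zero_of_mul hw
    exact ih _ ⟨w, y, hw2, rfl⟩ (sub_lt_sub_right (hp z w hw1) _) w y hw2 rfl
  refine Subtype.ext ?_
  funext z y
  rw [Ker.zero_val]
  by_contra hne
  exact key _ ⟨z, y, hne, rfl⟩ z y hne rfl

end Geo

/-- `1 - E` is invertible for a positive good kernel `E`. -/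
theorem inv_one_sub {j : ℕ} (E : Ker 𝒯 K) (hE : Good 𝒯 j E.1)
    (hp : ∀ z y, E.1 z y ≠ 0 → 𝒯.H j y < 𝒯.H j z) :
    ∃ G : Ker 𝒯 K, Good 𝒯 j G.1 ∧ (1 - E) * G = 1 ∧ G * (1 - E) = 1 := by
  let G : Ker 𝒯 K := ⟨Geo.col hE hp, j, Geo.col_good hE hp⟩
  have hG : Good 𝒯 j G.1 := Geo.col_good hE hp
  have h1 : G = 1 + E * G := by
    refine Subtype.ext ?_
    funext z y
    rw [Ker.add_val, Ker.one_val, Ker.mul_val]
    exact Geo.col_eq hE hp z y
  have h2 : (1 - E) * G = 1 := by
    rw [sub_mul, one_mul, sub_eq_iff_eq_add]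
    exact h1
  refine ⟨G, hG, h2, ?_⟩
  have hone : Good 𝒯 j (1 : Ker 𝒯 K).1 := Good.one j
  have h3 : Good 𝒯 j (G * (1 - E) - 1).1 := by
    rw [sub_eq_add_neg (G * (1 - E)), sub_eq_add_neg 1 E]
    exact (hG.mul (hone.add hE.neg)).add hone.neg
  have h4 := Geo.cancel E hp (G * (1 - E) - 1) h3 (by
    rw [mul_sub, ← mul_assoc, h2, one_mul, mul_one, sub_self])
  exact sub_eq_zero.1 h4


namespace Geo

theorem lead_inv {j : ℕ} {T : N → N → K} (hT : Good 𝒯 j T) {p : N → N} (hl : Lead 𝒯 j T p) {h : N}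
    (hh : h ∈ 𝒯.n j) (y : N) : p (y * h) = p y * h := by
  by_contra hne
  obtain ⟨h1, h2⟩ := hl y
  obtain ⟨h3, h4⟩ := hl (y * h)
  have h5 : 𝒯.H j (p (y * h)) < 𝒯.H j (p y * h) := by
    refine h4 (p y * h) ?_ (Ne.symm hne)
    rw [hT.1 h hh]
    exact h1
  have hh' := (𝒯.n j).inv_mem hh
  have h6 : T (p (y * h) * h⁻¹) y ≠ 0 := by
    have := hT.1 h⁻¹ hh' (p (y * h)) (y * h)
    rw [mul_inv_cancel_right] at this
    rw [this]
    exact h3
  have h7 : 𝒯.H j (p y) < 𝒯.H j (p (y * h) * h⁻¹) := by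
    refine h2 _ h6 fun h8 => hne ?_
    rw [← h8, inv_mul_cancel_right]
  have h8 := 𝒯.H_mul j (p (y * h)) (p y * h) h⁻¹ hh'
  rw [mul_inv_cancel_right] at h8
  have h9 : 𝒯.H j (p y) - 𝒯.H j (p (y * h) * h⁻¹) < 0 := sub_neg.2 h7
  rw [h8] at h9
  exact absurd (sub_neg.1 h9) (not_lt.2 h5.le)

/-- The graph of an equivariant bijection is a good relation. -/
theorem graph_good {j : ℕ} {p : N → N} (hp : Function.Injective p)
    (hpi : ∀ h ∈ 𝒯.n j, ∀ y, p (y * h) = p y * h) : GoodRel 𝒯 j (fun y z => z = p y) := by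
  refine ⟨?_, ?_, ?_⟩
  · rintro h hh y z rfl
    exact (hpi h hh y).symm
  · intro y z
    refine Set.Subsingleton.finite ?_
    rintro a ⟨ha, -⟩ b ⟨hb, -⟩
    exact hp (ha.symm.trans hb)
  · have hfin := 𝒯.n_fin j
    refine Set.Finite.isPWO ?_
    refine (Set.finite_range fun s : N ⧸ 𝒯.n j => 𝒯.H j s.out - 𝒯.H j (p s.out)).subset ?_
    rintro a ⟨y, z, rfl, rfl⟩
    refine ⟨(y : N ⧸ 𝒯.n j), ?_⟩
    have h1 : ((y : N ⧸ 𝒯.n j).out)⁻¹ * y ∈ 𝒯.n j := by
      rw [← QuotientGroup.eq]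
      exact QuotientGroup.out_eq' _
    set s := (y : N ⧸ 𝒯.n j).out with hs
    have h2 : y = s * (s⁻¹ * y) := by group
    have h3 := 𝒯.H_mul j s (p s) _ h1
    rw [← hpi _ h1 s, ← h2] at h3
    show 𝒯.H j s - 𝒯.H j (p s) = 𝒯.H j y - 𝒯.H j (p y)
    rw [← neg_sub (𝒯.H j (p s)), ← neg_sub (𝒯.H j (p y)), h3]

end Geo

theorem inv_of_lead {j : ℕ} (T : Ker 𝒯 K) (hT : Good 𝒯 j T.1) (p : N → N) (hp : Function.Bijective p)
    (hl : Lead 𝒯 j T.1 p) : ∃ S : Ker 𝒯 K, Good 𝒯 j S.1 ∧ T * S = 1 ∧ S * T = 1 := by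
  classical
  have hpi : ∀ h ∈ 𝒯.n j, ∀ y, p (y * h) = p y * h := fun h hh y => Geo.lead_inv hT hl hh y
  have hpiff : ∀ h ∈ 𝒯.n j, ∀ z y, z * h = p (y * h) ↔ z = p y := by
    intro h hh z y
    rw [hpi h hh]
    exact mul_left_inj h
  let Pf : N → N → K := fun z y => if z = p y then T.1 z y else 0
  let Qf : N → N → K := fun y z => if z = p y then (T.1 z y)⁻¹ else 0
  have hPg : Good 𝒯 j Pf := by
    have hinv : ∀ h ∈ 𝒯.n j, ∀ z y, Pf (z * h) (y * h) = Pf z y := by
      intro h hh z y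
      simp only [Pf, hpiff h hh, hT.1 h hh]
    refine ⟨hinv, hT.2.sub ?_ ?_⟩
    · intro z y hzy
      by_contra hcon
      apply hzy
      simp only [Pf]
      split_ifs
      · exact hcon
      · rfl
    · intro h hh z y hzy
      rw [hinv h hh]
      exact hzy
  have hQg : Good 𝒯 j Qf := by
    have hinv : ∀ h ∈ 𝒯.n j, ∀ y z, Qf (y * h) (z * h) = Qf y z := by
      intro h hh y z
      simp only [Qf, hpiff h hh, hT.1 h hh]
    refine ⟨hinv, (Geo.graph_good hp.1 hpi).sub ?_ ?_⟩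
    · intro y z hyz
      by_contra hcon
      apply hyz
      simp only [Qf]
      rw [if_neg hcon]
    · intro h hh y z hyz
      rw [hinv h hh]
      exact hyz
  let P : Ker 𝒯 K := ⟨Pf, j, hPg⟩
  let Q : Ker 𝒯 K := ⟨Qf, j, hQg⟩
  have hQP : Q * P = 1 := by
    refine Subtype.ext ?_
    funext y y'
    rw [Ker.mul_val, Ker.one_val, kmul, kone]
    rw [finsum_eq_single _ (p y)]
    · show Qf y (p y) * Pf (p y) y' = _
      simp only [Pf, Qf, if_true]
      by_cases hy : y = y'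
      · subst hy
        rw [if_pos rfl, if_pos rfl]
        exact inv_mul_cancel₀ (hl y).1
      · rw [if_neg (fun h => hy (hp.1 h)), if_neg hy, mul_zero]
    · intro z hz
      show Qf y z * Pf z y' = 0
      simp only [Qf]
      rw [if_neg hz, zero_mul]
  have hTQ : ∀ z y, (T * Q).1 z (p y) = T.1 z y * (T.1 (p y) y)⁻¹ := by
    intro z y
    rw [Ker.mul_val, kmul, finsum_eq_single _ y]
    · show T.1 z y * Qf y (p y) = _
      simp only [Qf, if_true]
    · intro y' hy'
      show T.1 z y' * Qf y' (p y) = 0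
      simp only [Qf]
      rw [if_neg (fun h => hy' (hp.1 h).symm), mul_zero]
  let E : Ker 𝒯 K := 1 - T * Q
  have hone : Good 𝒯 j (1 : Ker 𝒯 K).1 := Good.one j
  have hE : Good 𝒯 j E.1 := by
    show Good 𝒯 j (1 - T * Q).1
    rw [sub_eq_add_neg]
    exact hone.add (hT.mul hQg).neg
  have hpos : ∀ z y, E.1 z y ≠ 0 → 𝒯.H j y < 𝒯.H j z := by
    intro z z' hz
    obtain ⟨y, rfl⟩ := hp.2 z'
    have h1 : E.1 z (p y) = kone z (p y) - T.1 z y * (T.1 (p y) y)⁻¹ := by
      show (1 - T * Q).1 z (p y) = _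
      rw [sub_eq_add_neg, Ker.add_val, Ker.neg_val, hTQ, Ker.one_val, ← sub_eq_add_neg]
    rw [h1, kone] at hz
    by_cases hzp : z = p y
    · subst hzp
      rw [if_pos rfl, mul_inv_cancel₀ (hl y).1, sub_self] at hz
      exact (hz rfl).elim
    · rw [if_neg hzp, zero_sub] at hz
      refine (hl y).2 z (fun h0 => hz ?_) hzp
      rw [h0, zero_mul, neg_zero]
  obtain ⟨G, hG, h1, h2⟩ := inv_one_sub E hE hpos
  have h3 : 1 - E = T * Q := by
    show 1 - (1 - T * Q) = T * Q
    rw [sub_sub_cancel]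
  rw [h3] at h1 h2
  refine ⟨Q * G, hQg.mul hG, ?_, ?_⟩
  · rw [← mul_assoc, h1]
  · calc Q * G * T = Q * G * (T * (Q * P)) := by rw [hQP, mul_one]
      _ = Q * (G * (T * Q)) * P := by simp only [mul_assoc]
      _ = 1 := by rw [h2, mul_one, hQP]

end Pool.Agent.MelS
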