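import Pool.Agent.MelS.Onto

/-!
# Products of `k / 2` commutators and of `k` squares: virtually RFRS groups (module W15, helper95)
-/

open Finset

namespace Pool.Agent.MelS

open Pool.Agent.MelD
open Pool.Agent.MelG (HasRel)

/-- Some normal subgroup of finite index is RFRS. -/
def VirtRFRS (G : Type) [Group G] : Prop := ∃ N : Subgroup G, N.Normal ∧ N.FiniteIndex ∧ IsRFRS N

/-- If `r = w (u_1, ..., u_k)`, `w` a product of commutators and `p`-th powers, then `u_1, ..., u_k` generate `G`. -/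
theorem word_onto {k : ℕ} (hk : 2 ≤ k) (r : FreeGroup (Fin k)) (w : FreeGroup (Fin k))
    (φ : FreeGroup (Fin k) →* FreeGroup (Fin k)) (hφ : φ w = r) (hr1 : r ≠ 1) (m : ℕ)
    (H : ∀ N : Subgroup (OR r), N.Normal → N.FiniteIndex → HasRel m N)
    (p : ℕ) (hp : p = 0 ∨ p.Prime) (hw : w ∈ VT p (⊤ : Subgroup (FreeGroup (Fin k)))) (hR : VirtRFRS (OR r))
    (a : OR w →* OR r)
    (ha : ∀ x, a (PresentedGroup.mk ({w} : Set (FreeGroup (Fin k))) x) =
      PresentedGroup.mk ({r} : Set (FreeGroup (Fin k))) (φ x)) : Function.Surjective a := by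
  obtain ⟨N, hN, hNf, hR⟩ := hR
  obtain ⟨b, hb, hD⟩ := any_rank hk r w φ hφ hr1 m H p hp hw
  have hab : a = b := OR_hom_ext fun x => by rw [ha, hb]
  subst hab
  intro g
  obtain ⟨x, hx⟩ := dense_onto r φ w hφ (fun U hU h => hD.top U hU (by
    rintro _ ⟨y, rfl⟩
    obtain ⟨x, rfl⟩ := PresentedGroup.mk_surjective _ y
    rw [ha]
    exact h x)) N hN hNf hR g
  exact ⟨PresentedGroup.mk {w} x, by rw [ha]; exact hx⟩

theorem orient_iso {k n : ℕ} (u v : Fin n → FreeGroup (Fin k)) (r : FreeGroup (Fin k))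
    (hr : r = (List.ofFn fun i => u i * v i * (u i)⁻¹ * (v i)⁻¹).prod) (hr1 : r ≠ 1) (m : ℕ)
    (H : ∀ N : Subgroup (OR r), N.Normal → N.FiniteIndex → HasRel m N) (hR : VirtRFRS (OR r)) (hkn : k = 2 * n)
    (a : OR (surf n) →* OR r)
    (ha : ∀ x, a (PresentedGroup.mk ({surf n} : Set (FreeGroup (Fin (n + n)))) x) =
        PresentedGroup.mk ({r} : Set (FreeGroup (Fin k))) (FreeGroup.lift (Fin.addCases u v) x)) :
    Function.Bijective a := by
  obtain ⟨b, hb, _, _, _, h5⟩ := orient_final u v r hr hr1 m H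
  have hab : a = b := OR_hom_ext fun x => by rw [ha, hb]
  subst hab
  refine ⟨(h5 hkn).1, ?_⟩
  have hkn' : k = n + n := by omega
  subst hkn'
  have hrF : r ∈ ⁅(⊤ : Subgroup (FreeGroup (Fin (n + n)))), (⊤ : Subgroup (FreeGroup (Fin (n + n))))⁆ := by
    rw [hr]
    exact list_prod_mem _ _ fun i => Subgroup.commutator_mem_commutator (Subgroup.mem_top _) (Subgroup.mem_top _)
  refine word_onto (two_le_rank r hr1 hrF) r (surf n) (FreeGroup.lift (Fin.addCases u v)) ?_ hr1 m H 0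
    (Or.inl rfl) ?_ hR a ha
  · rw [hr]
    exact surf_image u v
  · unfold VT
    exact Subgroup.mem_sup_left (surf_mem n)

theorem nonorient_iso {k n : ℕ} (hk : 2 ≤ k) (u : Fin n → FreeGroup (Fin k)) (r : FreeGroup (Fin k))
    (hr : r = (List.ofFn fun i => u i ^ 2).prod) (hr1 : r ≠ 1) (m : ℕ)
    (H : ∀ N : Subgroup (OR r), N.Normal → N.FiniteIndex → HasRel m N) (hR : VirtRFRS (OR r)) (hkn : k = n)
    (a : OR (nsurf n) →* OR r)
    (ha : ∀ x, a (PresentedGroup.mk ({nsurf n} : Set (FreeGroup (Fin n))) x) =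
        PresentedGroup.mk ({r} : Set (FreeGroup (Fin k))) (FreeGroup.lift u x)) :
    Function.Bijective a := by
  obtain ⟨b, hb, _, _, _, h5⟩ := nonorient_final hk u r hr hr1 m H
  have hab : a = b := OR_hom_ext fun x => by rw [ha, hb]
  subst hab
  refine ⟨(h5 hkn).1, ?_⟩
  subst hkn
  refine word_onto hk r (nsurf k) (FreeGroup.lift u) ?_ hr1 m H 2 (Or.inr Nat.prime_two) (nsurf_VT k) hR a ha
  rw [hr]
  exact nsurf_image u

end Pool.Agent.MelS
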