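import Pool.Agent.MelS.Rel

/-!
# The ring of kernels (module W3)

* `kmul_eq_sum`: for `T, S` good of level `i` the sum `∑ᶠ w, T z w * S w y` is finite (`GoodRel.fin_mid`).
* `Good.mul`: equivariance: substitute `w ↦ w h` (`finsum_comp_equiv (Equiv.mulRight h)`); the support of
  `kmul T S` is contained in the composition of the supports (`GoodRel.comp`, `GoodRel.sub`).
* associativity: with `A`, `B` finite sets containing all `u` (resp. `w`) with `T z w ≠ 0`, `S w u ≠ 0`,
  `U u y ≠ 0` (finite by `comp` and `fin_mid`), both sides are the double sum over `A × B`.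
* `kmul (lamf x) (lamf x') = lamf (x * x')`: `∑ᶠ w, x (z w⁻¹) x' (w y⁻¹)` (`MonoidAlgebra.coeff_mul_apply_left` or
  `coeff_mul`), substitution `g = z w⁻¹`.
-/

set_option linter.unusedSectionVars false

open Finset

namespace Pool.Agent.MelS

variable {N Λ : Type} [Group N] [AddCommGroup Λ] [LinearOrder Λ] [IsOrderedAddMonoid Λ]
variable {𝒯 : OrdTower N Λ} {K : Type} [Field K]

theorem n_le (𝒯 : OrdTower N Λ) {i j : ℕ} (hij : i ≤ j) : 𝒯.n j ≤ 𝒯.n i := by
  induction j, hij using Nat.le_induction with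
  | base => exact le_rfl
  | succ j _ ih => exact (𝒯.n_anti j).trans ih

theorem Good.mono {i j : ℕ} (hij : i ≤ j) {T : N → N → K} (h : Good 𝒯 i T) : Good 𝒯 j T :=
  ⟨fun g hg => h.1 g (n_le 𝒯 hij hg), h.2.mono hij⟩

theorem Good.zero (i : ℕ) : Good 𝒯 i (fun _ _ => (0 : K)) :=
  ⟨fun _ _ _ _ => rfl, (GoodRel.eq 𝒯 i).sub (fun _ _ h => absurd rfl h) (fun _ _ _ _ h => absurd rfl h)⟩

theorem Good.add {i : ℕ} {T S : N → N → K} (h : Good 𝒯 i T) (h' : Good 𝒯 i S) : Good 𝒯 i (fun z y => T z y + S z y) := by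
  have hinv : ∀ g ∈ 𝒯.n i, ∀ z y, T (z * g) (y * g) + S (z * g) (y * g) = T z y + S z y := fun g hg z y => by
    rw [h.1 g hg, h'.1 g hg]
  refine ⟨hinv, (h.2.or h'.2).sub (fun z y hne => ?_) (fun g hg z y hne => ?_)⟩
  · by_contra hcon
    push Not at hcon
    exact hne (show T z y + S z y = 0 by rw [hcon.1, hcon.2, add_zero])
  · show T (z * g) (y * g) + S (z * g) (y * g) ≠ 0
    rw [hinv g hg]
    exact hne

theorem Good.neg {i : ℕ} {T : N → N → K} (h : Good 𝒯 i T) : Good 𝒯 i (fun z y => - T z y) := by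
  have hinv : ∀ g ∈ 𝒯.n i, ∀ z y, - T (z * g) (y * g) = - T z y := fun g hg z y => by
    rw [h.1 g hg]
  refine ⟨hinv, h.2.sub (fun z y hne => neg_ne_zero.1 hne) (fun g hg z y hne => ?_)⟩
  show - T (z * g) (y * g) ≠ 0
  rw [hinv g hg]
  exact hne

theorem kone_mul (g z y : N) : (kone (z * g) (y * g) : K) = kone z y := by
  classical
  unfold kone
  simp only [mul_left_inj]

theorem kone_self (z : N) : (kone z z : K) = 1 := by
  unfold kone
  exact if_pos rfl

theorem kone_ne {z y : N} (h : z ≠ y) : (kone z y : K) = 0 := by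
  unfold kone
  exact if_neg h

theorem Good.one (i : ℕ) : Good 𝒯 i (kone : N → N → K) := by
  refine ⟨fun g _ z y => kone_mul g z y, (GoodRel.eq 𝒯 i).sub (fun z y hne => ?_) (fun g _ z y hne => ?_)⟩
  · by_contra hcon
    exact hne (kone_ne hcon)
  · show (kone (z * g) (y * g) : K) ≠ 0
    rw [kone_mul]
    exact hne

theorem lamf_mul_right (x : MonoidAlgebra K N) (g z y : N) : lamf x (z * g) (y * g) = lamf x z y := by
  unfold lamf
  congr 1
  group

theorem Good.lam (i : ℕ) (x : MonoidAlgebra K N) : Good 𝒯 i (lamf x) := by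
  refine ⟨fun g _ z y => lamf_mul_right x g z y,
    (GoodRel.left 𝒯 i (x.coeff.support : Set N) x.coeff.support.finite_toSet).sub (fun z y hne => ?_)
    (fun g _ z y hne => ?_)⟩
  · exact Finsupp.mem_support_iff.2 hne
  · show lamf x (z * g) (y * g) ≠ 0
    rw [lamf_mul_right]
    exact hne

theorem kmul_ne {T S : N → N → K} {z y : N} (h : kmul T S z y ≠ 0) : ∃ w, T z w ≠ 0 ∧ S w y ≠ 0 := by
  by_contra hcon
  push Not at hcon
  refine h ?_
  unfold kmul
  refine (finsum_congr fun w => ?_).trans finsum_zero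
  by_cases hT : T z w = 0
  · rw [hT, zero_mul]
  · rw [hcon w hT, mul_zero]

theorem Good.mul {i : ℕ} {T S : N → N → K} (h : Good 𝒯 i T) (h' : Good 𝒯 i S) : Good 𝒯 i (kmul T S) := by
  have hinv : ∀ g ∈ 𝒯.n i, ∀ z y, kmul T S (z * g) (y * g) = kmul T S z y := by
    intro g hg z y
    unfold kmul
    rw [← finsum_comp_equiv (Equiv.mulRight g)]
    refine finsum_congr fun w => ?_
    show T (z * g) (w * g) * S (w * g) (y * g) = T z w * S w y
    rw [h.1 g hg, h'.1 g hg]
  refine ⟨hinv, (h.2.comp h'.2).sub (fun z y hne => kmul_ne hne) (fun g hg z y hne => ?_)⟩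
  show kmul T S (z * g) (y * g) ≠ 0
  rw [hinv g hg]
  exact hne

theorem kmul_fin {i : ℕ} {T S : N → N → K} (h : Good 𝒯 i T) (h' : Good 𝒯 i S) (z y : N) :
    {w | T z w * S w y ≠ 0}.Finite :=
  (h.2.fin_mid h'.2 z y).subset fun _ hw => ⟨left_ne_zero_of_mul hw, right_ne_zero_of_mul hw⟩

theorem kmul_assoc {i : ℕ} {T S U : N → N → K} (hT : Good 𝒯 i T) (hS : Good 𝒯 i S) (hU : Good 𝒯 i U) :
    kmul (kmul T S) U = kmul T (kmul S U) := by
  classical
  funext z y
  set A := ((hT.2.fin_mid (hS.2.comp hU.2) z y)).toFinset with hA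
  set B := ((hT.2.comp hS.2).fin_mid hU.2 z y).toFinset with hB
  have memA : ∀ {w u}, T z w ≠ 0 → S w u ≠ 0 → U u y ≠ 0 → w ∈ A := fun {w u} h1 h2 h3 =>
    (Set.Finite.mem_toFinset _).2 ⟨h1, u, h2, h3⟩
  have memB : ∀ {w u}, T z w ≠ 0 → S w u ≠ 0 → U u y ≠ 0 → u ∈ B := fun {w u} h1 h2 h3 =>
    (Set.Finite.mem_toFinset _).2 ⟨⟨w, h1, h2⟩, h3⟩
  have h1 : kmul (kmul T S) U z y = ∑ u ∈ B, ∑ w ∈ A, T z w * S w u * U u y := by
    have e1 : kmul (kmul T S) U z y = ∑ u ∈ B, kmul T S z u * U u y := by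
      refine finsum_eq_sum_of_support_subset _ fun u hu => ?_
      have hu' : kmul T S z u * U u y ≠ 0 := hu
      obtain ⟨w, h3, h4⟩ := kmul_ne (left_ne_zero_of_mul hu')
      exact memB h3 h4 (right_ne_zero_of_mul hu')
    rw [e1]
    refine Finset.sum_congr rfl fun u hu => ?_
    have hUu : U u y ≠ 0 := ((Set.Finite.mem_toFinset _).1 hu).2
    rw [← Finset.sum_mul]
    congr 1
    refine finsum_eq_sum_of_support_subset _ fun w hw => ?_
    have hw' : T z w * S w u ≠ 0 := hw
    exact memA (left_ne_zero_of_mul hw') (right_ne_zero_of_mul hw') hUu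
  have h2 : kmul T (kmul S U) z y = ∑ w ∈ A, ∑ u ∈ B, T z w * S w u * U u y := by
    have e1 : kmul T (kmul S U) z y = ∑ w ∈ A, T z w * kmul S U w y := by
      refine finsum_eq_sum_of_support_subset _ fun w hw => ?_
      have hw' : T z w * kmul S U w y ≠ 0 := hw
      obtain ⟨u, h3, h4⟩ := kmul_ne (right_ne_zero_of_mul hw')
      exact memA (left_ne_zero_of_mul hw') h3 h4
    rw [e1]
    refine Finset.sum_congr rfl fun w hw => ?_
    have hTw : T z w ≠ 0 := ((Set.Finite.mem_toFinset _).1 hw).1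
    have e2 : kmul S U w y = ∑ u ∈ B, S w u * U u y := by
      refine finsum_eq_sum_of_support_subset _ fun u hu => ?_
      have hu' : S w u * U u y ≠ 0 := hu
      exact memB hTw (left_ne_zero_of_mul hu') (right_ne_zero_of_mul hu')
    rw [e2, Finset.mul_sum]
    exact Finset.sum_congr rfl fun u _ => (mul_assoc _ _ _).symm
  rw [h1, h2, Finset.sum_comm]

theorem kmul_add {i : ℕ} {T S U : N → N → K} (hT : Good 𝒯 i T) (hS : Good 𝒯 i S) (hU : Good 𝒯 i U) :
    kmul T (fun z y => S z y + U z y) = fun z y => kmul T S z y + kmul T U z y := by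
  funext z y
  show (∑ᶠ w, T z w * (S w y + U w y)) = (∑ᶠ w, T z w * S w y) + ∑ᶠ w, T z w * U w y
  rw [← finsum_add_distrib (kmul_fin hT hS z y) (kmul_fin hT hU z y)]
  exact finsum_congr fun w => mul_add _ _ _

theorem add_kmul {i : ℕ} {T S U : N → N → K} (hT : Good 𝒯 i T) (hS : Good 𝒯 i S) (hU : Good 𝒯 i U) :
    kmul (fun z y => T z y + S z y) U = fun z y => kmul T U z y + kmul S U z y := by
  funext z y
  show (∑ᶠ w, (T z w + S z w) * U w y) = (∑ᶠ w, T z w * U w y) + ∑ᶠ w, S z w * U w y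
  rw [← finsum_add_distrib (kmul_fin hT hU z y) (kmul_fin hS hU z y)]
  exact finsum_congr fun w => add_mul _ _ _

theorem one_kmul (T : N → N → K) : kmul kone T = T := by
  funext z y
  show (∑ᶠ w, kone z w * T w y) = T z y
  rw [finsum_eq_single _ z fun w hw => by rw [kone_ne (Ne.symm hw), zero_mul], kone_self, one_mul]

theorem kmul_one (T : N → N → K) : kmul T kone = T := by
  funext z y
  show (∑ᶠ w, T z w * kone w y) = T z y
  rw [finsum_eq_single _ y fun w hw => by rw [kone_ne hw, mul_zero], kone_self, mul_one]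

theorem zero_kmul (T : N → N → K) : kmul (fun _ _ => 0) T = fun _ _ => 0 := by
  funext z y
  exact (finsum_congr fun w => zero_mul _).trans finsum_zero

theorem kmul_zero (T : N → N → K) : kmul T (fun _ _ => 0) = fun _ _ => 0 := by
  funext z y
  exact (finsum_congr fun w => mul_zero _).trans finsum_zero

theorem lamf_one : lamf (1 : MonoidAlgebra K N) = kone := by
  classical
  funext z y
  unfold lamf
  rw [MonoidAlgebra.one_def, MonoidAlgebra.coeff_single, Finsupp.single_apply]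
  by_cases h : z = y
  · rw [h, kone_self, mul_inv_cancel, if_pos rfl]
  · rw [kone_ne h, if_neg fun e => h (mul_inv_eq_one.1 e.symm)]

/-- The product with the kernel of a left multiplication on the left is a finite sum. -/
theorem lamf_kmul_apply (x : MonoidAlgebra K N) (T : N → N → K) (z y : N) :
    kmul (lamf x) T z y = ∑ g ∈ x.coeff.support, x.coeff g * T (g⁻¹ * z) y := by
  classical
  have h1 : kmul (lamf x) T z y = ∑ᶠ g, x.coeff g * T (g⁻¹ * z) y := by
    unfold kmul
    rw [← finsum_comp_equiv ((Equiv.inv N).trans (Equiv.mulLeft z)) (f := fun g => x.coeff g * T (g⁻¹ * z) y)]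
    refine finsum_congr fun w => ?_
    show x.coeff (z * w⁻¹) * T w y = x.coeff (z * w⁻¹) * T ((z * w⁻¹)⁻¹ * z) y
    rw [show (z * w⁻¹)⁻¹ * z = w by group]
  rw [h1]
  refine finsum_eq_sum_of_support_subset _ fun g hg => ?_
  have hg' : x.coeff g * T (g⁻¹ * z) y ≠ 0 := hg
  exact Finsupp.mem_support_iff.2 (left_ne_zero_of_mul hg')

/-- The product with the kernel of a left multiplication on the right is a finite sum. -/
theorem kmul_lamf_apply (x : MonoidAlgebra K N) (T : N → N → K) (z y : N) :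
    kmul T (lamf x) z y = ∑ g ∈ x.coeff.support, x.coeff g * T z (g * y) := by
  classical
  have h1 : kmul T (lamf x) z y = ∑ᶠ g, x.coeff g * T z (g * y) := by
    unfold kmul
    rw [← finsum_comp_equiv (Equiv.mulRight y⁻¹) (f := fun g => x.coeff g * T z (g * y))]
    refine finsum_congr fun w => ?_
    show T z w * x.coeff (w * y⁻¹) = x.coeff (w * y⁻¹) * T z (w * y⁻¹ * y)
    rw [show w * y⁻¹ * y = w by group, mul_comm]
  rw [h1]
  refine finsum_eq_sum_of_support_subset _ fun g hg => ?_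
  have hg' : x.coeff g * T z (g * y) ≠ 0 := hg
  exact Finsupp.mem_support_iff.2 (left_ne_zero_of_mul hg')

theorem lamf_mul (x x' : MonoidAlgebra K N) : lamf (x * x') = kmul (lamf x) (lamf x') := by
  funext z y
  rw [lamf_kmul_apply]
  unfold lamf
  rw [MonoidAlgebra.coeff_mul_apply_left, Finsupp.sum]
  refine Finset.sum_congr rfl fun g _ => ?_
  rw [mul_assoc]

theorem lamf_add (x x' : MonoidAlgebra K N) : lamf (x + x') = fun z y => lamf x z y + lamf x' z y := by
  funext z y
  unfold lamf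
  rw [MonoidAlgebra.coeff_add, Finsupp.add_apply]

/-- Two kernels have a common level. -/
theorem Ker.common (a b : Ker 𝒯 K) : ∃ i, Good 𝒯 i a.1 ∧ Good 𝒯 i b.1 := by
  obtain ⟨i, hi⟩ := a.2
  obtain ⟨j, hj⟩ := b.2
  exact ⟨max i j, hi.mono (le_max_left _ _), hj.mono (le_max_right _ _)⟩

instance : Add (Ker 𝒯 K) := ⟨fun a b => ⟨fun z y => a.1 z y + b.1 z y, by
  obtain ⟨i, h1, h2⟩ := Ker.common a b
  exact ⟨i, h1.add h2⟩⟩⟩

instance : Zero (Ker 𝒯 K) := ⟨⟨fun _ _ => 0, 0, Good.zero 0⟩⟩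

instance : Neg (Ker 𝒯 K) := ⟨fun a => ⟨fun z y => - a.1 z y, by
  obtain ⟨i, h⟩ := a.2
  exact ⟨i, h.neg⟩⟩⟩

noncomputable instance : One (Ker 𝒯 K) := ⟨⟨kone, 0, Good.one 0⟩⟩

noncomputable instance : Mul (Ker 𝒯 K) := ⟨fun a b => ⟨kmul a.1 b.1, by
  obtain ⟨i, h1, h2⟩ := Ker.common a b
  exact ⟨i, h1.mul h2⟩⟩⟩

noncomputable instance : Ring (Ker 𝒯 K) where
  nsmul := nsmulRec
  zsmul := zsmulRec
  add_assoc a b c := Subtype.ext (by funext z y; exact add_assoc _ _ _)
  zero_add a := Subtype.ext (by funext z y; exact zero_add _)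
  add_zero a := Subtype.ext (by funext z y; exact add_zero _)
  add_comm a b := Subtype.ext (by funext z y; exact add_comm _ _)
  neg_add_cancel a := Subtype.ext (by funext z y; exact neg_add_cancel _)
  mul_assoc a b c := Subtype.ext (by
    obtain ⟨i, h1, h2⟩ := Ker.common a b
    obtain ⟨j, h3⟩ := c.2
    exact kmul_assoc (h1.mono (le_max_left i j)) (h2.mono (le_max_left i j)) (h3.mono (le_max_right i j)))
  one_mul a := Subtype.ext (one_kmul a.1)
  mul_one a := Subtype.ext (kmul_one a.1)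
  left_distrib a b c := Subtype.ext (by
    obtain ⟨i, h1, h2⟩ := Ker.common a b
    obtain ⟨j, h3⟩ := c.2
    exact kmul_add (h1.mono (le_max_left i j)) (h2.mono (le_max_left i j)) (h3.mono (le_max_right i j)))
  right_distrib a b c := Subtype.ext (by
    obtain ⟨i, h1, h2⟩ := Ker.common a b
    obtain ⟨j, h3⟩ := c.2
    exact add_kmul (h1.mono (le_max_left i j)) (h2.mono (le_max_left i j)) (h3.mono (le_max_right i j)))
  zero_mul a := Subtype.ext (zero_kmul a.1)
  mul_zero a := Subtype.ext (kmul_zero a.1)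

theorem Ker.mul_val (a b : Ker 𝒯 K) : (a * b).1 = kmul a.1 b.1 := rfl

theorem Ker.add_val (a b : Ker 𝒯 K) (z y : N) : (a + b).1 z y = a.1 z y + b.1 z y := rfl

theorem Ker.neg_val (a : Ker 𝒯 K) (z y : N) : (-a).1 z y = - a.1 z y := rfl

theorem Ker.zero_val (z y : N) : (0 : Ker 𝒯 K).1 z y = 0 := rfl

theorem Ker.one_val : (1 : Ker 𝒯 K).1 = kone := rfl

/-- The embedding of the group ring. -/
noncomputable def lam (𝒯 : OrdTower N Λ) : MonoidAlgebra K N →+* Ker 𝒯 K where
  toFun x := ⟨lamf x, 0, Good.lam 0 x⟩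
  map_one' := Subtype.ext lamf_one
  map_mul' x y := Subtype.ext (lamf_mul x y)
  map_zero' := Subtype.ext (by funext z y; rfl)
  map_add' x y := Subtype.ext (lamf_add x y)

theorem lam_val (x : MonoidAlgebra K N) : (lam 𝒯 x).1 = lamf x := rfl

theorem lamf_injective : Function.Injective (lamf : MonoidAlgebra K N → N → N → K) := by
  intro x x' h
  refine MonoidAlgebra.ext (Finsupp.ext fun g => ?_)
  have h1 := congrFun (congrFun h g) 1
  unfold lamf at h1
  rwa [inv_one, mul_one] at h1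

end Pool.Agent.MelS
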