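import Pool.Agent.MelD.Emb9
import Pool.Agent.MelS.Fin

/-!
# Dense subgroups with `k` generators are the whole group (module W14, helper95)

`G = OR r`, `r ∈ FreeGroup (Fin k)`, `φ : F_k → F_k` with `r ∈ φ(F_k)`, `H` the image of `φ(F_k)` in `G`.  If `H` is
dense in the profinite topology and `G` is virtually RFRS, then `H = G`.

The matrix `U i j = ∂(φ x_i) / ∂x_j` over `ℤ[G]` is injective on the columns over `κ[Q]`, `Q` a finite quotient and
`κ` a finite field: if `U v = 0`, the crossed homomorphism `c` of `F_k` with `c (x_j) = v_j` vanishes on `φ(F_k)`, in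
particular at `r`, so it is one of `G`; as it is zero on the dense subgroup `H` it is zero.  So `U` is invertible over
`ℤ[G]` by the square matrix theorem, and `x_j - 1 = ∑ i, (U⁻¹) j i (u_i - 1)`: so `x_j` fixes the coset `H` of `G / H`.
-/

open Finset

namespace Pool.Agent.MelS

open Pool.Agent.MelD
open Pool.Agent.MelG (HasRel)

/-- A square matrix over a finite ring which is injective on columns is invertible. -/
theorem isUnit_of_inj {A : Type} [Ring A] [Finite A] {ι : Type} [Fintype ι] [DecidableEq ι] (U : Matrix ι ι A)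
    (h : ∀ v : ι → A, U.mulVec v = 0 → v = 0) : IsUnit U := by
  have hfin : Finite (Matrix ι ι A) := inferInstanceAs (Finite (ι → ι → A))
  have key : ∀ X : Matrix ι ι A, (∀ v : ι → A, X.mulVec v = 0 → v = 0) → ∃ V, X * V = 1 := by
    intro X hX
    have hinj : Function.Injective (fun V : Matrix ι ι A => X * V) := by
      intro V W hVW
      have h1 : X * (V - W) = 0 := by rw [mul_sub, sub_eq_zero]; exact hVW
      rw [← sub_eq_zero]
      ext i j
      have h2 := hX (fun i => (V - W) i j) (by
        funext i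
        exact congrFun (congrFun h1 i) j)
      exact congrFun h2 i
    obtain ⟨V, hV⟩ := (Finite.injective_iff_surjective.mp hinj) 1
    exact ⟨V, hV⟩
  obtain ⟨V, hV⟩ := key U h
  obtain ⟨W, hW⟩ := key V (fun v hv => by
    have h1 : (U * V).mulVec v = v := by rw [hV, Matrix.one_mulVec]
    rw [← h1, ← Matrix.mulVec_mulVec, hv, Matrix.mulVec_zero])
  have h1 : U = W := by
    calc U = U * (V * W) := by rw [hW, mul_one]
      _ = W := by rw [← mul_assoc, hV, one_mul]
  exact ⟨⟨U, V, hV, by rw [h1]; exact hW⟩, rfl⟩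

/-- The Jacobian of a family of words. -/
noncomputable def jac {k : ℕ} {Γ : Type} [Group Γ] (K : Type) [CommRing K] (π : FreeGroup (Fin k) →* Γ)
    (φ : FreeGroup (Fin k) →* FreeGroup (Fin k)) : Matrix (Fin k) (Fin k) (MonoidAlgebra K Γ) :=
  fun i j => fox (fr K π) j (φ (FreeGroup.of i))

theorem jac_map {k : ℕ} {Γ : Type} [Group Γ] {R κ : Type} [CommRing R] [CommRing κ] (f : R →+* κ)
    (M : Subgroup Γ) [M.Normal] (π : FreeGroup (Fin k) →* Γ) (φ : FreeGroup (Fin k) →* FreeGroup (Fin k)) :
    (jac R π φ).map (redR f M) = jac κ ((QuotientGroup.mk' M).comp π) φ := by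
  ext1 i j
  rw [Matrix.map_apply]
  unfold jac
  rw [map_fox]
  congr 1
  apply MonoidHom.ext
  intro w
  show redR f M (MonoidAlgebra.of R Γ (π w)) = MonoidAlgebra.of κ (Γ ⧸ M) (QuotientGroup.mk' M (π w))
  unfold redR mapQ
  simp [MonoidAlgebra.of_apply]

/-- The Jacobian of generators of a dense subgroup is invertible over all finite quotients. -/
theorem jac_finInv {k : ℕ} (r : FreeGroup (Fin k)) (φ : FreeGroup (Fin k) →* FreeGroup (Fin k))
    (w : FreeGroup (Fin k)) (hw : φ w = r)
    (hD : ∀ U : Subgroup (OR r), U.FiniteIndex →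
      (∀ x, PresentedGroup.mk ({r} : Set (FreeGroup (Fin k))) (φ x) ∈ U) → U = ⊤) :
    FinInvR (jac ℤ (PresentedGroup.mk ({r} : Set (FreeGroup (Fin k)))) φ) := by
  intro M hM hMf κ _ _ f _
  rw [jac_map]
  set π : FreeGroup (Fin k) →* OR r ⧸ M := (QuotientGroup.mk' M).comp (PresentedGroup.mk {r}) with hπ
  have hQ : Finite (OR r ⧸ M) := inferInstance
  have hfin : Finite (MonoidAlgebra κ (OR r ⧸ M)) := by
    have h1 : Finite (OR r ⧸ M → κ) := inferInstance
    exact Finite.of_injective (fun x : MonoidAlgebra κ (OR r ⧸ M) => (x.coeff : OR r ⧸ M → κ))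
      (fun x y h => MonoidAlgebra.ext (DFunLike.coe_injective h))
  apply isUnit_of_inj
  intro v hv
  let F : FreeGroup (Fin k) →* MonoidAlgebra κ (OR r ⧸ M) := fr κ π
  -- the crossed homomorphism vanishes on the image of `φ`
  have h1 : ∀ x, coc F v (φ x) = 0 := by
    intro x
    have h2 := coc_unique ((F : FreeGroup (Fin k) →* MonoidAlgebra κ (OR r ⧸ M)).comp φ)
      (fun g => coc F v (φ g)) (fun _ => 0) (fun g h => by
        show coc F v (φ (g * h)) = _
        rw [map_mul, coc_mul]
        rfl) (fun g h => by rw [smul_zero, add_zero]) (fun i => by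
        show coc F v (φ (FreeGroup.of i)) = 0
        rw [coc_eq_sum]
        exact congrFun hv i) x
    exact h2
  have hr : coc F v r = 0 := by
    have h2 := h1 w
    rw [hw] at h2
    exact h2
  have hFr : F r = 1 := by
    show MonoidAlgebra.of κ (OR r ⧸ M) (QuotientGroup.mk' M (PresentedGroup.mk {r} r)) = 1
    have h2 : PresentedGroup.mk ({r} : Set (FreeGroup (Fin k))) r = 1 :=
      PresentedGroup.one_of_mem (Set.mem_singleton r)
    rw [h2, map_one, map_one]
  obtain ⟨θ, hθ⟩ := exists_desc r (aff F v) (by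
    apply Equiv.ext
    intro x
    rw [aff_apply, hr, hFr, one_smul, zero_add]
    rfl)
  have hθ' : ∀ x, θ (PresentedGroup.mk {r} x) = aff F v x := fun x => DFunLike.congr_fun hθ x
  -- the stabilizer of zero
  let U : Subgroup (OR r) :=
    { carrier := {g | θ g 0 = 0}
      mul_mem' := by
        intro a b ha hb
        show θ (a * b) 0 = 0
        rw [map_mul, Equiv.Perm.mul_apply, show θ b 0 = 0 from hb, show θ a 0 = 0 from ha]
      one_mem' := by
        show θ 1 0 = 0
        rw [map_one]
        rfl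
      inv_mem' := by
        intro a ha
        show θ a⁻¹ 0 = 0
        rw [map_inv, Equiv.Perm.inv_def, Equiv.symm_apply_eq]
        exact (show θ a 0 = 0 from ha).symm }
  have hU : U.FiniteIndex := by
    have h2 : θ.ker ≤ U := by
      intro g hg
      show θ g 0 = 0
      rw [MonoidHom.mem_ker.mp hg]
      rfl
    have h3 : θ.ker.FiniteIndex := inferInstance
    exact Subgroup.finiteIndex_of_le h2
  have hUt : U = ⊤ := hD U hU fun x => by
    show θ (PresentedGroup.mk {r} (φ x)) 0 = 0
    rw [hθ', aff_apply, h1, smul_zero, add_zero]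
  funext j
  have h4 : PresentedGroup.mk ({r} : Set (FreeGroup (Fin k))) (FreeGroup.of j) ∈ U := by
    rw [hUt]
    exact Subgroup.mem_top _
  have h5 : θ (PresentedGroup.mk {r} (FreeGroup.of j)) 0 = 0 := h4
  rw [hθ', aff_apply, smul_zero, add_zero, coc_of] at h5
  exact h5

/-- Elements `g` with `g - 1` in the left ideal generated by the `h - 1`, `h ∈ H`, are in `H`. -/
theorem mem_of_ideal {G : Type} [Group G] (H : Subgroup G) {ι : Type} [Fintype ι] (h : ι → G) (hh : ∀ i, h i ∈ H)
    (c : ι → MonoidAlgebra ℤ G) (g : G)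
    (hg : MonoidAlgebra.of ℤ G g - 1 = ∑ i, c i * (MonoidAlgebra.of ℤ G (h i) - 1)) : g ∈ H := by
  classical
  let L : MonoidAlgebra ℤ G → (G ⧸ H → ℤ) := fun x => fun q =>
    (Finsupp.mapDomain (fun y : G => (QuotientGroup.mk y : G ⧸ H)) x.coeff) q
  have hadd : ∀ x y, L (x + y) = L x + L y := by
    intro x y
    funext q
    show (Finsupp.mapDomain _ (x + y).coeff) q = _
    rw [MonoidAlgebra.coeff_add, Finsupp.mapDomain_add]
    rfl
  have hzero : L 0 = 0 := by
    funext q
    show (Finsupp.mapDomain _ (0 : MonoidAlgebra ℤ G).coeff) q = 0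
    rw [MonoidAlgebra.coeff_zero, Finsupp.mapDomain_zero]
    rfl
  have hsum : ∀ (s : Finset ι) (f : ι → MonoidAlgebra ℤ G), L (∑ i ∈ s, f i) = ∑ i ∈ s, L (f i) := by
    intro s f
    induction s using Finset.induction_on with
    | empty => rw [Finset.sum_empty, Finset.sum_empty, hzero]
    | insert a s ha ih => rw [Finset.sum_insert ha, Finset.sum_insert ha, hadd, ih]
  have hsingle : ∀ (y : G) (n : ℤ) (q : G ⧸ H), L (MonoidAlgebra.single y n) q =
      if (QuotientGroup.mk y : G ⧸ H) = q then n else 0 := by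
    intro y n q
    show (Finsupp.mapDomain _ (MonoidAlgebra.single y n).coeff) q = _
    rw [MonoidAlgebra.coeff_single, Finsupp.mapDomain_single, Finsupp.single_apply]
  have hneg : ∀ x, L (-x) = - L x := by
    intro x
    have h1 : L (-x) + L x = 0 := by rw [← hadd, neg_add_cancel, hzero]
    exact eq_neg_of_add_eq_zero_left h1
  have hmul : ∀ (x : MonoidAlgebra ℤ G) (y : G), y ∈ H → L (x * (MonoidAlgebra.of ℤ G y - 1)) = 0 := by
    intro x y hy
    induction x using MonoidAlgebra.induction_linear with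
    | zero => rw [zero_mul, hzero]
    | add a b ha hb => rw [add_mul, hadd, ha, hb, add_zero]
    | single a n =>
      rw [mul_sub, mul_one, MonoidAlgebra.of_apply, MonoidAlgebra.single_mul_single, mul_one, sub_eq_add_neg, hadd,
        hneg]
      funext q
      rw [Pi.add_apply, Pi.neg_apply, hsingle, hsingle]
      have h1 : (QuotientGroup.mk (a * y) : G ⧸ H) = QuotientGroup.mk a := by
        rw [eq_comm, QuotientGroup.eq]
        rw [inv_mul_cancel_left]
        exact hy
      rw [h1]
      exact add_neg_cancel _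
  have h2 : L (MonoidAlgebra.of ℤ G g - 1) = 0 := by
    rw [hg, hsum]
    exact Finset.sum_eq_zero fun i _ => hmul _ _ (hh i)
  have h3 := congrFun h2 (QuotientGroup.mk g)
  rw [sub_eq_add_neg, hadd, hneg, MonoidAlgebra.of_apply, MonoidAlgebra.one_def, Pi.add_apply, Pi.neg_apply,
    hsingle, hsingle, if_pos rfl] at h3
  by_contra hgH
  rw [if_neg (fun h => hgH (by
    rw [QuotientGroup.eq, inv_one, one_mul] at h
    exact h))] at h3
  simp at h3

/-- **Dense subgroups generated by `k` elements are the whole group.** -/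
theorem dense_onto {k : ℕ} (r : FreeGroup (Fin k)) (φ : FreeGroup (Fin k) →* FreeGroup (Fin k))
    (w : FreeGroup (Fin k)) (hw : φ w = r)
    (hD : ∀ U : Subgroup (OR r), U.FiniteIndex →
      (∀ x, PresentedGroup.mk ({r} : Set (FreeGroup (Fin k))) (φ x) ∈ U) → U = ⊤)
    (N : Subgroup (OR r)) (hN : N.Normal) (hNf : N.FiniteIndex) (hR : IsRFRS N) (g : OR r) :
    ∃ x, PresentedGroup.mk ({r} : Set (FreeGroup (Fin k))) (φ x) = g := by
  have : Group.FG (OR r) := fg_OR r
  obtain ⟨u, hu⟩ := vsquareR N hN hNf hR _ (jac_finInv r φ w hw hD)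
  let π := PresentedGroup.mk ({r} : Set (FreeGroup (Fin k)))
  let H : Subgroup (OR r) := (π.comp φ).range
  have h1 : ∀ j, π (FreeGroup.of j) ∈ H := by
    intro j
    refine mem_of_ideal H (fun i => π (φ (FreeGroup.of i))) (fun i => ⟨_, rfl⟩)
      (fun i => (↑u⁻¹ : Matrix (Fin k) (Fin k) (MonoidAlgebra ℤ (OR r))) j i) _ ?_
    have h2 : ∀ i, MonoidAlgebra.of ℤ (OR r) (π (φ (FreeGroup.of i))) - 1 =
        ∑ l, jac ℤ π φ i l * (MonoidAlgebra.of ℤ (OR r) (π (FreeGroup.of l)) - 1) := fun i =>
      fundamental (fr ℤ π) (φ (FreeGroup.of i))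
    simp only [h2, Finset.mul_sum, ← mul_assoc]
    rw [Finset.sum_comm]
    simp only [← Finset.sum_mul]
    have h3 : ∀ l, ∑ i, (↑u⁻¹ : Matrix (Fin k) (Fin k) (MonoidAlgebra ℤ (OR r))) j i * jac ℤ π φ i l =
        if j = l then 1 else 0 := by
      intro l
      have h4 : (↑u⁻¹ : Matrix (Fin k) (Fin k) (MonoidAlgebra ℤ (OR r))) * jac ℤ π φ = 1 := by
        rw [← hu, Units.inv_mul]
      have h5 := congrFun (congrFun h4 j) l
      rw [Matrix.mul_apply, Matrix.one_apply] at h5
      exact h5
    simp only [h3, ite_mul, one_mul, zero_mul, Finset.sum_ite_eq, Finset.mem_univ, if_true]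
  have h2 : ∀ x, π x ∈ H := by
    intro x
    induction x using FreeGroup.induction_on with
    | C1 => rw [map_one]; exact H.one_mem
    | of j => exact h1 j
    | inv_of j h => rw [map_inv]; exact H.inv_mem h
    | mul a b ha hb => rw [map_mul]; exact H.mul_mem ha hb
  obtain ⟨y, rfl⟩ := PresentedGroup.mk_surjective _ g
  obtain ⟨x, hx⟩ := h2 y
  exact ⟨x, hx⟩

end Pool.Agent.MelS
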