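import Pool.Agent.MelS.Onto

/-!
# Dense subgroups in groups of deficiency `d` (helper14)

`G` a finitely presented group, `n` generators, relators `r_1, ..., r_m`, virtually RFRS.

* `dense_onto_rels`: if `Φ : F_n → F_n` is a homomorphism whose image contains all the relators and is dense in the
  profinite topology of `G`, then its image is `G` (`dense_onto` is the case of one relator).
* `dense_free`: if `n = d + m` and the images of `u_1, ..., u_d` generate a dense subgroup of `G`, then `G` is free on
  `u_1, ..., u_d`.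

The matrix with the rows `∂ u_i` and `∂ r_l` is invertible over all finite quotients of `ℤ[G]`, so over `ℤ[G]`.  It
follows that the `u_i` generate `G`.  If `y` is in the kernel of `F_d → G`, then `∂ (y(u)) = ∑ c_l ∂ r_l`, and by the
chain rule `∑ (∂_i y) ∂ u_i - ∑ c_l ∂ r_l = 0`, so all Fox derivatives of `y` vanish in `ℤ[G]`; so all homomorphisms
of the (free) kernel to `ℤ` vanish at `y`, and the kernel is trivial.
-/

open Finset

namespace Pool.Agent.MelS

open Pool.Agent.MelD

namespace DenseFree

/-- The chain rule. -/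
theorem chain {k l : ℕ} {R : Type*} [Ring R] (f : FreeGroup (Fin l) →* R) (φ : FreeGroup (Fin k) →* FreeGroup (Fin l))
    (j : Fin l) (y : FreeGroup (Fin k)) :
    fox f j (φ y) = ∑ i, fox (f.comp φ) i y * fox f j (φ (FreeGroup.of i)) := by
  refine coc_unique (f.comp φ) (fun y => fox f j (φ y))
    (fun y => ∑ i, fox (f.comp φ) i y * fox f j (φ (FreeGroup.of i))) ?_ ?_ ?_ y
  · intro g h
    show fox f j (φ (g * h)) = fox f j (φ g) + f (φ g) • fox f j (φ h)
    rw [map_mul, fox_mul, smul_eq_mul]
  · intro g h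
    simp only [fox_mul, add_mul, sum_add_distrib, smul_eq_mul, mul_sum, mul_assoc]
  · intro i
    simp only [fox_of, ite_mul, one_mul, zero_mul, sum_ite_eq, mem_univ, if_true]

/-- The Fox derivatives of an element of the normal closure of the relators. -/
theorem fox_closure {l : ℕ} {R : Type*} [Ring R] (f : FreeGroup (Fin l) →* R) {m : ℕ} (r : Fin m → FreeGroup (Fin l))
    (hf : ∀ i, f (r i) = 1) (n : FreeGroup (Fin l)) (hn : n ∈ Subgroup.normalClosure (Set.range r)) :
    f n = 1 ∧ ∃ c : Fin m → R, ∀ j, fox f j n = ∑ i, c i * fox f j (r i) := by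
  classical
  have h1 : ∀ g, f g * f g⁻¹ = 1 := fun g => by rw [← map_mul, mul_inv_cancel, map_one]
  unfold Subgroup.normalClosure at hn
  induction hn using Subgroup.closure_induction with
  | mem x hx =>
    rw [Group.mem_conjugatesOfSet_iff] at hx
    obtain ⟨_, ⟨i, rfl⟩, hx⟩ := hx
    rw [isConj_iff] at hx
    obtain ⟨g, rfl⟩ := hx
    have h2 : f (g * r i * g⁻¹) = 1 := by
      rw [map_mul, map_mul, hf, mul_one, h1]
    refine ⟨h2, Pi.single i (f g), fun j => ?_⟩
    have h3 : fox f j (g * g⁻¹) = 0 := by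
      rw [mul_inv_cancel]
      exact coc_one f _
    rw [fox_mul] at h3
    rw [fox_mul, fox_mul, map_mul, hf, mul_one]
    rw [add_right_comm, h3, zero_add, Finset.sum_eq_single i]
    · rw [Pi.single_eq_same]
    · intro b _ hb
      rw [Pi.single_eq_of_ne hb, zero_mul]
    · intro hi
      exact absurd (mem_univ i) hi
  | one =>
    refine ⟨map_one f, 0, fun j => ?_⟩
    rw [Finset.sum_eq_zero fun i _ => by rw [Pi.zero_apply, zero_mul]]
    exact coc_one f _
  | mul x y _ _ hx hy =>
    obtain ⟨hx1, c, hc⟩ := hx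
    obtain ⟨hy1, d, hd⟩ := hy
    refine ⟨by rw [map_mul, hx1, hy1, one_mul], c + d, fun j => ?_⟩
    rw [fox_mul, hx1, one_mul, hc, hd, ← Finset.sum_add_distrib]
    exact Finset.sum_congr rfl fun i _ => by rw [Pi.add_apply, add_mul]
  | inv x _ hx =>
    obtain ⟨hx1, c, hc⟩ := hx
    have h2 : f x⁻¹ = 1 := by
      have h3 := h1 x
      rw [hx1, one_mul] at h3
      exact h3
    refine ⟨h2, -c, fun j => ?_⟩
    have h3 : fox f j x⁻¹ = - (f x⁻¹ • fox f j x) := coc_inv f _ x
    rw [h3, h2, one_smul, hc, ← Finset.sum_neg_distrib]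
    exact Finset.sum_congr rfl fun i _ => by rw [Pi.neg_apply, neg_mul]

/-- An element of the kernel with vanishing Fox derivatives is killed by all homomorphisms of the kernel to the
integers. -/
theorem kill {k : ℕ} {G : Type} [Group G] (π : FreeGroup (Fin k) →* G) (hπ : Function.Surjective π)
    (y : π.ker) (hy : ∀ i, fox (fr ℤ π) i (y : FreeGroup (Fin k)) = 0) (θ : π.ker →* Multiplicative ℤ) : θ y = 1 := by
  classical
  let s : G → FreeGroup (Fin k) := Function.surjInv hπ
  have hs : ∀ g, π (s g) = g := Function.surjInv_eq hπ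
  -- the action on functions
  let act : MonoidAlgebra ℤ G →+* Module.End ℤ (G → ℤ) :=
    (MonoidAlgebra.lift ℤ (Module.End ℤ (G → ℤ)) G
      { toFun := fun x =>
          { toFun := fun v g => v (g * x)
            map_add' := fun _ _ => rfl
            map_smul' := fun _ _ => rfl }
        map_one' := by
          apply LinearMap.ext
          intro v
          funext g
          show v (g * 1) = v g
          rw [mul_one]
        map_mul' := by
          intro a b
          apply LinearMap.ext
          intro v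
          funext g
          show v (g * (a * b)) = v (g * a * b)
          rw [mul_assoc] }).toRingHom
  have hact : ∀ x v g, act (MonoidAlgebra.of ℤ G x) v g = v (g * x) := by
    intro x v g
    show (MonoidAlgebra.lift ℤ (Module.End ℤ (G → ℤ)) G _ (MonoidAlgebra.of ℤ G x)) v g = _
    rw [MonoidAlgebra.lift_of]
    rfl
  have hmem : ∀ g x, s g * x * (s (g * π x))⁻¹ ∈ π.ker := by
    intro g x
    rw [MonoidHom.mem_ker, map_mul, map_mul, map_inv, hs, hs, mul_inv_cancel]
  let c : FreeGroup (Fin k) → (G → ℤ) := fun x g => Multiplicative.toAdd (θ ⟨_, hmem g x⟩)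
  let f : FreeGroup (Fin k) →* Module.End ℤ (G → ℤ) := ((act : MonoidAlgebra ℤ G →* _)).comp (fr ℤ π)
  have hf : ∀ x v g, (f x) v g = v (g * π x) := fun x v g => hact (π x) v g
  have hc : ∀ x x', c (x * x') = c x + f x • c x' := by
    intro x x'
    funext g
    show Multiplicative.toAdd (θ ⟨_, hmem g (x * x')⟩) = Multiplicative.toAdd (θ ⟨_, hmem g x⟩) + (f x) (c x') g
    rw [hf]
    show _ = _ + Multiplicative.toAdd (θ ⟨_, hmem (g * π x) x'⟩)
    rw [← toAdd_mul, ← map_mul]
    congr 2
    apply Subtype.ext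
    show s g * (x * x') * (s (g * π (x * x')))⁻¹ =
      s g * x * (s (g * π x))⁻¹ * (s (g * π x) * x' * (s (g * π x * π x'))⁻¹)
    rw [map_mul π, mul_assoc g]
    group
  have h1 := coc_unique f c (coc f fun j => c (FreeGroup.of j)) hc (coc_mul f _) (fun j => by rw [coc_of])
    (y : FreeGroup (Fin k))
  rw [coc_eq_sum] at h1
  have h2 : ∀ j, fox f j (y : FreeGroup (Fin k)) = 0 := by
    intro j
    have h3 := map_fox act (fr ℤ π) j (y : FreeGroup (Fin k))
    rw [hy, map_zero] at h3
    exact h3.symm
  have h3 : c y = 0 := by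
    rw [h1]
    exact Finset.sum_eq_zero fun j _ => by rw [h2, zero_smul]
  have h4 : Multiplicative.toAdd (θ ⟨_, hmem 1 y⟩) = 0 := congrFun h3 1
  have hs1 : s 1 ∈ π.ker := by rw [MonoidHom.mem_ker, hs]
  have h5 : (⟨_, hmem 1 y⟩ : π.ker) = ⟨s 1, hs1⟩ * y * ⟨s 1, hs1⟩⁻¹ := by
    apply Subtype.ext
    show s 1 * (y : FreeGroup (Fin k)) * (s (1 * π y))⁻¹ = s 1 * y * (s 1)⁻¹
    rw [MonoidHom.mem_ker.mp y.2, mul_one]
  have h6 : θ (⟨s 1, hs1⟩ * y * ⟨s 1, hs1⟩⁻¹) = θ y := by
    rw [map_mul, map_mul, map_inv, mul_right_comm, mul_inv_cancel, one_mul]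
  rw [h5, h6] at h4
  exact Multiplicative.toAdd.injective h4

/-- A homomorphism from a free group onto a group is injective if all Fox derivatives vanish on the kernel. -/
theorem inj_of_fox {k : ℕ} {G : Type} [Group G] (π : FreeGroup (Fin k) →* G) (hπ : Function.Surjective π)
    (h : ∀ y, π y = 1 → ∀ i, fox (fr ℤ π) i y = 0) : Function.Injective π := by
  have hfree : IsFreeGroup π.ker := inferInstance
  have h1 : ∀ (θ : π.ker →* Multiplicative ℤ) y, θ y = 1 := fun θ y => kill π hπ y (h y y.2) θ
  have h2 : IsEmpty (IsFreeGroup.Generators π.ker) := by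
    refine ⟨fun b => ?_⟩
    have h3 := h1 (IsFreeGroup.lift fun _ => Multiplicative.ofAdd (1 : ℤ)) (IsFreeGroup.of b)
    rw [IsFreeGroup.lift_of] at h3
    exact absurd (congrArg Multiplicative.toAdd h3) (by simp)
  rw [injective_iff_map_eq_one]
  intro y hy
  have h3 : (⟨y, hy⟩ : π.ker) = 1 := by
    have e := IsFreeGroup.toFreeGroup π.ker
    apply e.injective
    exact Subsingleton.elim _ _
  exact congrArg Subtype.val h3

/-- A homomorphism of the free group which kills the relators. -/
theorem desc_rels {n : ℕ} (rels : Set (FreeGroup (Fin n))) {M : Type*} [Group M]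
    (f : FreeGroup (Fin n) →* M) (h : ∀ r ∈ rels, f r = 1) :
    ∃ f' : PresentedGroup rels →* M, ∀ x, f' (PresentedGroup.mk rels x) = f x := by
  have h1 : Subgroup.normalClosure rels ≤ f.ker :=
    Subgroup.normalClosure_le_normal (by
      intro x hx
      exact h x hx)
  exact ⟨QuotientGroup.lift (Subgroup.normalClosure rels) f h1, fun _ => rfl⟩

/-- The Jacobian of generators of a dense subgroup is invertible over all finite quotients. -/
theorem jac_finInv_rels {n : ℕ} (rels : Set (FreeGroup (Fin n))) (φ : FreeGroup (Fin n) →* FreeGroup (Fin n))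
    (hw : ∀ r ∈ rels, ∃ w, φ w = r)
    (hD : ∀ U : Subgroup (PresentedGroup rels), U.FiniteIndex → (∀ x, PresentedGroup.mk rels (φ x) ∈ U) → U = ⊤) :
    FinInvR (jac ℤ (PresentedGroup.mk rels) φ) := by
  intro M hM hMf κ _ _ f _
  rw [jac_map]
  set π : FreeGroup (Fin n) →* PresentedGroup rels ⧸ M := (QuotientGroup.mk' M).comp (PresentedGroup.mk rels) with hπ
  have hQ : Finite (PresentedGroup rels ⧸ M) := inferInstance
  have hfin : Finite (MonoidAlgebra κ (PresentedGroup rels ⧸ M)) := by
    have h1 : Finite (PresentedGroup rels ⧸ M → κ) := inferInstance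
    exact Finite.of_injective
      (fun x : MonoidAlgebra κ (PresentedGroup rels ⧸ M) => (x.coeff : PresentedGroup rels ⧸ M → κ))
      (fun x y h => MonoidAlgebra.ext (DFunLike.coe_injective h))
  apply isUnit_of_inj
  intro v hv
  let F : FreeGroup (Fin n) →* MonoidAlgebra κ (PresentedGroup rels ⧸ M) := fr κ π
  -- the crossed homomorphism vanishes on the image of `φ`
  have h1 : ∀ x, coc F v (φ x) = 0 := by
    intro x
    have h2 := coc_unique ((F : FreeGroup (Fin n) →* MonoidAlgebra κ (PresentedGroup rels ⧸ M)).comp φ)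
      (fun g => coc F v (φ g)) (fun _ => 0) (fun g h => by
        show coc F v (φ (g * h)) = _
        rw [map_mul, coc_mul]
        rfl) (fun g h => by rw [smul_zero, add_zero]) (fun i => by
        show coc F v (φ (FreeGroup.of i)) = 0
        rw [coc_eq_sum]
        exact congrFun hv i) x
    exact h2
  obtain ⟨θ, hθ'⟩ := desc_rels rels (aff F v) (by
    intro r hr
    obtain ⟨w, hw⟩ := hw r hr
    have hr0 : coc F v r = 0 := by
      have h2 := h1 w
      rw [hw] at h2
      exact h2
    have hFr : F r = 1 := by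
      show MonoidAlgebra.of κ (PresentedGroup rels ⧸ M) (QuotientGroup.mk' M (PresentedGroup.mk rels r)) = 1
      have h2 : PresentedGroup.mk rels r = 1 := PresentedGroup.one_of_mem hr
      rw [h2, map_one, map_one]
    apply Equiv.ext
    intro x
    rw [aff_apply, hr0, hFr, one_smul, zero_add]
    rfl)
  -- the stabilizer of zero
  let U : Subgroup (PresentedGroup rels) :=
    { carrier := {g | θ g 0 = 0}
      mul_mem' := by
        intro a b ha hb
        show θ (a * b) 0 = 0
        rw [map_mul, Equiv.Perm.mul_apply, show θ b 0 = 0 from hb, show θ a 0 = 0 from ha]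
      one_mem' := by
        show θ 1 0 = 0
        rw [map_one]
        rfl
      inv_mem' := by
        intro a ha
        show θ a⁻¹ 0 = 0
        rw [map_inv, Equiv.Perm.inv_def, Equiv.symm_apply_eq]
        exact (show θ a 0 = 0 from ha).symm }
  have hU : U.FiniteIndex := by
    have h2 : θ.ker ≤ U := by
      intro g hg
      show θ g 0 = 0
      rw [MonoidHom.mem_ker.mp hg]
      rfl
    have h3 : θ.ker.FiniteIndex := inferInstance
    exact Subgroup.finiteIndex_of_le h2
  have hUt : U = ⊤ := hD U hU fun x => by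
    show θ (PresentedGroup.mk rels (φ x)) 0 = 0
    rw [hθ', aff_apply, h1, smul_zero, add_zero]
  funext j
  have h4 : PresentedGroup.mk rels (FreeGroup.of j) ∈ U := by
    rw [hUt]
    exact Subgroup.mem_top _
  have h5 : θ (PresentedGroup.mk rels (FreeGroup.of j)) 0 = 0 := h4
  rw [hθ', aff_apply, smul_zero, add_zero, coc_of] at h5
  exact h5

/-- The homomorphism with image generated by the relators and the image of `φ`. -/
def ext1 {d m : ℕ} (r : Fin m → FreeGroup (Fin (d + m))) (φ : FreeGroup (Fin d) →* FreeGroup (Fin (d + m))) :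
    FreeGroup (Fin (d + m)) →* FreeGroup (Fin (d + m)) :=
  FreeGroup.lift (Fin.addCases (fun i => φ (FreeGroup.of i)) r)

theorem ext1_right {d m : ℕ} (r : Fin m → FreeGroup (Fin (d + m)))
    (φ : FreeGroup (Fin d) →* FreeGroup (Fin (d + m))) (l : Fin m) :
    ext1 r φ (FreeGroup.of (Fin.natAdd d l)) = r l := by
  unfold ext1
  rw [FreeGroup.lift_apply_of, Fin.addCases_right]

theorem ext1_left {d m : ℕ} (r : Fin m → FreeGroup (Fin (d + m)))
    (φ : FreeGroup (Fin d) →* FreeGroup (Fin (d + m))) (i : Fin d) :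
    ext1 r φ (FreeGroup.of (Fin.castAdd m i)) = φ (FreeGroup.of i) := by
  unfold ext1
  rw [FreeGroup.lift_apply_of, Fin.addCases_left]

end DenseFree

open DenseFree

/-- **Dense subgroups whose generators give all relators are the whole group.** -/
theorem dense_onto_rels {n : ℕ} (rels : Set (FreeGroup (Fin n))) (φ : FreeGroup (Fin n) →* FreeGroup (Fin n))
    (hw : ∀ r ∈ rels, ∃ w, φ w = r)
    (hD : ∀ U : Subgroup (PresentedGroup rels), U.FiniteIndex → (∀ x, PresentedGroup.mk rels (φ x) ∈ U) → U = ⊤)
    (N : Subgroup (PresentedGroup rels)) (hN : N.Normal) (hNf : N.FiniteIndex) (hR : IsRFRS N)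
    (g : PresentedGroup rels) : ∃ x, PresentedGroup.mk rels (φ x) = g := by
  have : Group.FG (PresentedGroup rels) := Group.fg_of_surjective (PresentedGroup.mk_surjective rels)
  obtain ⟨u, hu⟩ := vsquareR N hN hNf hR _ (jac_finInv_rels rels φ hw hD)
  let π := PresentedGroup.mk rels
  let H : Subgroup (PresentedGroup rels) := (π.comp φ).range
  have h1 : ∀ j, π (FreeGroup.of j) ∈ H := by
    intro j
    refine mem_of_ideal H (fun i => π (φ (FreeGroup.of i))) (fun i => ⟨_, rfl⟩)
      (fun i => (↑u⁻¹ : Matrix (Fin n) (Fin n) (MonoidAlgebra ℤ (PresentedGroup rels))) j i) _ ?_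
    have h2 : ∀ i, MonoidAlgebra.of ℤ (PresentedGroup rels) (π (φ (FreeGroup.of i))) - 1 =
        ∑ l, jac ℤ π φ i l * (MonoidAlgebra.of ℤ (PresentedGroup rels) (π (FreeGroup.of l)) - 1) := fun i =>
      fundamental (fr ℤ π) (φ (FreeGroup.of i))
    simp only [h2, Finset.mul_sum, ← mul_assoc]
    rw [Finset.sum_comm]
    simp only [← Finset.sum_mul]
    have h3 : ∀ l, ∑ i, (↑u⁻¹ : Matrix (Fin n) (Fin n) (MonoidAlgebra ℤ (PresentedGroup rels))) j i *
        jac ℤ π φ i l = if j = l then 1 else 0 := by
      intro l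
      have h4 : (↑u⁻¹ : Matrix (Fin n) (Fin n) (MonoidAlgebra ℤ (PresentedGroup rels))) * jac ℤ π φ = 1 := by
        rw [← hu, Units.inv_mul]
      have h5 := congrFun (congrFun h4 j) l
      rw [Matrix.mul_apply, Matrix.one_apply] at h5
      exact h5
    simp only [h3, ite_mul, one_mul, zero_mul, Finset.sum_ite_eq, Finset.mem_univ, if_true]
  have h2 : ∀ x, π x ∈ H := by
    intro x
    induction x using FreeGroup.induction_on with
    | C1 => rw [map_one]; exact H.one_mem
    | of j => exact h1 j
    | inv_of j h => rw [map_inv]; exact H.inv_mem h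
    | mul a b ha hb => rw [map_mul]; exact H.mul_mem ha hb
  obtain ⟨y, rfl⟩ := PresentedGroup.mk_surjective _ g
  obtain ⟨x, hx⟩ := h2 y
  exact ⟨x, hx⟩

/-- **A finitely presented virtually RFRS group of deficiency `d` (`d + m` generators, `m` relators), which contains a
profinitely dense subgroup with `d` generators, is free on these generators.** -/
theorem dense_free {d m : ℕ} (r : Fin m → FreeGroup (Fin (d + m)))
    (φ : FreeGroup (Fin d) →* FreeGroup (Fin (d + m)))
    (hD : ∀ U : Subgroup (PresentedGroup (Set.range r)), U.FiniteIndex →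
      (∀ x, PresentedGroup.mk (Set.range r) (φ x) ∈ U) → U = ⊤)
    (N : Subgroup (PresentedGroup (Set.range r))) (hN : N.Normal) (hNf : N.FiniteIndex) (hR : IsRFRS N) :
    Function.Bijective fun x => PresentedGroup.mk (Set.range r) (φ x) := by
  set π := PresentedGroup.mk (Set.range r) with hπ
  have hπr : ∀ l, π (r l) = 1 := fun l => PresentedGroup.one_of_mem (Set.mem_range_self l)
  have hw : ∀ x ∈ Set.range r, ∃ w, ext1 r φ w = x := by
    rintro _ ⟨l, rfl⟩
    exact ⟨_, ext1_right r φ l⟩
  have hD' : ∀ U : Subgroup (PresentedGroup (Set.range r)), U.FiniteIndex →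
      (∀ x, π (ext1 r φ x) ∈ U) → U = ⊤ := by
    intro U hU h
    refine hD U hU fun x => ?_
    induction x using FreeGroup.induction_on with
    | C1 => rw [map_one, map_one]; exact U.one_mem
    | of i => have h1 := h (FreeGroup.of (Fin.castAdd m i)); rw [ext1_left] at h1; exact h1
    | inv_of j h => rw [map_inv, map_inv]; exact U.inv_mem h
    | mul a b ha hb => rw [map_mul, map_mul]; exact U.mul_mem ha hb
  have hsurj : ∀ g, ∃ x, π (φ x) = g := by
    intro g
    obtain ⟨x, hx⟩ := dense_onto_rels (Set.range r) (ext1 r φ) hw hD' N hN hNf hR g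
    have h1 : ∀ x, π (ext1 r φ x) ∈ (π.comp φ).range := by
      intro x
      induction x using FreeGroup.induction_on with
      | C1 => rw [map_one, map_one]; exact Subgroup.one_mem _
      | of j =>
        refine Fin.addCases (fun i => ?_) (fun l => ?_) j
        · rw [ext1_left]; exact ⟨FreeGroup.of i, rfl⟩
        · rw [ext1_right, hπr]; exact Subgroup.one_mem _
      | inv_of j h => rw [map_inv, map_inv]; exact Subgroup.inv_mem _ h
      | mul a b ha hb => rw [map_mul, map_mul]; exact Subgroup.mul_mem _ ha hb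
    obtain ⟨y, hy⟩ := h1 x
    exact ⟨y, hy.trans hx⟩
  refine ⟨?_, hsurj⟩
  have : Group.FG (PresentedGroup (Set.range r)) :=
    Group.fg_of_surjective (PresentedGroup.mk_surjective (Set.range r))
  obtain ⟨u, hu⟩ := vsquareR N hN hNf hR _ (jac_finInv_rels (Set.range r) (ext1 r φ) hw hD')
  refine inj_of_fox (π.comp φ) hsurj fun y hy => ?_
  have h1 : φ y ∈ Subgroup.normalClosure (Set.range r) := by
    rw [← QuotientGroup.eq_one_iff]
    exact hy
  have hfr : ∀ l, fr ℤ π (r l) = 1 := by
    intro l
    show MonoidAlgebra.of ℤ (PresentedGroup (Set.range r)) (π (r l)) = 1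
    rw [hπr, map_one]
  obtain ⟨_, c, hc⟩ := fox_closure (fr ℤ π) r hfr (φ y) h1
  let v : Fin (d + m) → MonoidAlgebra ℤ (PresentedGroup (Set.range r)) :=
    Fin.addCases (fun i => fox (fr ℤ (π.comp φ)) i y) (fun l => - c l)
  have hvl : ∀ i, v (Fin.castAdd m i) = fox (fr ℤ (π.comp φ)) i y := fun i => Fin.addCases_left _
  have hvr : ∀ l, v (Fin.natAdd d l) = - c l := fun l => Fin.addCases_right _
  have h2 : Matrix.vecMul v (jac ℤ π (ext1 r φ)) = 0 := by
    funext j
    show ∑ l, v l * fox (fr ℤ π) j (ext1 r φ (FreeGroup.of l)) = 0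
    rw [Fin.sum_univ_add]
    simp only [hvl, hvr, ext1_left, ext1_right]
    have h3 := chain (fr ℤ π) φ j y
    rw [hc] at h3
    have h4 : (fr ℤ π).comp φ = fr ℤ (π.comp φ) := rfl
    rw [h4] at h3
    rw [← h3, ← Finset.sum_add_distrib]
    exact Finset.sum_eq_zero fun l _ => by rw [neg_mul, add_neg_cancel]
  have h3 : v = 0 := by
    have h4 : Matrix.vecMul (Matrix.vecMul v (jac ℤ π (ext1 r φ)))
        (↑u⁻¹ : Matrix (Fin (d + m)) (Fin (d + m)) (MonoidAlgebra ℤ (PresentedGroup (Set.range r)))) = 0 := by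
      rw [h2, Matrix.zero_vecMul]
    rw [Matrix.vecMul_vecMul, ← hu, Units.mul_inv, Matrix.vecMul_one] at h4
    exact h4
  intro i
  rw [← hvl, h3]
  rfl

end Pool.Agent.MelS
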