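import Pool.Agent.MelS.Ends

/-!
# The dual character takes the values one and minus one; Poincaré duality over the integers

`int_step`: if `n y = ∑ i, D_i v_i` over `ℤ[G]` and `HasH1 (ZMod p) r`, then `n' y = ∑ i, D_i v'_i` with
`p ∤ n'`.

`unit_values`: `χ₀ : F → ℚ` a character with values in the subring `A` such that every element of `A[G]` killed by
`χ₀` is a combination `∑ i, D_i v_i` and `HasH1 A r`: then `χ₀ = ± 1`.  If `p` divides the numerator of
`χ₀ w`, then `y = den w - num` satisfies `n' y = ∑ i, D_i v_i`, `p ∤ n'`: modulo `p` the unit `n' den w` is in the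
right ideal of the `D_i`, contradiction to `not_unimod`.
-/

open Finset Module

namespace Pool.Agent.MelS

open Pool.Agent.MelD (fox OR coc coc_mul coc_of coc_one coc_unique fundamental map_fox fox_mul fox_of
  coc_eq_sum Dual exists_desc)

section

variable {k : ℕ} {r : FreeGroup (Fin k)}

theorem map_frR {R S : Type} [CommRing R] [CommRing S] (φ : R →+* S) (w : FreeGroup (Fin k)) :
    MonoidAlgebra.mapRingHom (OR r) φ (frR R r w) = frR S r w := by
  rw [frR_apply, frR_apply]
  simp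

theorem map_frR_fox {R S : Type} [CommRing R] [CommRing S] (φ : R →+* S) (i : Fin k) (w : FreeGroup (Fin k)) :
    MonoidAlgebra.mapRingHom (OR r) φ (fox (frR R r) i w) = fox (frR S r) i w := by
  rw [map_fox]
  congr 1
  exact MonoidHom.ext fun w => map_frR φ w

theorem mapRH_coeff {G : Type} [Group G] {R S : Type} [CommRing R] [CommRing S] (φ : R →+* S)
    (x : MonoidAlgebra R G) (g : G) : (MonoidAlgebra.mapRingHom G φ x).coeff g = φ (x.coeff g) := by
  rfl

theorem mapRH_inj {G : Type} [Group G] {R S : Type} [CommRing R] [CommRing S] (φ : R →+* S)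
    (hφ : Function.Injective φ) : Function.Injective (MonoidAlgebra.mapRingHom G φ) := by
  intro x y h
  apply MonoidAlgebra.ext
  apply Finsupp.ext
  intro g
  apply hφ
  rw [← mapRH_coeff, ← mapRH_coeff, h]

theorem mapRH_surj {G : Type} [Group G] {R S : Type} [CommRing R] [CommRing S] (φ : R →+* S)
    (hφ : Function.Surjective φ) : Function.Surjective (MonoidAlgebra.mapRingHom G φ) := by
  intro y
  induction y using MonoidAlgebra.induction_linear with
  | zero => exact ⟨0, map_zero _⟩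
  | add a b ha hb =>
    obtain ⟨x, rfl⟩ := ha
    obtain ⟨x', rfl⟩ := hb
    exact ⟨x + x', map_add _ _ _⟩
  | single g c =>
    obtain ⟨c, rfl⟩ := hφ c
    exact ⟨MonoidAlgebra.single g c, by simp⟩

/-- Divisibility in the integral group ring. -/
theorem exists_div {G : Type} [Group G] (p : ℕ) (x : MonoidAlgebra ℤ G)
    (h : MonoidAlgebra.mapRingHom G (Int.castRingHom (ZMod p)) x = 0) : ∃ x' : MonoidAlgebra ℤ G, x = (p : ℤ) • x' := by
  classical
  have h1 : ∀ g, (p : ℤ) ∣ x.coeff g := by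
    intro g
    have h2 := mapRH_coeff (Int.castRingHom (ZMod p)) x g
    rw [h] at h2
    exact (ZMod.intCast_zmod_eq_zero_iff_dvd _ _).1 h2.symm
  choose c hc using h1
  have hfin : {g | x.coeff g ≠ 0 ∧ c g ≠ 0}.Finite :=
    (x.coeff.support.finite_toSet).subset fun g hg => by
      rw [Finset.mem_coe, Finsupp.mem_support_iff]
      exact hg.1
  have hfin' : {g | (if x.coeff g = 0 then 0 else c g) ≠ 0}.Finite := by
    refine hfin.subset fun g hg => ?_
    by_cases h2 : x.coeff g = 0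
    · exact absurd (if_pos h2) hg
    · exact ⟨h2, fun h3 => hg (by rw [if_neg h2, h3])⟩
  refine ⟨MonoidAlgebra.ofCoeff (Finsupp.ofSupportFinite (fun g => if x.coeff g = 0 then 0 else c g) hfin'), ?_⟩
  apply MonoidAlgebra.ext
  apply Finsupp.ext
  intro g
  show x.coeff g = (p : ℤ) * (if x.coeff g = 0 then 0 else c g)
  by_cases h2 : x.coeff g = 0
  · rw [if_pos h2, mul_zero, h2]
  · rw [if_neg h2]
    exact hc g

theorem int_step (p : ℕ) [Fact p.Prime] (hH : HasH1 (ZMod p) r) (y : MonoidAlgebra ℤ (OR r)) (n : ℕ) :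
    0 < n → (∃ v : Fin k → MonoidAlgebra ℤ (OR r), (n : ℤ) • y = ∑ i, fox (frR ℤ r) i r * v i) →
    ∃ n' : ℕ, ¬ p ∣ n' ∧ ∃ v : Fin k → MonoidAlgebra ℤ (OR r), (n' : ℤ) • y = ∑ i, fox (frR ℤ r) i r * v i := by
  induction n using Nat.strong_induction_on with
  | _ n ih =>
    intro hn ⟨v, hv⟩
    by_cases hp : p ∣ n
    · obtain ⟨n₁, rfl⟩ := hp
      have hp1 : 1 < p := (Fact.out : p.Prime).one_lt
      have hn₁ : 0 < n₁ := by
        rcases Nat.eq_zero_or_pos n₁ with h | h
        · rw [h, mul_zero] at hn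
          exact absurd hn (lt_irrefl _)
        · exact h
      refine ih n₁ (by nlinarith) hn₁ ?_
      let ρ := MonoidAlgebra.mapRingHom (OR r) (Int.castRingHom (ZMod p))
      have h1 : ∑ i, fox (frR (ZMod p) r) i r * ρ (v i) = 0 := by
        have h2 := congrArg ρ hv
        rw [map_sum] at h2
        have h3 : ρ (((p * n₁ : ℕ) : ℤ) • y) = 0 := by
          rw [map_zsmul]
          apply MonoidAlgebra.ext
          apply Finsupp.ext
          intro g
          show ((p * n₁ : ℕ) : ℤ) • (ρ y).coeff g = 0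
          rw [zsmul_eq_mul]
          push_cast
          rw [ZMod.natCast_self, zero_mul, zero_mul]
        rw [h3] at h2
        rw [h2]
        refine sum_congr rfl fun i _ => ?_
        rw [map_mul]
        congr 1
        exact (map_frR_fox _ i r).symm
      obtain ⟨q, hq⟩ := hH _ h1
      obtain ⟨q', hq'⟩ := mapRH_surj (G := OR r) (Int.castRingHom (ZMod p)) (ZMod.ringHom_surjective _) q
      have h4 : ∀ i, ∃ v' : MonoidAlgebra ℤ (OR r),
          v i - (frR ℤ r (FreeGroup.of i) - 1) * q' = (p : ℤ) • v' := by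
        intro i
        apply exists_div
        rw [map_sub, map_mul, map_sub, map_one, map_frR, hq', sub_eq_zero]
        exact hq i
      choose v' hv' using h4
      refine ⟨v', ?_⟩
      have h5 : (p : ℤ) • ((n₁ : ℤ) • y) = (p : ℤ) • ∑ i, fox (frR ℤ r) i r * v' i := by
        rw [smul_smul, smul_sum]
        have h6 : (p : ℤ) * (n₁ : ℤ) = ((p * n₁ : ℕ) : ℤ) := by push_cast; rfl
        rw [h6, hv]
        have h7 : ∀ i, (p : ℤ) • (fox (frR ℤ r) i r * v' i) = fox (frR ℤ r) i r * v i -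
            fox (frR ℤ r) i r * (frR ℤ r (FreeGroup.of i) - 1) * q' := by
          intro i
          rw [← mul_smul_comm, ← hv', mul_sub, mul_assoc]
        rw [sum_congr rfl fun i _ => h7 i, sum_sub_distrib, ← sum_mul]
        have h8 := fundamental (frR ℤ r) r
        rw [frR_rel, sub_self] at h8
        rw [← h8, zero_mul, sub_zero]
      have h9 : (p : ℤ) ≠ 0 := by
        have := (Fact.out : p.Prime).ne_zero
        exact_mod_cast this
      apply MonoidAlgebra.ext
      apply Finsupp.ext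
      intro g
      have h10 := congrArg (fun x : MonoidAlgebra ℤ (OR r) => x.coeff g) h5
      have h11 : (p : ℤ) * ((n₁ : ℤ) • y).coeff g = (p : ℤ) * (∑ i, fox (frR ℤ r) i r * v' i).coeff g := h10
      exact mul_left_cancel₀ h9 h11
    · exact ⟨n, hp, v, hv⟩

/-- Common denominators. -/
theorem clear_den {G : Type} [Group G] (x : MonoidAlgebra ℚ G) :
    ∃ n : ℕ, 0 < n ∧ ∃ x' : MonoidAlgebra ℤ G,
      (n : ℚ) • x = MonoidAlgebra.mapRingHom G (Int.castRingHom ℚ) x' := by
  induction x using MonoidAlgebra.induction_linear with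
  | zero => exact ⟨1, one_pos, 0, by rw [map_zero, smul_zero]⟩
  | add a b ha hb =>
    obtain ⟨n, hn, x, hx⟩ := ha
    obtain ⟨n', hn', x', hx'⟩ := hb
    refine ⟨n * n', Nat.mul_pos hn hn', (n' : ℤ) • x + (n : ℤ) • x', ?_⟩
    rw [map_add, map_zsmul, map_zsmul, ← hx, ← hx', smul_add]
    congr 1
    · rw [← Int.cast_smul_eq_zsmul ℚ, smul_smul]
      push_cast
      rw [mul_comm]
    · rw [← Int.cast_smul_eq_zsmul ℚ, smul_smul]
      push_cast
      rfl
  | single g c =>
    refine ⟨c.den, c.den_pos, MonoidAlgebra.single g c.num, ?_⟩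
    have h1 : MonoidAlgebra.mapRingHom G (Int.castRingHom ℚ) (MonoidAlgebra.single g c.num) =
        MonoidAlgebra.single g (c.num : ℚ) := by simp
    rw [h1, MonoidAlgebra.smul_single, smul_eq_mul]
    congr 1
    rw [mul_comm]
    exact Rat.mul_den_eq_num c

theorem clear_dens {G : Type} [Group G] {k : ℕ} (x : Fin k → MonoidAlgebra ℚ G) :
    ∃ n : ℕ, 0 < n ∧ ∃ x' : Fin k → MonoidAlgebra ℤ G,
      ∀ i, (n : ℚ) • x i = MonoidAlgebra.mapRingHom G (Int.castRingHom ℚ) (x' i) := by
  classical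
  choose n hn x' hx' using fun i => clear_den (x i)
  refine ⟨∏ i, n i, Finset.prod_pos fun i _ => hn i, fun i => ((∏ j ∈ univ.erase i, n j : ℕ) : ℤ) • x' i, fun i => ?_⟩
  rw [map_zsmul, ← hx', ← Int.cast_smul_eq_zsmul ℚ, smul_smul, ← Finset.mul_prod_erase univ n (mem_univ i)]
  congr 1
  push_cast
  ring

variable [Infinite (OR r)]

/-- The character takes the values `1` and `-1`. -/
theorem unit_values (χ₀ : FreeGroup (Fin k) →* ℚ) (A : Subalgebra ℤ ℚ) (χ₁ : FreeGroup (Fin k) →* A)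
    (h01 : ∀ w, (χ₁ w : ℚ) = χ₀ w) (hD : Dual r χ₁) (hJ : IsUnit (Jt r χ₁)) (w : FreeGroup (Fin k)) :
    χ₀ w = 1 ∨ χ₀ w = -1 := by
  classical
  have hH1 : HasH1 A r := fun v hv => H1 χ₁ hD hJ v hv
  obtain ⟨χ', hχ'⟩ := exists_desc r χ₁ hD.rel
  have key : ∀ (w : FreeGroup (Fin k)) (p : ℕ), p.Prime → ¬ (p : ℤ) ∣ (χ₀ w).num := by
    intro w p hp hdvd
    have : Fact p.Prime := ⟨hp⟩
    have hHp : HasH1 (ZMod p) r := hasH1_of_hasH1 hH1 (ZMod p)
    -- the element
    let yR : ∀ (R : Type) [CommRing R], MonoidAlgebra R (OR r) := fun R _ =>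
      ((χ₀ w).den : ℤ) • frR R r w - ((χ₀ w).num : ℤ) • 1
    have hyR : ∀ {R S : Type} [CommRing R] [CommRing S] (φ : R →+* S),
        MonoidAlgebra.mapRingHom (OR r) φ (yR R) = yR S := by
      intro R S _ _ φ
      show MonoidAlgebra.mapRingHom (OR r) φ (((χ₀ w).den : ℤ) • frR R r w - ((χ₀ w).num : ℤ) • 1) = _
      rw [map_sub, map_zsmul, map_zsmul, map_one, map_frR]
    have hy0 : MonoidAlgebra.lift A A (OR r) χ' (yR A) = 0 := by
      show MonoidAlgebra.lift A A (OR r) χ' (((χ₀ w).den : ℤ) • frR A r w - ((χ₀ w).num : ℤ) • 1) = 0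
      rw [map_sub, map_zsmul, map_zsmul, map_one, frR_apply, MonoidAlgebra.lift_single, one_smul]
      have h1 : χ' (PresentedGroup.mk {r} w) = χ₁ w := DFunLike.congr_fun hχ' w
      rw [h1]
      apply Subtype.val_injective
      show ((((χ₀ w).den : ℤ) • χ₁ w - ((χ₀ w).num : ℤ) • (1 : A) : A) : ℚ) = ((0 : A) : ℚ)
      push_cast
      rw [h01]
      simp only [zsmul_eq_mul, mul_one, Int.cast_natCast]
      rw [mul_comm, Rat.mul_den_eq_num, sub_self]
    obtain ⟨v, hv⟩ := H2 χ₁ hD hJ χ' hχ' _ hy0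
    let ι : A →+* ℚ := A.val.toRingHom
    obtain ⟨n, hn, v', hv'⟩ := clear_dens fun i => MonoidAlgebra.mapRingHom (OR r) ι (v i)
    have h2 : (n : ℤ) • yR ℤ = ∑ i, fox (frR ℤ r) i r * v' i := by
      apply mapRH_inj (G := OR r) (Int.castRingHom ℚ) Int.cast_injective
      rw [map_zsmul, map_sum, hyR, ← hyR ι, hv, map_sum, ← Int.cast_smul_eq_zsmul ℚ, smul_sum]
      refine sum_congr rfl fun i _ => ?_
      rw [map_mul, map_mul, ← hv', map_frR_fox, map_frR_fox, mul_smul_comm]
      push_cast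
      rfl
    obtain ⟨n', hn', u, hu⟩ := int_step p hHp (yR ℤ) n hn ⟨v', h2⟩
    -- reduction modulo `p`
    let ρ := MonoidAlgebra.mapRingHom (OR r) (Int.castRingHom (ZMod p))
    have h3 : (n' : ℤ) • yR (ZMod p) = ∑ i, fox (frR (ZMod p) r) i r * ρ (u i) := by
      have h4 := congrArg ρ hu
      rw [map_zsmul, map_sum] at h4
      rw [← hyR (Int.castRingHom (ZMod p))]
      refine h4.trans (sum_congr rfl fun i _ => ?_)
      rw [map_mul]
      congr 1
      exact map_frR_fox _ i r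
    have hnum : (((χ₀ w).num : ℤ) : ZMod p) = 0 := (ZMod.intCast_zmod_eq_zero_iff_dvd _ _).2 hdvd
    have hden : ((χ₀ w).den : ZMod p) ≠ 0 := by
      intro h5
      have h6 : p ∣ (χ₀ w).den := (ZMod.natCast_eq_zero_iff _ _).1 h5
      have h7 : p ∣ Nat.gcd (χ₀ w).num.natAbs (χ₀ w).den := Nat.dvd_gcd (Int.natCast_dvd.1 hdvd) h6
      rw [(χ₀ w).reduced] at h7
      exact hp.one_lt.ne' (Nat.dvd_one.1 h7)
    have hn'' : (n' : ZMod p) ≠ 0 := fun h5 => hn' ((ZMod.natCast_eq_zero_iff _ _).1 h5)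
    have h8 : (n' : ℤ) • yR (ZMod p) = ((n' : ZMod p) * ((χ₀ w).den : ZMod p)) • frR (ZMod p) r w := by
      show (n' : ℤ) • (((χ₀ w).den : ℤ) • frR (ZMod p) r w - ((χ₀ w).num : ℤ) • 1) = _
      rw [← Int.cast_smul_eq_zsmul (ZMod p), ← Int.cast_smul_eq_zsmul (ZMod p),
        ← Int.cast_smul_eq_zsmul (ZMod p), hnum, zero_smul, sub_zero, smul_smul]
      push_cast
      rfl
    refine not_unimod hHp (fun i => ((n' : ZMod p) * ((χ₀ w).den : ZMod p))⁻¹ • (ρ (u i) * frR (ZMod p) r w⁻¹)) ?_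
    have h9 : ∀ i, fox (frR (ZMod p) r) i r *
        (((n' : ZMod p) * ((χ₀ w).den : ZMod p))⁻¹ • (ρ (u i) * frR (ZMod p) r w⁻¹)) =
        ((n' : ZMod p) * ((χ₀ w).den : ZMod p))⁻¹ • ((fox (frR (ZMod p) r) i r * ρ (u i)) * frR (ZMod p) r w⁻¹) := by
      intro i
      rw [mul_smul_comm, mul_assoc]
    rw [sum_congr rfl fun i _ => h9 i, ← smul_sum, ← sum_mul, ← h3, h8, smul_mul_assoc, smul_smul,
      inv_mul_cancel₀ (mul_ne_zero hn'' hden), one_smul, ← map_mul, mul_inv_cancel, map_one]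
  have hnat : ∀ w, (χ₀ w).num.natAbs = 1 := by
    intro w
    by_contra hne
    obtain ⟨p, hp, hpd⟩ := Nat.exists_prime_and_dvd hne
    exact key w p hp (Int.natCast_dvd.2 hpd)
  have hne : χ₀ w ≠ 0 := by
    intro h
    have := hnat w
    rw [h] at this
    exact absurd this (by decide)
  have h1 := hnat w
  have h2 := hnat w⁻¹
  have h3 : χ₀ w⁻¹ = (χ₀ w)⁻¹ := by
    apply eq_inv_of_mul_eq_one_left
    rw [← map_mul, inv_mul_cancel, map_one]
  rw [h3] at h2
  have h4 : (χ₀ w).den = 1 := by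
    have h5 : ((χ₀ w)⁻¹).num.natAbs = (χ₀ w).den := by
      rw [Rat.num_inv]
      rw [Int.natAbs_mul]
      rw [Int.natAbs_sign_of_ne_zero]
      · simp
      · exact Rat.num_ne_zero.2 hne
    rw [← h5, h2]
  have h6 : χ₀ w = ((χ₀ w).num : ℚ) := by
    conv_lhs => rw [← Rat.num_div_den (χ₀ w), h4]
    simp
  rcases Int.natAbs_eq_iff.1 h1 with h7 | h7
  · left
    rw [h6, h7]
    norm_num
  · right
    rw [h6, h7]
    norm_num

/-- Poincaré duality from the invertibility of the matrix over the integers. -/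
theorem pd2_of_unit (χ : FreeGroup (Fin k) →* ℤ) (hχ : Dual r χ) (hJ : IsUnit (Jt r χ)) : IsPD2 ℤ (OR r) := by
  classical
  obtain ⟨χ', hχ'⟩ := exists_desc r χ hχ.rel
  have hχw : ∀ w, χ' (PresentedGroup.mk {r} w) = χ w := fun w => DFunLike.congr_fun hχ' w
  -- the twisted inversion
  let θ₀ : OR r →* (MonoidAlgebra ℤ (OR r))ᵐᵒᵖ :=
    { toFun := fun g => MulOpposite.op (χ' g • MonoidAlgebra.single g⁻¹ 1)
      map_one' := by
        rw [map_one, one_smul, inv_one]
        rfl
      map_mul' := fun g h => by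
        rw [← MulOpposite.op_mul]
        congr 1
        rw [map_mul, mul_inv_rev, smul_mul_smul_comm, MonoidAlgebra.single_mul_single, mul_one, mul_comm] }
  let Θ : MonoidAlgebra ℤ (OR r) →ₐ[ℤ] (MonoidAlgebra ℤ (OR r))ᵐᵒᵖ := MonoidAlgebra.lift ℤ _ (OR r) θ₀
  have hΘ : ∀ g c, (Θ (MonoidAlgebra.single g c)).unop = (c * χ' g) • MonoidAlgebra.single g⁻¹ 1 := by
    intro g c
    show (MonoidAlgebra.lift ℤ _ (OR r) θ₀ (MonoidAlgebra.single g c)).unop = _
    rw [MonoidAlgebra.lift_single, MulOpposite.unop_smul]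
    show c • (χ' g • MonoidAlgebra.single g⁻¹ 1) = _
    rw [smul_smul]
  have hfr : ∀ w, (Θ (frR ℤ r w)).unop = χ w • frR ℤ r w⁻¹ := by
    intro w
    rw [frR_apply, hΘ, one_mul, hχw, frR_apply, map_inv]
  have hinv : ∀ q, (Θ (Θ q).unop).unop = q := by
    intro q
    induction q using MonoidAlgebra.induction_linear with
    | zero => rw [map_zero, MulOpposite.unop_zero, map_zero, MulOpposite.unop_zero]
    | add a b ha hb => rw [map_add, MulOpposite.unop_add, map_add, MulOpposite.unop_add, ha, hb]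
    | single g c =>
      have h1 : χ' g * χ' g⁻¹ = 1 := by rw [← map_mul, mul_inv_cancel, map_one]
      rw [hΘ, map_smul, MulOpposite.unop_smul, hΘ, inv_inv, one_mul, smul_smul, mul_assoc, h1, mul_one,
        MonoidAlgebra.smul_single, smul_eq_mul, mul_one]
  have hrho : ∀ j w, rho (frR ℤ r) χ j w =
      - (χ (FreeGroup.of j) • ((Θ (fox (frR ℤ r) j w)).unop * frR ℤ r w)) := by
    intro j w
    refine (right_unique (frR ℤ r) χ (fun w => - (χ (FreeGroup.of j) •
      ((Θ (fox (frR ℤ r) j w)).unop * frR ℤ r w))) (rho (frR ℤ r) χ j) ?_ (rho_mul _ _ _) ?_ w).symm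
    · intro g h
      show - (χ (FreeGroup.of j) • ((Θ (fox (frR ℤ r) j (g * h))).unop * frR ℤ r (g * h))) = _
      rw [fox_mul, map_add, map_mul Θ, MulOpposite.unop_add, MulOpposite.unop_mul, hfr, map_mul (frR ℤ r), add_mul]
      have h1 : (Θ (fox (frR ℤ r) j h)).unop * (χ g • frR ℤ r g⁻¹) * (frR ℤ r g * frR ℤ r h) =
          χ g • ((Θ (fox (frR ℤ r) j h)).unop * frR ℤ r h) := by
        rw [mul_smul_comm, smul_mul_assoc]
        congr 1
        rw [mul_assoc, ← mul_assoc (frR ℤ r g⁻¹), f_inv_mul, one_mul]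
      rw [h1, smul_add, neg_add, neg_mul, smul_mul_assoc, mul_assoc, smul_neg]
      congr 1
      rw [smul_comm]
    · intro l
      show - (χ (FreeGroup.of j) • ((Θ (fox (frR ℤ r) j (FreeGroup.of l)⁻¹)).unop * frR ℤ r (FreeGroup.of l)⁻¹)) = _
      rw [rho_inv_of]
      have h1 : fox (frR ℤ r) j (FreeGroup.of l)⁻¹ = - (frR ℤ r (FreeGroup.of l)⁻¹ * fox (frR ℤ r) j (FreeGroup.of l)) := by
        have h2 := Pool.Agent.MelD.coc_inv (frR ℤ r) (Pi.single j (1 : MonoidAlgebra ℤ (OR r))) (FreeGroup.of l)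
        exact h2
      rw [h1, fox_of]
      by_cases hl : l = j
      · subst hl
        rw [if_pos rfl, mul_one, map_neg, MulOpposite.unop_neg, hfr, neg_mul, smul_neg, neg_neg,
          inv_inv, smul_mul_assoc, smul_smul, f_mul_inv, ← map_mul, mul_inv_cancel, map_one, one_smul]
      · rw [if_neg hl, mul_zero, neg_zero, map_zero, MulOpposite.unop_zero, zero_mul, smul_zero,
          neg_zero]
  have hDX : ∑ j, fox (frR ℤ r) j r * (frR ℤ r (FreeGroup.of j) - 1) = 0 := by
    rw [← fundamental, frR_rel, sub_self]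
  have hDχ : ∀ i, MonoidAlgebra.lift ℤ ℤ (OR r) χ' (fox (frR ℤ r) i r) = 0 := by
    intro i
    show ((MonoidAlgebra.lift ℤ ℤ (OR r) χ' : MonoidAlgebra ℤ (OR r) →ₐ[ℤ] ℤ) : MonoidAlgebra ℤ (OR r) →+* ℤ) _ = 0
    rw [map_fox]
    have h1 : (((MonoidAlgebra.lift ℤ ℤ (OR r) χ' : MonoidAlgebra ℤ (OR r) →ₐ[ℤ] ℤ) :
        MonoidAlgebra ℤ (OR r) →+* ℤ) : MonoidAlgebra ℤ (OR r) →* ℤ).comp (frR ℤ r) = χ := by
      refine MonoidHom.ext fun w => ?_
      show MonoidAlgebra.lift ℤ ℤ (OR r) χ' (frR ℤ r w) = χ w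
      rw [frR_apply, MonoidAlgebra.lift_single, one_smul, hχw]
    rw [h1]
    exact hχ i
  refine isPD2_of (fun j => frR ℤ r (FreeGroup.of j) - 1) (fun j => fox (frR ℤ r) j r) ?_ ?_ ?_ ?_ ?_
    (MonoidAlgebra.lift ℤ ℤ (OR r) χ').toLinearMap ?_ ?_
  · intro q hq
    have h1 : ∀ j, rho (frR ℤ r) χ j r * (Θ q).unop = 0 := by
      intro j
      rw [hrho, frR_rel, mul_one, neg_mul, smul_mul_assoc]
      have h2 := congrArg (fun x => (Θ x).unop) (hq j)
      rw [map_mul, MulOpposite.unop_mul, map_zero, MulOpposite.unop_zero] at h2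
      rw [h2, smul_zero, neg_zero]
    obtain ⟨⟨J, U, hJU, hUJ⟩, hJ'⟩ := hJ
    have hJ'' : J = Jt r χ := hJ'
    subst hJ''
    have h2 : ∀ i, (frR ℤ r (FreeGroup.of i) - 1) * (Θ q).unop = 0 := by
      intro i
      have h3 : ∑ j, U i j * (∑ l, Jt r χ j l * ((frR ℤ r (FreeGroup.of l) - 1) * (Θ q).unop)) = 0 := by
        refine sum_eq_zero fun j _ => ?_
        have h4 : ∑ l, Jt r χ j l * ((frR ℤ r (FreeGroup.of l) - 1) * (Θ q).unop) =
            rho (frR ℤ r) χ j r * (Θ q).unop := by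
          rw [← JX_of_dual (frR ℤ r) χ hχ j, sum_mul]
          exact sum_congr rfl fun l _ => (mul_assoc _ _ _).symm
        rw [h4, h1, mul_zero]
      simp only [mul_sum, ← mul_assoc] at h3
      rw [sum_comm] at h3
      simp only [← sum_mul] at h3
      have h4 : ∀ l, ∑ j, U i j * Jt r χ j l = if i = l then 1 else 0 := by
        intro l
        rw [← Matrix.mul_apply, hUJ, Matrix.one_apply]
      simp only [h4, ite_mul, one_mul, zero_mul, sum_ite_eq, mem_univ, if_true] at h3
      exact h3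
    have h5 := ker_X _ h2
    have h6 := hinv q
    rw [h5, map_zero, MulOpposite.unop_zero] at h6
    exact h6.symm
  · intro v
    constructor
    · intro hv
      exact mid_left r v hv
    · rintro ⟨q, hq⟩
      have h1 : ∀ j, v j * (frR ℤ r (FreeGroup.of j) - 1) =
          q * (fox (frR ℤ r) j r * (frR ℤ r (FreeGroup.of j) - 1)) := fun j => by rw [hq j, mul_assoc]
      rw [sum_congr rfl fun j _ => h1 j, ← mul_sum, hDX, mul_zero]
  · intro w
    constructor
    · intro hw
      have h1 : ∀ w : MonoidAlgebra ℤ (OR r), ∃ v : Fin k → MonoidAlgebra ℤ (OR r),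
          w - algebraMap ℤ _ (augR ℤ (OR r) w) = ∑ j, v j * (frR ℤ r (FreeGroup.of j) - 1) := by
        intro w
        induction w using MonoidAlgebra.induction_linear with
        | zero => exact ⟨0, by simp⟩
        | add a b ha hb =>
          obtain ⟨s, hs⟩ := ha
          obtain ⟨t, ht⟩ := hb
          refine ⟨s + t, ?_⟩
          simp only [Pi.add_apply, add_mul, sum_add_distrib, ← hs, ← ht, map_add]
          abel
        | single g c =>
          obtain ⟨w, rfl⟩ := PresentedGroup.mk_surjective _ g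
          refine ⟨fun j => c • fox (frR ℤ r) j w, ?_⟩
          simp only [smul_mul_assoc, ← smul_sum]
          rw [← fundamental, augR_single, smul_sub]
          have h3 : c • frR ℤ r w = MonoidAlgebra.single (PresentedGroup.mk ({r} : Set (FreeGroup (Fin k))) w) c := by
            rw [frR_apply, MonoidAlgebra.smul_single, smul_eq_mul, mul_one]
          rw [h3, Algebra.algebraMap_eq_smul_one]
      obtain ⟨v, hv⟩ := h1 w
      rw [hw, map_zero, sub_zero] at hv
      exact ⟨v, hv⟩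
    · rintro ⟨v, rfl⟩
      rw [map_sum]
      refine sum_eq_zero fun j _ => ?_
      rw [map_mul, map_sub, map_one, frR_apply, augR_single, sub_self, mul_zero]
  · intro q hq
    exact ker_X q hq
  · intro v hv
    exact H1 χ hχ hJ v hv
  · intro c
    refine ⟨MonoidAlgebra.single 1 c, ?_⟩
    show MonoidAlgebra.lift ℤ ℤ (OR r) χ' (MonoidAlgebra.single 1 c) = c
    rw [MonoidAlgebra.lift_single, map_one, smul_eq_mul, mul_one]
  · intro w
    constructor
    · intro hw
      exact H2 χ hχ hJ χ' hχ' w hw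
    · rintro ⟨v, rfl⟩
      show MonoidAlgebra.lift ℤ ℤ (OR r) χ' _ = 0
      rw [map_sum]
      refine sum_eq_zero fun j _ => ?_
      rw [map_mul, hDχ, zero_mul]

end

end Pool.Agent.MelS
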