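import Pool.Agent.MelS.PD

/-!
# Poincaré duality groups: transport along isomorphisms
-/

open Finset

namespace Pool.Agent.MelS

section

variable {A B : Type} [Ring A] [Ring B] (φ : B ≃+* A)

/-- Restriction of scalars along a ring isomorphism. -/
def Res (_ : B ≃+* A) (M : Type) : Type := M

instance (M : Type) [i : AddCommGroup M] : AddCommGroup (Res φ M) := i

instance (M : Type) [AddCommGroup M] [Module A M] : Module B (Res φ M) :=
  Module.compHom M (φ : B →+* A)

variable {M N : Type} [AddCommGroup M] [AddCommGroup N] [Module A M] [Module A N]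

/-- An element of the module as an element of the restriction. -/
def up (x : M) : Res φ M := x

/-- An element of the restriction as an element of the module. -/
def dn (x : Res φ M) : M := x

theorem res_smul (b : B) (x : M) : b • up φ x = up φ (φ b • x) := rfl

theorem res_smul' (b : B) (x : Res φ M) : dn φ (b • x) = φ b • dn φ x := rfl

/-- The same linear map. -/
def resLin (f : M →ₗ[A] N) : Res φ M →ₗ[B] Res φ N where
  toFun x := f x
  map_add' x y := f.map_add x y
  map_smul' b x := f.map_smul (φ b) x

theorem resLin_apply (f : M →ₗ[A] N) (x : M) : resLin φ f x = f x := rfl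

/-- Linear forms. -/
def formA (f : Res φ M →ₗ[B] B) : M →ₗ[A] A where
  toFun x := φ (f x)
  map_add' x y := by
    rw [← map_add]
    exact congrArg φ (f.map_add x y)
  map_smul' a x := by
    have h : f (φ.symm a • up φ x) = φ.symm a * f (up φ x) := f.map_smul _ _
    rw [res_smul, φ.apply_symm_apply] at h
    show φ (f (up φ (a • x))) = a * φ (f (up φ x))
    rw [h, map_mul, φ.apply_symm_apply]

/-- Linear forms. -/
def formB (f : M →ₗ[A] A) : Res φ M →ₗ[B] B where
  toFun x := φ.symm (f x)
  map_add' x y := by
    rw [← map_add]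
    exact congrArg φ.symm (f.map_add x y)
  map_smul' b x := by
    show φ.symm (f (φ b • dn φ x)) = b * φ.symm (f (dn φ x))
    rw [f.map_smul, smul_eq_mul, map_mul, φ.symm_apply_apply]

theorem formA_apply (f : Res φ M →ₗ[B] B) (x : M) : formA φ f x = φ (f x) := rfl

theorem formB_apply (f : M →ₗ[A] A) (x : M) : formB φ f x = φ.symm (f x) := rfl

theorem res_free (h : Module.Free A M) : Module.Free B (Res φ M) := by
  have i1 : RingHomInvPair (φ.symm : A →+* B) (φ : B →+* A) :=
    ⟨by ext x; simp, by ext x; simp⟩
  have i2 : RingHomInvPair (φ : B →+* A) (φ.symm : A →+* B) :=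
    ⟨by ext x; simp, by ext x; simp⟩
  let e : M ≃ₛₗ[(φ.symm : A →+* B)] Res φ M :=
    { toFun := fun x => x
      invFun := fun x => x
      left_inv := fun x => rfl
      right_inv := fun x => rfl
      map_add' := fun x y => rfl
      map_smul' := fun a x => by
        show (a • x : M) = (φ (φ.symm a) • x : M)
        rw [φ.apply_symm_apply] }
  exact Module.Free.of_equiv e

theorem res_span (S : Set M) (x : M) (hx : x ∈ Submodule.span A S) :
    up φ x ∈ Submodule.span B (up φ '' S) := by
  induction hx using Submodule.span_induction with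
  | mem x hx => exact Submodule.subset_span ⟨x, hx, rfl⟩
  | zero => exact Submodule.zero_mem _
  | add x y _ _ hx hy => exact Submodule.add_mem _ hx hy
  | smul a x _ hx =>
    have := Submodule.smul_mem _ (φ.symm a) hx
    rw [res_smul, φ.apply_symm_apply] at this
    exact this

theorem res_finite (h : Module.Finite A M) : Module.Finite B (Res φ M) := by
  classical
  obtain ⟨S, hS⟩ := h.fg_top
  refine ⟨⟨S.image (up φ), ?_⟩⟩
  rw [eq_top_iff]
  intro x _
  rw [Finset.coe_image]
  exact res_span φ (S : Set M) (dn φ x) (by rw [hS]; exact Submodule.mem_top)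

end

/-- Being a Poincaré duality group depends only on the isomorphism class of the group. -/
theorem IsPD2.of_equiv {R G G' : Type} [CommRing R] [Group G] [Group G'] (e : G ≃* G')
    (h : IsPD2 R G) : IsPD2 R G' := by
  obtain ⟨P₀, P₁, P₂, i0, i1, i2, m0, m1, m2, d₂, d₁, ε, ⟨f0, f1, f2⟩, ⟨g0, g1, g2⟩, he, hinj, hex2,
    hex1, hsur, H0, H1, θ, hθ, H2⟩ := h
  let φa : MonoidAlgebra R G' ≃ₐ[R] MonoidAlgebra R G := MonoidAlgebra.domCongr R R e.symm
  let φ : MonoidAlgebra R G' ≃+* MonoidAlgebra R G := φa.toRingEquiv
  have hφR : ∀ (c : R) (x : MonoidAlgebra R G'), φ (c • x) = c • φ x := fun c x => map_smul φa c x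
  refine ⟨Res φ P₀, Res φ P₁, Res φ P₂, inferInstance, inferInstance, inferInstance, inferInstance,
    inferInstance, inferInstance, resLin φ d₂, resLin φ d₁, ε,
    ⟨res_free φ f0, res_free φ f1, res_free φ f2⟩,
    ⟨res_finite φ g0, res_finite φ g1, res_finite φ g2⟩, ?_, hinj, hex2, hex1, hsur, ?_, ?_, ?_⟩
  · intro g c p
    have h1 : φ (MonoidAlgebra.single g c) = MonoidAlgebra.single (e.symm g) c :=
      MonoidAlgebra.domCongr_single (R := R) (A := R) e.symm g c
    show ε (φ (MonoidAlgebra.single g c) • dn φ p) = c * ε (dn φ p)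
    rw [h1, he]
  · intro f hf
    have h1 : formA φ f = 0 := by
      refine H0 _ (LinearMap.ext fun x => ?_)
      have := LinearMap.congr_fun hf x
      show φ (f (d₁ x)) = 0
      rw [show f (d₁ x) = 0 from this, map_zero]
    refine LinearMap.ext fun x => ?_
    have := LinearMap.congr_fun h1 x
    exact φ.map_eq_zero_iff.1 this
  · intro f hf
    obtain ⟨g, hg⟩ := H1 (formA φ f) (LinearMap.ext fun x => by
      have := LinearMap.congr_fun hf x
      show φ (f (d₂ x)) = 0
      rw [show f (d₂ x) = 0 from this, map_zero])
    refine ⟨formB φ g, LinearMap.ext fun x => ?_⟩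
    have := LinearMap.congr_fun hg x
    show f x = φ.symm (g (d₁ x))
    rw [φ.eq_symm_apply]
    exact this
  · let θ' : (Res φ P₂ →ₗ[MonoidAlgebra R G'] MonoidAlgebra R G') →ₗ[R] R :=
      { toFun := fun f => θ (formA φ f)
        map_add' := fun f g => by
          rw [← map_add]
          congr 1
          refine LinearMap.ext fun x => ?_
          show φ (f x + g x) = φ (f x) + φ (g x)
          rw [map_add]
        map_smul' := fun c f => by
          rw [RingHom.id_apply, ← map_smul]
          congr 1
          refine LinearMap.ext fun x => ?_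
          show φ (c • f x) = c • φ (f x)
          rw [hφR] }
    refine ⟨θ', ?_, ?_⟩
    · intro c
      obtain ⟨f, hf⟩ := hθ c
      refine ⟨formB φ f, ?_⟩
      show θ (formA φ (formB φ f)) = c
      rw [← hf]
      congr 1
      refine LinearMap.ext fun x => ?_
      exact φ.apply_symm_apply _
    · intro f
      show θ (formA φ f) = 0 ↔ _
      rw [H2]
      constructor
      · rintro ⟨g, hg⟩
        refine ⟨formB φ g, LinearMap.ext fun x => ?_⟩
        have := LinearMap.congr_fun hg x
        show f x = φ.symm (g (d₂ x))
        rw [φ.eq_symm_apply]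
        exact this
      · rintro ⟨g, rfl⟩
        exact ⟨formA φ g, rfl⟩

end Pool.Agent.MelS
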