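import Pool.Agent.MelS.Def

/-!
# RFRS groups: invariance under isomorphisms
-/

set_option autoImplicit false

namespace Pool.Agent.MelS

theorem IsRFRS.of_equiv {N N2 : Type} [Group N] [Group N2] (e : N ≃* N2) (h : IsRFRS N) :
    IsRFRS N2 := by
  obtain ⟨c, h0, hN, hF, hle, hr, hi⟩ := h
  refine ⟨fun i => (c i).comap e.symm.toMonoidHom, ?_, ?_, ?_, ?_, ?_, ?_⟩
  · beta_reduce
    rw [h0, Subgroup.comap_top]
  · intro i
    have := hN i
    infer_instance
  · intro i
    constructor
    rw [Subgroup.index_comap_of_surjective _ e.symm.surjective]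
    exact (hF i).index_ne_zero
  · intro i
    exact Subgroup.comap_mono (hle i)
  · intro i g hg m hm hgm
    refine hr i (e.symm g) hg m hm ?_
    have h1 : e.symm.toMonoidHom (g ^ m) ∈ (⁅(c i).comap e.symm.toMonoidHom,
        (c i).comap e.symm.toMonoidHom⁆).map e.symm.toMonoidHom := Subgroup.mem_map_of_mem _ hgm
    rw [Subgroup.map_commutator] at h1
    have h2 := Subgroup.commutator_mono (Subgroup.map_comap_le e.symm.toMonoidHom (c i))
      (Subgroup.map_comap_le e.symm.toMonoidHom (c i)) h1
    rw [map_pow] at h2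
    exact h2
  · intro g hg
    have := hi (e.symm g) fun i => hg i
    rw [← e.apply_symm_apply g, this, map_one]

theorem vrfrs_of_equiv {G G2 : Type} [Group G] [Group G2] (e : G ≃* G2)
    (h : ∃ N : Subgroup G, N.Normal ∧ N.FiniteIndex ∧ IsRFRS N) :
    ∃ N : Subgroup G2, N.Normal ∧ N.FiniteIndex ∧ IsRFRS N := by
  obtain ⟨N, hN, hF, hR⟩ := h
  refine ⟨N.map e.toMonoidHom, hN.map _ e.surjective, ?_, hR.of_equiv (e.subgroupMap N)⟩
  constructor
  rw [Subgroup.index_map_of_bijective e.bijective]
  exact hF.index_ne_zero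

end Pool.Agent.MelS
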