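import Pool.Agent.MelS.Def

/-!
# Calculus of good relations (module W2)

All proofs are elementary.  Notation: `deg ρ = {H i z - H i y : ρ z y}`.

* `fin_deg`: if `ρ z y`, `ρ z' y` and `H i z = H i z'` then `z⁻¹ z' ∈ k i` (`H_eq`), so the set is empty or
  contained in one fibre, finite by the second part of `GoodRel`.
* `comp`: invariance is clear.  Degrees: `H z - H y = (H z - H w) + (H w - H y)`, so `deg` is contained in
  `deg ρ + deg σ`, which is PWO (`Set.IsPWO.add`, `Set.IsPWO.mono`).  Fibres: fix `z, y`, put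
  `a = H z - H y`; for `z'` in the fibre with middle element `w`, `H z' = H z`, so
  `(H z' - H w) + (H w - H y) = a` and `H w - H y` runs through a finite set (the set of pairs in
  `deg ρ × deg σ` with sum `a` is finite: `Set.IsPWO` antidiagonals, e.g. `Finset.addAntidiagonal` or
  `Set.AddAntidiagonal.finite_of_isPWO`); for each value there are finitely many `w` (`fin_deg` for `σ`) and
  for each `w` finitely many `z'` (fibres of `ρ`).
* `fin_mid`: the same argument.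
* `mono`: enough for `j = i + 1`.  Invariance: `n (i+1) ≤ n i`.  Fibres: `k (i+1) ≤ k i`.  Degrees: let `t` be
  the map of `H_mono i`; `t` maps the degrees of level `i+1` to the degrees of level `i`.
  (1) For each `a` only finitely many degrees `b` of level `i+1` of pairs of `ρ` have `t b = a`: choose
  representatives `y_c` of the finite set `N / n i` (left cosets) and representatives `h_d` of the finite set
  `n i / n (i+1)` [or simply: representatives `s` of `N / n (i+1)`, finite]; if `ρ z y` with `H i z - H i y = a`,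
  write `y = s h` with `h ∈ n (i+1) ≤ n i`, then `ρ (z h⁻¹) s`, `H i (z h⁻¹) - H i s = a` (`H_mul i`), so
  `z h⁻¹` is in a finite set depending on `s` only (`fin_deg`), and the degree of level `i+1` of `(z, y)` is
  that of `(z h⁻¹, s)` (`H_mul (i+1)`).
  (2) General lemma: `t : Λ → Λ` monotone, `D ⊆ Λ`, `t '' D` PWO and all `D ∩ t ⁻¹' {a}` finite, then `D` is
  PWO: given a sequence in `D`, pass to a subsequence with `t` of it monotone
  (`Set.IsPWO.exists_monotone_subseq`); if `t (f m) < t (f n)` for some `m < n` then `f m < f n` (as `t` is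
  monotone and the order is total); otherwise `t ∘ f` is constant, so `f` takes values in a finite set, and
  some value is taken twice.
* `left`: `z y⁻¹ ∈ S`, `S` finite: fibres: `z' ∈ S y`.  Degrees: `H (g y) - H y` with `y = s h`, `h ∈ n i`, `s` one of
  the finitely many representatives, is `H (g s) - H s`: finite, so PWO (`Set.Finite.isPWO`).
-/

open Finset

namespace Pool.Agent.MelS

variable {N Λ : Type} [Group N] [AddCommGroup Λ] [LinearOrder Λ] [IsOrderedAddMonoid Λ]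
variable {𝒯 : OrdTower N Λ}

theorem GoodRel.fin_deg {i : ℕ} {ρ : N → N → Prop} (h : GoodRel 𝒯 i ρ) (y : N) (a : Λ) :
    {z | ρ z y ∧ 𝒯.H i z - 𝒯.H i y = a}.Finite := by
  rcases Set.eq_empty_or_nonempty {z | ρ z y ∧ 𝒯.H i z - 𝒯.H i y = a} with h0 | ⟨z0, h1, h2⟩
  · rw [h0]
    exact Set.finite_empty
  · refine (h.2.1 z0 y).subset ?_
    rintro z ⟨h3, h4⟩
    refine ⟨h3, (𝒯.H_eq i z0 z).1 ?_⟩
    have h5 : 𝒯.H i z0 - 𝒯.H i y = 𝒯.H i z - 𝒯.H i y := h2.trans h4.symm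
    exact sub_left_injective h5

theorem GoodRel.or {i : ℕ} {ρ σ : N → N → Prop} (h : GoodRel 𝒯 i ρ) (h' : GoodRel 𝒯 i σ) :
    GoodRel 𝒯 i (fun z y => ρ z y ∨ σ z y) := by
  refine ⟨fun g hg z y hzy => hzy.imp (h.1 g hg z y) (h'.1 g hg z y), fun z y => ?_, ?_⟩
  · refine ((h.2.1 z y).union (h'.2.1 z y)).subset ?_
    rintro z' ⟨h1 | h1, h2⟩
    · exact Or.inl ⟨h1, h2⟩
    · exact Or.inr ⟨h1, h2⟩
  · refine (h.2.2.union h'.2.2).mono ?_
    rintro a ⟨z, y, h1 | h1, h2⟩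
    · exact Or.inl ⟨z, y, h1, h2⟩
    · exact Or.inr ⟨z, y, h1, h2⟩

theorem GoodRel.sub {i : ℕ} {ρ σ : N → N → Prop} (h : GoodRel 𝒯 i σ) (hs : ∀ z y, ρ z y → σ z y)
    (hi : ∀ h ∈ 𝒯.n i, ∀ z y, ρ z y → ρ (z * h) (y * h)) : GoodRel 𝒯 i ρ := by
  refine ⟨hi, fun z y => (h.2.1 z y).subset fun z' h1 => ⟨hs z' y h1.1, h1.2⟩, h.2.2.mono ?_⟩
  rintro a ⟨z, y, h1, h2⟩
  exact ⟨z, y, hs z y h1, h2⟩

/-- the possible middle elements, total degree `a` -/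
theorem GoodRel.fin_aux {i : ℕ} {ρ σ : N → N → Prop} (h : GoodRel 𝒯 i ρ) (h' : GoodRel 𝒯 i σ) (y : N) (a : Λ) :
    {w | σ w y ∧ ∃ z w' : N, ρ z w' ∧ (𝒯.H i z - 𝒯.H i w') + (𝒯.H i w - 𝒯.H i y) = a}.Finite := by
  have h1 := Set.AddAntidiagonal.finite_of_isPWO h.2.2 h'.2.2 a
  have h2 := h1.image Prod.snd
  refine (h2.biUnion fun q _ => h'.fin_deg y q).subset ?_
  rintro w ⟨h3, z, w', h4, h5⟩
  refine Set.mem_biUnion (x := 𝒯.H i w - 𝒯.H i y) ?_ ⟨h3, rfl⟩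
  exact ⟨(𝒯.H i z - 𝒯.H i w', 𝒯.H i w - 𝒯.H i y), ⟨⟨z, w', h4, rfl⟩, ⟨w, y, h3, rfl⟩, h5⟩, rfl⟩

/-- The middle elements are finite in number. -/
theorem GoodRel.fin_mid {i : ℕ} {ρ σ : N → N → Prop} (h : GoodRel 𝒯 i ρ) (h' : GoodRel 𝒯 i σ) (z y : N) :
    {w | ρ z w ∧ σ w y}.Finite := by
  refine (h.fin_aux h' y (𝒯.H i z - 𝒯.H i y)).subset ?_
  rintro w ⟨h1, h2⟩
  exact ⟨h2, z, w, h1, by abel⟩

theorem GoodRel.comp {i : ℕ} {ρ σ : N → N → Prop} (h : GoodRel 𝒯 i ρ) (h' : GoodRel 𝒯 i σ) :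
    GoodRel 𝒯 i (fun z y => ∃ w, ρ z w ∧ σ w y) := by
  refine ⟨?_, fun z y => ?_, ?_⟩
  · rintro g hg z y ⟨w, h1, h2⟩
    exact ⟨w * g, h.1 g hg z w h1, h'.1 g hg w y h2⟩
  · refine ((h.fin_aux h' y (𝒯.H i z - 𝒯.H i y)).biUnion fun w _ => h.2.1 z w).subset ?_
    rintro z' ⟨⟨w, h1, h2⟩, h3⟩
    refine Set.mem_biUnion (x := w) ⟨h2, z', w, h1, ?_⟩ ⟨h1, h3⟩
    have h4 := (𝒯.H_eq i z z').2 h3
    rw [h4]
    abel
  · refine (h.2.2.add h'.2.2).mono ?_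
    rintro a ⟨z, y, ⟨w, h1, h2⟩, h3⟩
    refine Set.mem_add.2 ⟨𝒯.H i z - 𝒯.H i w, ⟨z, w, h1, rfl⟩, 𝒯.H i w - 𝒯.H i y, ⟨w, y, h2, rfl⟩, ?_⟩
    rw [h3]
    abel

/-- a set with finite fibres over a well ordered image -/
theorem pwo_of_fibres {t : Λ → Λ} (ht : Monotone t) {D : Set Λ} (hD : (t '' D).IsPWO)
    (hf : ∀ a, (D ∩ t ⁻¹' {a}).Finite) : D.IsPWO := by
  rw [Set.isPWO_iff_exists_monotone_subseq] at hD
  intro f
  obtain ⟨g, hg⟩ := hD (fun m => t (f m).1) fun m => ⟨(f m).1, (f m).2, rfl⟩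
  by_cases hex : ∃ m n, m < n ∧ t (f (g m)).1 < t (f (g n)).1
  · obtain ⟨m, n, hmn, hlt⟩ := hex
    refine ⟨g m, g n, g.strictMono hmn, ?_⟩
    show (f (g m)).1 ≤ (f (g n)).1
    by_contra hcon
    exact absurd (ht (not_le.1 hcon).le) (not_le.2 hlt)
  · push Not at hex
    have h1 : ∀ m, t (f (g m)).1 = t (f (g 0)).1 := by
      intro m
      rcases Nat.eq_zero_or_pos m with rfl | hm
      · rfl
      · exact le_antisymm (hex 0 m hm) (hg (Nat.zero_le m))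
    obtain ⟨m, n, hmn, hle⟩ := (hf (t (f (g 0)).1)).isPWO fun m => ⟨(f (g m)).1, (f (g m)).2, h1 m⟩
    exact ⟨g m, g n, g.strictMono hmn, hle⟩

/-- a coset representative -/
theorem rep_mem (M : Subgroup N) (y : N) : ((QuotientGroup.mk y : N ⧸ M).out)⁻¹ * y ∈ M := by
  rw [← QuotientGroup.eq]
  exact QuotientGroup.out_eq' _

theorem GoodRel.step {i : ℕ} {ρ : N → N → Prop} (h : GoodRel 𝒯 i ρ) : GoodRel 𝒯 (i + 1) ρ := by
  refine ⟨fun g hg => h.1 g (𝒯.n_anti i hg), fun z y => (h.2.1 z y).subset fun z' h1 => ⟨h1.1, 𝒯.k_anti i h1.2⟩, ?_⟩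
  obtain ⟨t, ht1, ht2, ht3⟩ := 𝒯.H_mono i
  have hfin : Finite (N ⧸ 𝒯.n (i + 1)) := (𝒯.n (i + 1)).finite_quotient_of_finiteIndex
  refine pwo_of_fibres ht1 (h.2.2.mono ?_) fun a => ?_
  · rintro _ ⟨_, ⟨z, y, h1, rfl⟩, rfl⟩
    exact ⟨z, y, h1, by rw [ht2, ← ht3, ← ht3]⟩
  · have h2 : (⋃ c : N ⧸ 𝒯.n (i + 1), (fun z => 𝒯.H (i + 1) z - 𝒯.H (i + 1) c.out) ''
        {z | ρ z c.out ∧ 𝒯.H i z - 𝒯.H i c.out = a}).Finite :=
      Set.finite_iUnion fun c => (h.fin_deg c.out a).image _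
    refine h2.subset ?_
    rintro _ ⟨⟨z, y, h1, rfl⟩, h3⟩
    have h4 : 𝒯.H i z - 𝒯.H i y = a := by
      have h5 : t (𝒯.H (i + 1) z - 𝒯.H (i + 1) y) = a := h3
      rw [ht2, ← ht3, ← ht3] at h5
      exact h5
    have h5 := rep_mem (𝒯.n (i + 1)) y
    set s : N := (QuotientGroup.mk y : N ⧸ 𝒯.n (i + 1)).out with hs
    have h6 : (s⁻¹ * y)⁻¹ ∈ 𝒯.n (i + 1) := inv_mem h5
    have h7 : y * (s⁻¹ * y)⁻¹ = s := by group
    refine Set.mem_iUnion.2 ⟨(QuotientGroup.mk y : N ⧸ 𝒯.n (i + 1)), z * (s⁻¹ * y)⁻¹, ⟨?_, ?_⟩, ?_⟩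
    · have h8 := h.1 _ (𝒯.n_anti i h6) z y h1
      rw [h7] at h8
      exact h8
    · have h8 := 𝒯.H_mul i y z _ (𝒯.n_anti i h6)
      rw [h7, h4] at h8
      exact h8
    · have h8 := 𝒯.H_mul (i + 1) y z _ h6
      rw [h7] at h8
      exact h8

theorem GoodRel.mono {i j : ℕ} (hij : i ≤ j) {ρ : N → N → Prop} (h : GoodRel 𝒯 i ρ) : GoodRel 𝒯 j ρ := by
  induction j, hij using Nat.le_induction with
  | base => exact h
  | succ j _ ih => exact ih.step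

theorem GoodRel.left (𝒯 : OrdTower N Λ) (i : ℕ) (S : Set N) (hS : S.Finite) :
    GoodRel 𝒯 i (fun z y => z * y⁻¹ ∈ S) := by
  have hfin : Finite (N ⧸ 𝒯.n i) := (𝒯.n i).finite_quotient_of_finiteIndex
  refine ⟨fun g _ z y h1 => ?_, fun z y => ?_, ?_⟩
  · have h2 : z * g * (y * g)⁻¹ = z * y⁻¹ := by group
    show z * g * (y * g)⁻¹ ∈ S
    rw [h2]
    exact h1
  · refine (hS.image fun g => g * y).subset ?_
    rintro z' ⟨h1, -⟩
    exact ⟨z' * y⁻¹, h1, by group⟩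
  · have h2 : (⋃ g ∈ S, ⋃ c : N ⧸ 𝒯.n i, {𝒯.H i (g * c.out) - 𝒯.H i c.out}).Finite :=
      hS.biUnion fun g _ => Set.finite_iUnion fun c => Set.finite_singleton _
    refine h2.isPWO.mono ?_
    rintro a ⟨z, y, h1, rfl⟩
    have h5 := rep_mem (𝒯.n i) y
    set s : N := (QuotientGroup.mk y : N ⧸ 𝒯.n i).out with hs
    refine Set.mem_biUnion (x := z * y⁻¹) h1 (Set.mem_iUnion.2 ⟨(QuotientGroup.mk y : N ⧸ 𝒯.n i), ?_⟩)
    rw [Set.mem_singleton_iff, ← hs]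
    have h8 := 𝒯.H_mul i s (z * y⁻¹ * s) _ h5
    have h6 : s * (s⁻¹ * y) = y := by group
    have h7 : z * y⁻¹ * s * (s⁻¹ * y) = z := by group
    rw [h6, h7] at h8
    exact h8

theorem GoodRel.eq (𝒯 : OrdTower N Λ) (i : ℕ) : GoodRel 𝒯 i (fun z y => z = y) := by
  refine (GoodRel.left 𝒯 i {1} (Set.finite_singleton 1)).sub (fun z y h => ?_) (fun g _ z y h => by rw [h])
  rw [h, mul_inv_cancel]
  exact Set.mem_singleton 1

end Pool.Agent.MelS
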