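import Pool.Agent.MelS.TwInv

/-!
# Exactness of the presentation complex and of its twisted dual

`G = OR r`, `A = R[G]`, `D_i = fox (frR R r) i r`, `x_i = frR R r (of i)`.

* `mid_right`: `∑ j, (x_j⁻¹ - χ x_j⁻¹) u_j = 0` implies `u_j = rho_j r * q`.
* `mid_left`: `∑ i, v_i (x_i - 1) = 0` implies `v_i = q D_i`.
* `H1`, `H2`: if the matrix of twisted second Fox derivatives is invertible, `∑ i, D_i v_i = 0` implies
  `v_i = (x_i - 1) q`, and every `y` in the kernel of `χ : A → R` is of the form `∑ i, D_i v_i`.
-/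

open Finset Module

namespace Pool.Agent.MelS

open Pool.Agent.MelD (fox OR coc coc_mul coc_of coc_one coc_unique fundamental map_fox fox_mul fox_of
  coc_eq_sum Dual exists_desc)

section

variable {k : ℕ} {R : Type} [CommRing R] (r : FreeGroup (Fin k))

theorem frR_apply (w : FreeGroup (Fin k)) :
    frR R r w = MonoidAlgebra.single (PresentedGroup.mk ({r} : Set (FreeGroup (Fin k))) w) 1 := rfl

theorem frR_rel : frR R r r = 1 := by
  rw [frR_apply, PresentedGroup.one_of_mem (Set.mem_singleton r)]
  rfl

theorem mid_right (χ : FreeGroup (Fin k) →* R) (hχ : χ r = 1) (u : Fin k → MonoidAlgebra R (OR r))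
    (hu : ∑ j, (frR R r (FreeGroup.of j)⁻¹ - algebraMap R _ (χ (FreeGroup.of j)⁻¹)) * u j = 0) :
    ∃ q, ∀ j, u j = rho (frR R r) χ j r * q := by
  classical
  let A := MonoidAlgebra R (OR r)
  let f : FreeGroup (Fin k) →* A := frR R r
  let lin : A →ₗ[R] (Fin k → A) :=
    { toFun := fun q j => rho f χ j r * q
      map_add' := fun a b => by
        funext j
        exact mul_add _ _ _
      map_smul' := fun c a => by
        funext j
        exact mul_smul_comm _ _ _ }
  let P : Submodule R (Fin k → A) := LinearMap.range lin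
  let cl : (Fin k → A) →ₗ[R] (Fin k → A) ⧸ P := P.mkQ
  let T₀ : FreeGroup (Fin k) → Module.End R (((Fin k → A) ⧸ P) × A) := fun w =>
    { toFun := fun x => (χ w • x.1 + cl (fun j => rho f χ j w * x.2), f w * x.2)
      map_add' := fun x y => by
        refine Prod.ext ?_ ?_
        · show χ w • (x.1 + y.1) + cl (fun j => rho f χ j w * (x.2 + y.2)) =
            (χ w • x.1 + cl (fun j => rho f χ j w * x.2)) + (χ w • y.1 + cl (fun j => rho f χ j w * y.2))
          have h1 : (fun j => rho f χ j w * (x.2 + y.2)) =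
              (fun j => rho f χ j w * x.2) + (fun j => rho f χ j w * y.2) := by
            funext j
            exact mul_add _ _ _
          rw [h1, map_add, smul_add]
          abel
        · exact mul_add _ _ _
      map_smul' := fun c x => by
        refine Prod.ext ?_ ?_
        · show χ w • (c • x.1) + cl (fun j => rho f χ j w * (c • x.2)) =
            c • (χ w • x.1 + cl (fun j => rho f χ j w * x.2))
          have h1 : (fun j => rho f χ j w * (c • x.2)) = c • (fun j => rho f χ j w * x.2) := by
            funext j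
            exact mul_smul_comm _ _ _
          rw [h1, map_smul, smul_add, smul_comm]
        · exact mul_smul_comm _ _ _ }
  have hT₀ : ∀ w x, T₀ w x = (χ w • x.1 + cl (fun j => rho f χ j w * x.2), f w * x.2) := fun _ _ => rfl
  let T : FreeGroup (Fin k) →* Module.End R (((Fin k → A) ⧸ P) × A) :=
    { toFun := T₀
      map_one' := by
        apply LinearMap.ext
        intro x
        rw [hT₀]
        refine Prod.ext ?_ ?_
        · show χ 1 • x.1 + cl (fun j => rho f χ j 1 * x.2) = x.1
          have h1 : (fun j => rho f χ j 1 * x.2) = 0 := by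
            funext j
            rw [rho_one, zero_mul]
            rfl
          rw [h1, map_zero, map_one, one_smul, add_zero]
        · show f 1 * x.2 = x.2
          rw [map_one, one_mul]
      map_mul' := fun g h => by
        apply LinearMap.ext
        intro x
        rw [Module.End.mul_apply, hT₀, hT₀, hT₀]
        refine Prod.ext ?_ ?_
        · show χ (g * h) • x.1 + cl (fun j => rho f χ j (g * h) * x.2) =
            χ g • (χ h • x.1 + cl (fun j => rho f χ j h * x.2)) + cl (fun j => rho f χ j g * (f h * x.2))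
          have h1 : (fun j => rho f χ j (g * h) * x.2) =
              χ g • (fun j => rho f χ j h * x.2) + (fun j => rho f χ j g * (f h * x.2)) := by
            funext j
            show rho f χ j (g * h) * x.2 = χ g • (rho f χ j h * x.2) + rho f χ j g * (f h * x.2)
            rw [rho_mul, add_mul, smul_mul_assoc, mul_assoc]
            abel
          rw [h1, map_add, map_smul, map_mul, smul_add, smul_smul]
          abel
        · show f (g * h) * x.2 = f g * (f h * x.2)
          rw [map_mul, mul_assoc] }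
  have hTr : T r = 1 := by
    apply LinearMap.ext
    intro x
    show T₀ r x = x
    rw [hT₀]
    refine Prod.ext ?_ ?_
    · show χ r • x.1 + cl (fun j => rho f χ j r * x.2) = x.1
      have h1 : cl (fun j => rho f χ j r * x.2) = 0 :=
        (Submodule.Quotient.mk_eq_zero P).2 ⟨x.2, rfl⟩
      rw [h1, hχ, one_smul, add_zero]
    · show f r * x.2 = x.2
      have h1 : f r = 1 := frR_rel r
      rw [h1, one_mul]
  obtain ⟨T', hT'⟩ := exists_desc r T hTr
  let Θ : A →ₐ[R] Module.End R (((Fin k → A) ⧸ P) × A) := MonoidAlgebra.lift R _ (OR r) T'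
  have hΘ : ∀ w, Θ (f w) = T₀ w := by
    intro w
    show MonoidAlgebra.lift R _ (OR r) T' (MonoidAlgebra.single _ 1) = _
    rw [MonoidAlgebra.lift_single, one_smul]
    exact DFunLike.congr_fun hT' w
  have hsnd : ∀ a x, (Θ a x).2 = a * x.2 := by
    intro a
    induction a using MonoidAlgebra.induction_linear with
    | zero => intro x; rw [map_zero, zero_mul]; rfl
    | add a b ha hb => intro x; rw [map_add, add_mul, ← ha, ← hb]; rfl
    | single g c =>
      intro x
      obtain ⟨w, rfl⟩ := PresentedGroup.mk_surjective _ g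
      have h1 : (MonoidAlgebra.single (PresentedGroup.mk ({r} : Set (FreeGroup (Fin k))) w) c : A) =
          c • f w := by
        show _ = c • MonoidAlgebra.single _ 1
        rw [MonoidAlgebra.smul_single, smul_eq_mul, mul_one]
      rw [h1, map_smul, hΘ, smul_mul_assoc]
      rfl
  have hone : ∀ j, (Θ ((f (FreeGroup.of j)⁻¹ - algebraMap R A (χ (FreeGroup.of j)⁻¹)) * u j) (0, 1)).1 =
      cl (Pi.single j (u j)) := by
    intro j
    rw [map_mul, Module.End.mul_apply]
    have h1 : (Θ (u j) (0, 1)).2 = u j := by rw [hsnd, mul_one]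
    obtain ⟨x, hx⟩ : ∃ x, x = Θ (u j) (0, 1) := ⟨_, rfl⟩
    rw [← hx] at h1 ⊢
    rw [map_sub, hΘ, AlgHom.commutes, LinearMap.sub_apply, Module.algebraMap_end_apply, hT₀]
    show χ (FreeGroup.of j)⁻¹ • x.1 + cl (fun l => rho f χ l (FreeGroup.of j)⁻¹ * x.2) -
      χ (FreeGroup.of j)⁻¹ • x.1 = _
    rw [add_sub_cancel_left, h1]
    congr 1
    funext l
    rw [rho_inv_of]
    by_cases hl : l = j
    · rw [if_pos hl.symm, one_mul, hl, Pi.single_eq_same]
    · rw [if_neg (fun h => hl h.symm), zero_mul, Pi.single_eq_of_ne hl]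
  have hsum : cl u = 0 := by
    have h1 : u = ∑ j, Pi.single j (u j) := by rw [Finset.univ_sum_single]
    have h2 : (Θ (∑ j, (f (FreeGroup.of j)⁻¹ - algebraMap R A (χ (FreeGroup.of j)⁻¹)) * u j) (0, 1)).1 =
        cl u := by
      rw [map_sum, LinearMap.sum_apply, Prod.fst_sum, sum_congr rfl fun j _ => hone j, ← map_sum, ← h1]
    rw [← h2]
    have h3 : (∑ j, (f (FreeGroup.of j)⁻¹ - algebraMap R A (χ (FreeGroup.of j)⁻¹)) * u j) = 0 := hu
    rw [h3, map_zero]
    rfl
  obtain ⟨q, hq⟩ := (Submodule.Quotient.mk_eq_zero P).1 hsum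
  exact ⟨q, fun j => (congrFun hq j).symm⟩

theorem mid_left (v : Fin k → MonoidAlgebra R (OR r))
    (hv : ∑ i, v i * (frR R r (FreeGroup.of i) - 1) = 0) :
    ∃ q, ∀ i, v i = q * fox (frR R r) i r := by
  classical
  let A := MonoidAlgebra R (OR r)
  let f : FreeGroup (Fin k) →* A := frR R r
  let lin : A →ₗ[R] (Fin k → A) :=
    { toFun := fun q j => q * fox f j r
      map_add' := fun a b => by
        funext j
        exact add_mul _ _ _
      map_smul' := fun c a => by
        funext j
        exact smul_mul_assoc _ _ _ }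
  let P : Submodule R (Fin k → A) := LinearMap.range lin
  let cl : (Fin k → A) →ₗ[R] (Fin k → A) ⧸ P := P.mkQ
  let T₀ : FreeGroup (Fin k) → Module.End R (((Fin k → A) ⧸ P) × A) := fun w =>
    { toFun := fun x => (x.1 + cl (fun j => x.2 * fox f j w), x.2 * f w)
      map_add' := fun x y => by
        refine Prod.ext ?_ ?_
        · show (x.1 + y.1) + cl (fun j => (x.2 + y.2) * fox f j w) =
            (x.1 + cl (fun j => x.2 * fox f j w)) + (y.1 + cl (fun j => y.2 * fox f j w))
          have h1 : (fun j => (x.2 + y.2) * fox f j w) =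
              (fun j => x.2 * fox f j w) + (fun j => y.2 * fox f j w) := by
            funext j
            exact add_mul _ _ _
          rw [h1, map_add]
          abel
        · exact add_mul _ _ _
      map_smul' := fun c x => by
        refine Prod.ext ?_ ?_
        · show c • x.1 + cl (fun j => (c • x.2) * fox f j w) =
            c • (x.1 + cl (fun j => x.2 * fox f j w))
          have h1 : (fun j => (c • x.2) * fox f j w) = c • (fun j => x.2 * fox f j w) := by
            funext j
            exact smul_mul_assoc _ _ _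
          rw [h1, map_smul, smul_add]
        · exact smul_mul_assoc _ _ _ }
  have hT₀ : ∀ w x, T₀ w x = (x.1 + cl (fun j => x.2 * fox f j w), x.2 * f w) := fun _ _ => rfl
  let T : FreeGroup (Fin k) →* (Module.End R (((Fin k → A) ⧸ P) × A))ᵐᵒᵖ :=
    { toFun := fun w => MulOpposite.op (T₀ w)
      map_one' := by
        rw [← MulOpposite.op_one]
        congr 1
        apply LinearMap.ext
        intro x
        rw [hT₀]
        refine Prod.ext ?_ ?_
        · show x.1 + cl (fun j => x.2 * fox f j 1) = x.1
          have h1 : (fun j => x.2 * fox f j 1) = 0 := by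
            funext j
            show x.2 * coc f _ 1 = 0
            rw [coc_one, mul_zero]
          rw [h1, map_zero, add_zero]
        · show x.2 * f 1 = x.2
          rw [map_one, mul_one]
      map_mul' := fun g h => by
        rw [← MulOpposite.op_mul]
        congr 1
        apply LinearMap.ext
        intro x
        rw [Module.End.mul_apply, hT₀, hT₀, hT₀]
        refine Prod.ext ?_ ?_
        · show x.1 + cl (fun j => x.2 * fox f j (g * h)) =
            (x.1 + cl (fun j => x.2 * fox f j g)) + cl (fun j => (x.2 * f g) * fox f j h)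
          have h1 : (fun j => x.2 * fox f j (g * h)) =
              (fun j => x.2 * fox f j g) + (fun j => (x.2 * f g) * fox f j h) := by
            funext j
            show x.2 * fox f j (g * h) = x.2 * fox f j g + (x.2 * f g) * fox f j h
            rw [fox_mul, mul_add, mul_assoc]
          rw [h1, map_add, add_assoc]
        · show x.2 * f (g * h) = (x.2 * f g) * f h
          rw [map_mul, mul_assoc] }
  have hTr : T r = 1 := by
    show MulOpposite.op (T₀ r) = 1
    rw [← MulOpposite.op_one]
    congr 1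
    apply LinearMap.ext
    intro x
    rw [hT₀]
    refine Prod.ext ?_ ?_
    · show x.1 + cl (fun j => x.2 * fox f j r) = x.1
      have h1 : cl (fun j => x.2 * fox f j r) = 0 :=
        (Submodule.Quotient.mk_eq_zero P).2 ⟨x.2, rfl⟩
      rw [h1, add_zero]
    · show x.2 * f r = x.2
      have h1 : f r = 1 := frR_rel r
      rw [h1, mul_one]
  obtain ⟨T', hT'⟩ := exists_desc r T hTr
  let Θ : A →ₐ[R] (Module.End R (((Fin k → A) ⧸ P) × A))ᵐᵒᵖ := MonoidAlgebra.lift R _ (OR r) T'
  have hΘ : ∀ w, Θ (f w) = MulOpposite.op (T₀ w) := by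
    intro w
    show MonoidAlgebra.lift R _ (OR r) T' (MonoidAlgebra.single _ 1) = _
    rw [MonoidAlgebra.lift_single, one_smul]
    exact DFunLike.congr_fun hT' w
  have hsnd : ∀ a x, ((Θ a).unop x).2 = x.2 * a := by
    intro a
    induction a using MonoidAlgebra.induction_linear with
    | zero => intro x; rw [map_zero, mul_zero]; rfl
    | add a b ha hb => intro x; rw [map_add, mul_add, ← ha, ← hb]; rfl
    | single g c =>
      intro x
      obtain ⟨w, rfl⟩ := PresentedGroup.mk_surjective _ g
      have h1 : (MonoidAlgebra.single (PresentedGroup.mk ({r} : Set (FreeGroup (Fin k))) w) c : A) =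
          c • f w := by
        show _ = c • MonoidAlgebra.single _ 1
        rw [MonoidAlgebra.smul_single, smul_eq_mul, mul_one]
      rw [h1, map_smul, hΘ, mul_smul_comm]
      rfl
  have hone : ∀ j, ((Θ (v j * (f (FreeGroup.of j) - 1))).unop (0, 1)).1 = cl (Pi.single j (v j)) := by
    intro j
    rw [map_mul, MulOpposite.unop_mul, Module.End.mul_apply]
    have h1 : ((Θ (v j)).unop (0, 1)).2 = v j := by rw [hsnd, one_mul]
    obtain ⟨x, hx⟩ : ∃ x, x = (Θ (v j)).unop (0, 1) := ⟨_, rfl⟩
    rw [← hx] at h1 ⊢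
    rw [map_sub, hΘ, map_one, MulOpposite.unop_sub, LinearMap.sub_apply, MulOpposite.unop_one,
      MulOpposite.unop_op, hT₀]
    show x.1 + cl (fun l => x.2 * fox f l (FreeGroup.of j)) - x.1 = _
    rw [add_sub_cancel_left, h1]
    congr 1
    funext l
    rw [fox_of]
    by_cases hl : l = j
    · rw [if_pos hl.symm, mul_one, hl, Pi.single_eq_same]
    · rw [if_neg (fun h => hl h.symm), mul_zero, Pi.single_eq_of_ne hl]
  have hsum : cl v = 0 := by
    have h1 : v = ∑ j, Pi.single j (v j) := by rw [Finset.univ_sum_single]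
    have h2 : ((Θ (∑ j, v j * (f (FreeGroup.of j) - 1))).unop (0, 1)).1 = cl v := by
      rw [map_sum, Finset.unop_sum, LinearMap.sum_apply, Prod.fst_sum,
        sum_congr rfl fun j _ => hone j, ← map_sum, ← h1]
    rw [← h2]
    have h3 : (∑ j, v j * (f (FreeGroup.of j) - 1)) = 0 := hv
    rw [h3, map_zero]
    rfl
  obtain ⟨q, hq⟩ := (Submodule.Quotient.mk_eq_zero P).1 hsum
  exact ⟨q, fun j => (congrFun hq j).symm⟩

variable {r}

/-- Triviality of the first cohomology. -/
theorem H1 (χ : FreeGroup (Fin k) →* R) (hχ : Dual r χ) (hJ : IsUnit (Jt r χ))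
    (v : Fin k → MonoidAlgebra R (OR r)) (hv : ∑ i, fox (frR R r) i r * v i = 0) :
    ∃ q, ∀ i, v i = (frR R r (FreeGroup.of i) - 1) * q := by
  classical
  obtain ⟨⟨J, U, hJU, hUJ⟩, hJ'⟩ := hJ
  have hJ'' : J = Jt r χ := hJ'
  subst hJ''
  have h1 : ∑ j, (frR R r (FreeGroup.of j)⁻¹ - algebraMap R _ (χ (FreeGroup.of j)⁻¹)) *
      (∑ i, Jt r χ j i * v i) = 0 := by
    rw [← hv]
    simp only [mul_sum]
    rw [sum_comm]
    refine sum_congr rfl fun i _ => ?_
    rw [← XJ_of_dual (frR R r) χ hχ i, sum_mul]
    exact sum_congr rfl fun j _ => (mul_assoc _ _ _).symm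
  obtain ⟨q, hq⟩ := mid_right r χ hχ.rel _ h1
  refine ⟨q, fun i => ?_⟩
  have h2 : ∀ j, ∑ i, Jt r χ j i * (v i - (frR R r (FreeGroup.of i) - 1) * q) = 0 := by
    intro j
    have h5 : ∑ i, Jt r χ j i * v i = ∑ i, Jt r χ j i * ((frR R r (FreeGroup.of i) - 1) * q) := by
      rw [hq j, ← JX_of_dual (frR R r) χ hχ j, sum_mul]
      exact sum_congr rfl fun i _ => mul_assoc _ _ _
    rw [sum_congr rfl fun i _ => mul_sub (Jt r χ j i) (v i) ((frR R r (FreeGroup.of i) - 1) * q),
      sum_sub_distrib, h5, sub_self]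
  have h3 : ∑ j, U i j * (∑ l, Jt r χ j l * (v l - (frR R r (FreeGroup.of l) - 1) * q)) = 0 :=
    sum_eq_zero fun j _ => by rw [h2, mul_zero]
  simp only [mul_sum, ← mul_assoc] at h3
  rw [sum_comm] at h3
  simp only [← sum_mul] at h3
  have h4 : ∀ l, ∑ j, U i j * Jt r χ j l = if i = l then 1 else 0 := by
    intro l
    rw [← Matrix.mul_apply, hUJ, Matrix.one_apply]
  simp only [h4, ite_mul, one_mul, zero_mul, sum_ite_eq, mem_univ, if_true] at h3
  exact sub_eq_zero.1 h3

/-- The second cohomology. -/
theorem H2 (χ : FreeGroup (Fin k) →* R) (hχ : Dual r χ) (hJ : IsUnit (Jt r χ))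
    (χ' : OR r →* R) (hχ' : χ'.comp (PresentedGroup.mk {r}) = χ)
    (y : MonoidAlgebra R (OR r)) (hy : MonoidAlgebra.lift R R (OR r) χ' y = 0) :
    ∃ v : Fin k → MonoidAlgebra R (OR r), y = ∑ i, fox (frR R r) i r * v i := by
  classical
  have h1 : ∀ y : MonoidAlgebra R (OR r), ∃ s : Fin k → MonoidAlgebra R (OR r),
      y - algebraMap R _ (MonoidAlgebra.lift R R (OR r) χ' y) =
        ∑ j, (frR R r (FreeGroup.of j)⁻¹ - algebraMap R _ (χ (FreeGroup.of j)⁻¹)) * s j := by
    intro y
    induction y using MonoidAlgebra.induction_linear with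
    | zero => exact ⟨0, by simp⟩
    | add a b ha hb =>
      obtain ⟨s, hs⟩ := ha
      obtain ⟨t, ht⟩ := hb
      refine ⟨s + t, ?_⟩
      simp only [Pi.add_apply, mul_add, sum_add_distrib, ← hs, ← ht, map_add]
      abel
    | single g c =>
      obtain ⟨w, rfl⟩ := PresentedGroup.mk_surjective _ g
      refine ⟨fun j => c • rho (frR R r) χ j w, ?_⟩
      simp only [mul_smul_comm, ← smul_sum]
      rw [← rho_fund, MonoidAlgebra.lift_single, smul_sub]
      have h2 : χ' (PresentedGroup.mk {r} w) = χ w := DFunLike.congr_fun hχ' w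
      have h3 : c • frR R r w = MonoidAlgebra.single (PresentedGroup.mk ({r} : Set (FreeGroup (Fin k))) w) c := by
        rw [frR_apply, MonoidAlgebra.smul_single, smul_eq_mul, mul_one]
      rw [h2, h3, smul_eq_mul, map_mul, Algebra.smul_def]
  obtain ⟨s, hs⟩ := h1 y
  rw [hy, map_zero, sub_zero] at hs
  obtain ⟨⟨J, U, hJU, hUJ⟩, hJ'⟩ := hJ
  have hJ'' : J = Jt r χ := hJ'
  subst hJ''
  refine ⟨fun i => ∑ j, U i j * s j, ?_⟩
  rw [hs]
  have h4 : ∀ j, ∑ i, Jt r χ j i * (∑ l, U i l * s l) = s j := by
    intro j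
    simp only [mul_sum, ← mul_assoc]
    rw [sum_comm]
    simp only [← sum_mul]
    have h5 : ∀ l, ∑ i, Jt r χ j i * U i l = if j = l then 1 else 0 := by
      intro l
      rw [← Matrix.mul_apply, hJU, Matrix.one_apply]
    simp only [h5, ite_mul, one_mul, zero_mul, sum_ite_eq, mem_univ, if_true]
  have h6 : ∀ i, fox (frR R r) i r * (∑ j, U i j * s j) =
      ∑ j, (frR R r (FreeGroup.of j)⁻¹ - algebraMap R _ (χ (FreeGroup.of j)⁻¹)) *
        (Jt r χ j i * (∑ l, U i l * s l)) := by
    intro i
    rw [← XJ_of_dual (frR R r) χ hχ i, sum_mul]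
    exact sum_congr rfl fun j _ => mul_assoc _ _ _
  rw [sum_congr rfl fun i _ => h6 i, sum_comm]
  refine sum_congr rfl fun j _ => ?_
  rw [← mul_sum, h4 j]

end

end Pool.Agent.MelS
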