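import Pool.Agent.MelS.TwJ
import Pool.Agent.MelS.DefR

/-!
# The matrix of twisted second Fox derivatives is invertible over all finite quotients

`G = OR r`, all finite index normal subgroups of `G` have presentations with at most `m` relators, `χ` a
character of the free group with values in a commutative ring that kills the Fox derivatives of `r`.

`dag`: for every finite `G`-module `E` over a finite field `K`, `(x_j⁻¹ - χ x_j⁻¹) E ⊆ ∑ i, D_i E`
(the corank is at most one for the image of `F` in `GL(E) × Kˣ`).

`unit_Q`: if `J` is not onto on `K[Q]^k`, take a linear form `lam ≠ 0` which vanishes on its range and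
`E = K × K[Q]`, `g (s, a) = (χ g s + lam (rho g a), g a)`: then `r` acts trivially, `D_i E ⊆ 0 × K[Q]`, so
`lam_j a`, the first coordinate of `(x_j⁻¹ - χ x_j⁻¹) (0, a)`, is zero.
-/

open Finset Module

namespace Pool.Agent.MelS

open Pool.Agent.MelD (fox OR coc coc_mul coc_of coc_one coc_unique fundamental map_fox fox_mul fox_of
  coc_eq_sum Dual RI rank_RI_eq toFn cork_le_one_all)
open Pool.Agent.MelG (HasRel)

/-- Elements of the right ideal. -/
theorem mem_RI_sum {K : Type*} [Field K] {ι : Type*} [Fintype ι] {A : Type*} [Ring A] [Algebra K A]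
    (E : ι → A) {x : A} (hx : x ∈ RI (K := K) E) : ∃ y : ι → A, x = ∑ i, E i * y i := by
  classical
  unfold RI at hx
  induction hx using Submodule.span_induction with
  | mem x hx =>
    obtain ⟨i, y, rfl⟩ := hx
    refine ⟨Pi.single i y, ?_⟩
    rw [sum_eq_single i]
    · rw [Pi.single_eq_same]
    · intro b _ hb
      rw [Pi.single_eq_of_ne hb, mul_zero]
    · intro h
      exact absurd (mem_univ i) h
  | zero => exact ⟨0, by simp⟩
  | add x y _ _ hx hy =>
    obtain ⟨a, rfl⟩ := hx
    obtain ⟨b, rfl⟩ := hy
    exact ⟨a + b, by simp only [Pi.add_apply, mul_add, sum_add_distrib]⟩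
  | smul c x _ hx =>
    obtain ⟨a, rfl⟩ := hx
    exact ⟨c • a, by simp only [Pi.smul_apply, mul_smul_comm, smul_sum]⟩

section

variable {k : ℕ} (hk : 2 ≤ k) (r : FreeGroup (Fin k)) (hr1 : r ≠ 1) (m : ℕ)
    (H : ∀ N : Subgroup (OR r), N.Normal → N.FiniteIndex → HasRel m N)

include hk hr1 H

theorem dag {K : Type} [Field K] [Finite K] {V : Type} [AddCommGroup V] [Module K V] [Finite V]
    (e : FreeGroup (Fin k) →* Module.End K V) (he : e r = 1) (χ : FreeGroup (Fin k) →* K) (hχ : Dual r χ)
    (j : Fin k) (v : V) :
    ∃ u : Fin k → V, e (FreeGroup.of j)⁻¹ v - χ (FreeGroup.of j)⁻¹ • v = ∑ i, fox e i r (u i) := by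
  classical
  have hE : Finite (Module.End K V) :=
    Finite.of_injective (fun f : Module.End K V => (f : V → V)) DFunLike.coe_injective
  let ψ : FreeGroup (Fin k) →* (Module.End K V)ˣ × Kˣ :=
    (MonoidHom.toHomUnits e).prod (MonoidHom.toHomUnits χ)
  let π : FreeGroup (Fin k) →* ψ.range := ψ.rangeRestrict
  have : Fintype ψ.range := Fintype.ofFinite _
  have hs : Function.Surjective π := ψ.rangeRestrict_surjective
  have hπ : π r = 1 := by
    apply Subtype.ext
    refine Prod.ext (Units.ext ?_) (Units.ext ?_)
    · exact he
    · exact hχ.rel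
  have h1 := cork_le_one_all hk r hr1 m H π hs hπ K
  have h2 := rank_RI_eq K r π
  have hfin : FiniteDimensional K (MonoidAlgebra K ψ.range) := Module.Finite.equiv (toFn K ψ.range).symm
  let E₁ : MonoidAlgebra K ψ.range →ₐ[K] Module.End K V :=
    MonoidAlgebra.lift K (Module.End K V) ψ.range
      ((Units.coeHom _).comp ((MonoidHom.fst _ _).comp ψ.range.subtype))
  let X₁ : MonoidAlgebra K ψ.range →ₐ[K] K :=
    MonoidAlgebra.lift K K ψ.range ((Units.coeHom _).comp ((MonoidHom.snd _ _).comp ψ.range.subtype))
  have hE₁ : ∀ x, E₁ (MonoidAlgebra.of K ψ.range (π x)) = e x := by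
    intro x
    show MonoidAlgebra.lift K _ ψ.range _ (MonoidAlgebra.single (π x) 1) = _
    rw [MonoidAlgebra.lift_single, one_smul]
    rfl
  have hX₁ : ∀ x, X₁ (MonoidAlgebra.of K ψ.range (π x)) = χ x := by
    intro x
    show MonoidAlgebra.lift K _ ψ.range _ (MonoidAlgebra.single (π x) 1) = _
    rw [MonoidAlgebra.lift_single, one_smul]
    rfl
  have hfE : ∀ i, E₁ (fox ((MonoidAlgebra.of K ψ.range).comp π) i r) = fox e i r := by
    intro i
    show (E₁ : MonoidAlgebra K ψ.range →+* Module.End K V) _ = _
    rw [map_fox]
    congr 1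
    exact MonoidHom.ext hE₁
  have hfX : ∀ i, X₁ (fox ((MonoidAlgebra.of K ψ.range).comp π) i r) = 0 := by
    intro i
    show (X₁ : MonoidAlgebra K ψ.range →+* K) _ = _
    rw [map_fox]
    have : ((X₁ : MonoidAlgebra K ψ.range →+* K) : MonoidAlgebra K ψ.range →* K).comp
        ((MonoidAlgebra.of K ψ.range).comp π) = χ := MonoidHom.ext hX₁
    rw [this]
    exact hχ i
  have hker : RI (K := K) (fun i => fox ((MonoidAlgebra.of K ψ.range).comp π) i r) ≤
      LinearMap.ker X₁.toLinearMap := by
    unfold RI
    rw [Submodule.span_le]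
    rintro _ ⟨i, y, rfl⟩
    show X₁ (fox ((MonoidAlgebra.of K ψ.range).comp π) i r * y) = 0
    rw [map_mul, hfX, zero_mul]
  have hsurj : LinearMap.range X₁.toLinearMap = ⊤ := by
    rw [LinearMap.range_eq_top]
    intro c
    exact ⟨c • 1, by
      show X₁ (c • 1) = c
      rw [map_smul, map_one, smul_eq_mul, mul_one]⟩
  have heq : RI (K := K) (fun i => fox ((MonoidAlgebra.of K ψ.range).comp π) i r) =
      LinearMap.ker X₁.toLinearMap := by
    refine Submodule.eq_of_le_of_finrank_le hker ?_
    have h6 := LinearMap.finrank_range_add_finrank_ker X₁.toLinearMap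
    rw [hsurj, finrank_top, finrank_self] at h6
    have h8 := Submodule.finrank_quotient_add_finrank
      (RI (K := K) (fun i => fox ((MonoidAlgebra.of K ψ.range).comp π) i r))
    rw [← finrank_eq_rank, Nat.cast_inj] at h2
    omega
  have hz : MonoidAlgebra.of K ψ.range (π (FreeGroup.of j)⁻¹) - algebraMap K _ (χ (FreeGroup.of j)⁻¹) ∈
      RI (K := K) (fun i => fox ((MonoidAlgebra.of K ψ.range).comp π) i r) := by
    rw [heq, LinearMap.mem_ker]
    show X₁ _ = 0
    rw [map_sub, hX₁, AlgHom.commutes]
    exact sub_self _
  obtain ⟨y, hy⟩ := mem_RI_sum _ hz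
  refine ⟨fun i => E₁ (y i) v, ?_⟩
  have h9 := congrArg E₁ hy
  rw [map_sub, hE₁, AlgHom.commutes, map_sum] at h9
  have h10 := LinearMap.congr_fun h9 v
  rw [LinearMap.sub_apply, Module.algebraMap_end_apply] at h10
  rw [h10, LinearMap.sum_apply]
  refine sum_congr rfl fun i _ => ?_
  rw [map_mul, hfE]
  rfl

/-- The matrix is invertible over the group algebra of a finite quotient over a finite field. -/
theorem unit_Q {K : Type} [Field K] [Finite K] (χ : FreeGroup (Fin k) →* K) (hχ : Dual r χ)
    {A : Type} [Ring A] [Algebra K A] [Finite A] (f : FreeGroup (Fin k) →* A) (hf : f r = 1) :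
    IsUnit (Matrix.of fun j i => sec f χ j i r : Matrix (Fin k) (Fin k) A) := by
  classical
  obtain ⟨J, hJ⟩ : ∃ J : Matrix (Fin k) (Fin k) A, J = Matrix.of fun j i => sec f χ j i r := ⟨_, rfl⟩
  rw [← hJ]
  have hJe : ∀ j i, J j i = sec f χ j i r := fun j i => by rw [hJ]; rfl
  let L : (Fin k → A) →ₗ[K] (Fin k → A) :=
    { toFun := fun v j => ∑ i, J j i * v i
      map_add' := fun v w => by
        funext j
        simp only [Pi.add_apply, mul_add, sum_add_distrib]
      map_smul' := fun c v => by
        funext j
        simp only [Pi.smul_apply, mul_smul_comm, smul_sum, RingHom.id_apply] }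
  have hL : Function.Surjective L := by
    rw [← LinearMap.range_eq_top]
    by_contra hne
    obtain ⟨lam, hlam, hle⟩ := Submodule.exists_le_ker_of_lt_top _ (lt_top_iff_ne_top.2 hne)
    apply hlam
    -- the extension
    let C : K → (Fin k → A) → A → Module.End K (K × A) := fun t b d =>
      { toFun := fun x => (t * x.1 + lam (fun j => b j * x.2), d * x.2)
        map_add' := fun x y => by
          have : (fun j => b j * (x.2 + y.2)) = (fun j => b j * x.2) + (fun j => b j * y.2) := by
            funext j
            exact mul_add _ _ _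
          refine Prod.ext ?_ ?_
          · show t * (x.1 + y.1) + lam (fun j => b j * (x.2 + y.2)) = _
            rw [this, map_add, mul_add]
            show _ = (t * x.1 + lam (fun j => b j * x.2)) + (t * y.1 + lam (fun j => b j * y.2))
            ring
          · exact mul_add _ _ _
        map_smul' := fun c x => by
          have : (fun j => b j * (c • x.2)) = c • (fun j => b j * x.2) := by
            funext j
            exact mul_smul_comm _ _ _
          refine Prod.ext ?_ ?_
          · show t * (c * x.1) + lam (fun j => b j * (c • x.2)) = c * (t * x.1 + lam (fun j => b j * x.2))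
            rw [this, map_smul, smul_eq_mul]
            ring
          · exact mul_smul_comm _ _ _ }
    have hC : ∀ t b d x, C t b d x = (t * x.1 + lam (fun j => b j * x.2), d * x.2) := fun _ _ _ _ => rfl
    have hCmul : ∀ t b d t' b' d', C t b d * C t' b' d' = C (t * t') (fun j => t • b' j + b j * d') (d * d') := by
      intro t b d t' b' d'
      apply LinearMap.ext
      intro x
      rw [Module.End.mul_apply, hC, hC, hC]
      refine Prod.ext ?_ ?_
      · show t * (t' * x.1 + lam (fun j => b' j * x.2)) + lam (fun j => b j * (d' * x.2)) =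
          t * t' * x.1 + lam (fun j => (t • b' j + b j * d') * x.2)
        have h1 : (fun j => (t • b' j + b j * d') * x.2) =
            t • (fun j => b' j * x.2) + (fun j => b j * (d' * x.2)) := by
          funext j
          show (t • b' j + b j * d') * x.2 = t • (b' j * x.2) + b j * (d' * x.2)
          rw [add_mul, smul_mul_assoc, mul_assoc]
        rw [h1, map_add, map_smul, smul_eq_mul]
        ring
      · show d * (d' * x.2) = d * d' * x.2
        rw [mul_assoc]
    have hCadd : ∀ t b d t' b' d', C t b d + C t' b' d' = C (t + t') (fun j => b j + b' j) (d + d') := by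
      intro t b d t' b' d'
      apply LinearMap.ext
      intro x
      rw [LinearMap.add_apply, hC, hC, hC]
      refine Prod.ext ?_ ?_
      · show (t * x.1 + lam (fun j => b j * x.2)) + (t' * x.1 + lam (fun j => b' j * x.2)) =
          (t + t') * x.1 + lam (fun j => (b j + b' j) * x.2)
        have h1 : (fun j => (b j + b' j) * x.2) = (fun j => b j * x.2) + (fun j => b' j * x.2) := by
          funext j
          exact add_mul _ _ _
        rw [h1, map_add]
        ring
      · exact (add_mul _ _ _).symm
    have hCone : C 1 (fun _ => 0) 1 = 1 := by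
      apply LinearMap.ext
      intro x
      rw [hC]
      refine Prod.ext ?_ ?_
      · show 1 * x.1 + lam (fun _ => 0 * x.2) = x.1
        have h1 : (fun _ : Fin k => 0 * x.2) = 0 := by
          funext j
          exact zero_mul _
        rw [h1, map_zero, one_mul, add_zero]
      · exact one_mul _
    let e : FreeGroup (Fin k) →* Module.End K (K × A) :=
      { toFun := fun g => C (χ g) (fun j => rho f χ j g) (f g)
        map_one' := by
          rw [map_one, map_one, ← hCone]
          congr 1
          funext j
          exact rho_one f χ j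
        map_mul' := fun g h => by
          rw [hCmul, map_mul, map_mul]
          congr 1
          funext j
          rw [rho_mul, add_comm] }
    have he : ∀ g, e g = C (χ g) (fun j => rho f χ j g) (f g) := fun _ => rfl
    have hfox : ∀ i w, fox e i w = C (fox χ i w) (fun j => sec f χ j i w) (fox f i w) := by
      intro i w
      refine coc_unique e (fox e i) (fun w => C (fox χ i w) (fun j => sec f χ j i w) (fox f i w)) ?_ ?_ ?_ w
      · intro g h
        rw [fox_mul, smul_eq_mul]
      · intro g h
        rw [he, smul_eq_mul, hCmul, hCadd, fox_mul, fox_mul]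
        congr 1
        funext j
        rw [sec_mul]
      · intro l
        show fox e i (FreeGroup.of l) = _
        rw [fox_of]
        by_cases hl : l = i
        · rw [if_pos hl, fox_of, fox_of, if_pos hl, if_pos hl, ← hCone]
          congr 1
          funext j
          rw [sec_of]
        · rw [if_neg hl, fox_of, fox_of, if_neg hl, if_neg hl]
          apply LinearMap.ext
          intro x
          rw [hC]
          refine Prod.ext ?_ ?_
          · show (0 : K) = 0 * x.1 + lam (fun j => sec f χ j i (FreeGroup.of l) * x.2)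
            have h1 : (fun j : Fin k => sec f χ j i (FreeGroup.of l) * x.2) = 0 := by
              funext j
              rw [sec_of, zero_mul]
              rfl
            rw [h1, map_zero, zero_mul, add_zero]
          · exact (zero_mul _).symm
    -- `lam` vanishes on the range
    have hvan : ∀ v : Fin k → A, lam (fun j => ∑ i, sec f χ j i r * v i) = 0 := by
      intro v
      have h1 : lam (L v) = 0 := hle ⟨v, rfl⟩
      rw [← h1]
      congr 1
      funext j
      show _ = ∑ i, J j i * v i
      exact sum_congr rfl fun i _ => by rw [hJe]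
    have hvan1 : ∀ i a, lam (fun j => sec f χ j i r * a) = 0 := by
      intro i a
      rw [← hvan (Pi.single i a)]
      congr 1
      funext j
      rw [sum_eq_single i]
      · rw [Pi.single_eq_same]
      · intro b _ hb
        rw [Pi.single_eq_of_ne hb, mul_zero]
      · intro h
        exact absurd (mem_univ i) h
    have her : e r = 1 := by
      rw [he]
      apply LinearMap.ext
      intro x
      rw [hC]
      refine Prod.ext ?_ ?_
      · show χ r * x.1 + lam (fun j => rho f χ j r * x.2) = x.1
        have h1 : (fun j => rho f χ j r * x.2) =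
            fun j => ∑ i, sec f χ j i r * ((f (FreeGroup.of i) - 1) * x.2) := by
          funext j
          rw [← JX_of_dual f χ hχ j, sum_mul]
          exact sum_congr rfl fun i _ => mul_assoc _ _ _
        rw [h1, hvan, hχ.rel, one_mul, add_zero]
      · show f r * x.2 = x.2
        rw [hf, one_mul]
    have hVfin : Finite (K × A) := inferInstance
    have hj : ∀ j a, lam (Pi.single j a) = 0 := by
      intro j a
      obtain ⟨u, hu⟩ := dag hk r hr1 m H e her χ hχ j ((0 : K), a)
      have h1 := congrArg Prod.fst hu
      rw [he, hC] at h1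
      have h2 : (χ (FreeGroup.of j)⁻¹ * 0 + lam (fun l => rho f χ l (FreeGroup.of j)⁻¹ * a)) -
          χ (FreeGroup.of j)⁻¹ • (0 : K) = (∑ i, fox e i r (u i) : K × A).1 := h1
      rw [mul_zero, zero_add, smul_zero, sub_zero, Prod.fst_sum] at h2
      have h3 : (fun l => rho f χ l (FreeGroup.of j)⁻¹ * a) = Pi.single j a := by
        funext l
        rw [rho_inv_of]
        by_cases hl : l = j
        · rw [if_pos hl.symm, one_mul, hl, Pi.single_eq_same]
        · rw [if_neg (fun h => hl h.symm), zero_mul, Pi.single_eq_of_ne hl]
      rw [h3] at h2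
      rw [h2]
      refine sum_eq_zero fun i _ => ?_
      rw [hfox, hC]
      show fox χ i r * (u i).1 + lam (fun j => sec f χ j i r * (u i).2) = 0
      rw [hvan1, hχ i, zero_mul, add_zero]
    apply LinearMap.ext
    intro v
    have h1 : v = ∑ j, Pi.single j (v j) := by
      rw [Finset.univ_sum_single]
    rw [h1, map_sum, sum_eq_zero fun j _ => hj j (v j)]
    rfl
  choose U hU using fun l => hL (Pi.single l 1)
  have hJU : J * (Matrix.of fun i l => U l i) = 1 := by
    ext1 j l
    rw [Matrix.mul_apply, Matrix.one_apply]
    have h1 := congrFun (hU l) j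
    have h2 : ∑ i, J j i * U l i = (Pi.single l (1 : A) : Fin k → A) j := h1
    rw [Pi.single_apply] at h2
    exact h2
  have hfinM : Finite (Matrix (Fin k) (Fin k) A) := inferInstanceAs (Finite (Fin k → Fin k → A))
  exact IsUnit.of_mul_eq_one _ hJU

end

/-- The free group in the group ring of the one-relator group. -/
noncomputable def frR (R : Type) [CommRing R] {k : ℕ} (r : FreeGroup (Fin k)) :
    FreeGroup (Fin k) →* MonoidAlgebra R (OR r) :=
  (MonoidAlgebra.of R (OR r)).comp (PresentedGroup.mk ({r} : Set (FreeGroup (Fin k))))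

/-- The matrix of twisted second Fox derivatives of the relator. -/
noncomputable def Jt {R : Type} [CommRing R] {k : ℕ} (r : FreeGroup (Fin k)) (χ : FreeGroup (Fin k) →* R) :
    Matrix (Fin k) (Fin k) (MonoidAlgebra R (OR r)) :=
  Matrix.of fun j i => sec (frR R r) χ j i r

theorem redR_of {R : Type} [CommRing R] {N : Type} [Group N] {K : Type} [Field K] (φ : R →+* K)
    (M : Subgroup N) [M.Normal] (g : N) (c : R) :
    redR φ M (MonoidAlgebra.single g c) = MonoidAlgebra.single (QuotientGroup.mk' M g) (φ c) := by
  unfold redR mapQ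
  rw [RingHom.comp_apply, MonoidAlgebra.mapDomainRingHom_apply, MonoidAlgebra.mapDomain_single]
  simp

/-- The matrix is invertible over all group rings of finite quotients over finite fields. -/
theorem JQR {k : ℕ} (hk : 2 ≤ k) (r : FreeGroup (Fin k)) (hr1 : r ≠ 1) (m : ℕ)
    (H : ∀ N : Subgroup (OR r), N.Normal → N.FiniteIndex → HasRel m N)
    {R : Type} [CommRing R] (χ : FreeGroup (Fin k) →* R) (hχ : Dual r χ) : FinInvR (Jt r χ) := by
  intro M hM hMf K _ _ φ _
  have hfin : Finite (MonoidAlgebra K (OR r ⧸ M)) := by
    have : Fintype (OR r ⧸ M) := Fintype.ofFinite _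
    exact Finite.of_equiv _ (toFn K (OR r ⧸ M)).symm.toEquiv
  let f' : FreeGroup (Fin k) →* MonoidAlgebra K (OR r ⧸ M) := ((redR φ M : _ →+* _) : _ →* _).comp (frR R r)
  have hf' : f' r = 1 := by
    show redR φ M (MonoidAlgebra.single (PresentedGroup.mk {r} r) 1) = 1
    rw [PresentedGroup.one_of_mem (Set.mem_singleton r), redR_of, map_one, map_one]
    rfl
  have h1 := unit_Q hk r hr1 m H ((φ : R →* K).comp χ) (hχ.map φ) f' hf'
  have h2 : (Jt r χ).map (redR φ M) = Matrix.of fun j i => sec f' ((φ : R →* K).comp χ) j i r := by
    ext1 j i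
    rw [Matrix.map_apply, Matrix.of_apply]
    show redR φ M (sec (frR R r) χ j i r) = _
    refine map_sec (redR φ M) φ ?_ (frR R r) χ j i r
    intro x
    show redR φ M (MonoidAlgebra.single 1 x) = MonoidAlgebra.single 1 (φ x)
    rw [redR_of, map_one]
  rw [h2]
  exact h1

end Pool.Agent.MelS
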