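import Pool.Agent.MelD.ChiDef

/-!
# Twisted second Fox derivatives

`A` an algebra over the commutative ring `R`, `f : F → A`, `χ : F → R` homomorphisms of the free group
into the multiplicative monoids.

* `rho f χ j w`: `rho (g h) = rho g * f h + χ g • rho h`, `rho j (x_l)⁻¹ = δ_jl`, so
  `f w - χ w = ∑ j, (f x_j⁻¹ - χ x_j⁻¹) * rho j w` (`rho_fund`).
* `sec f χ j i w`: `sec (g h) = sec g + χ g • sec h + rho g * fox h`, `sec x_l = 0`, so
  `fox f i w - fox χ i w = ∑ j, (f x_j⁻¹ - χ x_j⁻¹) * sec j i w` (`sec_fund`) and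
  `∑ i, sec j i w * (f x_i - 1) = rho j w - ∑ i, fox χ i w • rho j x_i` (`sec_right`).
-/

open Finset Module

namespace Pool.Agent.MelS

open Pool.Agent.MelD (fox OR coc coc_mul coc_of coc_one coc_unique fundamental map_fox fox_mul fox_of
  coc_eq_sum Dual)

section

variable {k : ℕ} {R A : Type*} [CommRing R] [Ring A] [Algebra R A]
variable (f : FreeGroup (Fin k) →* A) (χ : FreeGroup (Fin k) →* R)

/-- The action `a ↦ χ g • (a * f g⁻¹)`. -/
def sigR : FreeGroup (Fin k) →* Module.End R A where
  toFun g :=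
    { toFun := fun a => χ g • (a * f g⁻¹)
      map_add' := fun a b => by rw [add_mul, smul_add]
      map_smul' := fun c a => by rw [RingHom.id_apply, smul_mul_assoc, smul_comm] }
  map_one' := by
    ext a
    show χ 1 • (a * f 1⁻¹) = a
    rw [inv_one, map_one, map_one, mul_one, one_smul]
  map_mul' g h := by
    ext a
    show χ (g * h) • (a * f (g * h)⁻¹) = χ g • ((χ h • (a * f h⁻¹)) * f g⁻¹)
    rw [mul_inv_rev, map_mul, map_mul, smul_mul_assoc, smul_smul, mul_assoc]

theorem sigR_apply (g : FreeGroup (Fin k)) (a : A) : sigR f χ g a = χ g • (a * f g⁻¹) := rfl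

/-- The right handed Fox derivatives. -/
def rho (j : Fin k) (w : FreeGroup (Fin k)) : A :=
  (coc (sigR f χ) (fun l => if l = j then - (χ (FreeGroup.of l) • (1 : A)) else 0) w : A) * f w

theorem f_inv_mul (w : FreeGroup (Fin k)) : f w⁻¹ * f w = 1 := by
  rw [← map_mul, inv_mul_cancel, map_one]

theorem f_mul_inv (w : FreeGroup (Fin k)) : f w * f w⁻¹ = 1 := by
  rw [← map_mul, mul_inv_cancel, map_one]

theorem rho_mul (j : Fin k) (g h : FreeGroup (Fin k)) :
    rho f χ j (g * h) = rho f χ j g * f h + χ g • rho f χ j h := by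
  unfold rho
  rw [coc_mul]
  show (_ + sigR f χ g _) * f (g * h) = _
  rw [sigR_apply, add_mul, map_mul, mul_assoc]
  congr 1
  rw [smul_mul_assoc, mul_assoc, ← mul_assoc (f g⁻¹), f_inv_mul, one_mul]

theorem rho_one (j : Fin k) : rho f χ j 1 = 0 := by
  unfold rho
  rw [coc_one, zero_mul]

/-- Uniqueness for right handed crossed homomorphisms. -/
theorem right_unique (c c' : FreeGroup (Fin k) → A)
    (hc : ∀ g h, c (g * h) = c g * f h + χ g • c h) (hc' : ∀ g h, c' (g * h) = c' g * f h + χ g • c' h)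
    (h0 : ∀ l, c (FreeGroup.of l)⁻¹ = c' (FreeGroup.of l)⁻¹) (w : FreeGroup (Fin k)) : c w = c' w := by
  have h1 : c 1 = 0 := by
    have := hc 1 1
    rw [mul_one, map_one, map_one, mul_one, one_smul] at this
    exact left_eq_add.mp this
  have h1' : c' 1 = 0 := by
    have := hc' 1 1
    rw [mul_one, map_one, map_one, mul_one, one_smul] at this
    exact left_eq_add.mp this
  have hi : ∀ (d : FreeGroup (Fin k) → A), (∀ g h, d (g * h) = d g * f h + χ g • d h) → d 1 = 0 →
      ∀ g, d g = - (χ g • (d g⁻¹ * f g)) := by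
    intro d hd hd1 g
    have h2 := hd g⁻¹ g
    rw [inv_mul_cancel, hd1] at h2
    have h3 : χ g • (d g⁻¹ * f g + χ g⁻¹ • d g) = 0 := by rw [← h2, smul_zero]
    rw [smul_add, smul_smul, ← map_mul, mul_inv_cancel, map_one, one_smul] at h3
    exact eq_neg_of_add_eq_zero_right h3
  induction w using FreeGroup.induction_on with
  | C1 => rw [h1, h1']
  | of j => rw [hi c hc h1, hi c' hc' h1', h0 j]
  | inv_of j _ => exact h0 j
  | mul a b ha hb => rw [hc, hc', ha, hb]

theorem rho_of (j l : Fin k) :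
    rho f χ j (FreeGroup.of l) = if l = j then - (χ (FreeGroup.of l) • f (FreeGroup.of l)) else 0 := by
  unfold rho
  rw [coc_of]
  split_ifs
  · rw [neg_mul, smul_mul_assoc, one_mul]
  · rw [zero_mul]

theorem rho_inv_of (j l : Fin k) : rho f χ j (FreeGroup.of l)⁻¹ = if l = j then 1 else 0 := by
  have h1 := rho_mul f χ j (FreeGroup.of l)⁻¹ (FreeGroup.of l)
  rw [inv_mul_cancel, rho_one, rho_of] at h1
  have h2 : rho f χ j (FreeGroup.of l)⁻¹ =
      (rho f χ j (FreeGroup.of l)⁻¹ * f (FreeGroup.of l)) * f (FreeGroup.of l)⁻¹ := by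
    rw [mul_assoc, f_mul_inv, mul_one]
  rw [h2, eq_neg_of_add_eq_zero_left h1.symm]
  split_ifs
  · rw [smul_neg, neg_neg, smul_smul, ← map_mul, inv_mul_cancel, map_one, one_smul, f_mul_inv]
  · rw [smul_zero, neg_zero, zero_mul]

/-- The fundamental formula for the right handed derivatives. -/
theorem rho_fund (w : FreeGroup (Fin k)) :
    f w - algebraMap R A (χ w) =
      ∑ j, (f (FreeGroup.of j)⁻¹ - algebraMap R A (χ (FreeGroup.of j)⁻¹)) * rho f χ j w := by
  refine right_unique f χ (fun w => f w - algebraMap R A (χ w)) (fun w => ∑ j,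
    (f (FreeGroup.of j)⁻¹ - algebraMap R A (χ (FreeGroup.of j)⁻¹)) * rho f χ j w) ?_ ?_ ?_ w
  · intro g h
    simp only [Algebra.smul_def, map_mul, sub_mul, mul_sub]
    abel
  · intro g h
    simp only [rho_mul, mul_add, sum_add_distrib, sum_mul, smul_sum, mul_assoc, mul_smul_comm]
  · intro l
    rw [sum_eq_single l]
    · rw [rho_inv_of, if_pos rfl, mul_one]
    · intro b _ hb
      rw [rho_inv_of, if_neg (fun h => hb h.symm), mul_zero]
    · intro h
      exact absurd (mem_univ l) h

/-- The action on `A × A`. -/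
def tauR (j : Fin k) : FreeGroup (Fin k) →* Module.End R (A × A) where
  toFun g :=
    { toFun := fun x => (χ g • x.1 + rho f χ j g * x.2, f g * x.2)
      map_add' := fun x y => by
        ext
        · show χ g • (x.1 + y.1) + rho f χ j g * (x.2 + y.2) =
            (χ g • x.1 + rho f χ j g * x.2) + (χ g • y.1 + rho f χ j g * y.2)
          rw [smul_add, mul_add]
          abel
        · exact mul_add _ _ _
      map_smul' := fun c x => by
        ext
        · show χ g • (c • x.1) + rho f χ j g * (c • x.2) = c • (χ g • x.1 + rho f χ j g * x.2)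
          rw [smul_add, mul_smul_comm, smul_comm]
        · exact mul_smul_comm _ _ _ }
  map_one' := by
    ext x
    · show χ 1 • x + rho f χ j 1 * 0 = x
      rw [map_one, one_smul, mul_zero, add_zero]
    · show f 1 * 0 = (0 : A)
      rw [mul_zero]
    · show χ 1 • (0 : A) + rho f χ j 1 * x = 0
      rw [smul_zero, rho_one, zero_mul, add_zero]
    · show f 1 * x = x
      rw [map_one, one_mul]
  map_mul' g h := by
    apply LinearMap.ext
    intro x
    refine Prod.ext ?_ ?_
    · show χ (g * h) • x.1 + rho f χ j (g * h) * x.2 =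
        χ g • (χ h • x.1 + rho f χ j h * x.2) + rho f χ j g * (f h * x.2)
      rw [rho_mul, map_mul, smul_add, smul_smul, add_mul, smul_mul_assoc, mul_assoc]
      abel
    · show f (g * h) * x.2 = f g * (f h * x.2)
      rw [map_mul, mul_assoc]

theorem tauR_apply (j : Fin k) (g : FreeGroup (Fin k)) (x : A × A) :
    tauR f χ j g x = (χ g • x.1 + rho f χ j g * x.2, f g * x.2) := rfl

/-- The twisted second Fox derivatives. -/
def sec (j i : Fin k) (w : FreeGroup (Fin k)) : A :=
  (coc (tauR f χ j) (fun l => ((0 : A), if l = i then (1 : A) else 0)) w : A × A).1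

theorem sec_snd (j i : Fin k) (w : FreeGroup (Fin k)) :
    (coc (tauR f χ j) (fun l => ((0 : A), if l = i then (1 : A) else 0)) w : A × A).2 = fox f i w := by
  refine coc_unique f (fun w =>
    (coc (tauR f χ j) (fun l => ((0 : A), if l = i then (1 : A) else 0)) w : A × A).2) (fox f i)
    ?_ ?_ ?_ w
  · intro g h
    show (coc (tauR f χ j) _ (g * h) : A × A).2 = _
    rw [coc_mul]
    rfl
  · intro g h
    rw [fox_mul, smul_eq_mul]
  · intro l
    show (coc (tauR f χ j) _ (FreeGroup.of l) : A × A).2 = _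
    rw [coc_of, fox_of]

theorem sec_mul (j i : Fin k) (g h : FreeGroup (Fin k)) :
    sec f χ j i (g * h) = sec f χ j i g + (χ g • sec f χ j i h + rho f χ j g * fox f i h) := by
  rw [← sec_snd f χ j i h]
  unfold sec
  rw [coc_mul]
  rfl

theorem sec_of (j i l : Fin k) : sec f χ j i (FreeGroup.of l) = 0 := by
  unfold sec
  rw [coc_of]

/-- Uniqueness for twisted crossed homomorphisms with values in an `R`-module. -/
theorem chi_unique {M : Type*} [AddCommGroup M] [Module R M] (c c' : FreeGroup (Fin k) → M)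
    (e : FreeGroup (Fin k) → FreeGroup (Fin k) → M)
    (hc : ∀ g h, c (g * h) = c g + (χ g • c h + e g h)) (hc' : ∀ g h, c' (g * h) = c' g + (χ g • c' h + e g h))
    (h0 : ∀ l, c (FreeGroup.of l) = c' (FreeGroup.of l)) (w : FreeGroup (Fin k)) : c w = c' w := by
  rw [← sub_eq_zero]
  refine coc_unique χ (fun w => c w - c' w) (fun _ => (0 : M)) ?_ ?_ ?_ w
  · intro g h
    show c (g * h) - c' (g * h) = c g - c' g + χ g • (c h - c' h)
    rw [hc, hc', smul_sub]
    abel
  · intro g h
    rw [smul_zero, add_zero]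
  · intro l
    exact sub_eq_zero.2 (h0 l)

theorem sec_fund (i : Fin k) (w : FreeGroup (Fin k)) :
    fox f i w - algebraMap R A (fox χ i w) =
      ∑ j, (f (FreeGroup.of j)⁻¹ - algebraMap R A (χ (FreeGroup.of j)⁻¹)) * sec f χ j i w := by
  refine chi_unique χ (fun w => fox f i w - algebraMap R A (fox χ i w)) (fun w => ∑ j,
    (f (FreeGroup.of j)⁻¹ - algebraMap R A (χ (FreeGroup.of j)⁻¹)) * sec f χ j i w)
    (fun g h => (f g - algebraMap R A (χ g)) * fox f i h) ?_ ?_ ?_ w
  · intro g h
    simp only [fox_mul, Algebra.smul_def, map_mul, map_add, sub_mul, mul_sub]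
    abel
  · intro g h
    rw [rho_fund f χ g]
    simp only [sec_mul, mul_add, sum_add_distrib, sum_mul, smul_sum, mul_assoc, mul_smul_comm]
  · intro l
    simp only [fox_of, sec_of, mul_zero, sum_const_zero]
    split_ifs <;> simp

theorem sec_right (j : Fin k) (w : FreeGroup (Fin k)) :
    ∑ i, sec f χ j i w * (f (FreeGroup.of i) - 1) =
      rho f χ j w - ∑ i, fox χ i w • rho f χ j (FreeGroup.of i) := by
  refine chi_unique χ (fun w => ∑ i, sec f χ j i w * (f (FreeGroup.of i) - 1))
    (fun w => rho f χ j w - ∑ i, fox χ i w • rho f χ j (FreeGroup.of i))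
    (fun g h => rho f χ j g * (f h - 1)) ?_ ?_ ?_ w
  · intro g h
    rw [fundamental f h]
    simp only [sec_mul, add_mul, sum_add_distrib, mul_sum, smul_sum, mul_assoc, smul_mul_assoc]
  · intro g h
    simp only [rho_mul, fox_mul, add_smul, sum_add_distrib, smul_sub, smul_sum, mul_sub, mul_one, mul_smul]
    abel
  · intro l
    simp only [sec_of, zero_mul, sum_const_zero, fox_of, ite_smul, one_smul, zero_smul, sum_ite_eq, mem_univ,
      if_true, sub_self]

/-- `X* J = D`. -/
theorem XJ_of_dual {r : FreeGroup (Fin k)} (h : Dual r χ) (i : Fin k) :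
    ∑ j, (f (FreeGroup.of j)⁻¹ - algebraMap R A (χ (FreeGroup.of j)⁻¹)) * sec f χ j i r = fox f i r := by
  rw [← sec_fund, h i, map_zero, sub_zero]

/-- `J X = rho`. -/
theorem JX_of_dual {r : FreeGroup (Fin k)} (h : Dual r χ) (j : Fin k) :
    ∑ i, sec f χ j i r * (f (FreeGroup.of i) - 1) = rho f χ j r := by
  rw [sec_right]
  simp only [h _, zero_smul, sum_const_zero, sub_zero]

end

section

variable {k : ℕ} {R A R' A' : Type*} [CommRing R] [Ring A] [Algebra R A] [CommRing R'] [Ring A'] [Algebra R' A']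

theorem map_rho (ψ : A →+* A') (φ : R →+* R') (hc : ∀ x, ψ (algebraMap R A x) = algebraMap R' A' (φ x))
    (f : FreeGroup (Fin k) →* A) (χ : FreeGroup (Fin k) →* R) (j : Fin k) (w : FreeGroup (Fin k)) :
    ψ (rho f χ j w) = rho ((ψ : A →* A').comp f) ((φ : R →* R').comp χ) j w := by
  refine right_unique ((ψ : A →* A').comp f) ((φ : R →* R').comp χ) (fun w => ψ (rho f χ j w))
    (rho ((ψ : A →* A').comp f) ((φ : R →* R').comp χ) j) ?_ (rho_mul _ _ _) ?_ w
  · intro g h
    show ψ (rho f χ j (g * h)) = ψ (rho f χ j g) * ψ (f h) + φ (χ g) • ψ (rho f χ j h)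
    rw [rho_mul, map_add, map_mul, Algebra.smul_def, map_mul, hc, Algebra.smul_def]
  · intro l
    rw [rho_inv_of, rho_inv_of]
    split_ifs <;> simp

theorem map_sec (ψ : A →+* A') (φ : R →+* R') (hc : ∀ x, ψ (algebraMap R A x) = algebraMap R' A' (φ x))
    (f : FreeGroup (Fin k) →* A) (χ : FreeGroup (Fin k) →* R) (j i : Fin k) (w : FreeGroup (Fin k)) :
    ψ (sec f χ j i w) = sec ((ψ : A →* A').comp f) ((φ : R →* R').comp χ) j i w := by
  refine chi_unique ((φ : R →* R').comp χ) (fun w => ψ (sec f χ j i w))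
    (sec ((ψ : A →* A').comp f) ((φ : R →* R').comp χ) j i)
    (fun g h => rho ((ψ : A →* A').comp f) ((φ : R →* R').comp χ) j g * fox ((ψ : A →* A').comp f) i h)
    ?_ (sec_mul _ _ _ _) ?_ w
  · intro g h
    show ψ (sec f χ j i (g * h)) = ψ (sec f χ j i g) + (φ (χ g) • ψ (sec f χ j i h) + _)
    rw [sec_mul, map_add, map_add, Algebra.smul_def, map_mul, hc, ← Algebra.smul_def, map_mul,
      map_rho ψ φ hc, map_fox]
  · intro l
    rw [sec_of, sec_of, map_zero]

end

end Pool.Agent.MelS
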