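import Pool.Agent.MelD.TypeG
import Pool.Agent.MelS.Dich
import Pool.Agent.MelS.RFT
import Pool.Agent.MelS.PDT

/-!
# The dichotomy, with Poincaré duality

The dichotomy of `MelD/TypeG.lean` with one more property of the second type: if the group is virtually RFRS, then
the rational character has the values one and minus one only and the group is a Poincaré duality group of dimension
two over the integers.
-/

open Finset Module

namespace Pool.Agent.MelS

open Pool.Agent.MelG (HasRel)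
open Pool.Agent.MelD

section

variable {k : ℕ} (hk : 2 ≤ k) (r : FreeGroup (Fin k)) (hr1 : r ≠ 1) (m : ℕ)
    (H : ∀ N : Subgroup (OR r), N.Normal → N.FiniteIndex → HasRel m N)

include hk hr1 H

/-- The types with a rational character. -/
theorem type_BS (χ₀ : FreeGroup (Fin k) →* ℚ) (h₀ : Dual r χ₀) :
    ∃ χ : OR r →* ℚ, (∀ w, χ (PresentedGroup.mk {r} w) = χ₀ w) ∧
      (∀ (N : Subgroup (OR r)), N.Normal → N.FiniteIndex → ∀ q : ℕ, 0 < q →
      ∃ c : ℕ, c ∣ q ∧ Pool.Agent.MelD.Good χ N c ∧ (∀ c' : ℕ, c' ∣ q → Pool.Agent.MelD.Good χ N c' → c' ∣ c) ∧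
        Nat.card (N →* Multiplicative (ZMod q)) = q ^ ((k - 2) * N.index + 1) * c) ∧
      ∀ (p : ℕ), p.Prime → ∀ (P : Type) [Group P] [Finite P] (A : Subgroup P) [A.Normal],
        (∀ a ∈ A, ∀ b ∈ A, a * b = b * a) → (∀ a ∈ A, a ^ p = 1) → ∀ φ₀ : OR r →* P ⧸ A,
        (∀ l : A →* Multiplicative (ZMod p), (∀ (g : OR r) (y : P) (a b : A),
          (QuotientGroup.mk y : P ⧸ A) = φ₀ g → b.1 = y * a.1 * y⁻¹ →
            ((χ g).den : ZMod p) * Multiplicative.toAdd (l b) =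
              ((χ g).num : ZMod p) * Multiplicative.toAdd (l a)) → l = 1) →
        ∃ φ : OR r →* P, ∀ s, (QuotientGroup.mk (φ s) : P ⧸ A) = φ₀ s := by
  obtain ⟨χ, hχ⟩ := exists_desc r χ₀ h₀.rel
  have hχ' : ∀ g, χ (PresentedGroup.mk {r} g) = χ₀ g := fun g => DFunLike.congr_fun hχ g
  refine ⟨χ, hχ', ?_, ?_⟩
  swap
  · intro p hp P _ _ A _ hcomm hexp φ₀ hA
    refine lift_B hk r hr1 m H χ₀ h₀ p hp P A hcomm hexp φ₀ fun l hl => hA l fun g y a b hy hb => ?_
    obtain ⟨w, rfl⟩ := PresentedGroup.mk_surjective _ g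
    rw [hχ']
    exact hl w y a b hy hb
  intro N hN hf q hq
  obtain ⟨c, h1, ⟨ψ, hψ⟩, h3, h4⟩ := card_hom_N hk r hr1 m H N q hq
  have hc0 : 0 < c := Nat.pos_of_dvd_of_pos h1 hq
  -- prime powers that divide `c`
  have hpp : ∀ p j : ℕ, p.Prime → 1 ≤ j → p ^ j ∣ c →
      (∀ g, ¬ p ∣ (χ₀ g).den) ∧ ∀ g, prN r N g = 1 → ((p ^ j : ℕ) : ℤ) ∣ (χ₀ g).num - (χ₀ g).den := by
    intro p j hp hj hpc
    have : Fact p.Prime := ⟨hp⟩
    obtain ⟨g1, g2⟩ := good_of_dual hk r hr1 m H χ₀ h₀ p j hj _ (hψ.map (ZMod.castHom hpc (ZMod (p ^ j))))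
    refine ⟨g1, fun g hg => g2 g ?_⟩
    show ZMod.castHom hpc (ZMod (p ^ j)) (ψ (prN r N g)) = 1
    rw [hg, map_one, map_one]
  refine ⟨c, h1, ⟨?_, ?_⟩, ?_, h4⟩
  · intro g
    obtain ⟨g, rfl⟩ := PresentedGroup.mk_surjective _ g
    rw [hχ']
    refine Nat.Coprime.symm (Nat.coprime_of_dvd fun p hp hpc hpd => ?_)
    exact (hpp p 1 hp le_rfl (by rwa [pow_one])).1 g hpd
  · intro g hg
    obtain ⟨g, rfl⟩ := PresentedGroup.mk_surjective _ g
    rw [hχ']
    have hg' : prN r N g = 1 := (QuotientGroup.eq_one_iff _).2 hg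
    rw [Int.natCast_dvd]
    refine (Nat.dvd_iff_prime_pow_dvd_dvd _ _).2 fun p j hp hpj => ?_
    rcases Nat.eq_zero_or_pos j with hj | hj
    · rw [hj, pow_zero]
      exact one_dvd _
    · exact Int.natCast_dvd.1 ((hpp p j hp hj hpj).2 g hg')
  · intro c' hc' hg
    refine (Nat.dvd_iff_prime_pow_dvd_dvd _ _).2 fun p j hp hpj => ?_
    rcases Nat.eq_zero_or_pos j with hj | hj
    · rw [hj, pow_zero]
      exact one_dvd _
    have : Fact p.Prime := ⟨hp⟩
    refine h3 _ (hpj.trans hc') ?_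
    refine dual_of_good r χ₀ h₀ p j ?_ (prN r N) (prN_surj r N) ?_
    · intro g hpd
      have h5 := hg.1 (PresentedGroup.mk {r} g)
      rw [hχ'] at h5
      have h6 : p ∣ Nat.gcd (χ₀ g).den c' := Nat.dvd_gcd hpd
        ((dvd_pow_self p (Nat.one_le_iff_ne_zero.1 hj)).trans hpj)
      rw [h5] at h6
      exact hp.one_lt.ne' (Nat.dvd_one.1 h6)
    · intro g hg1
      have h5 := hg.2 (PresentedGroup.mk {r} g) ((QuotientGroup.eq_one_iff _).1 hg1)
      rw [hχ'] at h5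
      exact dvd_trans (Int.natCast_dvd_natCast.2 hpj) h5

/-- The dichotomy for one-relator groups. -/
theorem dichotomy_ORS [Infinite (OR r)] :
    ((∀ (N : Subgroup (OR r)), N.Normal → N.FiniteIndex → ∀ q : ℕ, 0 < q →
      Nat.card (N →* Multiplicative (ZMod q)) = q ^ ((k - 2) * N.index + 1)) ∧
    (∀ (P : Type) [Group P] [Finite P] (N : Subgroup P) [N.Normal] (φ₀ : OR r →* P ⧸ N),
      ∃ φ : OR r →* P, ∀ s, (QuotientGroup.mk (φ s) : P ⧸ N) = φ₀ s) ∧
    (∀ (S : Type) [Group S] [Finite S] [Group.IsSolvable S],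
      Nat.card (OR r →* S) = Nat.card S ^ (k - 1))) ∨
    ∃ χ : OR r →* ℚ, (∀ (N : Subgroup (OR r)), N.Normal → N.FiniteIndex → ∀ q : ℕ, 0 < q →
      ∃ c : ℕ, c ∣ q ∧ Pool.Agent.MelD.Good χ N c ∧ (∀ c' : ℕ, c' ∣ q → Pool.Agent.MelD.Good χ N c' → c' ∣ c) ∧
        Nat.card (N →* Multiplicative (ZMod q)) = q ^ ((k - 2) * N.index + 1) * c) ∧
      (∀ (p : ℕ), p.Prime → ∀ (P : Type) [Group P] [Finite P] (A : Subgroup P) [A.Normal],
        (∀ a ∈ A, ∀ b ∈ A, a * b = b * a) → (∀ a ∈ A, a ^ p = 1) → ∀ φ₀ : OR r →* P ⧸ A,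
        (∀ l : A →* Multiplicative (ZMod p), (∀ (g : OR r) (y : P) (a b : A),
          (QuotientGroup.mk y : P ⧸ A) = φ₀ g → b.1 = y * a.1 * y⁻¹ →
            ((χ g).den : ZMod p) * Multiplicative.toAdd (l b) =
              ((χ g).num : ZMod p) * Multiplicative.toAdd (l a)) → l = 1) →
        ∃ φ : OR r →* P, ∀ s, (QuotientGroup.mk (φ s) : P ⧸ A) = φ₀ s) ∧
      ((∃ N : Subgroup (OR r), N.Normal ∧ N.FiniteIndex ∧ IsRFRS N) →
        (∀ g, χ g = 1 ∨ χ g = -1) ∧ IsPD2 ℤ (OR r)) := by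
  by_cases hV : ∀ (p : ℕ) [Fact p.Prime] (χ : FreeGroup (Fin k) →* ZMod p), ¬ Dual r χ
  · exact Or.inl (type_A hk r hr1 m H hV)
  · right
    push Not at hV
    obtain ⟨p, hp, χ, hχ⟩ := hV
    obtain ⟨χp, h1, -⟩ := padic_dual hk r hr1 m H p χ hχ
    obtain ⟨χ₀, h2⟩ := exists_rat hk r hr1 m H _ (h1.map PadicInt.Coe.ringHom)
    obtain ⟨χ', h3, h4, h5⟩ := type_BS hk r hr1 m H χ₀ h2
    refine ⟨χ', h4, h5, ?_⟩
    rintro ⟨N, hN, hNf, hR⟩
    obtain ⟨h6, h7⟩ := pd2_all hk r hr1 m H N hN hNf hR χ₀ h2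
    refine ⟨fun g => ?_, h7⟩
    obtain ⟨w, rfl⟩ := PresentedGroup.mk_surjective _ g
    rw [h3]
    exact h6 w

end

theorem dichotomyS (m : ℕ) (G : Type) [Group G] [Infinite G] (h1 : HasRel 1 G)
    (H : ∀ N : Subgroup G, N.Normal → N.FiniteIndex → HasRel m N) :
    ∃ e : ℕ,
      ((∀ N : Subgroup G, N.Normal → N.FiniteIndex → ∀ q : ℕ, 0 < q →
          Nat.card (N →* Multiplicative (ZMod q)) = q ^ (e * N.index + 1)) ∧
        (∀ (P : Type) [Group P] [Finite P] (M : Subgroup P) [M.Normal] (φ : G →* P ⧸ M),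
          ∃ ψ : G →* P, ∀ g, (QuotientGroup.mk (ψ g) : P ⧸ M) = φ g) ∧
        (∀ (S : Type) [Group S] [Finite S] [Group.IsSolvable S],
          Nat.card (G →* S) = Nat.card S ^ (e + 1))) ∨
      ∃ χ : G →* ℚ, (∀ N : Subgroup G, N.Normal → N.FiniteIndex → ∀ q : ℕ, 0 < q →
        ∃ c : ℕ, c ∣ q ∧ Pool.Agent.MelD.Good χ N c ∧ (∀ c' : ℕ, c' ∣ q → Pool.Agent.MelD.Good χ N c' → c' ∣ c) ∧
          Nat.card (N →* Multiplicative (ZMod q)) = q ^ (e * N.index + 1) * c) ∧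
        (∀ (p : ℕ), p.Prime → ∀ (P : Type) [Group P] [Finite P] (A : Subgroup P) [A.Normal],
          (∀ a ∈ A, ∀ b ∈ A, a * b = b * a) → (∀ a ∈ A, a ^ p = 1) → ∀ φ : G →* P ⧸ A,
          (∀ l : A →* Multiplicative (ZMod p), (∀ (g : G) (y : P) (a b : A),
            (QuotientGroup.mk y : P ⧸ A) = φ g → b.1 = y * a.1 * y⁻¹ →
              ((χ g).den : ZMod p) * Multiplicative.toAdd (l b) =
                ((χ g).num : ZMod p) * Multiplicative.toAdd (l a)) → l = 1) →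
          ∃ ψ : G →* P, ∀ g, (QuotientGroup.mk (ψ g) : P ⧸ A) = φ g) ∧
        ((∃ N : Subgroup G, N.Normal ∧ N.FiniteIndex ∧ IsRFRS N) →
          (∀ g, χ g = 1 ∨ χ g = -1) ∧ IsPD2 ℤ G) := by
  obtain ⟨k, r, hk, hr1, ⟨e⟩⟩ := exists_OR_inf h1
  have H' := closed_transport r e m H
  -- transport of subgroups
  have htr : ∀ N : Subgroup G, N.Normal → N.FiniteIndex →
      (N.map e.toMonoidHom).Normal ∧ (N.map e.toMonoidHom).FiniteIndex ∧
      (N.map e.toMonoidHom).index = N.index ∧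
      ∀ A : Type, ∀ _ : Group A, Nat.card (N.map e.toMonoidHom →* A) = Nat.card (N →* A) := by
    intro N hN hf
    have h2 : (N.map e.toMonoidHom).index = N.index :=
      Subgroup.index_map_of_bijective e.bijective N
    refine ⟨hN.map _ e.surjective, ⟨by rw [h2]; exact hf.index_ne_zero⟩, h2, ?_⟩
    intro A _
    let e' : N ≃* N.map e.toMonoidHom := Subgroup.equivMapOfInjective N e.toMonoidHom e.injective
    exact Nat.card_congr
      { toFun := fun f => f.comp e'.toMonoidHom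
        invFun := fun f => f.comp e'.symm.toMonoidHom
        left_inv := fun f => MonoidHom.ext fun x => congrArg f (e'.apply_symm_apply x)
        right_inv := fun f => MonoidHom.ext fun x => congrArg f (e'.symm_apply_apply x) }
  refine ⟨k - 2, ?_⟩
  have hInf : Infinite (OR r) := Infinite.of_injective e e.injective
  rcases dichotomy_ORS hk r hr1 m H' with ⟨a1, a2, a3⟩ | ⟨χ, hχ, hχ2, hχ3⟩
  · left
    refine ⟨?_, ?_, ?_⟩
    · intro N hN hf q hq
      obtain ⟨b1, b2, b3, b4⟩ := htr N hN hf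
      rw [← b4, ← b3]
      exact a1 _ b1 b2 q hq
    · intro P _ _ M _ φ
      obtain ⟨ψ, hψ⟩ := a2 P M (φ.comp e.symm.toMonoidHom)
      refine ⟨ψ.comp e.toMonoidHom, fun g => ?_⟩
      have h2 := hψ (e g)
      show (QuotientGroup.mk (ψ (e g)) : P ⧸ M) = φ g
      rw [h2]
      show φ (e.symm (e g)) = φ g
      rw [e.symm_apply_apply]
    · intro S _ _ _
      have h2 : Nat.card (OR r →* S) = Nat.card (G →* S) := Nat.card_congr
        { toFun := fun f => f.comp e.toMonoidHom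
          invFun := fun f => f.comp e.symm.toMonoidHom
          left_inv := fun f => MonoidHom.ext fun x => congrArg f (e.apply_symm_apply x)
          right_inv := fun f => MonoidHom.ext fun x => congrArg f (e.symm_apply_apply x) }
      rw [← h2, a3 S]
      congr 1
      omega
  · right
    refine ⟨χ.comp e.toMonoidHom, ?_, ?_, ?_⟩
    rotate_left
    · intro p hp P _ _ A _ hcomm hexp φ hA
      obtain ⟨ψ, hψ⟩ := hχ2 p hp P A hcomm hexp (φ.comp e.symm.toMonoidHom) (fun l hl =>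
        hA l fun g y a b hy hb => by
          refine hl (e g) y a b ?_ hb
          rw [hy]
          show φ g = φ (e.symm (e g))
          rw [e.symm_apply_apply])
      refine ⟨ψ.comp e.toMonoidHom, fun g => ?_⟩
      have h2 := hψ (e g)
      show (QuotientGroup.mk (ψ (e g)) : P ⧸ A) = φ g
      rw [h2]
      show φ (e.symm (e g)) = φ g
      rw [e.symm_apply_apply]
    · intro hN
      obtain ⟨h2, h3⟩ := hχ3 (vrfrs_of_equiv e hN)
      exact ⟨fun g => h2 (e g), IsPD2.of_equiv e.symm h3⟩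
    intro N hN hf q hq
    obtain ⟨b1, b2, b3, b4⟩ := htr N hN hf
    have hgood : ∀ c, Pool.Agent.MelD.Good χ (N.map e.toMonoidHom) c ↔ Pool.Agent.MelD.Good (χ.comp e.toMonoidHom) N c := by
      intro c
      constructor
      · rintro ⟨g1, g2⟩
        exact ⟨fun g => g1 (e g), fun g hg => g2 (e g) ⟨g, hg, rfl⟩⟩
      · rintro ⟨g1, g2⟩
        refine ⟨fun g => ?_, ?_⟩
        · have h2 := g1 (e.symm g)
          have h3 : (χ.comp e.toMonoidHom) (e.symm g) = χ g := congrArg χ (e.apply_symm_apply g)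
          rwa [h3] at h2
        · rintro _ ⟨g, hg, rfl⟩
          exact g2 g hg
    obtain ⟨c, c1, c2, c3, c4⟩ := hχ _ b1 b2 q hq
    refine ⟨c, c1, (hgood c).1 c2, fun c' h2 h3 => c3 c' h2 ((hgood c').2 h3), ?_⟩
    rw [← b4, ← b3]
    exact c4

end Pool.Agent.MelS
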